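import Mathlib

/-!
Common definitions for MP_6c077c_gt (smooth Schoenflies): compactly supported
diffeomorphisms of a Euclidean space and the relation they generate on subsets.
-/

set_option autoImplicit false

namespace Pool.Schoen

open scoped ContDiff

variable {V : Type*} [NormedAddCommGroup V] [NormedSpace ℝ V]

/-- `Carries A B`: a smooth diffeomorphism of `V` which is the identity outside a bounded set
maps `A` onto `B`. -/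
def Carries (A B : Set V) : Prop :=
  ∃ φ ψ : V → V, ContDiff ℝ ∞ φ ∧ ContDiff ℝ ∞ ψ ∧ (∀ x, ψ (φ x) = x) ∧ (∀ x, φ (ψ x) = x) ∧
    (∃ R : ℝ, ∀ x, R ≤ ‖x‖ → φ x = x) ∧ φ '' A = B

/-- `CarriesMap S f g`: a smooth diffeomorphism of `V` which is the identity outside a bounded
set takes `f` to `g` on `S`. -/
def CarriesMap {E : Type*} (S : Set E) (f g : E → V) : Prop :=
  ∃ φ ψ : V → V, ContDiff ℝ ∞ φ ∧ ContDiff ℝ ∞ ψ ∧ (∀ x, ψ (φ x) = x) ∧ (∀ x, φ (ψ x) = x) ∧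
    (∃ R : ℝ, ∀ x, R ≤ ‖x‖ → φ x = x) ∧ ∀ x ∈ S, φ (f x) = g x

theorem Carries.refl (A : Set V) : Carries A A :=
  ⟨id, id, contDiff_id, contDiff_id, fun _ => rfl, fun _ => rfl, ⟨0, fun _ _ => rfl⟩, by simp⟩

omit [NormedSpace ℝ V] in
theorem supp_inv {φ ψ : V → V} (h : ∀ x, ψ (φ x) = x) (R : ℝ)
    (hR : ∀ x, R ≤ ‖x‖ → φ x = x) : ∀ x, R ≤ ‖x‖ → ψ x = x := by
  intro x hx
  have := h x
  rwa [hR x hx] at this

theorem Carries.symm {A B : Set V} (h : Carries A B) : Carries B A := by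
  obtain ⟨φ, ψ, h1, h2, h3, h4, ⟨R, hR⟩, h6⟩ := h
  refine ⟨ψ, φ, h2, h1, h4, h3, ⟨R, supp_inv h3 R hR⟩, ?_⟩
  rw [← h6, ← Set.image_comp]
  have : ψ ∘ φ = id := funext h3
  rw [this, Set.image_id]

omit [NormedSpace ℝ V] in
theorem supp_comp {φ φ' : V → V} {R R' : ℝ} (hR : ∀ x, R ≤ ‖x‖ → φ x = x)
    (hR' : ∀ x, R' ≤ ‖x‖ → φ' x = x) : ∀ x, max R R' ≤ ‖x‖ → φ' (φ x) = x := by
  intro x hx
  rw [hR x (le_trans (le_max_left _ _) hx), hR' x (le_trans (le_max_right _ _) hx)]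

theorem Carries.trans {A B C : Set V} (h : Carries A B) (h' : Carries B C) : Carries A C := by
  obtain ⟨φ, ψ, h1, h2, h3, h4, ⟨R, hR⟩, h6⟩ := h
  obtain ⟨φ', ψ', k1, k2, k3, k4, ⟨R', hR'⟩, k6⟩ := h'
  refine ⟨φ' ∘ φ, ψ ∘ ψ', k1.comp h1, h2.comp k2, ?_, ?_, ⟨max R R', supp_comp (φ := φ) (φ' := φ') hR hR'⟩, ?_⟩
  · intro x; simp [k3, h3]
  · intro x; simp [k4, h4]
  · rw [Set.image_comp, h6, k6]

theorem CarriesMap.refl {E : Type*} (S : Set E) (f : E → V) : CarriesMap S f f :=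
  ⟨id, id, contDiff_id, contDiff_id, fun _ => rfl, fun _ => rfl, ⟨0, fun _ _ => rfl⟩,
    fun _ _ => rfl⟩

theorem CarriesMap.symm {E : Type*} {S : Set E} {f g : E → V} (h : CarriesMap S f g) :
    CarriesMap S g f := by
  obtain ⟨φ, ψ, h1, h2, h3, h4, ⟨R, hR⟩, h6⟩ := h
  refine ⟨ψ, φ, h2, h1, h4, h3, ⟨R, supp_inv h3 R hR⟩, ?_⟩
  intro x hx
  rw [← h6 x hx, h3]

theorem CarriesMap.trans {E : Type*} {S : Set E} {f g k : E → V} (h : CarriesMap S f g)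
    (h' : CarriesMap S g k) : CarriesMap S f k := by
  obtain ⟨φ, ψ, h1, h2, h3, h4, ⟨R, hR⟩, h6⟩ := h
  obtain ⟨φ', ψ', k1, k2, k3, k4, ⟨R', hR'⟩, k6⟩ := h'
  refine ⟨φ' ∘ φ, ψ ∘ ψ', k1.comp h1, h2.comp k2, ?_, ?_, ⟨max R R', supp_comp (φ := φ) (φ' := φ') hR hR'⟩, ?_⟩
  · intro x; simp [k3, h3]
  · intro x; simp [k4, h4]
  · intro x hx
    simp [h6 x hx, k6 x hx]

end Pool.Schoen
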