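import Mathlib

/-! Unit normal, shape operator and Gauss-Kronecker curvature of a level set; determinants of
compressions. -/

set_option autoImplicit false

namespace Pool.Schoen

open Module
open scoped RealInnerProductSpace

variable {V : Type*} [NormedAddCommGroup V] [InnerProductSpace ℝ V]

/-- `v ↦ v - ⟪u, v⟫ u`, for a unit vector `u` the orthogonal projection onto the hyperplane
orthogonal to `u`. -/
noncomputable def tproj (u : V) : V →L[ℝ] V :=
  ContinuousLinearMap.id ℝ V - (innerSL ℝ u).smulRight u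

/-- `v ↦ ⟪u, v⟫ u`. -/
noncomputable def nproj (u : V) : V →L[ℝ] V := (innerSL ℝ u).smulRight u

theorem tproj_apply (u v : V) : tproj u v = v - ⟪u, v⟫ • u := by
  simp [tproj]

theorem nproj_apply (u v : V) : nproj u v = ⟪u, v⟫ • u := by
  simp [nproj]

variable [FiniteDimensional ℝ V]

theorem coe_projT (u : V) (hu : ‖u‖ = 1) (v : V) :
    (((ℝ ∙ u)ᗮ.orthogonalProjectionOnto v : (ℝ ∙ u)ᗮ) : V) = v - ⟪u, v⟫ • u := by
  have h1 := Submodule.starProjection_orthogonal_val (K := ℝ ∙ u) v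
  rw [Submodule.starProjection_unit_singleton ℝ hu] at h1
  exact h1

/-- The determinant of the compression of `L` to the hyperplane orthogonal to `u`. -/
theorem det_compress (u : V) (hu : ‖u‖ = 1) (L : V →L[ℝ] V) :
    ((ℝ ∙ u)ᗮ.orthogonalProjectionOnto ∘L L ∘L (ℝ ∙ u)ᗮ.subtypeL).det =
      (tproj u ∘L L ∘L tproj u + nproj u).det := by
  set e : V →L[ℝ] V := tproj u ∘L L ∘L tproj u + nproj u with he
  have huu : ⟪u, u⟫ = 1 := by rw [real_inner_self_eq_norm_sq, hu, one_pow]
  have hev : ∀ v, ⟪u, e v⟫ = ⟪u, v⟫ := by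
    intro v
    simp only [he, add_apply, ContinuousLinearMap.comp_apply, tproj_apply,
      nproj_apply, inner_add_right, inner_sub_right, inner_smul_right, huu]
    ring
  have hmem : ∀ v : V, v ∈ (ℝ ∙ u)ᗮ ↔ ⟪u, v⟫ = 0 := fun v =>
    Submodule.mem_orthogonal_singleton_iff_inner_right
  have hW : (ℝ ∙ u)ᗮ ≤ (ℝ ∙ u)ᗮ.comap (e : V →ₗ[ℝ] V) := by
    intro w hw
    rw [Submodule.mem_comap, hmem]
    rw [hmem] at hw
    show ⟪u, e w⟫ = 0
    rw [hev, hw]
  have h1 := LinearMap.det_eq_det_mul_det (ℝ ∙ u)ᗮ (e : V →ₗ[ℝ] V) hW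
  have h2 : ((ℝ ∙ u)ᗮ.mapQ (ℝ ∙ u)ᗮ (e : V →ₗ[ℝ] V) hW) = LinearMap.id := by
    refine Submodule.linearMap_qext _ ?_
    ext v
    simp only [LinearMap.comp_apply, Submodule.mkQ_apply, Submodule.mapQ_apply, LinearMap.id_apply]
    rw [Submodule.Quotient.eq, hmem]
    show ⟪u, e v - v⟫ = 0
    rw [inner_sub_right, hev, sub_self]
  rw [h2, LinearMap.det_id, mul_one] at h1
  rw [ContinuousLinearMap.det, ContinuousLinearMap.det, h1]
  congr 1
  ext w
  have hw : ⟪u, (w : V)⟫ = 0 := (hmem w).1 w.2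
  simp only [LinearMap.coe_restrict_apply]
  show (((ℝ ∙ u)ᗮ.orthogonalProjectionOnto (L (w : V)) : (ℝ ∙ u)ᗮ) : V) = e w
  rw [coe_projT u hu]
  simp only [he, add_apply, ContinuousLinearMap.comp_apply, tproj_apply,
      nproj_apply, hw, zero_smul, sub_zero, add_zero]

/-- The unit normal `∇F / |∇F|` of the level sets of `F`. -/
noncomputable def nrm (F : V → ℝ) (x : V) : V := ‖gradient F x‖⁻¹ • gradient F x

/-- The shape operator (second fundamental form) at `x` of the level set of `F` through `x`, as an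
operator of `V` which is zero on the normal line: `v ↦ P (D²F(x) (P v)) / |∇F(x)|`, `P` the
orthogonal projection onto the tangent space. -/
noncomputable def shape (F : V → ℝ) (x : V) : V →L[ℝ] V :=
  ‖gradient F x‖⁻¹ • (tproj (nrm F x) ∘L fderiv ℝ (gradient F) x ∘L tproj (nrm F x))

/-- The Gauss-Kronecker curvature: the determinant of the shape operator on the tangent space. -/
noncomputable def gaussK (F : V → ℝ) (x : V) : ℝ := (shape F x + nproj (nrm F x)).det

theorem norm_nrm (F : V → ℝ) (x : V) (hx : gradient F x ≠ 0) : ‖nrm F x‖ = 1 := by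
  rw [nrm, norm_smul, norm_inv, norm_norm, inv_mul_cancel₀ (norm_ne_zero_iff.2 hx)]

end Pool.Schoen
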