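import Mathlib

/-! Moving the levels of a function along its gradient. -/

set_option autoImplicit false

namespace Pool.Schoen

open scoped ContDiff Topology

/-- A real linear functional of one real variable with non-zero value at `1` is invertible. -/
private theorem implicit_inv (L : ℝ →L[ℝ] ℝ) (h : L 1 ≠ 0) : L.IsInvertible := by
  refine ⟨ContinuousLinearEquiv.unitsEquivAut ℝ (Units.mk0 (L 1) h), ?_⟩
  ext
  simp

private theorem implicit_general {W : Type*} [NormedAddCommGroup W] [NormedSpace ℝ W]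
    [FiniteDimensional ℝ W] (P : W × ℝ → ℝ) (hP : ContDiff ℝ ∞ P) (K : Set W) (hK : IsCompact K)
    (h0 : ∀ w ∈ K, P (w, 0) = 0) (hpos : ∀ w ∈ K, 0 < fderiv ℝ P (w, 0) (0, 1)) :
    ∃ (δ : ℝ) (O : Set W) (h : W → ℝ), 0 < δ ∧ IsOpen O ∧ K ⊆ O ∧ ContDiffOn ℝ ∞ h O ∧
      (∀ w ∈ O, P (w, h w) = 0) ∧ ∀ w ∈ O, ∀ t ∈ Set.Ioo (-δ) δ, P (w, t) = 0 → t = h w := by
  haveI : CompleteSpace W := FiniteDimensional.complete ℝ W
  have hne : (∞ : WithTop ℕ∞) ≠ 0 := by simp
  have hD : Continuous fun p : W × ℝ => fderiv ℝ P p (0, 1) :=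
    (hP.continuous_fderiv (by simp)).clm_apply continuous_const
  have hS : IsOpen {p : W × ℝ | 0 < fderiv ℝ P p (0, 1)} := isOpen_lt continuous_const hD
  obtain ⟨A, B, hA, hB, hKA, h0B, hAB⟩ := generalized_tube_lemma hK (isCompact_singleton (x := (0:ℝ)))
    hS (by
      rintro ⟨w, t⟩ ⟨hw, ht⟩
      simp only [Set.mem_singleton_iff] at ht
      subst ht
      exact hpos w hw)
  obtain ⟨δ₀, hδ₀, hball⟩ := Metric.isOpen_iff.1 hB 0 (h0B rfl)
  obtain ⟨δ, hδ, hδlt⟩ := exists_between hδ₀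
  have hIcc : ∀ t ∈ Set.Icc (-δ) δ, t ∈ B := by
    intro t ht
    apply hball
    rw [Metric.mem_ball, dist_zero_right, Real.norm_eq_abs]
    exact lt_of_le_of_lt (abs_le.2 ht) hδlt
  have hder : ∀ w t, HasDerivAt (fun u : ℝ => P (w, u)) (fderiv ℝ P (w, t) (0, 1)) t := by
    intro w t
    have h1 : HasFDerivAt P (fderiv ℝ P (w, t)) (w, t) :=
      ((hP.differentiable (by simp)) (w, t)).hasFDerivAt
    have h2 : HasDerivAt (fun u : ℝ => (w, u)) ((0 : W), (1 : ℝ)) t :=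
      (hasDerivAt_const t w).prodMk (hasDerivAt_id t)
    exact h1.comp_hasDerivAt t h2
  have hmono : ∀ w ∈ A, StrictMonoOn (fun u : ℝ => P (w, u)) (Set.Icc (-δ) δ) := by
    intro w hw
    refine strictMonoOn_of_deriv_pos (convex_Icc _ _) ?_ ?_
    · exact (hP.continuous.comp (Continuous.prodMk_right w)).continuousOn
    · intro t ht
      rw [interior_Icc] at ht
      rw [(hder w t).deriv]
      exact hAB ⟨hw, hIcc t (Set.Ioo_subset_Icc_self ht)⟩
  have hmem0 : (0 : ℝ) ∈ Set.Icc (-δ) δ := ⟨by linarith, hδ.le⟩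
  have hmeml : -δ ∈ Set.Icc (-δ) δ := ⟨le_rfl, by linarith⟩
  have hmemr : δ ∈ Set.Icc (-δ) δ := ⟨by linarith, le_rfl⟩
  set O : Set W := A ∩ ({w | P (w, -δ) < 0} ∩ {w | 0 < P (w, δ)}) with hO
  have hOo : IsOpen O := by
    refine hA.inter ((isOpen_lt ?_ continuous_const).inter (isOpen_lt continuous_const ?_))
    · exact hP.continuous.comp (Continuous.prodMk_left _)
    · exact hP.continuous.comp (Continuous.prodMk_left _)
  have hKO : K ⊆ O := by
    intro w hw
    refine ⟨hKA hw, ?_, ?_⟩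
    · have := hmono w (hKA hw) hmeml hmem0 (by linarith)
      simpa [h0 w hw] using this
    · have := hmono w (hKA hw) hmem0 hmemr hδ
      simpa [h0 w hw] using this
  have hex : ∀ w ∈ O, ∃ t ∈ Set.Ioo (-δ) δ, P (w, t) = 0 := by
    intro w hw
    have hc : ContinuousOn (fun u : ℝ => P (w, u)) (Set.Icc (-δ) δ) :=
      (hP.continuous.comp (Continuous.prodMk_right w)).continuousOn
    have := intermediate_value_Ioo (by linarith : -δ ≤ δ) hc
    obtain ⟨t, ht, hpt⟩ := this ⟨hw.2.1, hw.2.2⟩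
    exact ⟨t, ht, hpt⟩
  have huniq : ∀ w ∈ A, ∀ t ∈ Set.Ioo (-δ) δ, ∀ u ∈ Set.Ioo (-δ) δ, P (w, t) = 0 →
      P (w, u) = 0 → t = u := by
    intro w hw t ht u hu h1 h2
    exact (hmono w hw).injOn (Set.Ioo_subset_Icc_self ht) (Set.Ioo_subset_Icc_self hu)
      (by simp only [h1, h2])
  classical
  let h : W → ℝ := fun w => if hw : w ∈ O then (hex w hw).choose else 0
  have hh : ∀ w ∈ O, h w ∈ Set.Ioo (-δ) δ ∧ P (w, h w) = 0 := by
    intro w hw
    have : h w = (hex w hw).choose := by simp only [h, hw, dif_pos]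
    rw [this]
    exact (hex w hw).choose_spec
  refine ⟨δ, O, h, hδ, hOo, hKO, ?_, fun w hw => (hh w hw).2, ?_⟩
  · intro w hw
    apply ContDiffAt.contDiffWithinAt
    have cdf : ContDiffAt ℝ ∞ P (w, h w) := hP.contDiffAt
    have if₂ : (fderiv ℝ P (w, h w) ∘L .inr ℝ W ℝ).IsInvertible := by
      apply implicit_inv
      have : (0 : ℝ) < fderiv ℝ P (w, h w) (0, 1) :=
        hAB ⟨hw.1, hIcc _ (Set.Ioo_subset_Icc_self (hh w hw).1)⟩
      simpa using this.ne'
    have hψ : ContDiffAt ℝ ∞ (cdf.implicitFunction hne if₂) w :=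
      cdf.contDiffAt_implicitFunction hne if₂
    have hψ0 : cdf.implicitFunction hne if₂ w = h w := cdf.implicitFunction_apply_self hne if₂
    have hev : ∀ᶠ y in 𝓝 w, P (y, cdf.implicitFunction hne if₂ y) = P (w, h w) :=
      cdf.eventually_apply_implicitFunction hne if₂
    have hI : ∀ᶠ y in 𝓝 w, cdf.implicitFunction hne if₂ y ∈ Set.Ioo (-δ) δ := by
      apply hψ.continuousAt.eventually_mem
      rw [hψ0]
      exact isOpen_Ioo.mem_nhds (hh w hw).1
    have hOe : ∀ᶠ y in 𝓝 w, y ∈ O := hOo.mem_nhds hw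
    refine hψ.congr_of_eventuallyEq ?_
    filter_upwards [hev, hI, hOe] with y h1 h2 h3
    rw [(hh w hw).2] at h1
    exact huniq y h3.1 _ (hh y h3).1 _ h2 (hh y h3).2 h1
  · intro w hw t ht hpt
    exact huniq w hw.1 t ht _ (hh w hw).1 hpt (hh w hw).2

variable {V : Type*} [NormedAddCommGroup V] [InnerProductSpace ℝ V] [FiniteDimensional ℝ V]

/-- Implicit function step: near a compact set `Z` on which `G (s₀, ·)` is regular one can solve
`G (s, x + h (s, x) • ∇G(s₀, ·)(x)) = G (s₀, x)` smoothly in `(s, x)` with `h (s₀, x) = 0`. -/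
theorem implicit_step (G : ℝ × V → ℝ) (hG : ContDiff ℝ ∞ G) (s₀ : ℝ) (Z : Set V)
    (hZ : IsCompact Z) (hreg : ∀ x ∈ Z, fderiv ℝ (fun y => G (s₀, y)) x ≠ 0) :
    ∃ (ε : ℝ) (U : Set V) (h : ℝ × V → ℝ), 0 < ε ∧ IsOpen U ∧ Z ⊆ U ∧
      ContDiffOn ℝ ∞ h (Set.Ioo (s₀ - ε) (s₀ + ε) ×ˢ U) ∧ (∀ x ∈ U, h (s₀, x) = 0) ∧
      ∀ s ∈ Set.Ioo (s₀ - ε) (s₀ + ε), ∀ x ∈ U,
        G (s, x + h (s, x) • gradient (fun y => G (s₀, y)) x) = G (s₀, x) := by
  haveI : CompleteSpace V := FiniteDimensional.complete ℝ V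
  set g : V → ℝ := fun y => G (s₀, y) with hg
  have hgs : ContDiff ℝ ∞ g := hG.comp (contDiff_const.prodMk contDiff_id)
  have hX : ContDiff ℝ ∞ (gradient g) := by
    have h1 : ContDiff ℝ ∞ (fderiv ℝ g) := hgs.fderiv_right (by simp)
    exact (InnerProductSpace.toDual ℝ V).symm.contDiff.comp h1
  set P : (ℝ × V) × ℝ → ℝ := fun p => G (p.1.1, p.1.2 + p.2 • gradient g p.1.2) - g p.1.2 with hPdef
  have hP : ContDiff ℝ ∞ P := by
    refine ContDiff.sub (hG.comp ?_) (hgs.comp (contDiff_snd.comp contDiff_fst))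
    refine (contDiff_fst.comp contDiff_fst).prodMk ?_
    exact (contDiff_snd.comp contDiff_fst).add
      (contDiff_snd.smul (hX.comp (contDiff_snd.comp contDiff_fst)))
  obtain ⟨δ, O, h, hδ, hO, hKO, hs, hsol, huniq⟩ := implicit_general P hP ({s₀} ×ˢ Z)
    (isCompact_singleton.prod hZ) (by
      rintro ⟨s, x⟩ ⟨hs, hx⟩
      simp only [Set.mem_singleton_iff] at hs
      subst hs
      simp [hPdef, hg]) (by
      rintro ⟨s, x⟩ ⟨hs, hx⟩
      simp only [Set.mem_singleton_iff] at hs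
      subst hs
      have h1 : HasFDerivAt P (fderiv ℝ P ((s, x), 0)) ((s, x), 0) :=
        ((hP.differentiable (by simp)) _).hasFDerivAt
      have h2 : HasDerivAt (fun u : ℝ => ((s, x), u)) (((0 : ℝ), (0 : V)), (1 : ℝ)) 0 :=
        (hasDerivAt_const (0 : ℝ) (s, x)).prodMk (hasDerivAt_id (0 : ℝ))
      have h3 : HasDerivAt (fun u : ℝ => P ((s, x), u)) (fderiv ℝ P ((s, x), 0) (0, 1)) 0 :=
        h1.comp_hasDerivAt (0 : ℝ) h2
      have h4 : HasDerivAt (fun u : ℝ => x + u • gradient g x) (gradient g x) 0 := by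
        simpa using ((hasDerivAt_id (0 : ℝ)).smul_const (gradient g x)).const_add x
      have h5 : HasFDerivAt g (fderiv ℝ g x) (x + (0 : ℝ) • gradient g x) := by
        simpa using ((hgs.differentiable (by simp)) x).hasFDerivAt
      have h6 : HasDerivAt (fun u : ℝ => P ((s, x), u)) (fderiv ℝ g x (gradient g x)) 0 := by
        have := (h5.comp_hasDerivAt (0 : ℝ) h4).sub_const (g x)
        exact this
      rw [h3.unique h6]
      have h7 : fderiv ℝ g x (gradient g x) = ‖gradient g x‖ ^ 2 := by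
        rw [← real_inner_self_eq_norm_sq, gradient]
        rw [InnerProductSpace.toDual_symm_apply]
      rw [h7]
      have h8 : gradient g x ≠ 0 := by
        intro h9
        apply hreg x hx
        have : (InnerProductSpace.toDual ℝ V).symm (fderiv ℝ g x) = 0 := h9
        rwa [LinearIsometryEquiv.map_eq_zero_iff] at this
      positivity)
  obtain ⟨A, U, hA, hU, hsA, hZU, hAU⟩ := generalized_tube_lemma
    (isCompact_singleton (x := s₀)) hZ hO hKO
  obtain ⟨ε, hε, hball⟩ := Metric.isOpen_iff.1 hA s₀ (hsA rfl)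
  have hIoo : Set.Ioo (s₀ - ε) (s₀ + ε) ⊆ A := by
    rw [← Real.ball_eq_Ioo]; exact hball
  refine ⟨ε, U, h, hε, hU, hZU, hs.mono ?_, ?_, ?_⟩
  · rintro ⟨s, x⟩ ⟨h1, h2⟩
    exact hAU ⟨hIoo h1, h2⟩
  · intro x hx
    refine (huniq (s₀, x) (hAU ⟨hsA rfl, hx⟩) 0 ⟨by linarith, hδ⟩ ?_).symm
    simp [hPdef, hg]
  · intro s hs' x hx
    have := hsol (s, x) (hAU ⟨hIoo hs', hx⟩)
    simp only [hPdef, sub_eq_zero] at this
    exact this

end Pool.Schoen
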