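import Mathlib

/-! Small perturbations of the identity are diffeomorphisms, and a smooth family which vanishes at
one parameter is small in `C^1` nearby. -/

set_option autoImplicit false

namespace Pool.Schoen

open scoped ContDiff

variable {V : Type*} [NormedAddCommGroup V] [NormedSpace ℝ V] [FiniteDimensional ℝ V]

/-- `x ↦ x + g x` is a diffeomorphism when `g` is smooth with derivative of norm at most `1/2`. -/
theorem small_diffeo (g : V → V) (hg : ContDiff ℝ ∞ g) (hl : ∀ x, ‖fderiv ℝ g x‖ ≤ 1 / 2) :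
    ∃ ψ : V → V, ContDiff ℝ ∞ ψ ∧ (∀ x, ψ (x + g x) = x) ∧ ∀ x, ψ x + g (ψ x) = x := by
  haveI : CompleteSpace V := FiniteDimensional.complete ℝ V
  have hgd : Differentiable ℝ g := hg.differentiable (by simp)
  have hlip : LipschitzWith (1 / 2) g := by
    refine lipschitzWith_of_nnnorm_fderiv_le hgd (fun x => ?_)
    have := hl x
    rw [← NNReal.coe_le_coe]
    simpa using this
  have happ : ApproximatesLinearOn (fun x => x + g x)
      ((ContinuousLinearEquiv.refl ℝ V : V ≃L[ℝ] V) : V →L[ℝ] V) Set.univ (1 / 2) := by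
    intro x _ y _
    have h1 : x + g x - (y + g y) - ((ContinuousLinearEquiv.refl ℝ V : V ≃L[ℝ] V) : V →L[ℝ] V) (x - y)
        = g x - g y := by
      show x + g x - (y + g y) - (x - y) = g x - g y
      abel
    rw [h1, ← dist_eq_norm, ← dist_eq_norm]
    exact hlip.dist_le_mul x y
  have hc : Subsingleton V ∨ (1 / 2 : NNReal) <
      ‖((ContinuousLinearEquiv.refl ℝ V : V ≃L[ℝ] V).symm : V →L[ℝ] V)‖₊⁻¹ := by
    rcases subsingleton_or_nontrivial V with h | h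
    · exact Or.inl h
    · right
      have h1 : ‖((ContinuousLinearEquiv.refl ℝ V : V ≃L[ℝ] V).symm : V →L[ℝ] V)‖₊ = 1 := by
        have : ((ContinuousLinearEquiv.refl ℝ V : V ≃L[ℝ] V).symm : V →L[ℝ] V)
            = ContinuousLinearMap.id ℝ V := rfl
        rw [this]
        exact ContinuousLinearMap.nnnorm_id
      rw [h1, inv_one]
      exact NNReal.half_lt_self one_ne_zero
  let H := ApproximatesLinearOn.toHomeomorph (fun x => x + g x) happ hc
  have hH : ∀ x, H x = x + g x := fun x => rfl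
  have hequiv : ∀ a : V, ∃ A : V ≃L[ℝ] V, (A : V →L[ℝ] V) = ContinuousLinearMap.id ℝ V + fderiv ℝ g a := by
    intro a
    let L : V →L[ℝ] V := ContinuousLinearMap.id ℝ V + fderiv ℝ g a
    have hinj : Function.Injective (L : V →ₗ[ℝ] V) := by
      refine (injective_iff_map_eq_zero (L : V →ₗ[ℝ] V)).2 ?_
      intro v hv
      have h1 : v + fderiv ℝ g a v = 0 := hv
      have h2 : ‖v‖ = ‖fderiv ℝ g a v‖ := by
        rw [← norm_neg (fderiv ℝ g a v), ← eq_neg_of_add_eq_zero_left h1]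
      have h3 : ‖fderiv ℝ g a v‖ ≤ 1 / 2 * ‖v‖ :=
        (ContinuousLinearMap.le_opNorm _ _).trans (mul_le_mul_of_nonneg_right (hl a) (norm_nonneg _))
      have h4 : ‖v‖ ≤ 0 := by linarith [norm_nonneg v]
      exact norm_le_zero_iff.1 h4
    refine ⟨(LinearEquiv.ofInjectiveEndo (L : V →ₗ[ℝ] V) hinj).toContinuousLinearEquiv, ?_⟩
    ext v
    rfl
  choose A hA using hequiv
  refine ⟨H.symm, ?_, fun x => ?_, fun x => ?_⟩
  · refine H.contDiff_symm (f₀' := A) (fun a => ?_) (contDiff_id.add hg)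
    rw [hA]
    exact (hasFDerivAt_id a).add (hgd a).hasFDerivAt
  · rw [← hH]; exact H.symm_apply_apply x
  · rw [← hH]; exact H.apply_symm_apply x

/-- A smooth family `G (s, ·)` with bounded support in `x` which vanishes for `s = s₀` has
derivatives in `x` of norm at most `1/2` for `s` near `s₀`. -/
theorem close_C1 (G : ℝ × V → V) (s₀ δ : ℝ) (hδ : 0 < δ)
    (hG : ContDiffOn ℝ ∞ G (Set.Ioo (s₀ - δ) (s₀ + δ) ×ˢ (Set.univ : Set V)))
    (h0 : ∀ x, G (s₀, x) = 0) (R : ℝ) (hR : ∀ s x, R ≤ ‖x‖ → G (s, x) = 0) :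
    ∃ ε : ℝ, 0 < ε ∧ ε ≤ δ ∧ ∀ s, |s - s₀| < ε → ∀ x, ‖fderiv ℝ (fun y => G (s, y)) x‖ ≤ 1 / 2 := by
  let O : Set (ℝ × V) := Set.Ioo (s₀ - δ) (s₀ + δ) ×ˢ (Set.univ : Set V)
  have hO : IsOpen O := isOpen_Ioo.prod isOpen_univ
  have hFc : ContinuousOn (fun p : ℝ × V => (fderiv ℝ G p).comp (ContinuousLinearMap.inr ℝ ℝ V)) O :=
    (hG.continuousOn_fderiv_of_isOpen hO (by simp)).clm_comp continuousOn_const
  have hF : ∀ p ∈ O, fderiv ℝ (fun y => G (p.1, y)) p.2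
      = (fderiv ℝ G p).comp (ContinuousLinearMap.inr ℝ ℝ V) := by
    intro p hp
    have h1 : HasFDerivAt G (fderiv ℝ G p) p :=
      ((hG.differentiableOn (by simp)).differentiableAt (hO.mem_nhds hp)).hasFDerivAt
    have h2 : HasFDerivAt (fun y : V => (p.1, y)) (ContinuousLinearMap.inr ℝ ℝ V) p.2 :=
      hasFDerivAt_prodMk_right p.1 p.2
    exact (HasFDerivAt.comp p.2 (g := G) h1 h2).fderiv
  let Z : Set (ℝ × V) := O ∩ (fun p : ℝ × V => (fderiv ℝ G p).comp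
    (ContinuousLinearMap.inr ℝ ℝ V)) ⁻¹' (Metric.ball 0 (1 / 2))
  have hZ : IsOpen Z := hFc.isOpen_inter_preimage hO Metric.isOpen_ball
  haveI : ProperSpace V := FiniteDimensional.proper ℝ V
  have hsub : ({s₀} : Set ℝ) ×ˢ Metric.closedBall (0 : V) (R + 1) ⊆ Z := by
    rintro ⟨s, x⟩ ⟨hs, hx⟩
    have hs' : s = s₀ := hs
    subst hs'
    have hO' : (s, x) ∈ O := ⟨⟨by simpa using hδ, by simpa using hδ⟩, Set.mem_univ _⟩
    refine ⟨hO', ?_⟩
    show (fderiv ℝ G (s, x)).comp (ContinuousLinearMap.inr ℝ ℝ V) ∈ Metric.ball 0 (1 / 2)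
    rw [← hF (s, x) hO']
    have : (fun y => G (s, y)) = fun _ => 0 := funext h0
    simp only [this]
    simp
  obtain ⟨u, v, hu, hv, hsu, htv, huv⟩ := generalized_tube_lemma isCompact_singleton
    (isCompact_closedBall (0 : V) (R + 1)) hZ hsub
  obtain ⟨ε, hε, hball⟩ := Metric.isOpen_iff.1 hu s₀ (hsu rfl)
  refine ⟨min ε δ, lt_min hε hδ, min_le_right _ _, fun s hs x => ?_⟩
  by_cases hx : ‖x‖ ≤ R + 1
  · have hsε : s ∈ u := hball (by
      rw [Metric.mem_ball, Real.dist_eq]; exact lt_of_lt_of_le hs (min_le_left _ _))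
    have hmem : (s, x) ∈ Z := huv ⟨hsε, htv (by simpa using hx)⟩
    have h1 := hF (s, x) hmem.1
    have h2 : (fderiv ℝ G (s, x)).comp (ContinuousLinearMap.inr ℝ ℝ V) ∈ Metric.ball 0 (1 / 2) :=
      hmem.2
    rw [← h1, Metric.mem_ball, dist_zero_right] at h2
    exact h2.le
  · push Not at hx
    have h1 : (fun y => G (s, y)) =ᶠ[nhds x] fun _ => (0 : V) := by
      have : IsOpen {y : V | R < ‖y‖} := isOpen_lt continuous_const continuous_norm
      filter_upwards [this.mem_nhds (show R < ‖x‖ by linarith)] with y hy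
      exact hR s y (le_of_lt hy)
    rw [h1.fderiv_eq]
    simp

/-- An equivalence relation on `[0,1]` with open classes identifies `0` and `1`. -/
theorem chain (r : ℝ → ℝ → Prop) (hrefl : ∀ s, r s s) (hsymm : ∀ s t, r s t → r t s)
    (htrans : ∀ s t u, r s t → r t u → r s u)
    (hloc : ∀ s ∈ Set.Icc (0 : ℝ) 1, ∃ ε : ℝ, 0 < ε ∧ ∀ t ∈ Set.Icc (0 : ℝ) 1, |t - s| < ε → r s t) :
    r 0 1 := by
  by_contra hcon
  choose! ε hε hr using hloc
  let U : Set ℝ := ⋃ t ∈ {t : ℝ | t ∈ Set.Icc (0 : ℝ) 1 ∧ r 0 t}, Metric.ball t (ε t)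
  let W : Set ℝ := ⋃ t ∈ {t : ℝ | t ∈ Set.Icc (0 : ℝ) 1 ∧ ¬ r 0 t}, Metric.ball t (ε t)
  have hU : IsOpen U := isOpen_biUnion fun t _ => Metric.isOpen_ball
  have hW : IsOpen W := isOpen_biUnion fun t _ => Metric.isOpen_ball
  have hmU : ∀ t ∈ Set.Icc (0 : ℝ) 1, r 0 t → t ∈ U := fun t ht h =>
    Set.mem_biUnion (show t ∈ {t : ℝ | t ∈ Set.Icc (0 : ℝ) 1 ∧ r 0 t} from ⟨ht, h⟩)
      (Metric.mem_ball_self (hε t ht))
  have hmW : ∀ t ∈ Set.Icc (0 : ℝ) 1, ¬ r 0 t → t ∈ W := fun t ht h =>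
    Set.mem_biUnion (show t ∈ {t : ℝ | t ∈ Set.Icc (0 : ℝ) 1 ∧ ¬ r 0 t} from ⟨ht, h⟩)
      (Metric.mem_ball_self (hε t ht))
  have h0m : (0 : ℝ) ∈ Set.Icc (0 : ℝ) 1 := ⟨le_rfl, zero_le_one⟩
  have h1m : (1 : ℝ) ∈ Set.Icc (0 : ℝ) 1 := ⟨zero_le_one, le_rfl⟩
  obtain ⟨x, hx, hxU, hxW⟩ := (isPreconnected_Icc (a := (0 : ℝ)) (b := 1)) U W hU hW
    (fun t ht => by
      by_cases h : r 0 t
      · exact Or.inl (hmU t ht h)
      · exact Or.inr (hmW t ht h))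
    ⟨0, h0m, hmU 0 h0m (hrefl 0)⟩ ⟨1, h1m, hmW 1 h1m hcon⟩
  simp only [U, Set.mem_iUnion, Set.mem_setOf_eq] at hxU
  simp only [W, Set.mem_iUnion, Set.mem_setOf_eq] at hxW
  obtain ⟨t₁, ⟨ht₁, hr₁⟩, hb₁⟩ := hxU
  obtain ⟨t₂, ⟨ht₂, hr₂⟩, hb₂⟩ := hxW
  rw [Metric.mem_ball, Real.dist_eq] at hb₁ hb₂
  apply hr₂
  exact htrans _ _ _ (htrans _ _ _ hr₁ (hr t₁ ht₁ x hx hb₁)) (hsymm _ _ (hr t₂ ht₂ x hx hb₂))

end Pool.Schoen
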