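import Mathlib
import Pool.Agent.H.MP_6c077c_gt.Defs
import Pool.Agent.H.MP_6c077c_gt.Small
import Pool.Agent.H.MP_6c077c_gt.Implicit

/-! The regular zero sets of a smooth family of functions are ambient isotopic. -/

set_option autoImplicit false

namespace Pool.Schoen

open scoped ContDiff Topology

variable {V : Type*} [NormedAddCommGroup V] [InnerProductSpace ℝ V] [FiniteDimensional ℝ V]

private theorem family_gradient_contDiff (f : V → ℝ) (hf : ContDiff ℝ ∞ f) :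
    ContDiff ℝ ∞ (gradient f) := by
  have h1 : ContDiff ℝ ∞ (fderiv ℝ f) := hf.fderiv_right (by simp)
  have h2 : gradient f = fun x => (InnerProductSpace.toDual ℝ V).symm (fderiv ℝ f x) := rfl
  rw [h2]
  exact (InnerProductSpace.toDual ℝ V).symm.contDiff.comp h1

theorem family_local (G : ℝ × V → ℝ) (hG : ContDiff ℝ ∞ G) (K : Set V) (hK : IsCompact K)
    (hz : ∀ s ∈ Set.Icc (0 : ℝ) 1, ∀ x, G (s, x) = 0 →
      x ∈ K ∧ fderiv ℝ (fun y => G (s, y)) x ≠ 0) (s₀ : ℝ) (hs₀ : s₀ ∈ Set.Icc (0 : ℝ) 1) :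
    ∃ ε : ℝ, 0 < ε ∧ ∀ s ∈ Set.Icc (0 : ℝ) 1, |s - s₀| < ε →
      Carries {x : V | G (s₀, x) = 0} {x : V | G (s, x) = 0} := by
  have : ProperSpace V := FiniteDimensional.proper ℝ V
  set Z : Set V := {x : V | G (s₀, x) = 0} with hZdef
  have hGc : Continuous G := hG.continuous
  have hG0 : ContDiff ℝ ∞ (fun y => G (s₀, y)) := hG.comp (contDiff_const.prodMk contDiff_id)
  have hZclosed : IsClosed Z := isClosed_eq hG0.continuous continuous_const
  have hZK : Z ⊆ K := fun x hx => (hz s₀ hs₀ x hx).1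
  have hZc : IsCompact Z := hK.of_isClosed_subset hZclosed hZK
  obtain ⟨ε, U, h, hε, hU, hZU, hh, hh0, hhG⟩ :=
    implicit_step G hG s₀ Z hZc (fun x hx => (hz s₀ hs₀ x hx).2)
  obtain ⟨V1, hV1o, hZV1, hV1U, hV1c⟩ := exists_open_between_and_isCompact_closure hZc hU hZU
  obtain ⟨V3, hV3o, hV13, hV3U, hV3c⟩ := exists_open_between_and_isCompact_closure hV1c hU hV1U
  obtain ⟨V2, hV2o, hZV2, hV21, hV2c⟩ := exists_open_between_and_isCompact_closure hZc hV1o hZV1
  obtain ⟨χ, hχ, hχr, hχ0, hχ1⟩ := exists_contMDiff_zero_iff_one_iff_of_isClosed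
    (M := V) (modelWithCornersSelf ℝ V) (n := (⊤ : ℕ∞)) (s := V3ᶜ) (t := closure V1)
    hV3o.isClosed_compl isClosed_closure
    (Set.disjoint_left.2 (fun x hx hx' => hx (hV13 hx')))
  have hχs : ContDiff ℝ ∞ χ := hχ.contDiff
  set X : V → V := gradient (fun y => G (s₀, y)) with hXdef
  have hX : ContDiff ℝ ∞ X := family_gradient_contDiff _ hG0
  set g : ℝ × V → V := fun q => (χ q.2 * h q) • X q.2 with hgdef
  have hg0 : ∀ x, g (s₀, x) = 0 := by
    intro x
    by_cases hx : x ∈ U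
    · simp [hgdef, hh0 x hx]
    · have : χ x = 0 := (hχ0 x).1 (fun hx3 => hx (hV3U (subset_closure hx3)))
      simp [hgdef, this]
  have hgz : ∀ s x, x ∉ V3 → g (s, x) = 0 := by
    intro s x hx
    have : χ x = 0 := (hχ0 x).1 hx
    simp [hgdef, this]
  have hgs : ContDiffOn ℝ ∞ g (Set.Ioo (s₀ - ε) (s₀ + ε) ×ˢ (Set.univ : Set V)) := by
    rintro ⟨s, x⟩ ⟨hs, -⟩
    apply ContDiffAt.contDiffWithinAt
    by_cases hx : x ∈ U
    · have hat : ContDiffAt ℝ ∞ h (s, x) :=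
        hh.contDiffAt ((isOpen_Ioo.prod hU).mem_nhds ⟨hs, hx⟩)
      have h1 : ContDiffAt ℝ ∞ (fun q : ℝ × V => χ q.2) (s, x) :=
        (hχs.comp contDiff_snd).contDiffAt
      have h2 : ContDiffAt ℝ ∞ (fun q : ℝ × V => X q.2) (s, x) :=
        (hX.comp contDiff_snd).contDiffAt
      exact (h1.mul hat).smul h2
    · have hx' : x ∈ (closure V3)ᶜ := fun h3 => hx (hV3U h3)
      have hev : g =ᶠ[𝓝 (s, x)] (fun _ => (0 : V)) := by
        have hop : IsOpen ((Set.univ : Set ℝ) ×ˢ (closure V3)ᶜ) :=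
          isOpen_univ.prod isClosed_closure.isOpen_compl
        filter_upwards [hop.mem_nhds (show (s, x) ∈ (Set.univ : Set ℝ) ×ˢ (closure V3)ᶜ from
          ⟨Set.mem_univ _, hx'⟩)] with q hq
        exact hgz q.1 q.2 (fun h3 => hq.2 (subset_closure h3))
      exact contDiffAt_const.congr_of_eventuallyEq hev
  obtain ⟨R, hR⟩ : ∃ R : ℝ, ∀ x ∈ V3, ‖x‖ < R := by
    obtain ⟨R, hR⟩ := hV3c.isBounded.subset_ball (0 : V)
    exact ⟨R, fun x hx => by simpa using hR (subset_closure hx)⟩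
  have hgR : ∀ s x, R ≤ ‖x‖ → g (s, x) = 0 := fun s x hx =>
    hgz s x (fun h3 => absurd (hR x h3) (not_lt.2 hx))
  obtain ⟨ε₁, hε₁, hε₁ε, hd1⟩ := close_C1 g s₀ ε hε hgs hg0 R hgR
  obtain ⟨d, hd, hthick⟩ := hV2c.exists_thickening_subset_open hV1o hV21
  -- the zero set stays in V2
  have hcomp : IsCompact (K \ V2) := hK.diff hV2o
  have ev1 : ∀ᶠ s in 𝓝 s₀, ∀ y ∈ K \ V2, G (s, y) ≠ 0 := by
    apply hcomp.eventually_forall_of_forall_eventually
    rintro y ⟨-, hy⟩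
    have hne : G (s₀, y) ≠ 0 := fun h0 => hy (hZV2 h0)
    have := (hGc.continuousAt (x := (s₀, y))).eventually_ne hne
    simpa using this
  have ev2 : ∀ᶠ s in 𝓝 s₀, ∀ y ∈ closure V3, ‖g (s, y)‖ < d := by
    apply hV3c.eventually_forall_of_forall_eventually
    intro y hy
    have hca : ContinuousAt g (s₀, y) :=
      (hgs.contDiffAt ((isOpen_Ioo.prod isOpen_univ).mem_nhds
        ⟨⟨by linarith, by linarith⟩, Set.mem_univ _⟩)).continuousAt
    have hlt : ‖g (s₀, y)‖ < d := by rw [hg0 y, norm_zero]; exact hd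
    have := hca.norm.eventually_lt_const hlt
    simpa using this
  obtain ⟨ε₂, hε₂, hball⟩ := Metric.eventually_nhds_iff.1 (ev1.and ev2)
  refine ⟨min ε₁ ε₂, lt_min hε₁ hε₂, ?_⟩
  intro s hs hss
  have hs1 : |s - s₀| < ε₁ := lt_of_lt_of_le hss (min_le_left _ _)
  have hs2 : |s - s₀| < ε₂ := lt_of_lt_of_le hss (min_le_right _ _)
  obtain ⟨hA, hB⟩ := hball (show dist s s₀ < ε₂ by rwa [Real.dist_eq])
  have hsI : s ∈ Set.Ioo (s₀ - ε) (s₀ + ε) := by
    have := abs_lt.1 (lt_of_lt_of_le hs1 hε₁ε)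
    exact ⟨by linarith [this.1], by linarith [this.2]⟩
  have hgsm : ContDiff ℝ ∞ (fun y => g (s, y)) := by
    rw [contDiff_iff_contDiffAt]
    intro y
    have hat : ContDiffAt ℝ ∞ g (s, y) :=
      hgs.contDiffAt ((isOpen_Ioo.prod isOpen_univ).mem_nhds ⟨hsI, Set.mem_univ _⟩)
    exact ContDiffAt.comp y hat (contDiffAt_const.prodMk contDiffAt_id)
  obtain ⟨ψ, hψ, hψ1, hψ2⟩ := small_diffeo (fun y => g (s, y)) hgsm (hd1 s hs1)
  refine ⟨fun x => x + g (s, x), ψ, contDiff_id.add hgsm, hψ, hψ1, hψ2,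
    ⟨R, fun x hx => by simp only [hgR s x hx, add_zero]⟩, ?_⟩
  have key : ∀ x ∈ V1, G (s, x + g (s, x)) = G (s₀, x) := by
    intro x hx
    have hc1 : χ x = 1 := (hχ1 x).1 (subset_closure hx)
    have := hhG s hsI x (hV1U (subset_closure hx))
    rw [← this]
    simp only [hgdef, hc1, one_mul, hXdef]
  have hsmall : ∀ x, ‖g (s, x)‖ < d := by
    intro x
    by_cases hx : x ∈ V3
    · exact hB x (subset_closure hx)
    · rw [hgz s x hx, norm_zero]; exact hd
  apply Set.Subset.antisymm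
  · rintro _ ⟨x, hx, rfl⟩
    show G (s, x + g (s, x)) = 0
    rw [key x (hZV1 hx)]
    exact hx
  · intro y hy
    have hyK : y ∈ K := (hz s hs y hy).1
    have hyV2 : y ∈ V2 := by
      by_contra hcon
      exact hA y ⟨hyK, hcon⟩ hy
    have hxy : ψ y + g (s, ψ y) = y := hψ2 y
    have hxV1 : ψ y ∈ V1 := by
      apply hthick
      rw [Metric.mem_thickening_iff]
      refine ⟨y, subset_closure hyV2, ?_⟩
      rw [dist_eq_norm]
      have : ψ y - y = - g (s, ψ y) := by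
        nth_rewrite 2 [← hxy]
        abel
      rw [this, norm_neg]
      exact hsmall _
    refine ⟨ψ y, ?_, hxy⟩
    show G (s₀, ψ y) = 0
    rw [← key (ψ y) hxV1, hxy]
    exact hy

theorem family (G : ℝ × V → ℝ) (hG : ContDiff ℝ ∞ G) (K : Set V) (hK : IsCompact K)
    (hz : ∀ s ∈ Set.Icc (0 : ℝ) 1, ∀ x, G (s, x) = 0 →
      x ∈ K ∧ fderiv ℝ (fun y => G (s, y)) x ≠ 0) :
    Carries {x : V | G (0, x) = 0} {x : V | G (1, x) = 0} :=
  chain (fun s t => Carries {x : V | G (s, x) = 0} {x : V | G (t, x) = 0})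
    (fun _ => Carries.refl _) (fun _ _ h => h.symm) (fun _ _ _ h h' => h.trans h')
    (fun s hs => family_local G hG K hK hz s hs)

end Pool.Schoen
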