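import Mathlib
import Pool.Agent.H.MP_6c077c_gt.Family

/-! The one-sided ray criterion in a Euclidean space. -/

set_option autoImplicit false

namespace Pool.Schoen

open scoped ContDiff

/-- a smooth monotone function, constant below `-δ`, equal to the identity on `[0, ∞)`. -/
theorem ray_theta (δ : ℝ) (hδ : 0 < δ) : ∃ θ : ℝ → ℝ, ContDiff ℝ ∞ θ ∧ (∀ u, 0 ≤ deriv θ u) ∧
    (∀ u, u ≤ -δ → deriv θ u = 0) ∧ (∀ u, 0 ≤ u → θ u = u) ∧ (∀ u, u < 0 → θ u < 0) ∧
    deriv θ 0 = 1 := by
  set g : ℝ → ℝ := fun t => Real.smoothTransition (2 * (t + δ) / δ) with hg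
  have hgs : ContDiff ℝ ∞ g := by
    refine Real.smoothTransition.contDiff.comp ?_
    fun_prop
  have hgc : Continuous g := hgs.continuous
  have hg1 : ∀ t, -(δ / 2) ≤ t → g t = 1 := by
    intro t ht
    apply Real.smoothTransition.one_of_one_le
    rw [le_div_iff₀ hδ]
    linarith
  have hg0 : ∀ t, t ≤ -δ → g t = 0 := by
    intro t ht
    apply Real.smoothTransition.zero_of_nonpos
    rw [div_nonpos_iff]
    right
    exact ⟨by linarith, hδ.le⟩
  set θ : ℝ → ℝ := fun u => ∫ t in (0 : ℝ)..u, g t with hθ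
  have hder : ∀ u, HasDerivAt θ (g u) u := fun u =>
    intervalIntegral.integral_hasDerivAt_right (hgc.intervalIntegrable _ _)
      (hgc.stronglyMeasurableAtFilter _ _) hgc.continuousAt
  have hd : deriv θ = g := funext fun u => (hder u).deriv
  have hid : ∀ u, -(δ / 2) ≤ u → θ u = u := by
    intro u hu
    have h1 : θ u = ∫ t in (0 : ℝ)..u, (1 : ℝ) := by
      refine intervalIntegral.integral_congr fun t ht => ?_
      refine hg1 t ?_
      rcases le_total 0 u with h | h
      · rw [Set.uIcc_of_le h] at ht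
        linarith [ht.1]
      · rw [Set.uIcc_of_ge h] at ht
        linarith [ht.1]
    rw [h1]
    simp
  have hmono : Monotone θ := by
    refine monotone_of_deriv_nonneg (fun u => (hder u).differentiableAt) fun u => ?_
    rw [hd]
    exact Real.smoothTransition.nonneg _
  refine ⟨θ, ?_, ?_, ?_, ?_, ?_, ?_⟩
  · rw [contDiff_infty_iff_deriv]
    refine ⟨fun u => (hder u).differentiableAt, ?_⟩
    rw [hd]
    exact hgs
  · intro u
    rw [hd]
    exact Real.smoothTransition.nonneg _
  · intro u hu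
    rw [hd]
    exact hg0 u hu
  · intro u hu
    exact hid u (by linarith)
  · intro u hu
    have h1 := hmono (le_max_left u (-(δ / 2)))
    rw [hid _ (le_max_right _ _)] at h1
    exact h1.trans_lt (max_lt hu (by linarith))
  · rw [hd]
    exact hg1 0 (by linarith)

variable {V : Type*} [NormedAddCommGroup V] [InnerProductSpace ℝ V] [FiniteDimensional ℝ V]

/-- Any two round spheres of positive radius can be carried to each other. -/
private theorem ray_sphere_carries (c c' : V) (R R' : ℝ) (hR : 0 < R) (hR' : 0 < R') :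
    Carries (Metric.sphere c R) (Metric.sphere c' R') := by
  have hprop : ProperSpace V := FiniteDimensional.proper ℝ V
  set p : ℝ → V := fun s => (1 - s) • c + s • c' with hp
  set ρ : ℝ → ℝ := fun s => (1 - s) * R + s * R' with hρ
  have hρpos : ∀ s ∈ Set.Icc (0 : ℝ) 1, 0 < ρ s := by
    rintro s ⟨h0, h1⟩
    rcases eq_or_lt_of_le h0 with h | h
    · simp only [hρ, ← h]; linarith
    · have h2 : 0 ≤ (1 - s) * R := mul_nonneg (by linarith) hR.le
      have h3 : 0 < s * R' := mul_pos h hR'
      simp only [hρ]; linarith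
  have key := family (V := V) (fun q : ℝ × V => ‖q.2 - p q.1‖ ^ 2 - ρ q.1 ^ 2) (by
    refine ContDiff.sub (ContDiff.norm_sq ℝ ?_) ?_
    · simp only [hp]; fun_prop
    · simp only [hρ]; fun_prop) (Metric.closedBall (0 : V) (‖c‖ + ‖c'‖ + R + R'))
    (isCompact_closedBall _ _) (by
      intro s hs x hx
      have hpos := hρpos s hs
      have h1 : ‖x - p s‖ = ρ s := by
        have h2 : ‖x - p s‖ ^ 2 = ρ s ^ 2 := by
          have : ‖x - p s‖ ^ 2 - ρ s ^ 2 = 0 := hx
          linarith
        exact (pow_left_inj₀ (norm_nonneg _) hpos.le two_ne_zero).1 h2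
      refine ⟨?_, ?_⟩
      · rw [mem_closedBall_zero_iff]
        have h2 : ‖p s‖ ≤ ‖c‖ + ‖c'‖ := by
          refine (norm_add_le _ _).trans ?_
          rw [norm_smul, norm_smul, Real.norm_eq_abs, Real.norm_eq_abs, abs_of_nonneg hs.1,
            abs_of_nonneg (by linarith [hs.2] : (0 : ℝ) ≤ 1 - s)]
          have h3 := norm_nonneg c
          have h4 := norm_nonneg c'
          nlinarith [hs.1, hs.2]
        have h3 : ρ s ≤ R + R' := by
          simp only [hρ]
          nlinarith [hs.1, hs.2]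
        have h4 : ‖x‖ ≤ ‖x - p s‖ + ‖p s‖ := by
          have : x = (x - p s) + p s := by abel
          conv_lhs => rw [this]
          exact norm_add_le _ _
        linarith
      · have h2 : HasFDerivAt (fun y : V => ‖y - p s‖ ^ 2 - ρ s ^ 2)
            (2 • (innerSL ℝ (x - p s))) x := by
          have h3 : HasFDerivAt (fun y : V => y - p s) (ContinuousLinearMap.id ℝ V) x :=
            (hasFDerivAt_id x).sub_const _
          have h4 := ((hasStrictFDerivAt_norm_sq (x - p s)).hasFDerivAt.comp x h3).sub_const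
            (ρ s ^ 2)
          rw [ContinuousLinearMap.comp_id] at h4
          exact h4
        show fderiv ℝ (fun y : V => ‖y - p s‖ ^ 2 - ρ s ^ 2) x ≠ 0
        rw [h2.fderiv]
        intro h0
        have h3 := congrArg (fun L : V →L[ℝ] ℝ => L (x - p s)) h0
        simp only [smul_apply, innerSL_apply_apply, real_inner_self_eq_norm_sq,
          zero_apply, h1] at h3
        have : (0 : ℝ) < 2 • ρ s ^ 2 := by
          rw [nsmul_eq_mul]; positivity
        linarith)
  have e0 : {x : V | ‖x - p 0‖ ^ 2 - ρ 0 ^ 2 = 0} = Metric.sphere c R := by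
    ext x
    rw [mem_sphere_iff_norm]
    simp only [hp, hρ, Set.mem_ofPred_eq, sub_zero, one_smul, zero_smul, add_zero, one_mul, zero_mul]
    rw [sub_eq_zero, pow_left_inj₀ (norm_nonneg _) hR.le two_ne_zero]
  have e1 : {x : V | ‖x - p 1‖ ^ 2 - ρ 1 ^ 2 = 0} = Metric.sphere c' R' := by
    ext x
    rw [mem_sphere_iff_norm]
    simp only [hp, hρ, Set.mem_ofPred_eq, sub_self, one_smul, zero_smul, zero_add, one_mul, zero_mul]
    rw [sub_eq_zero, pow_left_inj₀ (norm_nonneg _) hR'.le two_ne_zero]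
  rw [← e0, ← e1]
  exact key

/-- near the boundary no ray from `c` is orthogonal to the level sets. -/
private theorem ray_delta (F : V → ℝ) (hF : ContDiff ℝ ∞ F)
    (hb : Bornology.IsBounded {x | F x ≤ 0}) (c : V) (hc : F c < 0)
    (hin : ∀ x, F x = 0 → ∀ l : ℝ, 0 ≤ l → fderiv ℝ F x ≠ -(l • innerSL ℝ (x - c))) :
    ∃ δ > 0, ∀ x, F x ≤ 0 → -δ ≤ F x → ∀ l : ℝ, 0 ≤ l →
      fderiv ℝ F x ≠ -(l • innerSL ℝ (x - c)) := by
  have hprop : ProperSpace V := FiniteDimensional.proper ℝ V
  have hKc : IsCompact {x | F x ≤ 0} :=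
    Metric.isCompact_of_isClosed_isBounded (isClosed_le hF.continuous continuous_const) hb
  have hfd : Continuous (fderiv ℝ F) := hF.continuous_fderiv (by simp)
  set D : V → ℝ := fun x => ‖‖x - c‖ • fderiv ℝ F x + ‖fderiv ℝ F x‖ • innerSL ℝ (x - c)‖ with hD
  have hDc : Continuous D := by
    have h1 : Continuous fun x : V => innerSL ℝ (x - c) :=
      (innerSL ℝ).continuous.comp (continuous_id.sub continuous_const)
    have h2 : Continuous fun x : V => ‖x - c‖ := (continuous_id.sub continuous_const).norm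
    exact ((h2.smul hfd).add (hfd.norm.smul h1)).norm
  have hZc : IsCompact ({x | F x ≤ 0} ∩ {x | D x = 0}) :=
    hKc.inter_right (isClosed_eq hDc continuous_const)
  have hcZ : c ∈ {x | F x ≤ 0} ∩ {x | D x = 0} := by
    refine ⟨hc.le, ?_⟩
    simp [hD]
  obtain ⟨x0, hx0, hmax⟩ := hZc.exists_isMaxOn ⟨c, hcZ⟩ hF.continuous.continuousOn
  have hx0neg : F x0 < 0 := by
    refine lt_of_le_of_ne hx0.1 fun h0 => ?_
    have hxc : x0 ≠ c := by
      rintro rfl
      linarith
    have hn : 0 < ‖x0 - c‖ := norm_pos_iff.2 (sub_ne_zero.2 hxc)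
    have h1 : ‖x0 - c‖ • fderiv ℝ F x0 + ‖fderiv ℝ F x0‖ • innerSL ℝ (x0 - c) = 0 :=
      norm_eq_zero.1 hx0.2
    refine hin x0 h0 (‖x0 - c‖⁻¹ * ‖fderiv ℝ F x0‖) (by positivity) ?_
    have h2 : ‖x0 - c‖ • fderiv ℝ F x0 = -(‖fderiv ℝ F x0‖ • innerSL ℝ (x0 - c)) :=
      eq_neg_of_add_eq_zero_left h1
    calc fderiv ℝ F x0 = ‖x0 - c‖⁻¹ • (‖x0 - c‖ • fderiv ℝ F x0) := by
          rw [smul_smul, inv_mul_cancel₀ hn.ne', one_smul]
      _ = -((‖x0 - c‖⁻¹ * ‖fderiv ℝ F x0‖) • innerSL ℝ (x0 - c)) := by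
          rw [h2, smul_neg, smul_smul]
  refine ⟨-F x0 / 2, by linarith, fun x hx hxδ l hl heq => ?_⟩
  have hDx : D x = 0 := by
    have h1 : ‖fderiv ℝ F x‖ = l * ‖x - c‖ := by
      rw [heq, norm_neg, norm_smul, innerSL_apply_norm, Real.norm_eq_abs, abs_of_nonneg hl]
    show ‖‖x - c‖ • fderiv ℝ F x + ‖fderiv ℝ F x‖ • innerSL ℝ (x - c)‖ = 0
    rw [h1, heq, smul_neg, smul_smul, mul_comm ‖x - c‖ l, neg_add_cancel, norm_zero]
  have h2 : F x ≤ F x0 := hmax ⟨hx, hDx⟩
  linarith

/-- If no ray from `c` enters `{F ≤ 0}` orthogonally (and `{F = 0}` is regular) then `{F = 0}` can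
be carried to every round sphere around `c`. -/
theorem ray_criterion (F : V → ℝ) (hF : ContDiff ℝ ∞ F) (hb : Bornology.IsBounded {x | F x ≤ 0})
    (c : V) (hc : F c < 0)
    (hin : ∀ x, F x = 0 → ∀ l : ℝ, 0 ≤ l → fderiv ℝ F x ≠ -(l • innerSL ℝ (x - c)))
    (R : ℝ) (hR : 0 < R) : Carries {x | F x = 0} (Metric.sphere c R) := by
  have hprop : ProperSpace V := FiniteDimensional.proper ℝ V
  have hKc : IsCompact {x | F x ≤ 0} :=
    Metric.isCompact_of_isClosed_isBounded (isClosed_le hF.continuous continuous_const) hb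
  obtain ⟨δ, hδ, hnear⟩ := ray_delta F hF hb c hc hin
  obtain ⟨θ, hθs, hθ0, hθ1, hθ2, hθ3, hθ4⟩ := ray_theta δ hδ
  obtain ⟨r, hr, hrF⟩ : ∃ r > 0, ∀ x, ‖x - c‖ ≤ r → F x < 0 := by
    have h1 : {x | F x < 0} ∈ nhds c := (isOpen_lt hF.continuous continuous_const).mem_nhds hc
    obtain ⟨r, hr, hb⟩ := Metric.nhds_basis_closedBall.mem_iff.1 h1
    refine ⟨r, hr, fun x hx => hb ?_⟩
    rwa [mem_closedBall_iff_norm]
  have hθder : ∀ u, HasDerivAt θ (deriv θ u) u := fun u =>
    ((hθs.differentiable (by simp)) u).hasDerivAt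
  have hFder : ∀ x, HasFDerivAt F (fderiv ℝ F x) x := fun x =>
    ((hF.differentiable (by simp)) x).hasFDerivAt
  have key := family (V := V) (fun q : ℝ × V => (1 - q.1) * θ (F q.2) + q.1 * (‖q.2 - c‖ ^ 2 - r ^ 2))
    (by
      refine ContDiff.add (ContDiff.mul ?_ ?_) (ContDiff.mul contDiff_fst (ContDiff.sub
        (ContDiff.norm_sq ℝ ?_) contDiff_const))
      · exact contDiff_const.sub contDiff_fst
      · exact hθs.comp (hF.comp contDiff_snd)
      · exact contDiff_snd.sub contDiff_const) {x | F x ≤ 0} hKc (by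
      intro s hs x hx
      have hx' : (1 - s) * θ (F x) + s * (‖x - c‖ ^ 2 - r ^ 2) = 0 := hx
      have hxK : F x ≤ 0 := by
        by_contra hpos
        rw [not_le] at hpos
        have h1 : r < ‖x - c‖ := by
          by_contra hle
          rw [not_lt] at hle
          linarith [hrF x hle]
        have h2 : 0 < ‖x - c‖ ^ 2 - r ^ 2 := by nlinarith
        have h3 : 0 < θ (F x) := by rw [hθ2 _ hpos.le]; exact hpos
        rcases eq_or_lt_of_le hs.1 with h | h
        · rw [← h] at hx'
          linarith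
        · have h4 : 0 ≤ (1 - s) * θ (F x) := mul_nonneg (by linarith [hs.2]) h3.le
          have h5 : 0 < s * (‖x - c‖ ^ 2 - r ^ 2) := mul_pos h h2
          linarith
      refine ⟨hxK, ?_⟩
      have hd : HasFDerivAt (fun y : V => (1 - s) * θ (F y) + s * (‖y - c‖ ^ 2 - r ^ 2))
          ((1 - s) • (deriv θ (F x) • fderiv ℝ F x) + s • (2 • innerSL ℝ (x - c))) x := by
        have h3 : HasFDerivAt (fun y : V => y - c) (ContinuousLinearMap.id ℝ V) x :=
          (hasFDerivAt_id x).sub_const _
        have h4 := ((hasStrictFDerivAt_norm_sq (x - c)).hasFDerivAt.comp x h3).sub_const (r ^ 2)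
        rw [ContinuousLinearMap.comp_id] at h4
        have h5 : HasFDerivAt (fun y : V => θ (F y)) (deriv θ (F x) • fderiv ℝ F x) x :=
          (hθder (F x)).comp_hasFDerivAt x (hFder x)
        exact (h5.const_mul (1 - s)).add (h4.const_mul s)
      show fderiv ℝ (fun y : V => (1 - s) * θ (F y) + s * (‖y - c‖ ^ 2 - r ^ 2)) x ≠ 0
      rw [hd.fderiv]
      intro h0
      rw [smul_smul] at h0
      set μ : ℝ := (1 - s) * deriv θ (F x) with hμ
      have hμ0 : 0 ≤ μ := mul_nonneg (by linarith [hs.2]) (hθ0 _)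
      have h2s : s • (2 • innerSL ℝ (x - c)) = (2 * s) • innerSL ℝ (x - c) := by
        rw [← Nat.cast_smul_eq_nsmul ℝ, smul_smul]
        congr 1
        push_cast
        ring
      rw [h2s] at h0
      rcases eq_or_lt_of_le hs.1 with h | h
      · have h1 : θ (F x) = 0 := by
          rw [← h] at hx'
          linarith
        have h2 : F x = 0 := by
          by_contra hne
          exact absurd h1 (hθ3 _ (lt_of_le_of_ne hxK hne)).ne
        have h3 : μ = 1 := by rw [hμ, h2, hθ4, ← h]; ring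
        rw [h3, ← h, mul_zero, zero_smul, add_zero, one_smul] at h0
        refine hin x h2 0 le_rfl ?_
        rw [h0, zero_smul, neg_zero]
      · rcases eq_or_lt_of_le hμ0 with hμe | hμp
        · rw [← hμe, zero_smul, zero_add] at h0
          have h1 : innerSL ℝ (x - c) = 0 := by
            rcases smul_eq_zero.1 h0 with h2 | h2
            · exfalso; linarith
            · exact h2
          have h2 : x - c = 0 := by
            have h3 := congrArg (fun L : V →L[ℝ] ℝ => ‖L‖) h1
            simp only [innerSL_apply_norm, norm_zero] at h3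
            exact norm_eq_zero.1 h3
          have h3 : x = c := sub_eq_zero.1 h2
          rw [h3, sub_self, norm_zero] at hx'
          have h4 := hθ3 _ hc
          have h5 : (1 - s) * θ (F c) ≤ 0 := mul_nonpos_of_nonneg_of_nonpos (by linarith [hs.2]) h4.le
          have h6 : 0 < s * r ^ 2 := by positivity
          nlinarith
        · have h1 : -δ ≤ F x := by
            by_contra hlt
            rw [not_le] at hlt
            have h2 : deriv θ (F x) = 0 := hθ1 _ hlt.le
            rw [hμ, h2, mul_zero] at hμp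
            exact lt_irrefl _ hμp
          refine hnear x hxK h1 (μ⁻¹ * (2 * s)) (by positivity) ?_
          have h2 : μ • fderiv ℝ F x = -((2 * s) • innerSL ℝ (x - c)) := eq_neg_of_add_eq_zero_left h0
          calc fderiv ℝ F x = μ⁻¹ • (μ • fderiv ℝ F x) := by
                rw [smul_smul, inv_mul_cancel₀ hμp.ne', one_smul]
            _ = -((μ⁻¹ * (2 * s)) • innerSL ℝ (x - c)) := by
                rw [h2, smul_neg, smul_smul])
  have e0 : {x : V | (1 - (0 : ℝ)) * θ (F x) + 0 * (‖x - c‖ ^ 2 - r ^ 2) = 0} = {x | F x = 0} := by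
    ext x
    simp only [Set.mem_ofPred_eq, sub_zero, one_mul, zero_mul, add_zero]
    constructor
    · intro h
      by_contra hne
      rcases lt_or_gt_of_ne hne with h1 | h1
      · exact absurd h (hθ3 _ h1).ne
      · rw [hθ2 _ h1.le] at h
        exact hne h
    · intro h
      rw [h, hθ2 0 le_rfl]
  have e1 : {x : V | (1 - (1 : ℝ)) * θ (F x) + 1 * (‖x - c‖ ^ 2 - r ^ 2) = 0} =
      Metric.sphere c r := by
    ext x
    rw [mem_sphere_iff_norm]
    simp only [Set.mem_ofPred_eq, sub_self, zero_mul, one_mul, zero_add]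
    rw [sub_eq_zero, pow_left_inj₀ (norm_nonneg _) hr.le two_ne_zero]
  have h1 : Carries {x | F x = 0} (Metric.sphere c r) := by
    rw [← e0, ← e1]
    exact key
  exact h1.trans (ray_sphere_carries c c r R hr hR)

/-- Any two round spheres of positive radius can be carried to each other. -/
theorem sphere_carries (c c' : V) (R R' : ℝ) (hR : 0 < R) (hR' : 0 < R') :
    Carries (Metric.sphere c R) (Metric.sphere c' R') :=
  ray_sphere_carries c c' R R' hR hR'

end Pool.Schoen
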