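import Mathlib
import Pool.Agent.H.MP_6c077c_gt.Ray

/-! The Gauss map criterion: a compact hypersurface whose Gauss map takes some value exactly once,
nondegenerately, is unknotted. -/

set_option autoImplicit false

namespace Pool.Schoen

open scoped ContDiff RealInnerProductSpace
open Metric Set

variable {V : Type*} [NormedAddCommGroup V] [InnerProductSpace ℝ V] [FiniteDimensional ℝ V]

private theorem gauss_fd (F : V → ℝ) (x v : V) : fderiv ℝ F x v = ⟪gradient F x, v⟫ := by
  unfold gradient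
  rw [InnerProductSpace.toDual_symm_apply]

omit [FiniteDimensional ℝ V] in
/-- moving in a direction of negative derivative. -/
private theorem gauss_desc (F : V → ℝ) (hF : ContDiff ℝ ∞ F) (m w : V) (hm : F m ≤ 0)
    (hw : fderiv ℝ F m w < 0) : ∃ t : ℝ, 0 < t ∧ F (m + t • w) ≤ 0 := by
  have hd : HasDerivAt (fun t : ℝ => F (m + t • w)) (fderiv ℝ F m w) 0 := by
    have h1 : HasFDerivAt F (fderiv ℝ F m) (m + (0 : ℝ) • w) := by
      rw [zero_smul, add_zero]
      exact ((hF.differentiable (by simp)) m).hasFDerivAt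
    have h2 : HasDerivAt (fun t : ℝ => m + t • w) w 0 := by
      have := ((hasDerivAt_id (0 : ℝ)).smul_const w).const_add m
      simpa using this
    exact h1.comp_hasDerivAt (0 : ℝ) h2
  have h3 : ∀ᶠ t in nhdsWithin (0 : ℝ) (Ioi 0), F (m + t • w) < F m := by
    have h5 := hasDerivAt_iff_tendsto_slope.1 hd
    have hsub : Ioi (0 : ℝ) ⊆ {0}ᶜ := fun t ht => ne_of_gt ht
    have h6 : ∀ᶠ t in nhdsWithin (0 : ℝ) (Ioi 0), slope (fun t : ℝ => F (m + t • w)) 0 t < 0 :=
      (h5.eventually_lt_const hw).filter_mono (nhdsWithin_mono _ hsub)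
    filter_upwards [h6, self_mem_nhdsWithin] with t ht ht0
    rw [slope_def_field] at ht
    have ht0' : 0 < t := ht0
    have : F (m + t • w) - F (m + (0 : ℝ) • w) < 0 := by
      by_contra hcon
      push Not at hcon
      have := div_nonneg hcon (by linarith : (0 : ℝ) ≤ t - 0)
      linarith
    rw [zero_smul, add_zero] at this
    linarith
  have hne : (nhdsWithin (0 : ℝ) (Ioi 0)).NeBot := inferInstance
  obtain ⟨t, ht, ht0⟩ := (h3.and self_mem_nhdsWithin).exists
  exact ⟨t, ht0, by linarith⟩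

/-- The unique point with normal `-e` is the strict minimum of the height on `{F ≤ 0}`. -/
theorem gauss_min (F : V → ℝ) (hF : ContDiff ℝ ∞ F) (hb : Bornology.IsBounded {x | F x ≤ 0})
    (e : V) (he : ‖e‖ = 1) (x₀ : V) (hx₀ : F x₀ = 0)
    (huniq : ∀ x, F x = 0 → (∃ l : ℝ, 0 < l ∧ gradient F x = -(l • e)) → x = x₀)
    (hreg : ∀ x, F x = 0 → gradient F x ≠ 0) :
    (∃ l : ℝ, 0 < l ∧ gradient F x₀ = -(l • e)) ∧
      ∀ x, F x ≤ 0 → x ≠ x₀ → ⟪x₀, e⟫ < ⟪x, e⟫ := by
  have hprop : ProperSpace V := FiniteDimensional.proper ℝ V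
  have hKc : IsCompact {x | F x ≤ 0} :=
    Metric.isCompact_of_isClosed_isBounded (isClosed_le hF.continuous continuous_const) hb
  have hcont : Continuous fun x : V => ⟪x, e⟫ := by fun_prop
  -- every minimum point of the height
  have key : ∀ m, F m ≤ 0 → (∀ x, F x ≤ 0 → ⟪m, e⟫ ≤ ⟪x, e⟫) →
      F m = 0 ∧ ∃ l : ℝ, 0 < l ∧ gradient F m = -(l • e) := by
    intro m hm hmin
    have hee : ⟪e, e⟫ = 1 := by rw [real_inner_self_eq_norm_sq, he]; norm_num
    have hFm : F m = 0 := by
      by_contra hne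
      have hlt : F m < 0 := lt_of_le_of_ne hm hne
      have hc : Continuous fun t : ℝ => F (m - t • e) := hF.continuous.comp (by fun_prop)
      have hev : ∀ᶠ t in nhds (0 : ℝ), F (m - t • e) < 0 := by
        have : F (m - (0 : ℝ) • e) < 0 := by simpa using hlt
        exact (hc.tendsto 0).eventually_lt_const this
      have hev' : ∀ᶠ t in nhdsWithin (0 : ℝ) (Ioi 0), F (m - t • e) < 0 :=
        hev.filter_mono nhdsWithin_le_nhds
      obtain ⟨t, ht, ht0⟩ := (hev'.and self_mem_nhdsWithin).exists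
      have ht0' : 0 < t := ht0
      have h1 := hmin _ ht.le
      rw [inner_sub_left, inner_smul_left, hee] at h1
      simp at h1
      linarith
    refine ⟨hFm, ?_⟩
    set g := gradient F m with hg
    have hg0 : g ≠ 0 := hreg m hFm
    have hgn : 0 < ‖g‖ := norm_pos_iff.2 hg0
    by_contra hcon
    push Not at hcon
    have hgne := hcon ‖g‖ hgn
    have hpos : 0 < ‖g‖ + ⟪g, e⟫ := by
      have h1 : 0 < ‖g + ‖g‖ • e‖ ^ 2 := by
        have : g + ‖g‖ • e ≠ 0 := fun h => hgne (eq_neg_of_add_eq_zero_left h)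
        positivity
      have h2 : ‖g + ‖g‖ • e‖ ^ 2 = 2 * ‖g‖ * (‖g‖ + ⟪g, e⟫) := by
        rw [norm_add_sq_real, norm_smul, inner_smul_right, he]
        simp
        ring
      rw [h2] at h1
      by_contra hle
      push Not at hle
      nlinarith
    set w : V := -(‖g‖ • e + g) with hw
    have hwe : ⟪w, e⟫ < 0 := by
      rw [hw, inner_neg_left, inner_add_left, inner_smul_left, hee]
      simp
      linarith
    have hwg : fderiv ℝ F m w < 0 := by
      rw [gauss_fd, ← hg, hw, inner_neg_right, inner_add_right, inner_smul_right,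
        real_inner_self_eq_norm_sq]
      nlinarith
    obtain ⟨t, ht, hFt⟩ := gauss_desc F hF m w hm hwg
    have h1 := hmin _ hFt
    rw [inner_add_left, inner_smul_left] at h1
    simp only [conj_trivial] at h1
    nlinarith
  obtain ⟨m, hm, hmin⟩ := hKc.exists_isMinOn ⟨x₀, hx₀.le⟩ hcont.continuousOn
  have hmin' : ∀ x, F x ≤ 0 → ⟪m, e⟫ ≤ ⟪x, e⟫ := fun x hx => hmin hx
  obtain ⟨hFm, hgm⟩ := key m hm hmin'
  have hmx : m = x₀ := huniq m hFm hgm
  subst hmx
  refine ⟨hgm, ?_⟩
  intro x hx hne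
  refine lt_of_le_of_ne (hmin' x hx) ?_
  intro heq
  have hx' : ∀ y, F y ≤ 0 → ⟪x, e⟫ ≤ ⟪y, e⟫ := by
    intro y hy
    rw [← heq]
    exact hmin' y hy
  obtain ⟨h1, h2⟩ := key x hx hx'
  exact hne (huniq x h1 h2)

omit [FiniteDimensional ℝ V] in
/-- second derivative along a parabola. -/
private theorem gauss_second (F : V → ℝ) (hF : ContDiff ℝ ∞ F) (x₀ w e : V) (c : ℝ) :
    deriv (fun t : ℝ => F (x₀ + t • w - (c * t ^ 2) • e)) 0 = fderiv ℝ F x₀ w ∧
    deriv (deriv (fun t : ℝ => F (x₀ + t • w - (c * t ^ 2) • e))) 0 =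
      fderiv ℝ (fderiv ℝ F) x₀ w w - 2 * c * fderiv ℝ F x₀ e := by
  set γ : ℝ → V := fun t => x₀ + t • w - (c * t ^ 2) • e with hγ
  have hγd : ∀ t, HasDerivAt γ (w - (2 * c * t) • e) t := by
    intro t
    have h1 := ((hasDerivAt_id t).smul_const w).const_add x₀
    have h2 : HasDerivAt (fun t : ℝ => c * t ^ 2) (2 * c * t) t := by
      have := (hasDerivAt_pow 2 t).const_mul c
      convert! this using 1
      simp; ring
    have h3 := h2.smul_const e
    have h4 : HasDerivAt γ ((1 : ℝ) • w - (2 * c * t) • e) t := h1.sub h3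
    simpa using h4
  have hFd : ∀ x, HasFDerivAt F (fderiv ℝ F x) x := fun x =>
    ((hF.differentiable (by simp)) x).hasFDerivAt
  have h1 : ∀ t, HasDerivAt (fun t => F (γ t)) (fderiv ℝ F (γ t) (w - (2 * c * t) • e)) t :=
    fun t => (hFd (γ t)).comp_hasDerivAt t (hγd t)
  have h1' : deriv (fun t => F (γ t)) = fun t => fderiv ℝ F (γ t) (w - (2 * c * t) • e) :=
    funext fun t => (h1 t).deriv
  have hγ0 : γ 0 = x₀ := by simp [hγ]
  have hFF : ContDiff ℝ ∞ (fderiv ℝ F) := hF.fderiv_right (by simp)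
  have h2 : HasDerivAt (fun t => fderiv ℝ F (γ t))
      (fderiv ℝ (fderiv ℝ F) (γ 0) (w - (2 * c * 0) • e)) 0 :=
    (((hFF.differentiable (by simp)) (γ 0)).hasFDerivAt).comp_hasDerivAt (0 : ℝ) (hγd 0)
  have h3 : HasDerivAt (fun t : ℝ => w - (2 * c * t) • e) (-((2 * c) • e)) 0 := by
    have h4 : HasDerivAt (fun t : ℝ => 2 * c * t) (2 * c) 0 := by
      simpa using (hasDerivAt_id (0 : ℝ)).const_mul (2 * c)
    have h5 := (h4.smul_const e).const_sub w
    simpa using h5
  have h4 := h2.clm_apply h3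
  rw [h1']
  refine ⟨?_, ?_⟩
  · change fderiv ℝ F (γ 0) (w - (2 * c * 0) • e) = _
    rw [hγ0]; simp
  · rw [h4.deriv, hγ0]
    simp
    ring

/-- At the nondegenerate minimum the second derivative is positive on the tangent space. -/
theorem gauss_posdef (F : V → ℝ) (hF : ContDiff ℝ ∞ F) (e : V) (he : ‖e‖ = 1) (x₀ : V)
    (hx₀ : F x₀ = 0) (l : ℝ) (hl : 0 < l) (hg : gradient F x₀ = -(l • e))
    (hmin : ∀ x, F x ≤ 0 → x ≠ x₀ → ⟪x₀, e⟫ < ⟪x, e⟫)
    (hnd : ∀ w : V, ⟪w, e⟫ = 0 → w ≠ 0 →
      ∃ w' : V, ⟪w', e⟫ = 0 ∧ fderiv ℝ (fderiv ℝ F) x₀ w w' ≠ 0)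
    (w : V) (hw : ⟪w, e⟫ = 0) (hw0 : w ≠ 0) : 0 < fderiv ℝ (fderiv ℝ F) x₀ w w := by
  have hee : ⟪e, e⟫ = 1 := by rw [real_inner_self_eq_norm_sq, he]; norm_num
  have hnn : ∀ w : V, ⟪w, e⟫ = 0 → 0 ≤ fderiv ℝ (fderiv ℝ F) x₀ w w := by
    intro w hw
    by_contra hneg
    push Not at hneg
    set B := fderiv ℝ (fderiv ℝ F) x₀ w w with hB
    set c : ℝ := -B / (4 * l) with hc
    have hcpos : 0 < c := div_pos (by linarith) (by linarith)
    obtain ⟨h1, h2⟩ := gauss_second F hF x₀ w e c
    have h3 : fderiv ℝ F x₀ w = 0 := by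
      rw [gauss_fd, hg, inner_neg_left, inner_smul_left, real_inner_comm, hw]
      simp
    have h4 : fderiv ℝ F x₀ e = -l := by
      rw [gauss_fd, hg, inner_neg_left, inner_smul_left, hee]
      simp
    rw [h3] at h1
    rw [h4, ← hB] at h2
    have h5 : B - 2 * c * -l = B / 2 := by
      rw [hc]
      field_simp
      ring
    rw [h5] at h2
    have hmax := isLocalMax_of_deriv_deriv_neg (by rw [h2]; linarith) h1
      (by
        have : Continuous (fun t : ℝ => F (x₀ + t • w - (c * t ^ 2) • e)) :=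
          hF.continuous.comp (by fun_prop)
        exact this.continuousAt)
    have hev : ∀ᶠ t in nhdsWithin (0 : ℝ) (Ioi 0), F (x₀ + t • w - (c * t ^ 2) • e) ≤ 0 := by
      have : ∀ᶠ t in nhds (0 : ℝ), F (x₀ + t • w - (c * t ^ 2) • e) ≤ 0 := by
        filter_upwards [hmax] with t ht
        simpa [hx₀] using ht
      exact this.filter_mono nhdsWithin_le_nhds
    obtain ⟨t, ht, ht0⟩ := (hev.and self_mem_nhdsWithin).exists
    have ht0' : 0 < t := ht0
    have hheight : ⟪x₀ + t • w - (c * t ^ 2) • e, e⟫ = ⟪x₀, e⟫ - c * t ^ 2 := by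
      rw [inner_sub_left, inner_add_left, inner_smul_left, inner_smul_left, hw, hee]
      simp
    have hct : 0 < c * t ^ 2 := by positivity
    have hne : x₀ + t • w - (c * t ^ 2) • e ≠ x₀ := by
      intro h
      rw [h] at hheight
      linarith
    have := hmin _ ht hne
    rw [hheight] at this
    linarith
  refine lt_of_le_of_ne (hnn w hw) ?_
  intro h0
  obtain ⟨w', hw', hne⟩ := hnd w hw hw0
  set B := fderiv ℝ (fderiv ℝ F) x₀ with hB
  have hsymm : B w' w = B w w' :=
    (hF.contDiffAt.isSymmSndFDerivAt (by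
      rw [minSmoothness_of_isRCLikeNormedField]
      exact WithTop.coe_le_coe.2 le_top)).eq w' w
  set β := B w w' with hβ
  set γ := B w' w' with hγ
  have hγn : 0 ≤ γ := hnn w' hw'
  set t : ℝ := -β / (γ + 1) with ht
  have h1 : ⟪w + t • w', e⟫ = 0 := by
    rw [inner_add_left, inner_smul_left, hw, hw']
    simp
  have h2 := hnn _ h1
  have h3 : B (w + t • w') (w + t • w') = 2 * t * β + t ^ 2 * γ := by
    simp only [map_add, map_smul, add_apply, smul_apply, smul_eq_mul]
    rw [hsymm, ← h0, ← hβ, ← hγ]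
    ring
  rw [h3] at h2
  have h4 : 2 * t * β + t ^ 2 * γ = -(β ^ 2 * (γ + 2)) / (γ + 1) ^ 2 := by
    rw [ht]
    field_simp
    ring
  rw [h4] at h2
  have h5 : 0 < β ^ 2 := by positivity
  have h6 : -(β ^ 2 * (γ + 2)) / (γ + 1) ^ 2 < 0 := by
    apply div_neg_of_neg_of_pos
    · nlinarith
    · positivity
  linarith


/-- Near the minimum a function of `F` is convex. -/
theorem gauss_convex (F : V → ℝ) (hF : ContDiff ℝ ∞ F) (e : V) (he : ‖e‖ = 1) (x₀ : V)
    (hx₀ : F x₀ = 0) (l : ℝ) (hl : 0 < l) (hg : gradient F x₀ = -(l • e))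
    (hpd : ∀ w : V, ⟪w, e⟫ = 0 → w ≠ 0 → 0 < fderiv ℝ (fderiv ℝ F) x₀ w w) :
    ∃ ρ : ℝ, 0 < ρ ∧ ∀ x ∈ ball x₀ ρ, ∀ c ∈ ball x₀ ρ, F c < F x → 0 < fderiv ℝ F x (x - c) := by
  have hprop : ProperSpace V := FiniteDimensional.proper ℝ V
  have hFc : Continuous F := hF.continuous
  have hD : ContDiff ℝ ∞ (fderiv ℝ F) := hF.fderiv_right (by simp)
  have hDc : Continuous (fderiv ℝ F) := hD.continuous
  have hBc : Continuous (fderiv ℝ (fderiv ℝ F)) := hD.continuous_fderiv (by simp)
  have hS : IsCompact (sphere (0 : V) 1) := isCompact_sphere 0 1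
  -- the large constant
  obtain ⟨L, hL, hLpos⟩ : ∃ L : ℝ, 0 < L ∧ ∀ v ∈ sphere (0 : V) 1,
      0 < fderiv ℝ (fderiv ℝ F) x₀ v v + 2 * L * (fderiv ℝ F x₀ v) ^ 2 := by
    set b : V → ℝ := fun v => fderiv ℝ (fderiv ℝ F) x₀ v v with hb
    set d : V → ℝ := fun v => (fderiv ℝ F x₀ v) ^ 2 with hd
    have hbc : Continuous b := by
      have h1 : Continuous fun v : V => fderiv ℝ (fderiv ℝ F) x₀ v :=
        (fderiv ℝ (fderiv ℝ F) x₀).continuous
      exact h1.clm_apply continuous_id
    have hdc : Continuous d := ((fderiv ℝ F x₀).continuous).pow 2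
    set Z : Set V := sphere (0 : V) 1 ∩ {v | b v ≤ 0} with hZ
    have hZc : IsCompact Z := hS.inter_right (isClosed_le hbc continuous_const)
    have hdpos : ∀ v ∈ Z, 0 < d v := by
      rintro v ⟨hv, hbv⟩
      have hv0 : v ≠ 0 := by
        rintro rfl
        simp at hv
      have hne : fderiv ℝ F x₀ v ≠ 0 := by
        intro h0
        rw [gauss_fd, hg, inner_neg_left, inner_smul_left] at h0
        have h1 : ⟪v, e⟫ = 0 := by
          rw [real_inner_comm]
          have : l * ⟪e, v⟫ = 0 := by simpa using h0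
          rcases mul_eq_zero.1 this with h2 | h2
          · exact absurd h2 hl.ne'
          · exact h2
        have h2 := hpd v h1 hv0
        have h3 : b v ≤ 0 := hbv
        simp only [hb] at h3
        linarith
      simp only [hd]
      positivity
    rcases Z.eq_empty_or_nonempty with hZe | hZn
    · refine ⟨1, one_pos, ?_⟩
      intro v hv
      have h1 : 0 < b v := by
        by_contra hcon
        push Not at hcon
        have : v ∈ Z := ⟨hv, hcon⟩
        rw [hZe] at this
        exact this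
      have h2 : 0 ≤ d v := sq_nonneg _
      simp only [hb, hd] at h1 h2
      linarith
    · obtain ⟨v1, hv1, hmin1⟩ := hZc.exists_isMinOn hZn hdc.continuousOn
      obtain ⟨v2, hv2, hmin2⟩ := hZc.exists_isMinOn hZn hbc.continuousOn
      have hd0 : 0 < d v1 := hdpos v1 hv1
      have hb2 : b v2 ≤ 0 := hv2.2
      refine ⟨(1 - b v2) / (2 * d v1), div_pos (by linarith) (by linarith), ?_⟩
      intro v hv
      change 0 < b v + 2 * ((1 - b v2) / (2 * d v1)) * d v
      have hcoef : 0 < 2 * ((1 - b v2) / (2 * d v1)) := by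
        have : 0 < (1 - b v2) / (2 * d v1) := div_pos (by linarith) (by linarith)
        linarith
      by_cases hvZ : b v ≤ 0
      · have h1 : d v1 ≤ d v := hmin1 (⟨hv, hvZ⟩ : v ∈ Z)
        have h2 : b v2 ≤ b v := hmin2 (⟨hv, hvZ⟩ : v ∈ Z)
        have h3 : 2 * ((1 - b v2) / (2 * d v1)) * d v1 = 1 - b v2 := by
          field_simp
        have h4 := mul_le_mul_of_nonneg_left h1 hcoef.le
        linarith
      · push Not at hvZ
        have : 0 ≤ d v := sq_nonneg _
        have := mul_nonneg hcoef.le this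
        linarith
  -- the second derivative of `F + L F ^ 2`
  set Q : V × V → ℝ := fun q => (1 + 2 * L * F q.1) * fderiv ℝ (fderiv ℝ F) q.1 q.2 q.2 +
    2 * L * (fderiv ℝ F q.1 q.2) ^ 2 with hQ
  have hQc : Continuous Q := by
    have h1 : Continuous fun q : V × V => fderiv ℝ (fderiv ℝ F) q.1 q.2 q.2 :=
      ((hBc.comp continuous_fst).clm_apply continuous_snd).clm_apply continuous_snd
    have h2 : Continuous fun q : V × V => fderiv ℝ F q.1 q.2 :=
      (hDc.comp continuous_fst).clm_apply continuous_snd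
    have h3 : Continuous fun q : V × V => F q.1 := hFc.comp continuous_fst
    exact ((continuous_const.add (continuous_const.mul h3)).mul h1).add
      (continuous_const.mul (h2.pow 2))
  have hev1 : ∀ᶠ x in nhds x₀, ∀ v ∈ sphere (0 : V) 1, 0 < Q (x, v) := by
    apply hS.eventually_forall_of_forall_eventually
    intro v hv
    have h1 : 0 < Q (x₀, v) := by
      simp only [hQ, hx₀]
      have := hLpos v hv
      linarith
    have := (hQc.continuousAt (x := (x₀, v))).eventually_const_lt h1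
    simpa using this
  have hev2 : ∀ᶠ x in nhds x₀, 0 < 1 + 2 * L * F x := by
    have h1 : Continuous fun x : V => 1 + 2 * L * F x := by fun_prop
    refine (h1.tendsto x₀).eventually_const_lt ?_
    rw [hx₀]
    norm_num
  obtain ⟨ρ, hρ, hball⟩ := Metric.eventually_nhds_iff_ball.1 (hev1.and hev2)
  refine ⟨ρ, hρ, ?_⟩
  intro x hx c hc hFF
  have hxc : x - c ≠ 0 := by
    intro h
    rw [sub_eq_zero.1 h] at hFF
    exact lt_irrefl _ hFF
  set v : V := x - c with hv
  have hvn : 0 < ‖v‖ := norm_pos_iff.2 hxc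
  set γ : ℝ → V := fun t => c + t • v with hγ
  have hγball : ∀ t ∈ Icc (0 : ℝ) 1, γ t ∈ ball x₀ ρ := by
    intro t ht
    have h1 : γ t = (1 - t) • c + t • x := by
      simp only [hγ, hv, smul_sub, sub_smul, one_smul]
      abel
    rw [h1]
    exact (convex_ball x₀ ρ) hc hx (by linarith [ht.2]) ht.1 (by ring)
  have hQpos : ∀ t ∈ Icc (0 : ℝ) 1, 0 < Q (γ t, v) := by
    intro t ht
    have h1 := (hball (γ t) (hγball t ht)).1 (‖v‖⁻¹ • v) (by simp [norm_smul, hvn.ne'])
    have h2 : Q (γ t, v) = ‖v‖ ^ 2 * Q (γ t, ‖v‖⁻¹ • v) := by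
      simp only [hQ, map_smul, smul_apply, smul_eq_mul]
      field_simp
    rw [h2]
    positivity
  have hγd : ∀ t, HasDerivAt γ v t := by
    intro t
    have h : HasDerivAt γ ((1 : ℝ) • v) t := ((hasDerivAt_id t).smul_const v).const_add c
    rwa [one_smul] at h
  have hFd : ∀ y, HasFDerivAt F (fderiv ℝ F y) y := fun y =>
    ((hF.differentiable (by simp)) y).hasFDerivAt
  -- first and second derivative of `ψ t = F (γ t) + L (F (γ t)) ^ 2`
  set ψ' : ℝ → ℝ := fun t => (1 + 2 * L * F (γ t)) * fderiv ℝ F (γ t) v with hψ'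
  have h1 : ∀ t, HasDerivAt (fun t => F (γ t)) (fderiv ℝ F (γ t) v) t :=
    fun t => (hFd (γ t)).comp_hasDerivAt t (hγd t)
  have h2 : ∀ t, HasDerivAt (fun t => F (γ t) + L * (F (γ t)) ^ 2) (ψ' t) t := by
    intro t
    have h3 := (h1 t).add (((h1 t).pow 2).const_mul L)
    convert! h3 using 1
    simp only [hψ']
    norm_num
    ring
  have h3 : ∀ t, HasDerivAt (fun t => fderiv ℝ F (γ t) v)
      (fderiv ℝ (fderiv ℝ F) (γ t) v v) t := by
    intro t
    have h4 : HasDerivAt (fun t => fderiv ℝ F (γ t)) (fderiv ℝ (fderiv ℝ F) (γ t) v) t :=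
      (((hD.differentiable (by simp)) (γ t)).hasFDerivAt).comp_hasDerivAt t (hγd t)
    have h5 := h4.clm_apply (hasDerivAt_const t v)
    simpa using h5
  have h4 : ∀ t, HasDerivAt ψ' (Q (γ t, v)) t := by
    intro t
    have h5 := (((h1 t).const_mul (2 * L)).const_add 1).mul (h3 t)
    have h6 : HasDerivAt ψ' (2 * L * fderiv ℝ F (γ t) v * fderiv ℝ F (γ t) v +
      (1 + 2 * L * F (γ t)) * fderiv ℝ (fderiv ℝ F) (γ t) v v) t := h5
    convert h6 using 1
    simp only [hQ]
    ring
  -- mean value theorem twice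
  have hγ0 : γ 0 = c := by simp [hγ]
  have hγ1 : γ 1 = x := by simp [hγ, hv]
  obtain ⟨ξ, hξ, hξe⟩ := exists_hasDerivAt_eq_slope (fun t => F (γ t) + L * (F (γ t)) ^ 2) ψ'
    (zero_lt_one' ℝ) (fun t _ => (h2 t).continuousAt.continuousWithinAt) (fun t _ => h2 t)
  have hcp := (hball c hc).2
  have hxp := (hball x hx).2
  have hψξ : 0 < ψ' ξ := by
    rw [hξe, hγ0, hγ1]
    have : F x + L * F x ^ 2 - (F c + L * F c ^ 2) = (F x - F c) * (1 + L * (F x + F c)) := by ring
    rw [this]
    have h5 : 0 < 1 + L * (F x + F c) := by nlinarith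
    have h6 : 0 < F x - F c := by linarith
    have := mul_pos h6 h5
    simpa using this
  have hmono : ψ' ξ ≤ ψ' 1 := by
    rcases eq_or_lt_of_le hξ.2.le with h5 | h5
    · rw [h5]
    · obtain ⟨η, hη, hηe⟩ := exists_hasDerivAt_eq_slope ψ' (fun t => Q (γ t, v)) h5
        (fun t _ => (h4 t).continuousAt.continuousWithinAt) (fun t _ => h4 t)
      have h6 := hQpos η ⟨by linarith [hη.1, hξ.1], hη.2.le⟩
      rw [hηe] at h6
      have h7 : 0 < 1 - ξ := by linarith
      have h8 := mul_pos h6 h7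
      rw [div_mul_cancel₀ _ h7.ne'] at h8
      linarith
  have hψ1 : 0 < ψ' 1 := lt_of_lt_of_le hψξ hmono
  simp only [hψ', hγ1] at hψ1
  exact (mul_pos_iff_of_pos_left hxp).1 hψ1


/-- a smooth monotone function vanishing exactly on `(-∞, 0]`, with positive derivative after. -/
private theorem gauss_sigma : ∃ σ : ℝ → ℝ, ContDiff ℝ ∞ σ ∧ (∀ u, u ≤ 0 → σ u = 0) ∧
    (∀ u, 0 < u → 0 < σ u) ∧ (∀ u, 0 ≤ deriv σ u) ∧ (∀ u, 0 < u → 0 < deriv σ u) ∧
    (∀ u, u ≤ 0 → deriv σ u = 0) ∧ Monotone σ := by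
  set g : ℝ → ℝ := Real.smoothTransition with hg
  have hgs : ContDiff ℝ ∞ g := Real.smoothTransition.contDiff
  have hgc : Continuous g := hgs.continuous
  set σ : ℝ → ℝ := fun u => ∫ t in (0 : ℝ)..u, g t with hσ
  have hder : ∀ u, HasDerivAt σ (g u) u := fun u =>
    intervalIntegral.integral_hasDerivAt_right (hgc.intervalIntegrable _ _)
      (hgc.stronglyMeasurableAtFilter _ _) hgc.continuousAt
  have hd : deriv σ = g := funext fun u => (hder u).deriv
  have hmono : Monotone σ := by
    refine monotone_of_deriv_nonneg (fun u => (hder u).differentiableAt) fun u => ?_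
    rw [hd]
    exact Real.smoothTransition.nonneg _
  have h0 : σ 0 = 0 := by simp [hσ]
  refine ⟨σ, ?_, ?_, ?_, ?_, ?_, ?_, hmono⟩
  · rw [contDiff_infty_iff_deriv]
    refine ⟨fun u => (hder u).differentiableAt, ?_⟩
    rw [hd]
    exact hgs
  · intro u hu
    have h1 : σ u = ∫ t in (0 : ℝ)..u, (0 : ℝ) := by
      refine intervalIntegral.integral_congr fun t ht => ?_
      rw [Set.uIcc_of_ge hu] at ht
      exact Real.smoothTransition.zero_of_nonpos ht.2
    rw [h1]
    simp
  · intro u hu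
    obtain ⟨ξ, hξ, hξe⟩ := exists_hasDerivAt_eq_slope σ g hu
      (fun t _ => (hder t).continuousAt.continuousWithinAt) (fun t _ => hder t)
    have h1 : 0 < g ξ := Real.smoothTransition.pos_of_pos hξ.1
    rw [hξe, h0, sub_zero, sub_zero] at h1
    have := mul_pos h1 hu
    rwa [div_mul_cancel₀ _ hu.ne'] at this
  · intro u
    rw [hd]
    exact Real.smoothTransition.nonneg _
  · intro u hu
    rw [hd]
    exact Real.smoothTransition.pos_of_pos hu
  · intro u hu
    rw [hd]
    exact Real.smoothTransition.zero_of_nonpos hu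

theorem gauss_criterion (F : V → ℝ) (hF : ContDiff ℝ ∞ F)
    (hb : Bornology.IsBounded {x | F x ≤ 0}) (hreg : ∀ x, F x = 0 → gradient F x ≠ 0)
    (e : V) (he : ‖e‖ = 1) (x₀ : V) (hx₀ : F x₀ = 0)
    (huniq : ∀ x, F x = 0 → (∃ l : ℝ, 0 < l ∧ gradient F x = -(l • e)) → x = x₀)
    (hnd : ∀ w : V, ⟪w, e⟫ = 0 → w ≠ 0 →
      ∃ w' : V, ⟪w', e⟫ = 0 ∧ fderiv ℝ (fderiv ℝ F) x₀ w w' ≠ 0) :
    Carries {x | F x = 0} (sphere (0 : V) 1) := by
  have hprop : ProperSpace V := FiniteDimensional.proper ℝ V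
  have hee : ⟪e, e⟫ = 1 := by rw [real_inner_self_eq_norm_sq, he]; norm_num
  have hFc : Continuous F := hF.continuous
  have hKc : IsCompact {x | F x ≤ 0} :=
    Metric.isCompact_of_isClosed_isBounded (isClosed_le hFc continuous_const) hb
  obtain ⟨⟨l, hl, hg⟩, hmin⟩ := gauss_min F hF hb e he x₀ hx₀ huniq hreg
  have hpd := gauss_posdef F hF e he x₀ hx₀ l hl hg hmin hnd
  obtain ⟨ρ, hρ, hconv⟩ := gauss_convex F hF e he x₀ hx₀ l hl hg hpd
  set h : V → ℝ := fun x => ⟪x - x₀, e⟫ with hh
  have hhs : ContDiff ℝ ∞ h := (contDiff_id.sub contDiff_const).inner ℝ contDiff_const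
  have hhc : Continuous h := hhs.continuous
  have hhd : ∀ x, HasFDerivAt h (innerSL ℝ e) x := by
    intro x
    have h1 : HasFDerivAt (fun y : V => innerSL ℝ e (y - x₀)) (innerSL ℝ e) x := by
      have h2 : HasFDerivAt (fun y : V => y - x₀) (ContinuousLinearMap.id ℝ V) x :=
        (hasFDerivAt_id x).sub_const _
      have := (innerSL ℝ e).hasFDerivAt.comp x h2
      rw [ContinuousLinearMap.comp_id] at this
      exact this
    have h2 : h = fun y : V => innerSL ℝ e (y - x₀) := by
      ext y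
      simp only [hh, innerSL_apply_apply]
      exact real_inner_comm _ _
    rw [h2]
    exact h1
  have hhpos : ∀ x, F x ≤ 0 → x ≠ x₀ → 0 < h x := by
    intro x hx hne
    have := hmin x hx hne
    simp only [hh, inner_sub_left]
    linarith
  have hh0 : h x₀ = 0 := by simp [hh]
  -- the height `τ`
  obtain ⟨τ, hτ, hτρ⟩ : ∃ τ : ℝ, 0 < τ ∧ ∀ x, F x ≤ 0 → h x ≤ 2 * τ → x ∈ ball x₀ ρ := by
    set Z : Set V := {x | F x ≤ 0} ∩ (ball x₀ ρ)ᶜ with hZ
    have hZc : IsCompact Z := hKc.inter_right isOpen_ball.isClosed_compl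
    rcases Z.eq_empty_or_nonempty with hZe | hZn
    · refine ⟨1, one_pos, fun x hx _ => ?_⟩
      by_contra hcon
      have : x ∈ Z := ⟨hx, hcon⟩
      rw [hZe] at this
      exact this
    · obtain ⟨x1, hx1, hmin1⟩ := hZc.exists_isMinOn hZn hhc.continuousOn
      have h1 : 0 < h x1 := by
        refine hhpos x1 hx1.1 ?_
        rintro rfl
        exact hx1.2 (mem_ball_self hρ)
      refine ⟨h x1 / 4, by linarith, fun x hx hhx => ?_⟩
      by_contra hcon
      have h2 : h x1 ≤ h x := hmin1 (⟨hx, hcon⟩ : x ∈ Z)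
      linarith
  -- the centre
  obtain ⟨t, ht0, htτ, htρ, htF⟩ : ∃ t : ℝ, 0 < t ∧ t < τ ∧ t < ρ ∧ F (x₀ + t • e) < 0 := by
    have hd : HasDerivAt (fun t : ℝ => F (x₀ + t • e)) (-l) 0 := by
      have h1 : HasFDerivAt F (fderiv ℝ F x₀) (x₀ + (0 : ℝ) • e) := by
        rw [zero_smul, add_zero]
        exact ((hF.differentiable (by simp)) x₀).hasFDerivAt
      have h2 : HasDerivAt (fun t : ℝ => x₀ + t • e) e 0 := by
        have := ((hasDerivAt_id (0 : ℝ)).smul_const e).const_add x₀
        simpa using this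
      have h3 := h1.comp_hasDerivAt (0 : ℝ) h2
      have h4 : fderiv ℝ F x₀ e = -l := by
        rw [gauss_fd, hg, inner_neg_left, inner_smul_left, hee]
        simp
      rw [h4] at h3
      exact h3
    have h5 := hasDerivAt_iff_tendsto_slope.1 hd
    have hsub : Ioi (0 : ℝ) ⊆ {0}ᶜ := fun t ht => ne_of_gt ht
    have h6 : ∀ᶠ t in nhdsWithin (0 : ℝ) (Ioi 0), slope (fun t : ℝ => F (x₀ + t • e)) 0 t < 0 :=
      (h5.eventually_lt_const (by linarith : -l < 0)).filter_mono (nhdsWithin_mono _ hsub)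
    have h7 : ∀ᶠ t in nhdsWithin (0 : ℝ) (Ioi 0), t < min τ ρ := by
      have : ∀ᶠ t in nhds (0 : ℝ), t < min τ ρ := eventually_lt_nhds (lt_min hτ hρ)
      exact this.filter_mono nhdsWithin_le_nhds
    obtain ⟨t, ⟨ht1, ht2⟩, ht3⟩ := ((h6.and h7).and self_mem_nhdsWithin).exists
    have ht3' : 0 < t := ht3
    refine ⟨t, ht3', lt_of_lt_of_le ht2 (min_le_left _ _), lt_of_lt_of_le ht2 (min_le_right _ _), ?_⟩
    rw [slope_def_field] at ht1
    by_contra hcon
    push Not at hcon
    have h8 : F (x₀ + (0 : ℝ) • e) = 0 := by rw [zero_smul, add_zero, hx₀]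
    rw [h8] at ht1
    have := div_nonneg (by linarith : 0 ≤ F (x₀ + t • e) - 0) (by linarith : (0 : ℝ) ≤ t - 0)
    linarith
  set c : V := x₀ + t • e with hc
  have hhct : h c = t := by
    simp only [hh, hc, add_sub_cancel_left, inner_smul_left, hee]
    simp
  have hcball : c ∈ ball x₀ ρ := by
    rw [mem_ball_iff_norm, hc, add_sub_cancel_left, norm_smul, he, mul_one, Real.norm_eq_abs,
      abs_of_pos ht0]
    exact htρ
  -- the margin `δ`
  have hgradc : Continuous (gradient F) := by
    have h1 : Continuous (fderiv ℝ F) := hF.continuous_fderiv (by simp)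
    exact (InnerProductSpace.toDual ℝ V).symm.continuous.comp h1
  obtain ⟨δ, hδ, hδc, hδZ⟩ : ∃ δ : ℝ, 0 < δ ∧ δ < -F c ∧ ∀ x, F x ≤ 0 → -δ ≤ F x →
      ∀ l : ℝ, 0 ≤ l → gradient F x = -(l • e) → h x < τ := by
    set Z : Set V := ({x | F x ≤ 0} ∩ {x | τ ≤ h x}) ∩
      {x | gradient F x = -(‖gradient F x‖ • e)} with hZ
    have hZc : IsCompact Z := by
      refine (hKc.inter_right (isClosed_le continuous_const hhc)).inter_right ?_
      exact isClosed_eq hgradc ((hgradc.norm.smul continuous_const).neg)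
    have hin : ∀ x, F x ≤ 0 → τ ≤ h x → ∀ l : ℝ, 0 ≤ l → gradient F x = -(l • e) → x ∈ Z := by
      intro x hx hhx l hl hgl
      refine ⟨⟨hx, hhx⟩, ?_⟩
      have : ‖gradient F x‖ = l := by
        rw [hgl, norm_neg, norm_smul, he, mul_one, Real.norm_eq_abs, abs_of_nonneg hl]
      change gradient F x = -(‖gradient F x‖ • e)
      rw [this]
      exact hgl
    rcases Z.eq_empty_or_nonempty with hZe | hZn
    · refine ⟨-F c / 2, by linarith, by linarith, fun x hx _ l hl hgl => ?_⟩
      by_contra hcon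
      push Not at hcon
      have := hin x hx hcon l hl hgl
      rw [hZe] at this
      exact this
    · obtain ⟨x1, hx1, hmax1⟩ := hZc.exists_isMaxOn hZn hFc.continuousOn
      have h1 : F x1 < 0 := by
        refine lt_of_le_of_ne hx1.1.1 fun h0 => ?_
        have h2 : 0 < ‖gradient F x1‖ := norm_pos_iff.2 (hreg x1 h0)
        have h3 := huniq x1 h0 ⟨_, h2, hx1.2⟩
        have h4 : τ ≤ h x1 := hx1.1.2
        rw [h3, hh0] at h4
        linarith
      refine ⟨min (-F c) (-F x1) / 2, ?_, ?_, fun x hx hxδ l hl hgl => ?_⟩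
      · have : 0 < min (-F c) (-F x1) := lt_min (by linarith) (by linarith)
        linarith
      · have h2 := min_le_left (-F c) (-F x1)
        linarith
      · by_contra hcon
        push Not at hcon
        have h2 : F x ≤ F x1 := hmax1 (hin x hx hcon l hl hgl)
        have h3 := min_le_right (-F c) (-F x1)
        linarith
  obtain ⟨θ, hθs, hθ0, hθ1, hθ2, hθ3, hθ4⟩ := ray_theta δ hδ
  obtain ⟨σ, hσs, hσ0, hσ1, hσ2, hσ3, hσ4, hσm⟩ := gauss_sigma
  have hθm : Monotone θ :=
    monotone_of_deriv_nonneg (hθs.differentiable (by simp)) hθ0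
  have hθder : ∀ u, HasDerivAt θ (deriv θ u) u := fun u =>
    ((hθs.differentiable (by simp)) u).hasDerivAt
  have hσder : ∀ u, HasDerivAt σ (deriv σ u) u := fun u =>
    ((hσs.differentiable (by simp)) u).hasDerivAt
  have hFder : ∀ x, HasFDerivAt F (fderiv ℝ F x) x := fun x =>
    ((hF.differentiable (by simp)) x).hasFDerivAt
  -- `θ` is bounded below by its value at `-δ`
  have hθlow : ∀ u, θ (-δ) ≤ θ u := by
    intro u
    rcases le_total (-δ) u with h1 | h1
    · exact hθm h1
    · rcases eq_or_lt_of_le h1 with h2 | h2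
      · rw [h2]
      · obtain ⟨ξ, hξ, hξe⟩ := exists_hasDerivAt_eq_slope θ (deriv θ) h2
          (fun t _ => (hθder t).continuousAt.continuousWithinAt) (fun t _ => hθder t)
        rw [hθ1 ξ hξ.2.le] at hξe
        have h3 : 0 < -δ - u := by linarith
        have h4 : θ (-δ) - θ u = 0 := by
          have := hξe.symm
          rw [div_eq_zero_iff] at this
          rcases this with h5 | h5
          · exact h5
          · linarith
        linarith
  have hθz : ∀ u, θ u = 0 ↔ u = 0 := by
    intro u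
    constructor
    · intro h0
      by_contra hne
      rcases lt_or_gt_of_ne hne with h1 | h1
      · exact absurd h0 (hθ3 _ h1).ne
      · rw [hθ2 _ h1.le] at h0
        exact hne h0
    · intro h0
      rw [h0, hθ2 0 le_rfl]
  set η : ℝ := -θ (-δ) with hη
  have hηpos : 0 < η := by
    have := hθ3 (-δ) (by linarith)
    linarith
  have hστ : 0 < σ τ := hσ1 τ hτ
  set κ : ℝ := (η + 1) / σ τ with hκ
  have hκpos : 0 < κ := div_pos (by linarith) hστ
  have hκσ : κ * σ τ = η + 1 := div_mul_cancel₀ _ hστ.ne'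
  have hσnn : ∀ u, 0 ≤ σ u := by
    intro u
    rcases le_or_gt u 0 with h1 | h1
    · rw [hσ0 u h1]
    · exact (hσ1 u h1).le
  set G : ℝ × V → ℝ := fun q => θ (F q.2) + q.1 * (κ * σ (h q.2 - τ)) with hG
  have hGd : ∀ s x, HasFDerivAt (fun y : V => G (s, y))
      (deriv θ (F x) • fderiv ℝ F x + (s * (κ * deriv σ (h x - τ))) • innerSL ℝ e) x := by
    intro s x
    have h5 : HasFDerivAt (fun y : V => θ (F y)) (deriv θ (F x) • fderiv ℝ F x) x :=
      (hθder (F x)).comp_hasFDerivAt x (hFder x)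
    have h6 : HasFDerivAt (fun y : V => σ (h y - τ)) (deriv σ (h x - τ) • innerSL ℝ e) x :=
      (hσder (h x - τ)).comp_hasFDerivAt x ((hhd x).sub_const τ)
    have h7 := h5.add ((h6.const_mul κ).const_mul s)
    rw [smul_smul, smul_smul] at h7
    rw [← mul_assoc s κ]
    exact h7
  have hnonpos : ∀ s ∈ Icc (0 : ℝ) 1, ∀ x, G (s, x) = 0 → F x ≤ 0 := by
    intro s hs x hx
    by_contra hpos
    push Not at hpos
    have h1 : 0 < θ (F x) := by rw [hθ2 _ hpos.le]; exact hpos
    have h2 : 0 ≤ s * (κ * σ (h x - τ)) := mul_nonneg hs.1 (mul_nonneg hκpos.le (hσnn _))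
    have h3 : θ (F x) + s * (κ * σ (h x - τ)) = 0 := hx
    linarith
  have key := family (V := V) G (by
      refine ContDiff.add (hθs.comp (hF.comp contDiff_snd)) (contDiff_fst.mul
        (contDiff_const.mul (hσs.comp ((hhs.comp contDiff_snd).sub contDiff_const))))) {x | F x ≤ 0}
    hKc (by
      intro s hs x hx
      refine ⟨hnonpos s hs x hx, ?_⟩
      rw [(hGd s x).fderiv]
      intro h0
      have hx' : θ (F x) + s * (κ * σ (h x - τ)) = 0 := hx
      have hFx := hnonpos s hs x hx
      set om : ℝ := s * (κ * deriv σ (h x - τ)) with homd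
      have homnn : 0 ≤ om := mul_nonneg hs.1 (mul_nonneg hκpos.le (hσ2 _))
      rcases eq_or_lt_of_le homnn with hom0 | homp
      · have h1 : s * (κ * σ (h x - τ)) = 0 := by
          rcases mul_eq_zero.1 hom0.symm with h2 | h2
          · rw [h2, zero_mul]
          · rcases mul_eq_zero.1 h2 with h3 | h3
            · exact absurd h3 hκpos.ne'
            · have h4 : h x - τ ≤ 0 := by
                by_contra hcon
                push Not at hcon
                exact (hσ3 _ hcon).ne' h3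
              rw [hσ0 _ h4, mul_zero, mul_zero]
        rw [h1, add_zero] at hx'
        have h2 : F x = 0 := (hθz _).1 hx'
        rw [← hom0, zero_smul, add_zero, h2, hθ4, one_smul] at h0
        apply hreg x h2
        unfold gradient
        rw [h0]
        simp
      · have h1 : deriv θ (F x) ≠ 0 := by
          intro h2
          rw [h2, zero_smul, zero_add] at h0
          have h3 := congrArg (fun L : V →L[ℝ] ℝ => L e) h0
          simp only [smul_apply, innerSL_apply_apply, hee, zero_apply, smul_eq_mul] at h3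
          linarith
        have h2 : 0 < deriv θ (F x) := lt_of_le_of_ne (hθ0 _) (Ne.symm h1)
        have h3 : -δ ≤ F x := by
          by_contra hcon
          push Not at hcon
          exact h1 (hθ1 _ hcon.le)
        have h4 : gradient F x = -((om / deriv θ (F x)) • e) := by
          apply ext_inner_right ℝ
          intro v
          have h5 := congrArg (fun L : V →L[ℝ] ℝ => L v) h0
          simp only [add_apply, smul_apply, innerSL_apply_apply, zero_apply, smul_eq_mul] at h5
          rw [← gauss_fd, inner_neg_left, inner_smul_left]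
          simp only [conj_trivial]
          field_simp
          linarith
        have h5 := hδZ x hFx h3 _ (div_nonneg homnn h2.le) h4
        have h6 : deriv σ (h x - τ) = 0 := hσ4 _ (by linarith)
        rw [homd, h6, mul_zero, mul_zero] at homp
        exact lt_irrefl _ homp)
  have e0 : {x : V | G (0, x) = 0} = {x | F x = 0} := by
    ext x
    simp only [hG, Set.mem_ofPred_eq, zero_mul, add_zero]
    exact hθz _
  rw [e0] at key
  refine key.trans ?_
  set F1 : V → ℝ := fun x => G (1, x) with hF1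
  have hF1s : ContDiff ℝ ∞ F1 := by
    simp only [hF1, hG]
    exact (hθs.comp hF).add (contDiff_const.mul (contDiff_const.mul
      (hσs.comp (hhs.sub contDiff_const))))
  have hF1v : ∀ x, F1 x = θ (F x) + κ * σ (h x - τ) := by
    intro x
    simp only [hF1, hG, one_mul]
  have hF1d : ∀ x, fderiv ℝ F1 x =
      deriv θ (F x) • fderiv ℝ F x + (κ * deriv σ (h x - τ)) • innerSL ℝ e := by
    intro x
    have := (hGd 1 x).fderiv
    rw [one_mul] at this
    exact this
  have hF1n : ∀ x, F1 x ≤ 0 → F x ≤ 0 := by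
    intro x hx
    by_contra hpos
    push Not at hpos
    rw [hF1v, hθ2 _ hpos.le] at hx
    have := mul_nonneg hκpos.le (hσnn (h x - τ))
    linarith
  have hray := ray_criterion F1 hF1s (hb.subset fun x hx => hF1n x hx) c (by
      rw [hF1v, hhct, hσ0 _ (by linarith), mul_zero, add_zero]
      exact hθ3 _ htF) (by
      intro x hx l hl heq
      have hx' : θ (F x) + κ * σ (h x - τ) = 0 := by rw [← hF1v]; exact hx
      have hFx : F x ≤ 0 := hF1n x hx.le
      have hhx : h x ≤ 2 * τ := by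
        by_contra hcon
        push Not at hcon
        have h1 : σ τ ≤ σ (h x - τ) := hσm (by linarith)
        have h2 := mul_le_mul_of_nonneg_left h1 hκpos.le
        have h3 := hθlow (F x)
        rw [hκσ] at h2
        linarith
      have hxb : x ∈ ball x₀ ρ := hτρ x hFx hhx
      have h1 := congrArg (fun L : V →L[ℝ] ℝ => L (x - c)) heq
      rw [hF1d] at h1
      simp only [add_apply, smul_apply, innerSL_apply_apply, smul_eq_mul, neg_apply,
        real_inner_self_eq_norm_sq] at h1
      have h2 : ⟪e, x - c⟫ = h x - t := by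
        have h3 : ⟪e, x - c⟫ = h x - h c := by
          simp only [hh]
          rw [← inner_sub_left, real_inner_comm]
          congr 1
          abel
        rw [h3, hhct]
      rw [h2] at h1
      have h3 : 0 ≤ deriv θ (F x) * fderiv ℝ F x (x - c) := by
        rcases le_or_gt (F x) (-δ) with h4 | h4
        · rw [hθ1 _ h4, zero_mul]
        · exact mul_nonneg (hθ0 _) (hconv x hxb c hcball (by linarith)).le
      have h5 : 0 ≤ κ * deriv σ (h x - τ) * (h x - t) := by
        rcases le_or_gt (h x - τ) 0 with h4 | h4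
        · rw [hσ4 _ h4, mul_zero, zero_mul]
        · exact mul_nonneg (mul_nonneg hκpos.le (hσ2 _)) (by linarith)
      have h6 : 0 ≤ l * ‖x - c‖ ^ 2 := by positivity
      rcases le_or_gt (h x - τ) 0 with h4 | h4
      · rw [hσ0 _ h4, mul_zero, add_zero] at hx'
        have h7 : F x = 0 := (hθz _).1 hx'
        have h8 : 0 < fderiv ℝ F x (x - c) := hconv x hxb c hcball (by linarith)
        rw [h7, hθ4, one_mul] at h1
        linarith
      · have h7 : 0 < κ * deriv σ (h x - τ) * (h x - t) :=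
          mul_pos (mul_pos hκpos (hσ3 _ h4)) (by linarith)
        linarith) 1 one_pos
  exact hray.trans (sphere_carries c 0 1 1 one_pos one_pos)

end Pool.Schoen
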