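import Pool.Agent.H.MP_6c077c_gt.AreaLoc

/-! The area inequality for the unit normal of a compact regular level set. -/

set_option autoImplicit false

namespace Pool.Schoen

open MeasureTheory Measure Module Set Filter
open scoped ENNReal NNReal Topology RealInnerProductSpace ContDiff

variable {V : Type*} [NormedAddCommGroup V] [InnerProductSpace ℝ V]

theorem continuous_nproj : Continuous (nproj : V → V →L[ℝ] V) := by
  have h1 : Continuous fun u : V => ContinuousLinearMap.smulRightL ℝ V V (innerSL ℝ u) u := by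
    have h2 : Continuous fun u : V => ContinuousLinearMap.smulRightL ℝ V V (innerSL ℝ u) :=
      (ContinuousLinearMap.smulRightL ℝ V V).continuous.comp (innerSL ℝ).continuous
    exact h2.clm_apply continuous_id
  exact h1

theorem continuous_tproj : Continuous (tproj : V → V →L[ℝ] V) := by
  have h1 : (tproj : V → V →L[ℝ] V) = fun u => ContinuousLinearMap.id ℝ V - nproj u := rfl
  rw [h1]
  exact continuous_const.sub continuous_nproj

variable [FiniteDimensional ℝ V]

theorem nrm_continuousAt (F : V → ℝ) (hF : ContDiff ℝ 2 F) (x : V) (hx : gradient F x ≠ 0) :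
    ContinuousAt (nrm F) x := by
  obtain ⟨c, hc⟩ := nrm_hasStrict F hF x hx
  exact hc.continuousAt

theorem shape_continuousAt (F : V → ℝ) (hF : ContDiff ℝ 2 F) (x : V) (hx : gradient F x ≠ 0) :
    ContinuousAt (shape F) x := by
  have hG := gradient_contDiff F hF
  have h1 := nrm_continuousAt F hF x hx
  have h2 : ContinuousAt (fun y => tproj (nrm F y)) x :=
    continuous_tproj.continuousAt.comp h1
  have h3 : ContinuousAt (fun y => fderiv ℝ (gradient F) y) x :=
    (hG.continuous_fderiv one_ne_zero).continuousAt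
  have h4 : ContinuousAt (fun y => ‖gradient F y‖⁻¹) x :=
    (hG.continuous.norm.continuousAt).inv₀ (norm_ne_zero_iff.2 hx)
  exact h4.smul (h2.clm_comp (h3.clm_comp h2))

theorem gaussK_continuousAt (F : V → ℝ) (hF : ContDiff ℝ 2 F) (x : V) (hx : gradient F x ≠ 0) :
    ContinuousAt (gaussK F) x := by
  have h1 := nrm_continuousAt F hF x hx
  have h2 : ContinuousAt (fun y => nproj (nrm F y)) x :=
    continuous_nproj.continuousAt.comp h1
  have h3 : Continuous fun A : V →L[ℝ] V => A.det := ContinuousLinearMap.continuous_det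
  exact h3.continuousAt.comp ((shape_continuousAt F hF x hx).add h2)

variable [MeasurableSpace V] [BorelSpace V]

theorem finite_measure (n : ℕ) (hn : finrank ℝ V = n + 1) (F : V → ℝ) (hF : ContDiff ℝ 2 F)
    (hreg : ∀ x, F x = 0 → gradient F x ≠ 0) (hK : IsCompact {x | F x = 0}) :
    μH[(n : ℕ)] {x | F x = 0} < ⊤ := by
  have h1 : ∀ x ∈ {x | F x = 0}, ∃ O ∈ 𝓝 x, μH[(n : ℕ)] ({x | F x = 0} ∩ O) < ⊤ :=
    fun x hx => finite_local n hn F hF x (hreg x hx)
  refine hK.induction_on (p := fun s => μH[(n : ℕ)] s < ⊤) (by simp)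
    (fun s t hst ht => (measure_mono hst).trans_lt ht)
    (fun s t hs ht => (measure_union_le s t).trans_lt (ENNReal.add_lt_top.2 ⟨hs, ht⟩)) ?_
  intro x hx
  obtain ⟨O, hO, hOO⟩ := h1 x hx
  exact ⟨{x | F x = 0} ∩ O, inter_mem self_mem_nhdsWithin (mem_nhdsWithin_of_mem_nhds hO), hOO⟩

/-- The area inequality for the unit normal of a compact regular level set: the normal image
of a measurable part `U` has measure at most the integral over `U` of the absolute value of the
Gauss-Kronecker curvature. -/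
theorem area_le (n : ℕ) (hn : finrank ℝ V = n + 1) (F : V → ℝ) (hF : ContDiff ℝ 2 F)
    (hreg : ∀ x, F x = 0 → gradient F x ≠ 0) (hK : IsCompact {x | F x = 0})
    (U : Set V) (hU : MeasurableSet U) (hUM : U ⊆ {x | F x = 0}) :
    μH[(n : ℕ)] (nrm F '' U) ≤ ∫⁻ x in U, ENNReal.ofReal |gaussK F x| ∂μH[(n : ℕ)] := by
  have hfin := finite_measure n hn F hF hreg hK
  have hUfin : μH[(n : ℕ)] U ≠ ⊤ := ((measure_mono hUM).trans_lt hfin).ne
  -- for each `ε`, a bound with the error `2 ε μ(U)`
  have hε : ∀ ε : ℝ≥0, 0 < ε → μH[(n : ℕ)] (nrm F '' U) ≤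
      ∫⁻ x in U, ENNReal.ofReal |gaussK F x| ∂μH[(n : ℕ)] + 2 * ε * μH[(n : ℕ)] U := by
    intro ε hεp
    let p : Set V → Prop := fun s => ∀ A : Set V, MeasurableSet A → A ⊆ s → A ⊆ U →
      μH[(n : ℕ)] (nrm F '' A) ≤ ∫⁻ x in A, ENNReal.ofReal |gaussK F x| ∂μH[(n : ℕ)] +
        2 * ε * μH[(n : ℕ)] A
    -- measurable version of the induction: carry an open neighbourhood
    let q : Set V → Prop := fun s => ∃ W : Set V, IsOpen W ∧ s ⊆ W ∧ p W
    have hq : q {x | F x = 0} := by
      refine hK.induction_on (p := q) ?_ ?_ ?_ ?_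
      · refine ⟨∅, isOpen_empty, subset_rfl, fun A _ hA _ => ?_⟩
        rw [subset_empty_iff.1 hA]
        simp
      · rintro s t hst ⟨W, hW, hsW, hp⟩
        exact ⟨W, hW, hst.trans hsW, hp⟩
      · rintro s t ⟨W, hW, hsW, hp⟩ ⟨W', hW', htW', hp'⟩
        refine ⟨W ∪ W', hW.union hW', union_subset_union hsW htW', fun A hA hAW hAU => ?_⟩
        have e1 : A = A ∩ W ∪ A \ W := (inter_union_sdiff A W).symm
        have m1 : MeasurableSet (A ∩ W) := hA.inter hW.measurableSet
        have m2 : MeasurableSet (A \ W) := hA.diff hW.measurableSet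
        have hd : Disjoint (A ∩ W) (A \ W) := disjoint_sdiff_right.mono_left inter_subset_right
        have i1 := hp (A ∩ W) m1 inter_subset_right (inter_subset_left.trans hAU)
        have i2 := hp' (A \ W) m2 (fun x hx => (hAW hx.1).resolve_left hx.2)
          (sdiff_subset.trans hAU)
        have e2 : μH[(n : ℕ)] A = μH[(n : ℕ)] (A ∩ W) + μH[(n : ℕ)] (A \ W) :=
          (measure_inter_add_sdiff A hW.measurableSet).symm
        have e3 : ∫⁻ x in A, ENNReal.ofReal |gaussK F x| ∂μH[(n : ℕ)] =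
            ∫⁻ x in A ∩ W, ENNReal.ofReal |gaussK F x| ∂μH[(n : ℕ)] +
            ∫⁻ x in A \ W, ENNReal.ofReal |gaussK F x| ∂μH[(n : ℕ)] := by
          conv_lhs => rw [e1]
          exact lintegral_union m2 hd
        calc μH[(n : ℕ)] (nrm F '' A)
            = μH[(n : ℕ)] (nrm F '' (A ∩ W) ∪ nrm F '' (A \ W)) := by
              rw [← image_union, ← e1]
          _ ≤ μH[(n : ℕ)] (nrm F '' (A ∩ W)) + μH[(n : ℕ)] (nrm F '' (A \ W)) :=
              measure_union_le _ _
          _ ≤ _ := add_le_add i1 i2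
          _ = _ := by rw [e2, e3]; ring
      · intro x hx
        have hgx := hreg x hx
        have hm : ENNReal.ofReal |gaussK F x| < ((⟨|gaussK F x|, abs_nonneg _⟩ + ε : ℝ≥0) : ℝ≥0∞) := by
          rw [ENNReal.ofReal_eq_coe_nnreal (abs_nonneg _)]
          exact_mod_cast lt_add_of_pos_right _ hεp
        obtain ⟨O, hO, hOO⟩ := area_local n hn F hF x hgx _ hm
        have hKc := (gaussK_continuousAt F hF x hgx).abs
        have hO2 : {y | |gaussK F x| - ε < |gaussK F y|} ∈ 𝓝 x :=
          hKc.eventually_const_lt (by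
            have : (0 : ℝ) < ε := by exact_mod_cast hεp
            linarith)
        obtain ⟨W, hWO, hWopen, hxW⟩ := mem_nhds_iff.1 (inter_mem hO hO2)
        refine ⟨W, mem_nhdsWithin_of_mem_nhds (hWopen.mem_nhds hxW), W, hWopen, subset_rfl,
          fun A hA hAW hAU => ?_⟩
        have i1 := hOO A (fun y hy => ⟨hUM (hAU hy), (hWO (hAW hy)).1⟩)
        refine i1.trans ?_
        have i2 : ∀ y ∈ A, ((⟨|gaussK F x|, abs_nonneg _⟩ + ε : ℝ≥0) : ℝ≥0∞) ≤
            ENNReal.ofReal |gaussK F y| + 2 * ε := by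
          intro y hy
          have h1 : |gaussK F x| - ε < |gaussK F y| := (hWO (hAW hy)).2
          have h2 : (⟨|gaussK F x|, abs_nonneg _⟩ + ε : ℝ≥0) ≤
              (⟨|gaussK F y|, abs_nonneg _⟩ + 2 * ε : ℝ≥0) := by
            rw [← NNReal.coe_le_coe]
            show |gaussK F x| + (ε : ℝ) ≤ |gaussK F y| + 2 * ε
            linarith
          rw [ENNReal.ofReal_eq_coe_nnreal (abs_nonneg _)]
          exact_mod_cast h2
        calc ((⟨|gaussK F x|, abs_nonneg _⟩ + ε : ℝ≥0) : ℝ≥0∞) * μH[(n : ℕ)] A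
            = ∫⁻ _ in A, ((⟨|gaussK F x|, abs_nonneg _⟩ + ε : ℝ≥0) : ℝ≥0∞) ∂μH[(n : ℕ)] := by
              rw [setLIntegral_const]
          _ ≤ ∫⁻ y in A, (ENNReal.ofReal |gaussK F y| + 2 * ε) ∂μH[(n : ℕ)] :=
              setLIntegral_mono' hA i2
          _ = _ := by
              rw [lintegral_add_right _ measurable_const, setLIntegral_const]
    obtain ⟨W, _, hMW, hp⟩ := hq
    exact hp U hU (hUM.trans hMW) subset_rfl
  refine ENNReal.le_of_forall_pos_le_add fun δ hδ _ => ?_
  -- choose `ε` with `2 ε μ(U) ≤ δ`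
  set μU := (μH[(n : ℕ)] U).toNNReal with hμU
  have hμU' : μH[(n : ℕ)] U = μU := (ENNReal.coe_toNNReal hUfin).symm
  have hε0 : 0 < δ / (2 * (μU + 1)) := by positivity
  refine (hε _ hε0).trans ?_
  gcongr
  rw [hμU']
  have : 2 * (δ / (2 * (μU + 1))) * μU ≤ δ := by
    have h1 : 2 * (δ / (2 * (μU + 1))) * μU = δ * (μU / (μU + 1)) := by
      field_simp
    rw [h1]
    have h2 : μU / (μU + 1) ≤ 1 := by
      rw [div_le_one (by positivity)]
      exact le_self_add
    calc δ * (μU / (μU + 1)) ≤ δ * 1 := by gcongr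
      _ = δ := mul_one _
  exact_mod_cast this

end Pool.Schoen
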