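import Pool.Agent.H.MP_6c077c_gt.NoRetract

/-! Fixed points for compact domains bounded by a topological sphere. -/

set_option autoImplicit false

namespace Pool.Schoen

open Metric Set

variable {E V : Type*} [NormedAddCommGroup E] [InnerProductSpace ℝ E] [FiniteDimensional ℝ E]
  [NormedAddCommGroup V] [InnerProductSpace ℝ V] [FiniteDimensional ℝ V]

/-- the parameter of the deformation towards `z`. -/
noncomputable def fixlS (z : E) (t : ℝ) (x : E) : ℝ := t * min 1 (1 + inner ℝ x z)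

/-- the vector which is normalised. -/
noncomputable def fixlV (z : E) (t : ℝ) (x : E) : E :=
  (1 - fixlS z t x) • x + fixlS z t x • z

/-- the deformation of the sphere pushing the hemisphere around `z` to `z`. -/
noncomputable def fixlPhi (z : E) (t : ℝ) (x : E) : E :=
  ‖fixlV z t x‖⁻¹ • fixlV z t x

omit [FiniteDimensional ℝ E] in
theorem fixl_V_ne {z x : E} {t : ℝ} (hz : ‖z‖ = 1) (hx : ‖x‖ = 1) (ht : t ∈ Icc (0 : ℝ) 1) :
    fixlV z t x ≠ 0 := by
  have hc : -1 ≤ inner ℝ x z := by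
    have := abs_real_inner_le_norm x z
    rw [hx, hz, mul_one] at this
    exact (abs_le.1 this).1
  have hb0 : 0 ≤ min 1 (1 + inner ℝ x z) := le_min zero_le_one (by linarith)
  have hb1 : min 1 (1 + inner ℝ x z) ≤ 1 := min_le_left _ _
  have hs0 : 0 ≤ fixlS z t x := mul_nonneg ht.1 hb0
  have hs1 : fixlS z t x ≤ 1 := by
    have := mul_le_mul ht.2 hb1 hb0 zero_le_one
    simpa [fixlS] using this
  have key : ‖fixlV z t x‖ ^ 2 = (1 - 2 * fixlS z t x) ^ 2 +
      2 * fixlS z t x * (1 - fixlS z t x) * (1 + inner ℝ x z) := by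
    rw [fixlV, norm_add_sq_real, norm_smul, norm_smul, real_inner_smul_left,
      real_inner_smul_right, hx, hz, mul_one, mul_one, Real.norm_eq_abs, Real.norm_eq_abs,
      sq_abs, sq_abs]
    ring
  intro h0
  rw [h0, norm_zero] at key
  have h1 : 0 ≤ 2 * fixlS z t x * (1 - fixlS z t x) * (1 + inner ℝ x z) := by
    apply mul_nonneg (mul_nonneg (by linarith) (by linarith)) (by linarith)
  have h2 : (1 - 2 * fixlS z t x) ^ 2 = 0 := by nlinarith [sq_nonneg (1 - 2 * fixlS z t x)]
  have h3 : fixlS z t x = 1 / 2 := by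
    have := pow_eq_zero_iff (two_ne_zero) |>.1 h2
    linarith
  have h4 : 1 + inner ℝ x z = 0 := by
    rw [h2, h3] at key
    norm_num at key
    linarith
  have h5 : fixlS z t x = 0 := by
    rw [fixlS, h4, min_eq_right zero_le_one, mul_zero]
  rw [h5] at h3
  norm_num at h3

omit [FiniteDimensional ℝ E] in
theorem fixl_phi_mem {z x : E} {t : ℝ} (hz : ‖z‖ = 1) (hx : ‖x‖ = 1) (ht : t ∈ Icc (0 : ℝ) 1) :
    fixlPhi z t x ∈ sphere (0 : E) 1 := by
  have h := fixl_V_ne hz hx ht
  rw [mem_sphere_zero_iff_norm, fixlPhi, norm_smul, norm_inv, norm_norm,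
    inv_mul_cancel₀ (norm_ne_zero_iff.2 h)]

omit [FiniteDimensional ℝ E] in
theorem fixl_phi_zero {z x : E} (hx : ‖x‖ = 1) : fixlPhi z 0 x = x := by
  have h : fixlV z 0 x = x := by simp [fixlV, fixlS]
  rw [fixlPhi, h, hx, inv_one, one_smul]

omit [FiniteDimensional ℝ E] in
theorem fixl_phi_one {z x : E} (hz : ‖z‖ = 1) (hc : 0 ≤ inner ℝ x z) : fixlPhi z 1 x = z := by
  have hs : fixlS z 1 x = 1 := by
    rw [fixlS, min_eq_left (by linarith), mul_one]
  have h : fixlV z 1 x = z := by simp [fixlV, hs]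
  rw [fixlPhi, h, hz, inv_one, one_smul]

omit [FiniteDimensional ℝ E] in
theorem fixl_phi_cont {z : E} (hz : ‖z‖ = 1) :
    ContinuousOn (fun p : ℝ × E => fixlPhi z p.1 p.2) (Icc (0 : ℝ) 1 ×ˢ sphere (0 : E) 1) := by
  have hS : Continuous (fun p : ℝ × E => fixlS z p.1 p.2) := by
    unfold fixlS
    fun_prop
  have hV : Continuous (fun p : ℝ × E => fixlV z p.1 p.2) := by
    unfold fixlV
    exact ((continuous_const.sub hS).smul continuous_snd).add (hS.smul continuous_const)
  unfold fixlPhi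
  refine ContinuousOn.smul (ContinuousOn.inv₀ hV.norm.continuousOn ?_) hV.continuousOn
  rintro ⟨t, x⟩ ⟨ht, hx⟩
  exact norm_ne_zero_iff.2 (fixl_V_ne hz (mem_sphere_zero_iff_norm.1 hx) ht)

omit [FiniteDimensional ℝ E] in
theorem fixl_phi_cont' {z : E} (hz : ‖z‖ = 1) {a : ℝ → ℝ} (ha : Continuous a)
    (ham : ∀ t, a t ∈ Icc (0 : ℝ) 1) :
    ContinuousOn (fun p : ℝ × E => fixlPhi z (a p.1) p.2) (univ ×ˢ sphere (0 : E) 1) := by
  have c0 : Continuous (fun p : ℝ × E => (a p.1, p.2)) :=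
    (ha.comp continuous_fst).prodMk continuous_snd
  have m0 : MapsTo (fun p : ℝ × E => (a p.1, p.2)) (univ ×ˢ sphere (0 : E) 1)
      (Icc (0 : ℝ) 1 ×ˢ sphere (0 : E) 1) := fun p hp => ⟨ham p.1, hp.2⟩
  have h := ContinuousOn.comp (fixl_phi_cont hz) c0.continuousOn m0
  exact h

omit [InnerProductSpace ℝ E] [FiniteDimensional ℝ E] [InnerProductSpace ℝ V]
  [FiniteDimensional ℝ V] in
theorem fixl_inv {S : Set E} {B : Set V} (hS : IsCompact S) {e : E → V} (he : ContinuousOn e S)
    (hinj : InjOn e S) (hfr : e '' S = B) :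
    ∃ ei : V → E, (∀ y ∈ B, ei y ∈ S) ∧ (∀ y ∈ B, e (ei y) = y) ∧ ContinuousOn ei B := by
  classical
  rcases S.eq_empty_or_nonempty with h0 | ⟨x1, hx1⟩
  · have hB : B = ∅ := by rw [← hfr, h0, image_empty]
    subst hB
    exact ⟨fun _ => 0, fun y hy => absurd hy (notMem_empty y),
      fun y hy => absurd hy (notMem_empty y), continuousOn_empty _⟩
  have hinv : ∀ y ∈ B, ∃ x ∈ S, e x = y := fun y hy => by
    rw [← hfr] at hy; exact hy
  choose! ei hei using hinv
  have hei1 : ∀ y ∈ B, ei y ∈ S := fun y hy => (hei y hy).1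
  have hei2 : ∀ y ∈ B, e (ei y) = y := fun y hy => (hei y hy).2
  have heic : ContinuousOn ei B := by
    rw [continuousOn_iff_isClosed]
    intro t ht
    have hcl : IsClosed (e '' (S ∩ t)) :=
      ((hS.inter_right ht).image_of_continuousOn (he.mono inter_subset_left)).isClosed
    have heq : ei ⁻¹' t ∩ B = e '' (S ∩ t) ∩ B := by
      ext y
      constructor
      · rintro ⟨h1, h2⟩
        exact ⟨⟨ei y, ⟨hei1 y h2, h1⟩, hei2 y h2⟩, h2⟩
      · rintro ⟨⟨x, ⟨hx, hxt⟩, hxy⟩, h2⟩
        have hexB : e x ∈ B := by rw [hxy]; exact h2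
        have hx' : ei (e x) = x := hinj (hei1 _ hexB) hx (hei2 _ hexB)
        have hyt : ei y ∈ t := by rw [← hxy, hx']; exact hxt
        exact ⟨hyt, h2⟩
    exact ⟨_, hcl, heq⟩
  exact ⟨ei, hei1, hei2, heic⟩

/-- the homotopy. -/
noncomputable def fixlH (e : E → V) (g : V → V) (x0 : E) (a b s : ℝ) (x : E) : V :=
  e (fixlPhi x0 a x) - ((1 - s) • g (e (fixlPhi (-x0) b x)) + s • g (e (-x0)))

theorem fix_lemma (hE : 2 ≤ Module.finrank ℝ E) (C : Set V) (hC : IsCompact C) (e : E → V)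
    (he : ContinuousOn e (sphere 0 1)) (hinj : InjOn e (sphere 0 1))
    (hfr : e '' sphere 0 1 = frontier C) (g : V → V) (hg : ContinuousOn g C)
    (hgi : ∀ y ∈ C, g y ∈ interior C) : ∃ y ∈ C, g y = y := by
  classical
  by_contra hno
  push Not at hno
  have hEnt : Nontrivial E := Module.nontrivial_of_finrank_pos (R := ℝ) (by omega)
  have hScomp : IsCompact (sphere (0 : E) 1) := isCompact_sphere 0 1
  have hSne : (sphere (0 : E) 1).Nonempty := NormedSpace.sphere_nonempty.2 zero_le_one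
  have hCc : IsClosed C := hC.isClosed
  have hfC : frontier C ⊆ C := hCc.frontier_subset
  have hef : ∀ x ∈ sphere (0 : E) 1, e x ∈ frontier C := by
    intro x hx
    rw [← hfr]
    exact mem_image_of_mem e hx
  have heC : ∀ x ∈ sphere (0 : E) 1, e x ∈ C := fun x hx => hfC (hef x hx)
  have hdisj : ∀ y, y ∈ frontier C → y ∉ interior C := fun y hy hi => hy.2 hi
  obtain ⟨x1, hx1⟩ := hSne
  have hCne : C.Nonempty := ⟨e x1, heC x1 hx1⟩
  have hVnt : Nontrivial V := ⟨⟨g (e x1), e x1, hno _ (heC x1 hx1)⟩⟩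
  -- a point of maximal norm
  obtain ⟨p0, hp0C, hp0max⟩ := hC.exists_isMaxOn hCne continuous_norm.continuousOn
  have hmax : ∀ y ∈ C, ‖y‖ ≤ ‖p0‖ := fun y hy => hp0max hy
  have hint : ∀ y ∈ interior C, ‖y‖ < ‖p0‖ := by
    intro y hy
    obtain ⟨ε, hε, hball⟩ := Metric.isOpen_iff.1 isOpen_interior y hy
    obtain ⟨v, hv⟩ : ∃ v : V, ‖v‖ = 1 ∧ ‖y + (ε / 2) • v‖ = ‖y‖ + ε / 2 := by
      by_cases h0 : y = 0
      · obtain ⟨v, hv⟩ := exists_norm_eq V (zero_le_one (α := ℝ))
        refine ⟨v, hv, ?_⟩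
        rw [h0, zero_add, norm_smul, hv, norm_zero, Real.norm_eq_abs, abs_of_pos (by positivity)]
        ring
      · have hy0 : 0 < ‖y‖ := norm_pos_iff.2 h0
        refine ⟨‖y‖⁻¹ • y, ?_, ?_⟩
        · rw [norm_smul, norm_inv, norm_norm, inv_mul_cancel₀ hy0.ne']
        · have : y + (ε / 2) • ‖y‖⁻¹ • y = (1 + (ε / 2) * ‖y‖⁻¹) • y := by
            rw [add_smul, one_smul, smul_smul]
          rw [this, norm_smul, Real.norm_eq_abs, abs_of_pos (by positivity)]
          field_simp
    have hmem : y + (ε / 2) • v ∈ ball y ε := by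
      rw [mem_ball, dist_eq_norm, add_sub_cancel_left, norm_smul, hv.1, Real.norm_eq_abs,
        abs_of_pos (by positivity)]
      linarith
    have := hmax _ (interior_subset (hball hmem))
    rw [hv.2] at this
    linarith
  have hp0f : p0 ∈ frontier C := by
    refine ⟨subset_closure hp0C, fun hi => lt_irrefl _ (hint p0 hi)⟩
  have hinner : ∀ y ∈ interior C, 0 < inner ℝ (p0 - y) p0 := by
    intro y hy
    have h1 := hint y hy
    have h2 : inner ℝ y p0 ≤ ‖y‖ * ‖p0‖ := real_inner_le_norm y p0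
    have h3 : 0 ≤ ‖y‖ := norm_nonneg y
    rw [inner_sub_left, real_inner_self_eq_norm_sq]
    nlinarith
  obtain ⟨x0, hx0, hx0p⟩ : ∃ x0 ∈ sphere (0 : E) 1, e x0 = p0 := by
    rw [← hfr] at hp0f
    exact hp0f
  have hx0n : ‖x0‖ = 1 := mem_sphere_zero_iff_norm.1 hx0
  have hx0n' : ‖-x0‖ = 1 := by rw [norm_neg, hx0n]
  have hnx0 : -x0 ∈ sphere (0 : E) 1 := mem_sphere_zero_iff_norm.2 hx0n'
  set q : V := g (e (-x0)) with hq
  have hqi : q ∈ interior C := hgi _ (heC _ hnx0)
  have hqC : q ∈ C := interior_subset hqi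
  have hfi : ∀ y ∈ frontier C, ∀ z ∈ interior C, y - z ≠ 0 := by
    intro y hy z hz h
    rw [sub_eq_zero] at h
    exact hdisj y hy (h ▸ hz)
  -- the homotopy has no zero
  have hHne : ∀ a ∈ Icc (0 : ℝ) 1, ∀ b ∈ Icc (0 : ℝ) 1, ∀ s ∈ Icc (0 : ℝ) 1,
      (s = 0 ∨ s = 1 ∨ (a = 1 ∧ b = 1)) → ∀ x ∈ sphere (0 : E) 1, fixlH e g x0 a b s x ≠ 0 := by
    intro a ha b hb s hs hcase x hx
    have hxn : ‖x‖ = 1 := mem_sphere_zero_iff_norm.1 hx
    have m1 := fixl_phi_mem hx0n hxn ha
    have m2 := fixl_phi_mem hx0n' hxn hb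
    rcases hcase with h | h | ⟨h1, h2⟩
    · rw [fixlH, h, sub_zero, one_smul, zero_smul, add_zero]
      exact hfi _ (hef _ m1) _ (hgi _ (heC _ m2))
    · rw [fixlH, h, sub_self, zero_smul, one_smul, zero_add]
      exact hfi _ (hef _ m1) _ hqi
    · rcases le_total 0 (inner ℝ x x0) with hc | hc
      · have hphi : fixlPhi x0 a x = x0 := by rw [h1]; exact fixl_phi_one hx0n hc
        rw [fixlH, hphi, hx0p]
        intro h0
        have e1 := hinner _ (hgi _ (heC _ m2))
        have e2 := hinner _ hqi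
        have e3 : inner ℝ (p0 - ((1 - s) • g (e (fixlPhi (-x0) b x)) + s • q)) p0 =
            (1 - s) * inner ℝ (p0 - g (e (fixlPhi (-x0) b x))) p0 +
            s * inner ℝ (p0 - q) p0 := by
          simp only [inner_sub_left, inner_add_left, real_inner_smul_left]
          ring
        rw [← hq] at h0
        rw [h0, inner_zero_left] at e3
        rcases eq_or_lt_of_le hs.1 with h5 | h5
        · rw [← h5] at e3
          norm_num at e3
          linarith
        · have : 0 < s * inner ℝ (p0 - q) p0 := mul_pos h5 e2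
          have : 0 ≤ (1 - s) * inner ℝ (p0 - g (e (fixlPhi (-x0) b x))) p0 :=
            mul_nonneg (by linarith [hs.2]) e1.le
          linarith
      · have hphi : fixlPhi (-x0) b x = -x0 := by
          rw [h2]
          exact fixl_phi_one hx0n' (by rw [inner_neg_right]; linarith)
        have : (1 - s) • g (e (-x0)) + s • g (e (-x0)) = q := by
          rw [← add_smul, sub_add_cancel, one_smul]
        rw [fixlH, hphi, this]
        exact hfi _ (hef _ m1) _ hqi
  -- the path of parameters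
  let pa : ℝ → ℝ := fun t => max 0 (min (min t 1) (3 - t))
  let pb : ℝ → ℝ := fun t => max 0 (min t 1)
  let ps : ℝ → ℝ := fun t => max 0 (min (t - 1) 1)
  have hpac : Continuous pa := by fun_prop
  have hpbc : Continuous pb := by fun_prop
  have hpsc : Continuous ps := by fun_prop
  have hpa : ∀ t, pa t ∈ Icc (0 : ℝ) 1 := fun t =>
    ⟨le_max_left _ _, max_le zero_le_one ((min_le_left _ _).trans (min_le_right _ _))⟩
  have hpb : ∀ t, pb t ∈ Icc (0 : ℝ) 1 := fun t =>
    ⟨le_max_left _ _, max_le zero_le_one (min_le_right _ _)⟩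
  have hps : ∀ t, ps t ∈ Icc (0 : ℝ) 1 := fun t =>
    ⟨le_max_left _ _, max_le zero_le_one (min_le_right _ _)⟩
  have hcase : ∀ t, ps t = 0 ∨ ps t = 1 ∨ (pa t = 1 ∧ pb t = 1) := by
    intro t
    rcases le_total t 1 with h | h
    · left
      show max 0 (min (t - 1) 1) = 0
      exact max_eq_left ((min_le_left _ _).trans (by linarith))
    · rcases le_total t 2 with h' | h'
      · right; right
        constructor
        · show max 0 (min (min t 1) (3 - t)) = 1
          rw [min_eq_right h, min_eq_left (by linarith), max_eq_right zero_le_one]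
        · show max 0 (min t 1) = 1
          rw [min_eq_right h, max_eq_right zero_le_one]
      · right; left
        show max 0 (min (t - 1) 1) = 1
        rw [min_eq_right (by linarith), max_eq_right zero_le_one]
  let h : ℝ → E → V := fun t x => fixlH e g x0 (pa t) (pb t) (ps t) x
  have hne : ∀ t, ∀ x ∈ sphere (0 : E) 1, h t x ≠ 0 := fun t x hx =>
    hHne _ (hpa t) _ (hpb t) _ (hps t) (hcase t) x hx
  have h0 : ∀ x ∈ sphere (0 : E) 1, h 0 x = e x - g (e x) := by
    intro x hx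
    have hxn : ‖x‖ = 1 := mem_sphere_zero_iff_norm.1 hx
    have e1 : pa 0 = 0 := by
      show max 0 (min (min (0 : ℝ) 1) (3 - 0)) = 0
      norm_num
    have e2 : pb 0 = 0 := by
      show max 0 (min (0 : ℝ) 1) = 0
      norm_num
    have e3 : ps 0 = 0 := by
      show max 0 (min ((0 : ℝ) - 1) 1) = 0
      norm_num
    show fixlH e g x0 (pa 0) (pb 0) (ps 0) x = _
    rw [e1, e2, e3, fixlH, fixl_phi_zero hxn, fixl_phi_zero hxn, sub_zero, one_smul, zero_smul,
      add_zero]
  have h3 : ∀ x ∈ sphere (0 : E) 1, h 3 x = e x - q := by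
    intro x hx
    have hxn : ‖x‖ = 1 := mem_sphere_zero_iff_norm.1 hx
    have e1 : pa 3 = 0 := by
      show max 0 (min (min (3 : ℝ) 1) (3 - 3)) = 0
      norm_num
    have e3 : ps 3 = 1 := by
      show max 0 (min ((3 : ℝ) - 1) 1) = 1
      norm_num
    show fixlH e g x0 (pa 3) (pb 3) (ps 3) x = _
    rw [e1, e3, fixlH, fixl_phi_zero hxn, sub_self, zero_smul, one_smul, zero_add]
  have hcont : ContinuousOn (fun p : ℝ × E => h p.1 p.2) (univ ×ˢ sphere (0 : E) 1) := by
    have c1 : ContinuousOn (fun p : ℝ × E => fixlPhi x0 (pa p.1) p.2) (univ ×ˢ sphere (0 : E) 1) :=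
      fixl_phi_cont' hx0n hpac hpa
    have c2 : ContinuousOn (fun p : ℝ × E => fixlPhi (-x0) (pb p.1) p.2)
        (univ ×ˢ sphere (0 : E) 1) := fixl_phi_cont' hx0n' hpbc hpb
    have m1 : MapsTo (fun p : ℝ × E => fixlPhi x0 (pa p.1) p.2) (univ ×ˢ sphere (0 : E) 1)
        (sphere 0 1) := fun p hp => fixl_phi_mem hx0n (mem_sphere_zero_iff_norm.1 hp.2) (hpa p.1)
    have m2 : MapsTo (fun p : ℝ × E => fixlPhi (-x0) (pb p.1) p.2) (univ ×ˢ sphere (0 : E) 1)
        (sphere 0 1) := fun p hp => fixl_phi_mem hx0n' (mem_sphere_zero_iff_norm.1 hp.2) (hpb p.1)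
    have c3 := he.comp c1 m1
    have c4 := he.comp c2 m2
    have c5 := hg.comp c4 (fun p hp => heC _ (m2 hp))
    have c6 : ContinuousOn (fun p : ℝ × E => ps p.1) (univ ×ˢ sphere (0 : E) 1) :=
      (hpsc.comp continuous_fst).continuousOn
    exact c3.sub (((continuousOn_const.sub c6).smul c5).add (c6.smul continuousOn_const))
  -- inverse of e
  obtain ⟨ei, hei1, hei2, heic⟩ := fixl_inv hScomp he hinj hfr
  -- the map on the closed set A
  let A1 : Set (ℝ × V) := univ ×ˢ frontier C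
  let A2 : Set (ℝ × V) := {0} ×ˢ C
  have hA1 : IsClosed A1 := isClosed_univ.prod isClosed_frontier
  have hA2 : IsClosed A2 := isClosed_singleton.prod hCc
  let f : ℝ × V → V := fun p => if p.2 ∈ frontier C then h p.1 (ei p.2) else p.2 - g p.2
  have hf1 : ∀ p ∈ A1, f p = h p.1 (ei p.2) := fun p hp => if_pos hp.2
  have hf2 : ∀ p ∈ A2, f p = p.2 - g p.2 := by
    rintro ⟨t, y⟩ ⟨ht, hy⟩
    by_cases hc : y ∈ frontier C
    · have ht0 : t = 0 := ht
      have : f (t, y) = h t (ei y) := if_pos hc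
      rw [this, ht0, h0 _ (hei1 y hc), hei2 y hc]
    · exact if_neg hc
  have hcf1 : ContinuousOn f A1 := by
    have c1 : ContinuousOn (fun p : ℝ × V => h p.1 (ei p.2)) A1 :=
      hcont.comp (f := fun p : ℝ × V => (p.1, ei p.2))
        (continuous_fst.continuousOn.prodMk (heic.comp continuous_snd.continuousOn
          (fun p hp => hp.2))) (fun p hp => ⟨mem_univ _, hei1 _ hp.2⟩)
    exact c1.congr hf1
  have hcf2 : ContinuousOn f A2 := by
    have c1 : ContinuousOn (fun p : ℝ × V => p.2 - g p.2) A2 :=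
      continuous_snd.continuousOn.sub (hg.comp continuous_snd.continuousOn (fun p hp => hp.2))
    exact c1.congr hf2
  have hcf : ContinuousOn f (A1 ∪ A2) := hcf1.union_of_isClosed hcf2 hA1 hA2
  have : TietzeExtension V := TietzeExtension.of_tvs ℝ
  obtain ⟨k, hk⟩ := ContinuousMap.exists_restrict_eq (hA1.union hA2)
    (⟨(A1 ∪ A2).domRestrict f, hcf.domRestrict⟩ : C((A1 ∪ A2 : Set (ℝ × V)), V))
  have hkf : ∀ p ∈ A1 ∪ A2, k p = f p := by
    intro p hp
    exact congrArg (fun φ => φ ⟨p, hp⟩) hk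
  -- zero set
  let Zt : Set (ℝ × V) := (Icc (0 : ℝ) 3 ×ˢ C) ∩ k ⁻¹' {0}
  have hZt : IsCompact Zt := (isCompact_Icc.prod hC).inter_right
    (isClosed_singleton.preimage k.continuous)
  have hZ : IsClosed (Prod.snd '' Zt) := (hZt.image continuous_snd).isClosed
  have hZd : Disjoint (Prod.snd '' Zt) (frontier C) := by
    rw [Set.disjoint_left]
    rintro y ⟨⟨t, y'⟩, ⟨⟨ht, hy'⟩, hk0⟩, rfl⟩ hyf
    have hk1 : k (t, y') = 0 := hk0
    have hmem : (t, y') ∈ A1 := ⟨mem_univ _, hyf⟩
    rw [hkf _ (Or.inl hmem), hf1 _ hmem] at hk1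
    exact hne t _ (hei1 _ hyf) hk1
  obtain ⟨lam, hlam0, hlam1, hlamI⟩ := exists_continuous_zero_one_of_isClosed hZ
    isClosed_frontier hZd
  let EE : V → V := fun y => k (3 * lam y, y)
  have hEc : Continuous EE := k.continuous.comp
    ((continuous_const.mul lam.continuous).prodMk continuous_id)
  have hE1 : ∀ y ∈ frontier C, EE y = y - q := by
    intro y hy
    have hl : lam y = 1 := hlam1 hy
    have hmem : ((3 : ℝ), y) ∈ A1 := ⟨mem_univ _, hy⟩
    show k (3 * lam y, y) = y - q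
    rw [hl, mul_one, hkf _ (Or.inl hmem), hf1 _ hmem, h3 _ (hei1 y hy), hei2 y hy]
  have hE2 : ∀ y ∈ C, EE y ≠ 0 := by
    intro y hy h0'
    have hl := hlamI y
    by_cases hz : y ∈ Prod.snd '' Zt
    · have hl0 : lam y = 0 := hlam0 hz
      have hmem : ((0 : ℝ), y) ∈ A2 := ⟨rfl, hy⟩
      have h1 : k (3 * lam y, y) = 0 := h0'
      rw [hl0, mul_zero, hkf _ (Or.inr hmem), hf2 _ hmem] at h1
      exact hno y hy (sub_eq_zero.1 h1).symm
    · apply hz
      exact ⟨(3 * lam y, y), ⟨⟨⟨by linarith [hl.1], by linarith [hl.2]⟩, hy⟩, h0'⟩, rfl⟩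
  let R : V → V := C.piecewise EE (fun y => y - q)
  have hRc : Continuous R := Continuous.piecewise (fun y hy => hE1 y hy) hEc
    (continuous_id.sub continuous_const)
  have hRne : ∀ y, R y ≠ 0 := by
    intro y
    by_cases hy : y ∈ C
    · rw [show R y = EE y from Set.piecewise_eq_of_mem _ _ _ hy]
      exact hE2 y hy
    · rw [show R y = y - q from Set.piecewise_eq_of_notMem _ _ _ hy]
      intro h1
      rw [sub_eq_zero] at h1
      exact hy (h1 ▸ hqC)
  obtain ⟨L, hL⟩ := hC.isBounded.subset_ball_lt 0 q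
  have hLpos : 0 < L := hL.1
  obtain ⟨x, hx⟩ := exists_zero (fun x : V => L⁻¹ • R (q + L • x))
    ((hRc.comp (continuous_const.add (continuous_const.smul continuous_id))).const_smul _) (by
      intro x hx
      have hnot : q + L • x ∉ C := by
        intro hin
        have := hL.2 hin
        rw [mem_ball, dist_eq_norm, add_sub_cancel_left, norm_smul, Real.norm_eq_abs,
          abs_of_pos hLpos] at this
        nlinarith
      show L⁻¹ • R (q + L • x) = x
      rw [show R (q + L • x) = q + L • x - q from Set.piecewise_eq_of_notMem _ _ _ hnot,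
        add_sub_cancel_left, smul_smul, inv_mul_cancel₀ hLpos.ne', one_smul])
  have hx' : L⁻¹ • R (q + L • x) = 0 := hx
  rcases smul_eq_zero.1 hx' with h1 | h1
  · exact (inv_ne_zero hLpos.ne') h1
  · exact hRne _ h1

end Pool.Schoen
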