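import Pool.Agent.H.MP_6c077c_gt.Tube
import Pool.Agent.H.MP_6c077c_gt.FixL

/-! A pair of antipodal points lying deep on different sides of a thick sphere. -/

set_option autoImplicit false

namespace Pool.Schoen

open scoped ContDiff RealInnerProductSpace
open Metric Set Real

variable {E E' : Type*} [NormedAddCommGroup E] [InnerProductSpace ℝ E] [FiniteDimensional ℝ E]
  [NormedAddCommGroup E'] [InnerProductSpace ℝ E'] [FiniteDimensional ℝ E']

/-- The push along the normals of the part `{F ≤ b}` onto `{F = -α}`. -/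
private theorem antipode_retr {f ν : E → E'} {r₁ r₂ : ℝ} (h : Thick f ν r₁ r₂)
    {α β : ℝ} (hα : 0 < α) (hα' : α < r₁) (_hβ : 0 < β) (hβ' : β < r₂) (F : E' → ℝ)
    (hF : Side f ν α β F) {b : ℝ} (hb : 0 < b) (hb' : b < β) :
    ∃ r : E' → E', ContinuousOn r {w : E' | w ∈ sphere (0 : E') 1 ∧ F w ≤ b} ∧
      (∀ w ∈ sphere (0 : E') 1, F w ≤ b → r w ∈ sphere (0 : E') 1 ∧ F (r w) = -α) ∧
      (∀ w ∈ sphere (0 : E') 1, F w ≤ b → (r w = w ∨ ∃ p ∈ sphere (0 : E) 1,
        ∃ u ∈ Icc (-α) b, w = tub f ν p u ∧ r w = tub f ν p (-α))) := by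
  classical
  set P : E' → Prop := fun w => ∃ p : E, p ∈ sphere (0 : E) 1 ∧ ∃ u ∈ Icc (-α) b, w = tub f ν p u
    with hP
  set r : E' → E' := fun w => if hw : P w then tub f ν hw.choose (-α) else w with hr
  have hIoo : ∀ u ∈ Icc (-α) b, u ∈ Ioo (-r₁) r₂ := by
    intro u hu
    exact ⟨by linarith [hu.1], by linarith [hu.2]⟩
  have hr1 : ∀ p ∈ sphere (0 : E) 1, ∀ u ∈ Icc (-α) b, r (tub f ν p u) = tub f ν p (-α) := by
    intro p hp u hu
    have hPw : P (tub f ν p u) := ⟨p, hp, u, hu, rfl⟩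
    have h1 : r (tub f ν p u) = tub f ν hPw.choose (-α) := by
      simp only [hr]
      rw [dif_pos hPw]
    obtain ⟨hq, t, ht, heq⟩ := hPw.choose_spec
    have := (tub_inj h hp hq (hIoo u hu) (hIoo t ht) heq).1
    rw [h1, ← this]
  have hr2 : ∀ w, ¬ P w → r w = w := by
    intro w hw
    simp only [hr]
    rw [dif_neg hw]
  have hcover : ∀ w ∈ sphere (0 : E') 1, F w ≤ b → P w ∨ F w = -α := by
    intro w hw hwb
    by_cases hex : ∃ p ∈ sphere (0 : E) 1, ∃ u ∈ Ioo (-α) β, w = tub f ν p u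
    · obtain ⟨p, hp, u, hu, rfl⟩ := hex
      have hFu : F (tub f ν p u) = u := hF.tube p hp u ⟨hu.1.le, hu.2.le⟩
      left
      exact ⟨p, hp, u, ⟨hu.1.le, by rw [← hFu]; exact hwb⟩, rfl⟩
    · push Not at hex
      rcases hF.off w hw hex with h1 | h1
      · right; exact h1
      · linarith
  -- the two closed pieces
  set B : Set E' := (fun z : E × ℝ => tub f ν z.1 z.2) '' (sphere (0 : E) 1 ×ˢ Icc (-α) b) with hB
  have hKc : IsCompact (sphere (0 : E) 1 ×ˢ Icc (-α) b) :=
    (isCompact_sphere (0 : E) 1).prod isCompact_Icc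
  have hTc : ContinuousOn (fun z : E × ℝ => tub f ν z.1 z.2)
      (sphere (0 : E) 1 ×ˢ Icc (-α) b) :=
    (continuousOn_tub h).mono (prod_mono subset_rfl (subset_univ _))
  have hBc : IsCompact B := hKc.image_of_continuousOn hTc
  have hBP : ∀ w, w ∈ B ↔ P w := by
    intro w
    constructor
    · rintro ⟨⟨p, u⟩, ⟨hp, hu⟩, rfl⟩
      exact ⟨p, hp, u, hu, rfl⟩
    · rintro ⟨p, hp, u, hu, rfl⟩
      exact ⟨(p, u), ⟨hp, hu⟩, rfl⟩
  have hbot : (-α) ∈ Icc (-α) b := ⟨le_rfl, by linarith⟩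
  have hrB : ContinuousOn r B := by
    rw [continuousOn_iff_isClosed]
    intro t ht
    have hcont : ContinuousOn (fun z : E × ℝ => tub f ν z.1 (-α))
        (sphere (0 : E) 1 ×ˢ Icc (-α) b) := by
      have : ContinuousOn ((fun z : E × ℝ => tub f ν z.1 z.2) ∘ fun z : E × ℝ => (z.1, -α))
          (sphere (0 : E) 1 ×ˢ Icc (-α) b) := by
        refine hTc.comp (by fun_prop) ?_
        rintro ⟨p, u⟩ ⟨hp, _⟩
        exact ⟨hp, hbot⟩
      exact this
    have hcl : IsClosed (sphere (0 : E) 1 ×ˢ Icc (-α) b ∩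
        (fun z : E × ℝ => tub f ν z.1 (-α)) ⁻¹' t) :=
      hcont.preimage_isClosed_of_isClosed hKc.isClosed ht
    have hco : IsCompact (sphere (0 : E) 1 ×ˢ Icc (-α) b ∩
        (fun z : E × ℝ => tub f ν z.1 (-α)) ⁻¹' t) :=
      hKc.of_isClosed_subset hcl inter_subset_left
    refine ⟨(fun z : E × ℝ => tub f ν z.1 z.2) '' (sphere (0 : E) 1 ×ˢ Icc (-α) b ∩
        (fun z : E × ℝ => tub f ν z.1 (-α)) ⁻¹' t),
      (hco.image_of_continuousOn (hTc.mono inter_subset_left)).isClosed, ?_⟩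
    ext w
    constructor
    · rintro ⟨hwt, hwB⟩
      refine ⟨?_, hwB⟩
      obtain ⟨⟨p, u⟩, ⟨hp, hu⟩, rfl⟩ := hwB
      refine ⟨(p, u), ⟨⟨hp, hu⟩, ?_⟩, rfl⟩
      have := hr1 p hp u hu
      change r (tub f ν p u) ∈ t at hwt
      rw [this] at hwt
      exact hwt
    · rintro ⟨⟨⟨p, u⟩, ⟨⟨hp, hu⟩, hz⟩, rfl⟩, hwB⟩
      refine ⟨?_, hwB⟩
      change r (tub f ν p u) ∈ t
      rw [hr1 p hp u hu]
      exact hz
  set A : Set E' := {w | w ∈ sphere (0 : E') 1 ∧ F w = -α} with hA
  have hAcl : IsClosed A := by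
    have : A = sphere (0 : E') 1 ∩ F ⁻¹' {-α} := by
      ext w; simp [hA]
    rw [this]
    exact hF.cont.preimage_isClosed_of_isClosed isClosed_sphere isClosed_singleton
  have hrid : ∀ w ∈ A, r w = w := by
    rintro w ⟨hw, hFw⟩
    by_cases hPw : P w
    · obtain ⟨p, hp, u, hu, rfl⟩ := hPw
      have hFu : F (tub f ν p u) = u := hF.tube p hp u ⟨hu.1, hu.2.trans hb'.le⟩
      have : u = -α := by rw [← hFu]; exact hFw
      subst this
      exact hr1 p hp _ hbot
    · exact hr2 w hPw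
  have hrA : ContinuousOn r A := continuousOn_id.congr hrid
  have hAB : ContinuousOn r (A ∪ B) := hrA.union_of_isClosed hrB hAcl hBc.isClosed
  refine ⟨r, hAB.mono ?_, ?_, ?_⟩
  · rintro w ⟨hw, hwb⟩
    rcases hcover w hw hwb with h1 | h1
    · right; exact (hBP w).2 h1
    · left; exact ⟨hw, h1⟩
  · intro w hw hwb
    rcases hcover w hw hwb with h1 | h1
    · obtain ⟨p, hp, u, hu, rfl⟩ := h1
      rw [hr1 p hp u hu]
      refine ⟨by simpa using norm_tub h hp (-α), hF.tube p hp _ ⟨le_rfl, by linarith⟩⟩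
    · rw [hrid w ⟨hw, h1⟩]
      exact ⟨hw, h1⟩
  · intro w hw hwb
    rcases hcover w hw hwb with h1 | h1
    · obtain ⟨p, hp, u, hu, rfl⟩ := h1
      right
      exact ⟨p, hp, u, hu, rfl, hr1 p hp u hu⟩
    · left
      exact hrid w ⟨hw, h1⟩

theorem exists_antipodal {f ν : E → E'} {r₁ r₂ : ℝ} (h : Thick f ν r₁ r₂)
    (hE : 2 ≤ Module.finrank ℝ E) (hE' : Module.finrank ℝ E' = Module.finrank ℝ E + 1)
    {α β : ℝ} (hα : 0 < α) (hα' : α < r₁) (hβ : 0 < β) (hβ' : β < r₂) (F : E' → ℝ)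
    (hF : Side f ν α β F) {a b : ℝ} (ha : 0 < a) (ha' : a < α) (hb : 0 < b) (hb' : b < β) :
    ∃ c : E', ‖c‖ = 1 ∧ F c ≤ -a ∧ b ≤ F (-c) := by
  by_contra hcon
  push Not at hcon
  obtain ⟨r, hrc, hr1, hr2⟩ := antipode_retr h hα hα' hβ hβ' F hF hb hb'
  have hEn : Nontrivial E := Module.nontrivial_of_finrank_pos (R := ℝ) (by omega)
  obtain ⟨p0, hp0⟩ : ∃ p0 : E, p0 ∈ sphere (0 : E) 1 := by
    obtain ⟨x, hx⟩ := exists_ne (0 : E)
    refine ⟨‖x‖⁻¹ • x, ?_⟩
    have hx' : ‖x‖ ≠ 0 := by simpa using hx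
    simp [norm_smul, hx']
  set q : E' := tub f ν p0 β with hq
  have hqn : ‖q‖ = 1 := norm_tub h hp0 β
  have hqS : q ∈ sphere (0 : E') 1 := by simpa using hqn
  have hFq : F q = β := hF.tube p0 hp0 β ⟨by linarith, le_rfl⟩
  -- stereographic projection
  set inv : (ℝ ∙ q)ᗮ → E' := fun x => (stereoInvFun hqn x : E') with hinv
  have hinvc : Continuous inv := continuous_subtype_val.comp (continuous_stereoInvFun hqn)
  have hinvS : ∀ x, inv x ∈ sphere (0 : E') 1 := fun x => (stereoInvFun hqn x).2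
  have hli : ∀ w ∈ sphere (0 : E') 1, w ≠ q → inv (stereoToFun q w) = w := by
    intro w hw hwq
    have := stereo_left_inv hqn (x := ⟨w, hw⟩) hwq
    exact congrArg Subtype.val this
  have hri : ∀ x, stereoToFun q (inv x) = x := fun x => stereo_right_inv hqn x
  have htoc : ContinuousOn (stereoToFun q) {w : E' | w ∈ sphere (0 : E') 1 ∧ w ≠ q} := by
    refine continuousOn_stereoToFun.mono ?_
    rintro w ⟨hw, hwq⟩
    have hwn : ‖w‖ = 1 := by simpa using hw
    have := (inner_lt_one_iff_real_of_norm_eq_one hqn hwn).mpr hwq.symm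
    exact ne_of_lt this
  have hFinv : Continuous fun x => F (inv x) :=
    hF.cont.comp_continuous hinvc hinvS
  have hne : ∀ w, F w ≠ β → w ≠ q := by
    intro w hw hwq
    exact hw (by rw [hwq]; exact hFq)
  -- the compact domain
  set C : Set (ℝ ∙ q)ᗮ := {x | F (inv x) ≤ -a} with hC
  have hCcl : IsClosed C := isClosed_le hFinv continuous_const
  have hCc : IsCompact C := by
    have hK : IsCompact {w : E' | w ∈ sphere (0 : E') 1 ∧ F w ≤ -a} := by
      have : {w : E' | w ∈ sphere (0 : E') 1 ∧ F w ≤ -a} = sphere (0 : E') 1 ∩ F ⁻¹' Iic (-a) := by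
        ext w; simp
      rw [this]
      exact (isCompact_sphere (0 : E') 1).of_isClosed_subset
        (hF.cont.preimage_isClosed_of_isClosed isClosed_sphere isClosed_Iic) inter_subset_left
    have himg : IsCompact (stereoToFun q '' {w : E' | w ∈ sphere (0 : E') 1 ∧ F w ≤ -a}) := by
      refine hK.image_of_continuousOn (htoc.mono ?_)
      rintro w ⟨hw, hFw⟩
      exact ⟨hw, hne w (by linarith)⟩
    refine himg.of_isClosed_subset hCcl ?_
    intro x hx
    exact ⟨inv x, ⟨hinvS x, hx⟩, hri x⟩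
  have hint : {x | F (inv x) < -a} ⊆ interior C :=
    interior_maximal (fun x (hx : F (inv x) < -a) => (show F (inv x) ≤ -a from le_of_lt hx))
      (isOpen_lt hFinv continuous_const)
  have htubS : ∀ p ∈ sphere (0 : E) 1, ∀ u, tub f ν p u ∈ sphere (0 : E') 1 := by
    intro p hp u
    simpa using norm_tub h hp u
  have htubF : ∀ p ∈ sphere (0 : E) 1, ∀ u ∈ Icc (-α) β, F (tub f ν p u) = u := hF.tube
  have hma : (-a) ∈ Icc (-α) β := ⟨by linarith, by linarith⟩
  -- the boundary embedding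
  set e : E → (ℝ ∙ q)ᗮ := fun p => stereoToFun q (tub f ν p (-a)) with he
  have hec : ContinuousOn e (sphere 0 1) := by
    refine htoc.comp (t := {w : E' | w ∈ sphere (0 : E') 1 ∧ w ≠ q}) (f := fun p => tub f ν p (-a)) ?_ ?_
    · have : ContinuousOn ((fun z : E × ℝ => tub f ν z.1 z.2) ∘ fun p : E => (p, -a))
          (sphere (0 : E) 1) := by
        refine (continuousOn_tub h).comp (by fun_prop) ?_
        intro p hp
        exact ⟨hp, mem_univ _⟩
      exact this
    · intro p hp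
      exact ⟨htubS p hp _, hne _ (by rw [htubF p hp _ hma]; linarith)⟩
  have hinve : ∀ p ∈ sphere (0 : E) 1, ∀ u ∈ Ico (-α) β,
      inv (stereoToFun q (tub f ν p u)) = tub f ν p u := by
    intro p hp u hu
    exact hli _ (htubS p hp u) (hne _ (by rw [htubF p hp u ⟨hu.1, hu.2.le⟩]; exact ne_of_lt hu.2))
  have hma' : (-a) ∈ Ico (-α) β := ⟨by linarith, by linarith⟩
  have hei : InjOn e (sphere 0 1) := by
    intro p hp p' hp' hpp
    have h1 : tub f ν p (-a) = tub f ν p' (-a) := by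
      rw [← hinve p hp _ hma', ← hinve p' hp' _ hma']
      exact congrArg inv hpp
    exact (tub_inj h hp hp' ⟨by linarith, by linarith⟩ ⟨by linarith, by linarith⟩ h1).1
  have hfr : e '' sphere 0 1 = frontier C := by
    rw [hCcl.frontier_eq]
    ext x
    constructor
    · rintro ⟨p, hp, rfl⟩
      refine ⟨?_, ?_⟩
      · change F (inv (e p)) ≤ -a
        rw [he]
        simp only
        rw [hinve p hp _ hma', htubF p hp _ hma]
      · intro hxi
        -- the curve leaving the domain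
        have hcurve : ContinuousWithinAt (fun u : ℝ => stereoToFun q (tub f ν p u)) (Ico (-a) β) (-a) := by
          have hcc : ContinuousOn (fun u : ℝ => stereoToFun q (tub f ν p u)) (Ico (-a) β) := by
            refine htoc.comp (t := {w : E' | w ∈ sphere (0 : E') 1 ∧ w ≠ q})
              (f := fun u => tub f ν p u) ?_ ?_
            · unfold tub
              fun_prop
            · intro u hu
              exact ⟨htubS p hp u, hne _ (by
                rw [htubF p hp u ⟨by linarith [hu.1], hu.2.le⟩]; exact ne_of_lt hu.2)⟩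
          exact hcc (-a) ⟨le_rfl, by linarith⟩
        have hev : ∀ᶠ u in nhdsWithin (-a) (Ico (-a) β),
            stereoToFun q (tub f ν p u) ∈ interior C :=
          hcurve.eventually (isOpen_interior.mem_nhds hxi)
        have hev2 : ∀ᶠ u in nhdsWithin (-a) (Ioo (-a) β),
            stereoToFun q (tub f ν p u) ∈ interior C :=
          hev.filter_mono (nhdsWithin_mono _ Ioo_subset_Ico_self)
        have hne' : (nhdsWithin (-a) (Ioo (-a) β)).NeBot :=
          left_nhdsWithin_Ioo_neBot (by linarith)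
        have hself : ∀ᶠ u in nhdsWithin (-a) (Ioo (-a) β), u ∈ Ioo (-a) β := self_mem_nhdsWithin
        obtain ⟨u, hu1, hu2⟩ := (hev2.and hself).exists
        have h3' : stereoToFun q (tub f ν p u) ∈ C := interior_subset hu1
        have h3 : F (inv (stereoToFun q (tub f ν p u))) ≤ -a := h3'
        rw [hinve p hp u ⟨by linarith [hu2.1], hu2.2⟩,
          htubF p hp u ⟨by linarith [hu2.1], hu2.2.le⟩] at h3
        linarith [hu2.1]
    · rintro ⟨hx1, hx2⟩
      have hxeq : F (inv x) = -a := by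
        apply le_antisymm hx1
        by_contra hlt
        push Not at hlt
        exact hx2 (hint hlt)
      by_cases hex : ∃ p ∈ sphere (0 : E) 1, ∃ u ∈ Ioo (-α) β, inv x = tub f ν p u
      · obtain ⟨p, hp, u, hu, hxu⟩ := hex
        have hFu : F (inv x) = u := by rw [hxu]; exact htubF p hp u ⟨hu.1.le, hu.2.le⟩
        have hua : u = -a := by rw [← hFu]; exact hxeq
        refine ⟨p, hp, ?_⟩
        rw [he]
        simp only
        rw [← hua, ← hxu, hri x]
      · push Not at hex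
        rcases hF.off (inv x) (hinvS x) hex with h1 | h1
        · rw [hxeq] at h1; linarith
        · rw [hxeq] at h1; linarith
  -- the self map
  set g : (ℝ ∙ q)ᗮ → (ℝ ∙ q)ᗮ := fun x => stereoToFun q (r (-inv x)) with hg
  have hnegS : ∀ x, -inv x ∈ sphere (0 : E') 1 := by
    intro x
    have := hinvS x
    simpa using this
  have hnegF : ∀ x ∈ C, F (-inv x) ≤ b := by
    intro x hx
    have hn : ‖inv x‖ = 1 := by simpa using hinvS x
    exact (hcon (inv x) hn hx).le
  have hgc : ContinuousOn g C := by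
    refine htoc.comp (t := {w : E' | w ∈ sphere (0 : E') 1 ∧ w ≠ q}) (f := fun x => r (-inv x)) ?_ ?_
    · refine hrc.comp (f := fun x => -inv x) hinvc.neg.continuousOn ?_
      intro x hx
      exact ⟨hnegS x, hnegF x hx⟩
    · intro x hx
      obtain ⟨h1, h2⟩ := hr1 _ (hnegS x) (hnegF x hx)
      exact ⟨h1, hne _ (by rw [h2]; linarith)⟩
  have hinvg : ∀ x ∈ C, inv (g x) = r (-inv x) := by
    intro x hx
    obtain ⟨h1, h2⟩ := hr1 _ (hnegS x) (hnegF x hx)
    exact hli _ h1 (hne _ (by rw [h2]; linarith))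
  have hgi : ∀ x ∈ C, g x ∈ interior C := by
    intro x hx
    apply hint
    change F (inv (g x)) < -a
    rw [hinvg x hx, (hr1 _ (hnegS x) (hnegF x hx)).2]
    linarith
  obtain ⟨x, hx, hgx⟩ := fix_lemma hE C hCc e hec hei hfr g hgc hgi
  have hfix : inv x = r (-inv x) := by
    rw [← hinvg x hx, hgx]
  have hnx : ‖inv x‖ = 1 := by simpa using hinvS x
  rcases hr2 _ (hnegS x) (hnegF x hx) with h1 | ⟨p, hp, u, hu, h1, h2⟩
  · rw [h1] at hfix
    have : inv x = 0 := by
      have h2 : (2 : ℝ) • inv x = 0 := by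
        rw [two_smul]
        nth_rewrite 1 [hfix]
        simp
      simpa using h2
    rw [this] at hnx
    simp at hnx
  · have h3 : inv x = tub f ν p (-α) := by rw [hfix, h2]
    have h4 : ⟪tub f ν p u, tub f ν p (-α)⟫ = -1 := by
      rw [← h1, ← h3, inner_neg_left, real_inner_self_eq_norm_sq, hnx]
      norm_num
    rw [inner_tub h hp] at h4
    have h5 : u - -α ∈ Ico 0 π := by
      refine ⟨by linarith [hu.1], ?_⟩
      have := h.lt₁
      have := h.lt₂
      linarith [hu.2]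
    have h6 : cos π < cos (u - -α) :=
      cos_lt_cos_of_nonneg_of_le_pi h5.1 le_rfl h5.2
    rw [cos_pi, h4] at h6
    exact lt_irrefl _ h6

end Pool.Schoen
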