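import Mathlib

/-! The area inequality for maps between hypersurfaces: abstract local form. -/

set_option autoImplicit false

namespace Pool.Schoen

open MeasureTheory Measure Module Set Filter
open scoped ENNReal NNReal Topology RealInnerProductSpace

variable {V : Type*} [NormedAddCommGroup V] [InnerProductSpace ℝ V] [FiniteDimensional ℝ V]
  [MeasurableSpace V] [BorelSpace V]

/-- Abstract local area inequality: `N` looks, near `x0` on `M` and through the chart `P`, like the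
linear map `S`. -/
theorem area_abstract (T : Submodule ℝ V) (P : V →L[ℝ] T) (hP : ∀ v, ‖P v‖ ≤ ‖v‖)
    (S : T →L[ℝ] T) (M : Set V) (x0 : V) (N : V → V)
    (h : ∀ η : ℝ, 0 < η → ∃ O ∈ 𝓝 x0, ∀ y ∈ M ∩ O, ∀ z ∈ M ∩ O,
      ‖y - z‖ ≤ (1 + η) * ‖P (y - z)‖ ∧ ‖N y - N z‖ ≤ (1 + η) * ‖P (N y - N z)‖ ∧
        ‖P (N y - N z) - S (P (y - z))‖ ≤ η * ‖P (y - z)‖)
    (m : ℝ≥0) (hm : ENNReal.ofReal |S.det| < m) :
    ∃ O ∈ 𝓝 x0, ∀ E ⊆ M ∩ O,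
      μH[(finrank ℝ T : ℕ)] (N '' E) ≤ m * μH[(finrank ℝ T : ℕ)] E := by
  obtain ⟨m', hm1, hm2⟩ := ENNReal.lt_iff_exists_nnreal_btwn.1 hm
  have hm2' : m' < m := by exact_mod_cast hm2
  have e1 := addHaar_image_le_mul_of_det_lt (μH[(finrank ℝ T : ℕ)] : Measure T) S hm1
  have e2 : ∀ᶠ δ in 𝓝[>] (0 : ℝ≥0), (1 + δ) ^ (finrank ℝ T) * m' < m := by
    have hc : Continuous fun δ : ℝ≥0 => (1 + δ) ^ (finrank ℝ T) * m' := by fun_prop
    have h1 : Tendsto (fun δ : ℝ≥0 => (1 + δ) ^ (finrank ℝ T) * m') (𝓝[>] 0)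
        (𝓝 ((1 + 0) ^ (finrank ℝ T) * m')) := (hc.tendsto 0).mono_left nhdsWithin_le_nhds
    refine h1.eventually_lt_const ?_
    simpa using hm2'
  have e3 : ∀ᶠ δ in 𝓝[>] (0 : ℝ≥0), δ ∈ Ioi (0 : ℝ≥0) := self_mem_nhdsWithin
  obtain ⟨δ, ⟨hδ1, hδ2⟩, hδ3⟩ := ((e1.and e2).and e3).exists
  have hδpos : (0 : ℝ) < δ := by exact_mod_cast hδ3
  obtain ⟨O, hO, hOO⟩ := h δ hδpos
  refine ⟨O, hO, fun E hE => ?_⟩
  have hEE : ∀ y ∈ E, ∀ z ∈ E, ‖y - z‖ ≤ (1 + (δ : ℝ)) * ‖P (y - z)‖ ∧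
      ‖N y - N z‖ ≤ (1 + (δ : ℝ)) * ‖P (N y - N z)‖ ∧
        ‖P (N y - N z) - S (P (y - z))‖ ≤ δ * ‖P (y - z)‖ :=
    fun y hy z hz => hOO y (hE hy) z (hE hz)
  have hinj : InjOn P E := by
    intro y hy z hz hyz
    have h1 := (hEE y hy z hz).1
    rw [map_sub, hyz, sub_self, norm_zero, mul_zero] at h1
    exact sub_eq_zero.1 (norm_le_zero_iff.1 h1)
  let s : T → V := Function.invFunOn P E
  have hs : ∀ y ∈ E, s (P y) = y := fun y hy => hinj.leftInvOn_invFunOn hy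
  let g : T → T := fun a => P (N (s a))
  have hgE : g '' (P '' E) = P '' (N '' E) := by
    ext a
    constructor
    · rintro ⟨_, ⟨y, hy, rfl⟩, rfl⟩
      refine ⟨N y, ⟨y, hy, rfl⟩, ?_⟩
      simp only [g, hs y hy]
    · rintro ⟨_, ⟨y, hy, rfl⟩, rfl⟩
      refine ⟨P y, ⟨y, hy, rfl⟩, ?_⟩
      simp only [g, hs y hy]
  have hga : ApproximatesLinearOn g S (P '' E) δ := by
    rintro _ ⟨y, hy, rfl⟩ _ ⟨z, hz, rfl⟩
    have h1 := (hEE y hy z hz).2.2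
    simp only [g, hs y hy, hs z hz]
    rw [← map_sub, ← map_sub]
    exact h1
  have hNinj : InjOn P (N '' E) := by
    rintro _ ⟨y, hy, rfl⟩ _ ⟨z, hz, rfl⟩ hyz
    have h1 := (hEE y hy z hz).2.1
    rw [map_sub, hyz, sub_self, norm_zero, mul_zero] at h1
    exact sub_eq_zero.1 (norm_le_zero_iff.1 h1)
  let t : T → V := Function.invFunOn P (N '' E)
  have ht : ∀ u ∈ N '' E, t (P u) = u := fun u hu => hNinj.leftInvOn_invFunOn hu
  have htE : t '' (P '' (N '' E)) = N '' E := by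
    ext u
    constructor
    · rintro ⟨_, ⟨v, hv, rfl⟩, rfl⟩
      rw [ht v hv]
      exact hv
    · intro hu
      exact ⟨P u, ⟨u, hu, rfl⟩, ht u hu⟩
  have htL : LipschitzOnWith (1 + δ) t (P '' (N '' E)) := by
    rw [lipschitzOnWith_iff_dist_le_mul]
    rintro _ ⟨_, ⟨y, hy, rfl⟩, rfl⟩ _ ⟨_, ⟨z, hz, rfl⟩, rfl⟩
    rw [ht _ ⟨y, hy, rfl⟩, ht _ ⟨z, hz, rfl⟩, dist_eq_norm, dist_eq_norm, ← map_sub]
    simpa using (hEE y hy z hz).2.1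
  have i1 := hδ1 (P '' E) g hga
  have hPL : LipschitzWith 1 P := by
    refine LipschitzWith.of_dist_le_mul fun y z => ?_
    rw [dist_eq_norm, dist_eq_norm, ← map_sub]
    simpa using hP (y - z)
  have i2 : μH[(finrank ℝ T : ℕ)] (P '' E) ≤ μH[(finrank ℝ T : ℕ)] E := by
    have := hPL.hausdorffMeasure_image_le (d := ((finrank ℝ T : ℕ) : ℝ)) (by positivity) E
    simpa using this
  have i3 := htL.hausdorffMeasure_image_le (d := ((finrank ℝ T : ℕ) : ℝ)) (by positivity)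
  rw [htE, ← hgE] at i3
  have h0 : ((1 + δ : ℝ≥0) : ℝ≥0∞) ^ ((finrank ℝ T : ℕ) : ℝ) * m' ≤ m := by
    rw [ENNReal.rpow_natCast]
    have : (1 + δ) ^ (finrank ℝ T) * m' ≤ m := hδ2.le
    exact_mod_cast this
  calc μH[(finrank ℝ T : ℕ)] (N '' E)
      ≤ ((1 + δ : ℝ≥0) : ℝ≥0∞) ^ ((finrank ℝ T : ℕ) : ℝ) *
          μH[(finrank ℝ T : ℕ)] (g '' (P '' E)) := i3
    _ ≤ ((1 + δ : ℝ≥0) : ℝ≥0∞) ^ ((finrank ℝ T : ℕ) : ℝ) *
          (m' * μH[(finrank ℝ T : ℕ)] E) := by gcongr; exact i1.trans (by gcongr)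
    _ = (((1 + δ : ℝ≥0) : ℝ≥0∞) ^ ((finrank ℝ T : ℕ) : ℝ) * m') *
          μH[(finrank ℝ T : ℕ)] E := by ring
    _ ≤ m * μH[(finrank ℝ T : ℕ)] E := by gcongr

end Pool.Schoen
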