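import Pool.Agent.H.MP_6c077c_gt.AreaAbs
import Pool.Agent.H.MP_6c077c_gt.Shape

/-! The area inequality for the unit normal of a level set: local form. -/

set_option autoImplicit false

namespace Pool.Schoen

open MeasureTheory Measure Module Set Filter
open scoped ENNReal NNReal Topology RealInnerProductSpace ContDiff

variable {V : Type*} [NormedAddCommGroup V] [InnerProductSpace ℝ V] [FiniteDimensional ℝ V]

theorem gradient_contDiff (F : V → ℝ) (hF : ContDiff ℝ 2 F) : ContDiff ℝ 1 (gradient F) := by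
  have h1 : ContDiff ℝ 1 (fderiv ℝ F) := hF.fderiv_right (by norm_num)
  exact ((InnerProductSpace.toDual ℝ V).symm.toContinuousLinearEquiv.contDiff (n := 1)).comp h1

theorem inner_gradient' (F : V → ℝ) (x v : V) : ⟪gradient F x, v⟫ = fderiv ℝ F x v := by
  rw [gradient, InnerProductSpace.toDual_symm_apply]

/-- The derivative of the unit normal. -/
theorem nrm_hasStrict (F : V → ℝ) (hF : ContDiff ℝ 2 F) (x0 : V) (hx : gradient F x0 ≠ 0) :
    ∃ c : V →L[ℝ] ℝ, HasStrictFDerivAt (nrm F)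
      (‖gradient F x0‖⁻¹ • fderiv ℝ (gradient F) x0 + c.smulRight (gradient F x0)) x0 := by
  have hG := gradient_contDiff F hF
  have h1 : HasStrictFDerivAt (gradient F) (fderiv ℝ (gradient F) x0) x0 :=
    hG.contDiffAt.hasStrictFDerivAt one_ne_zero
  have h2 : ContDiffAt ℝ 1 (fun x => ‖gradient F x‖⁻¹) x0 :=
    (hG.contDiffAt.norm ℝ hx).inv (norm_ne_zero_iff.2 hx)
  have h3 := h2.hasStrictFDerivAt one_ne_zero
  exact ⟨_, h3.smul h1⟩

theorem approx_eventually {E G : Type*} [NormedAddCommGroup E] [NormedSpace ℝ E]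
    [NormedAddCommGroup G] [NormedSpace ℝ G] {f : E → G} {f' : E →L[ℝ] G} {x0 : E}
    (h : HasStrictFDerivAt f f' x0) {κ : ℝ} (hκ : 0 < κ) :
    ∃ O ∈ 𝓝 x0, ∀ y ∈ O, ∀ z ∈ O, ‖f y - f z - f' (y - z)‖ ≤ κ * ‖y - z‖ := by
  obtain ⟨O, hO, hA⟩ := h.approximates_deriv_on_nhds (c := ⟨κ, hκ.le⟩) (Or.inr hκ)
  exact ⟨O, hO, fun y hy z hz => hA y hy z hz⟩

/-- The compressed derivative of the unit normal at `x0`. -/
noncomputable def cshape (F : V → ℝ) (x0 : V) : (ℝ ∙ nrm F x0)ᗮ →L[ℝ] (ℝ ∙ nrm F x0)ᗮ :=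
  (ℝ ∙ nrm F x0)ᗮ.orthogonalProjectionOnto ∘L
    (‖gradient F x0‖⁻¹ • fderiv ℝ (gradient F) x0) ∘L (ℝ ∙ nrm F x0)ᗮ.subtypeL

theorem cshape_det (F : V → ℝ) (x0 : V) (hx : gradient F x0 ≠ 0) :
    (cshape F x0).det = gaussK F x0 := by
  rw [cshape, det_compress _ (norm_nrm F x0 hx), gaussK, shape]
  congr 2
  ext v
  simp

theorem local_approx (F : V → ℝ) (hF : ContDiff ℝ 2 F) (x0 : V) (hx : gradient F x0 ≠ 0)
    (η : ℝ) (hη : 0 < η) :
    ∃ O ∈ 𝓝 x0, ∀ y ∈ {x | F x = 0} ∩ O, ∀ z ∈ {x | F x = 0} ∩ O,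
      ‖y - z‖ ≤ (1 + η) * ‖(ℝ ∙ nrm F x0)ᗮ.orthogonalProjectionOnto (y - z)‖ ∧
      ‖nrm F y - nrm F z‖ ≤
        (1 + η) * ‖(ℝ ∙ nrm F x0)ᗮ.orthogonalProjectionOnto (nrm F y - nrm F z)‖ ∧
      ‖(ℝ ∙ nrm F x0)ᗮ.orthogonalProjectionOnto (nrm F y - nrm F z) -
        cshape F x0 ((ℝ ∙ nrm F x0)ᗮ.orthogonalProjectionOnto (y - z))‖ ≤
          η * ‖(ℝ ∙ nrm F x0)ᗮ.orthogonalProjectionOnto (y - z)‖ := by
  obtain ⟨c, hc⟩ := nrm_hasStrict F hF x0 hx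
  set u := nrm F x0 with hu
  set P := (ℝ ∙ u)ᗮ.orthogonalProjectionOnto with hP
  set D0 : V →L[ℝ] V := ‖gradient F x0‖⁻¹ • fderiv ℝ (gradient F) x0 with hD0
  set D : V →L[ℝ] V := D0 + c.smulRight (gradient F x0) with hD
  have hu1 : ‖u‖ = 1 := norm_nrm F x0 hx
  have hgu : gradient F x0 = ‖gradient F x0‖ • u := by
    rw [hu, nrm, smul_smul, mul_inv_cancel₀ (norm_ne_zero_iff.2 hx), one_smul]
  have hPu : P u = 0 := by
    have h1 := coe_projT u hu1 u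
    rw [real_inner_self_eq_norm_sq, hu1, one_pow, one_smul, sub_self] at h1
    exact_mod_cast h1
  have hPle : ∀ v, ‖P v‖ ≤ ‖v‖ := fun v =>
    (ℝ ∙ u)ᗮ.norm_orthogonalProjectionOnto_apply_le v
  have hdec : ∀ v : V, v - (P v : V) = ⟪u, v⟫ • u := by
    intro v
    rw [hP, coe_projT u hu1 v]
    abel
  have hnle : ∀ v : V, ‖v‖ ≤ ‖P v‖ + |⟪u, v⟫| := by
    intro v
    have h1 : v = (P v : V) + ⟪u, v⟫ • u := by rw [← hdec v]; abel
    calc ‖v‖ = ‖(P v : V) + ⟪u, v⟫ • u‖ := by rw [← h1]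
      _ ≤ ‖(P v : V)‖ + ‖⟪u, v⟫ • u‖ := norm_add_le _ _
      _ = ‖P v‖ + |⟪u, v⟫| := by rw [norm_smul, hu1, mul_one, Real.norm_eq_abs, Submodule.coe_norm]
  set κ : ℝ := η / ((1 + η) * (1 + ‖D‖)) with hκ
  have hDpos : 0 < 1 + ‖D‖ := by positivity
  have hκ0 : 0 < κ := by positivity
  have hκ1 : κ * (1 + η) ≤ η := by
    rw [hκ, div_mul_eq_mul_div, div_le_iff₀ (by positivity)]
    have : 0 ≤ η * (1 + η) * ‖D‖ := by positivity
    nlinarith
  have hκ2 : κ * (1 + ‖D‖) * (1 + η) = η := by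
    rw [hκ]
    field_simp
  have hF1 : HasStrictFDerivAt F (fderiv ℝ F x0) x0 :=
    hF.contDiffAt.hasStrictFDerivAt two_ne_zero
  have hgpos : 0 < ‖gradient F x0‖ := norm_pos_iff.2 hx
  obtain ⟨O1, hO1, hA1⟩ := approx_eventually hF1 (κ := κ * ‖gradient F x0‖) (by positivity)
  obtain ⟨O2, hO2, hA2⟩ := approx_eventually hc hκ0
  have hcont : ContinuousAt (nrm F) x0 := hc.continuousAt
  have hO3 : {y | ‖nrm F y - u‖ ≤ κ} ∈ 𝓝 x0 := by
    have := Metric.tendsto_nhds.1 hcont κ hκ0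
    filter_upwards [this] with y hy
    rw [dist_eq_norm] at hy
    exact hy.le
  have hO4 : {y | gradient F y ≠ 0} ∈ 𝓝 x0 :=
    ((gradient_contDiff F hF).continuous.continuousAt).eventually_ne hx
  have key : ∀ v : V, |⟪u, v⟫| ≤ κ * ‖v‖ → ‖v‖ ≤ (1 + η) * ‖P v‖ := by
    intro v hv
    have h1 := hnle v
    have h2 : ‖v‖ ≤ ‖P v‖ + κ * ‖v‖ := h1.trans (by linarith)
    have h3 : (1 + η) * ‖v‖ ≤ (1 + η) * ‖P v‖ + κ * (1 + η) * ‖v‖ := by
      have := mul_le_mul_of_nonneg_left h2 (by positivity : (0 : ℝ) ≤ 1 + η)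
      linarith
    have h4 : κ * (1 + η) * ‖v‖ ≤ η * ‖v‖ := by gcongr
    linarith
  refine ⟨O1 ∩ O2 ∩ {y | ‖nrm F y - u‖ ≤ κ} ∩ {y | gradient F y ≠ 0},
    inter_mem (inter_mem (inter_mem hO1 hO2) hO3) hO4, ?_⟩
  rintro y ⟨hy0, ⟨⟨hy1, hy2⟩, hy3⟩, hy4⟩ z ⟨hz0, ⟨⟨hz1, hz2⟩, hz3⟩, hz4⟩
  have hy0 : F y = 0 := hy0
  have hz0 : F z = 0 := hz0
  have hy3 : ‖nrm F y - u‖ ≤ κ := hy3
  have hz3 : ‖nrm F z - u‖ ≤ κ := hz3
  have b1 : |⟪u, y - z⟫| ≤ κ * ‖y - z‖ := by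
    have h1 := hA1 y hy1 z hz1
    rw [hy0, hz0, sub_self, zero_sub, norm_neg, ← inner_gradient', hgu, inner_smul_left,
      norm_mul, ← hgu] at h1
    simp only [RCLike.conj_to_real, Real.norm_eq_abs, abs_norm] at h1
    have h2 : ‖gradient F x0‖ * |⟪u, y - z⟫| ≤ ‖gradient F x0‖ * (κ * ‖y - z‖) := by linarith
    exact le_of_mul_le_mul_left h2 hgpos
  have a1 := key _ b1
  have b2 : |⟪u, nrm F y - nrm F z⟫| ≤ κ * ‖nrm F y - nrm F z‖ := by
    set a := nrm F y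
    set b := nrm F z
    have ha : ‖a‖ = 1 := norm_nrm F y hy4
    have hb : ‖b‖ = 1 := norm_nrm F z hz4
    have h1 : ⟪a + b, a - b⟫ = 0 := by
      rw [inner_add_left, inner_sub_right, inner_sub_right, real_inner_self_eq_norm_sq,
        real_inner_self_eq_norm_sq, ha, hb, real_inner_comm a b]
      ring
    have h2 : ⟪u, a - b⟫ = ⟪u - (1 / 2 : ℝ) • (a + b), a - b⟫ := by
      rw [inner_sub_left, inner_smul_left, h1, mul_zero, sub_zero]
    rw [h2]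
    have h3 : ‖u - (1 / 2 : ℝ) • (a + b)‖ ≤ κ := by
      have h4 : u - (1 / 2 : ℝ) • (a + b) = (1 / 2 : ℝ) • (-(a - u)) + (1 / 2 : ℝ) • (-(b - u)) := by
        module
      rw [h4]
      refine (norm_add_le _ _).trans ?_
      rw [norm_smul, norm_smul, norm_neg, norm_neg]
      have : ‖(1 / 2 : ℝ)‖ = 1 / 2 := by norm_num
      rw [this]
      linarith
    exact (abs_real_inner_le_norm _ _).trans (by gcongr)
  have a2 := key _ b2
  refine ⟨a1, a2, ?_⟩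
  have e1 : P (nrm F y - nrm F z) - cshape F x0 (P (y - z)) =
      P (nrm F y - nrm F z - D (y - z)) + P (D (y - z - (P (y - z) : V))) := by
    have h1 : cshape F x0 (P (y - z)) = P (D (P (y - z) : V)) := by
      show P (D0 (P (y - z) : V)) = _
      rw [hD, _root_.add_apply, map_add, ContinuousLinearMap.smulRight_apply,
        map_smul, hgu, map_smul, hPu, smul_zero, smul_zero, add_zero]
    rw [h1]
    simp only [map_sub]
    abel
  rw [e1]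
  have hv : ‖y - z - (P (y - z) : V)‖ ≤ κ * ‖y - z‖ := by
    rw [hdec, norm_smul, hu1, mul_one, Real.norm_eq_abs]
    exact b1
  calc ‖P (nrm F y - nrm F z - D (y - z)) + P (D (y - z - (P (y - z) : V)))‖
      ≤ ‖P (nrm F y - nrm F z - D (y - z))‖ + ‖P (D (y - z - (P (y - z) : V)))‖ := norm_add_le _ _
    _ ≤ ‖nrm F y - nrm F z - D (y - z)‖ + ‖D (y - z - (P (y - z) : V))‖ :=
        add_le_add (hPle _) (hPle _)
    _ ≤ κ * ‖y - z‖ + ‖D‖ * (κ * ‖y - z‖) := by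
        refine add_le_add (hA2 y hy2 z hz2) ((D.le_opNorm _).trans (by gcongr))
    _ = κ * (1 + ‖D‖) * ‖y - z‖ := by ring
    _ ≤ κ * (1 + ‖D‖) * ((1 + η) * ‖P (y - z)‖) := by gcongr
    _ = η * ‖P (y - z)‖ := by rw [← mul_assoc, hκ2]

variable [MeasurableSpace V] [BorelSpace V]

/-- Local area inequality for the unit normal of a regular level set. -/
theorem area_local (n : ℕ) (hn : finrank ℝ V = n + 1) (F : V → ℝ) (hF : ContDiff ℝ 2 F) (x0 : V)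
    (hx : gradient F x0 ≠ 0) (m : ℝ≥0) (hm : ENNReal.ofReal |gaussK F x0| < m) :
    ∃ O ∈ 𝓝 x0, ∀ E ⊆ {x | F x = 0} ∩ O, μH[(n : ℕ)] (nrm F '' E) ≤ m * μH[(n : ℕ)] E := by
  haveI : Fact (finrank ℝ V = n + 1) := ⟨hn⟩
  have hu : nrm F x0 ≠ 0 := by
    rw [← norm_ne_zero_iff, norm_nrm F x0 hx]
    exact one_ne_zero
  have hfr : finrank ℝ (ℝ ∙ nrm F x0)ᗮ = n := Submodule.finrank_orthogonal_span_singleton hu
  have h1 := area_abstract (ℝ ∙ nrm F x0)ᗮ ((ℝ ∙ nrm F x0)ᗮ.orthogonalProjectionOnto)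
    (fun v => (ℝ ∙ nrm F x0)ᗮ.norm_orthogonalProjectionOnto_apply_le v) (cshape F x0)
    {x | F x = 0} x0 (nrm F) (fun η hη => local_approx F hF x0 hx η hη) m
    (by rw [cshape_det F x0 hx]; exact hm)
  rwa [hfr] at h1

/-- A regular level set is locally a Lipschitz image of a ball: finiteness of the measure. -/
theorem finite_local (n : ℕ) (hn : finrank ℝ V = n + 1) (F : V → ℝ) (hF : ContDiff ℝ 2 F) (x0 : V)
    (hx : gradient F x0 ≠ 0) :
    ∃ O ∈ 𝓝 x0, μH[(n : ℕ)] ({x | F x = 0} ∩ O) < ⊤ := by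
  haveI : Fact (finrank ℝ V = n + 1) := ⟨hn⟩
  have hu : nrm F x0 ≠ 0 := by
    rw [← norm_ne_zero_iff, norm_nrm F x0 hx]
    exact one_ne_zero
  have hfr : finrank ℝ (ℝ ∙ nrm F x0)ᗮ = n := Submodule.finrank_orthogonal_span_singleton hu
  obtain ⟨O, hO, hOO⟩ := local_approx F hF x0 hx 1 one_pos
  refine ⟨O ∩ Metric.ball x0 1, inter_mem hO (Metric.ball_mem_nhds x0 one_pos), ?_⟩
  set P := (ℝ ∙ nrm F x0)ᗮ.orthogonalProjectionOnto with hP
  set E := {x | F x = 0} ∩ (O ∩ Metric.ball x0 1) with hE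
  have hEE : ∀ y ∈ E, ∀ z ∈ E, ‖y - z‖ ≤ (1 + 1) * ‖P (y - z)‖ := fun y hy z hz =>
    (hOO y ⟨hy.1, hy.2.1⟩ z ⟨hz.1, hz.2.1⟩).1
  have hinj : InjOn P E := by
    intro y hy z hz hyz
    have h1 := hEE y hy z hz
    rw [map_sub, hyz, sub_self, norm_zero, mul_zero] at h1
    exact sub_eq_zero.1 (norm_le_zero_iff.1 h1)
  let s : (ℝ ∙ nrm F x0)ᗮ → V := Function.invFunOn P E
  have hs : ∀ y ∈ E, s (P y) = y := fun y hy => hinj.leftInvOn_invFunOn hy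
  have hsE : s '' (P '' E) = E := by
    ext u
    constructor
    · rintro ⟨_, ⟨v, hv, rfl⟩, rfl⟩
      rw [hs v hv]
      exact hv
    · intro hu
      exact ⟨P u, ⟨u, hu, rfl⟩, hs u hu⟩
  have hsL : LipschitzOnWith 2 s (P '' E) := by
    rw [lipschitzOnWith_iff_dist_le_mul]
    rintro _ ⟨y, hy, rfl⟩ _ ⟨z, hz, rfl⟩
    rw [hs _ hy, hs _ hz, dist_eq_norm, dist_eq_norm, ← map_sub]
    have := hEE y hy z hz
    norm_num at this ⊢
    exact this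
  have i3 := hsL.hausdorffMeasure_image_le (d := (n : ℝ)) (by positivity)
  rw [hsE] at i3
  refine i3.trans_lt ?_
  have hPE : P '' E ⊆ Metric.ball (P x0) 1 := by
    rintro _ ⟨y, hy, rfl⟩
    rw [Metric.mem_ball, dist_eq_norm, ← map_sub]
    refine lt_of_le_of_lt ((ℝ ∙ nrm F x0)ᗮ.norm_orthogonalProjectionOnto_apply_le _) ?_
    rw [← dist_eq_norm]
    exact hy.2.2
  have hfin : μH[(n : ℝ)] (Metric.ball (P x0) 1) < ⊤ := by
    have h2 : IsAddHaarMeasure (μH[(n : ℝ)] : Measure (ℝ ∙ nrm F x0)ᗮ) := by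
      have := MeasureTheory.isAddHaarMeasure_hausdorffMeasure (E := (ℝ ∙ nrm F x0)ᗮ)
      rwa [hfr] at this
    exact Metric.isBounded_ball.measure_lt_top
  refine ENNReal.mul_lt_top (by simp) ((measure_mono hPE).trans_lt hfin)

end Pool.Schoen
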