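import Pool.Agent.H.MP_6c077c_gt.TubeDefs

/-! Passage between maps of spheres (as manifolds) and maps of the ambient spaces. -/

set_option autoImplicit false

namespace Pool.Schoen

open scoped ContDiff RealInnerProductSpace Manifold
open Metric Set Real

/-- Tangent balls shrink: from radii in `(0, π)` to radii below `π / 2`. -/
theorem ball_shrink {E' : Type*} [NormedAddCommGroup E'] [InnerProductSpace ℝ E'] (x y m : E')
    (hx : ‖x‖ = 1) (hm : ‖m‖ = 1) (r r' : ℝ) (hr' : 0 < r') (hrr : r' ≤ r) (hr : r < π)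
    (h : ⟪m, cos r • x + sin r • y⟫ ≤ cos r) : ⟪m, cos r' • x + sin r' • y⟫ ≤ cos r' := by
  rw [inner_add_right, real_inner_smul_right, real_inner_smul_right] at h ⊢
  have ha : ⟪m, x⟫ ≤ 1 := by
    calc ⟪m, x⟫ ≤ ‖m‖ * ‖x‖ := real_inner_le_norm m x
      _ = 1 := by rw [hx, hm, one_mul]
  have hs : 0 < sin r := sin_pos_of_pos_of_lt_pi (lt_of_lt_of_le hr' hrr) hr
  have hs' : 0 < sin r' := sin_pos_of_pos_of_lt_pi hr' (lt_of_le_of_lt hrr hr)
  have hd : 0 ≤ sin (r - r') := sin_nonneg_of_nonneg_of_le_pi (by linarith) (by linarith)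
  rw [sin_sub] at hd
  have h1 : sin r' * (cos r * ⟪m, x⟫ + sin r * ⟪m, y⟫) ≤ sin r' * cos r :=
    mul_le_mul_of_nonneg_left h hs'.le
  have h2 : 0 ≤ (sin r * cos r' - cos r * sin r') * (1 - ⟪m, x⟫) :=
    mul_nonneg hd (by linarith)
  have h3 : sin r * (cos r' * ⟪m, x⟫ + sin r' * ⟪m, y⟫) ≤ sin r * cos r' := by nlinarith
  exact le_of_mul_le_mul_left h3 hs

/-- The radial projection to the sphere. -/
noncomputable def manifold_proj (n : ℕ) (x : EuclideanSpace ℝ (Fin (n + 1))) :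
    sphere (0 : EuclideanSpace ℝ (Fin (n + 1))) 1 :=
  open Classical in
  if h : x ≠ 0 then ⟨‖x‖⁻¹ • x, by
    rw [mem_sphere_zero_iff_norm, norm_smul, norm_inv, norm_norm,
      inv_mul_cancel₀ (norm_ne_zero_iff.2 h)]⟩
  else Classical.choice ((NormedSpace.sphere_nonempty (x := (0 : EuclideanSpace ℝ (Fin (n + 1))))
    (r := 1)).2 zero_le_one).to_subtype

theorem manifold_proj_coe (n : ℕ) (x : EuclideanSpace ℝ (Fin (n + 1))) (h : x ≠ 0) :
    (manifold_proj n x : EuclideanSpace ℝ (Fin (n + 1))) = ‖x‖⁻¹ • x := by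
  rw [manifold_proj, dif_pos h]

theorem manifold_proj_sphere (n : ℕ) (p : sphere (0 : EuclideanSpace ℝ (Fin (n + 1))) 1) :
    manifold_proj n p = p := by
  apply Subtype.ext
  rw [manifold_proj_coe n _ (ne_zero_of_mem_unit_sphere p), norm_eq_of_mem_sphere]
  simp

theorem manifold_proj_smooth (n : ℕ) (x : EuclideanSpace ℝ (Fin (n + 1))) (h : x ≠ 0) :
    ContMDiffAt 𝓘(ℝ, EuclideanSpace ℝ (Fin (n + 1))) (𝓡 n) ∞ (manifold_proj n) x := by
  have := Fact.mk (@finrank_euclideanSpace_fin ℝ _ (n + 1))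
  let U : TopologicalSpace.Opens (EuclideanSpace ℝ (Fin (n + 1))) := ⟨{0}ᶜ, isOpen_compl_singleton⟩
  have hU : ∀ y : U, (y : EuclideanSpace ℝ (Fin (n + 1))) ≠ 0 := fun y => y.2
  have h1 : ContMDiff 𝓘(ℝ, EuclideanSpace ℝ (Fin (n + 1))) 𝓘(ℝ, EuclideanSpace ℝ (Fin (n + 1))) ∞
      (fun y : U => ‖(y : EuclideanSpace ℝ (Fin (n + 1)))‖⁻¹ • (y : EuclideanSpace ℝ (Fin (n + 1)))) := by
    intro y
    refine (contMDiffAt_subtype_iff (f := fun y : EuclideanSpace ℝ (Fin (n + 1)) => ‖y‖⁻¹ • y)).2 ?_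
    refine ContDiffAt.contMDiffAt ?_
    exact ((contDiffAt_norm ℝ (hU y)).inv (norm_ne_zero_iff.2 (hU y))).smul contDiffAt_id
  have h2 := ContMDiff.codRestrict_sphere (n := n) h1 (fun y => by
    rw [mem_sphere_zero_iff_norm, norm_smul, norm_inv, norm_norm,
      inv_mul_cancel₀ (norm_ne_zero_iff.2 (hU y))])
  have h3 : ContMDiff 𝓘(ℝ, EuclideanSpace ℝ (Fin (n + 1))) (𝓡 n) ∞
      (fun y : U => manifold_proj n y) := by
    refine h2.congr fun y => ?_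
    apply Subtype.ext
    rw [manifold_proj_coe n _ (hU y)]
    rfl
  exact (contMDiffAt_subtype_iff (x := (⟨x, h⟩ : U))).1 (h3 ⟨x, h⟩)

variable {F : Type*} [NormedAddCommGroup F] [NormedSpace ℝ F]

/-- The homogeneous extension. -/
noncomputable def manifold_ext (n : ℕ)
    (h : sphere (0 : EuclideanSpace ℝ (Fin (n + 1))) 1 → F) (x : EuclideanSpace ℝ (Fin (n + 1))) : F :=
  ‖x‖ • h (manifold_proj n x)

theorem manifold_ext_sphere (n : ℕ) (h : sphere (0 : EuclideanSpace ℝ (Fin (n + 1))) 1 → F)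
    (p : sphere (0 : EuclideanSpace ℝ (Fin (n + 1))) 1) : manifold_ext n h p = h p := by
  rw [manifold_ext, manifold_proj_sphere, norm_eq_of_mem_sphere, one_smul]

theorem manifold_ext_hom (n : ℕ) (h : sphere (0 : EuclideanSpace ℝ (Fin (n + 1))) 1 → F)
    (t : ℝ) (ht : 0 < t) (x : EuclideanSpace ℝ (Fin (n + 1))) (hx : x ≠ 0) :
    manifold_ext n h (t • x) = t • manifold_ext n h x := by
  have hp : manifold_proj n (t • x) = manifold_proj n x := by
    apply Subtype.ext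
    rw [manifold_proj_coe n _ (smul_ne_zero ht.ne' hx), manifold_proj_coe n _ hx, norm_smul,
      Real.norm_eq_abs, abs_of_pos ht, smul_smul]
    congr 1
    have := norm_ne_zero_iff.2 hx
    field_simp
  rw [manifold_ext, manifold_ext, hp, norm_smul, Real.norm_eq_abs, abs_of_pos ht, smul_smul]

theorem manifold_ext_smooth (n : ℕ) (h : sphere (0 : EuclideanSpace ℝ (Fin (n + 1))) 1 → F)
    (hh : ContMDiff (𝓡 n) 𝓘(ℝ, F) ∞ h) (x : EuclideanSpace ℝ (Fin (n + 1))) (hx : x ≠ 0) :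
    ContDiffAt ℝ ∞ (manifold_ext n h) x := by
  have h1 : ContDiffAt ℝ ∞ (fun y => h (manifold_proj n y)) x := by
    rw [← contMDiffAt_iff_contDiffAt]
    exact (hh _).comp x (manifold_proj_smooth n x hx)
  exact (contDiffAt_norm ℝ hx).smul h1

theorem manifold_ext_euler (n : ℕ) (h : sphere (0 : EuclideanSpace ℝ (Fin (n + 1))) 1 → F)
    (hh : ContMDiff (𝓡 n) 𝓘(ℝ, F) ∞ h) (p : sphere (0 : EuclideanSpace ℝ (Fin (n + 1))) 1) :
    fderiv ℝ (manifold_ext n h) p p = h p := by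
  have hp : (p : EuclideanSpace ℝ (Fin (n + 1))) ≠ 0 := ne_zero_of_mem_unit_sphere p
  have h1 : HasFDerivAt (manifold_ext n h) (fderiv ℝ (manifold_ext n h) p)
      ((1 : ℝ) • (p : EuclideanSpace ℝ (Fin (n + 1)))) := by
    rw [one_smul]
    exact ((manifold_ext_smooth n h hh p hp).differentiableAt (by simp)).hasFDerivAt
  have h2 : HasDerivAt (fun t : ℝ => t • (p : EuclideanSpace ℝ (Fin (n + 1)))) p 1 := by
    simpa using (hasDerivAt_id (1 : ℝ)).smul_const (p : EuclideanSpace ℝ (Fin (n + 1)))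
  have h3 := h1.comp_hasDerivAt (1 : ℝ) h2
  have h4 : HasDerivAt (fun t : ℝ => t • manifold_ext n h p) (manifold_ext n h p) 1 := by
    simpa using (hasDerivAt_id (1 : ℝ)).smul_const (manifold_ext n h p)
  have h5 : (manifold_ext n h ∘ fun t : ℝ => t • (p : EuclideanSpace ℝ (Fin (n + 1))))
      =ᶠ[nhds 1] (fun t : ℝ => t • manifold_ext n h p) := by
    filter_upwards [lt_mem_nhds (zero_lt_one' ℝ)] with t ht
    exact manifold_ext_hom n h t ht p hp
  have h6 := (h4.congr_of_eventuallyEq h5).unique h3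
  rw [← h6, manifold_ext_sphere]

theorem manifold_ext_chain (n : ℕ) (h : sphere (0 : EuclideanSpace ℝ (Fin (n + 1))) 1 → F)
    (hh : ContMDiff (𝓡 n) 𝓘(ℝ, F) ∞ h) (p : sphere (0 : EuclideanSpace ℝ (Fin (n + 1))) 1)
    (v : TangentSpace (𝓡 n) p) :
    fderiv ℝ (manifold_ext n h) p (mfderiv (𝓡 n) 𝓘(ℝ, EuclideanSpace ℝ (Fin (n + 1)))
      ((↑) : sphere (0 : EuclideanSpace ℝ (Fin (n + 1))) 1 → EuclideanSpace ℝ (Fin (n + 1))) p v)
      = mfderiv (𝓡 n) 𝓘(ℝ, F) h p v := by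
  have := Fact.mk (@finrank_euclideanSpace_fin ℝ _ (n + 1))
  have hp : (p : EuclideanSpace ℝ (Fin (n + 1))) ≠ 0 := ne_zero_of_mem_unit_sphere p
  have h1 : (manifold_ext n h) ∘ ((↑) : sphere (0 : EuclideanSpace ℝ (Fin (n + 1))) 1 →
      EuclideanSpace ℝ (Fin (n + 1))) = h := by
    funext q
    exact manifold_ext_sphere n h q
  have h2 : MDifferentiableAt 𝓘(ℝ, EuclideanSpace ℝ (Fin (n + 1))) 𝓘(ℝ, F) (manifold_ext n h)
      (p : EuclideanSpace ℝ (Fin (n + 1))) :=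
    ((manifold_ext_smooth n h hh p hp).differentiableAt (by simp)).mdifferentiableAt
  have h3 : MDifferentiableAt (𝓡 n) 𝓘(ℝ, EuclideanSpace ℝ (Fin (n + 1)))
      ((↑) : sphere (0 : EuclideanSpace ℝ (Fin (n + 1))) 1 → EuclideanSpace ℝ (Fin (n + 1))) p :=
    (contMDiff_coe_sphere (m := ∞) p).mdifferentiableAt (by simp)
  have h4 := mfderiv_comp p h2 h3
  rw [h1] at h4
  rw [h4, mfderiv_eq_fderiv]
  rfl


/-- The differential of the inclusion of the sphere. -/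
noncomputable def manifold_D (n : ℕ) (p : sphere (0 : EuclideanSpace ℝ (Fin (n + 1))) 1)
    (w : TangentSpace (𝓡 n) p) : EuclideanSpace ℝ (Fin (n + 1)) :=
  mfderiv (𝓡 n) 𝓘(ℝ, EuclideanSpace ℝ (Fin (n + 1)))
    ((↑) : sphere (0 : EuclideanSpace ℝ (Fin (n + 1))) 1 → EuclideanSpace ℝ (Fin (n + 1))) p w

/-- The differential of a vector-valued map on the sphere. -/
noncomputable def manifold_T (n : ℕ) (h : sphere (0 : EuclideanSpace ℝ (Fin (n + 1))) 1 → F)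
    (p : sphere (0 : EuclideanSpace ℝ (Fin (n + 1))) 1) (w : TangentSpace (𝓡 n) p) : F :=
  mfderiv (𝓡 n) 𝓘(ℝ, F) h p w

theorem manifold_key (n : ℕ) (p : sphere (0 : EuclideanSpace ℝ (Fin (n + 1))) 1)
    (v : EuclideanSpace ℝ (Fin (n + 1))) : ∃ w : TangentSpace (𝓡 n) p,
    v = ⟪v, (p : EuclideanSpace ℝ (Fin (n + 1)))⟫ • (p : EuclideanSpace ℝ (Fin (n + 1))) +
      manifold_D n p w := by
  have := Fact.mk (@finrank_euclideanSpace_fin ℝ _ (n + 1))
  have h1 : v - ⟪v, (p : EuclideanSpace ℝ (Fin (n + 1)))⟫ • (p : EuclideanSpace ℝ (Fin (n + 1)))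
      ∈ (ℝ ∙ (p : EuclideanSpace ℝ (Fin (n + 1))))ᗮ := by
    rw [Submodule.mem_orthogonal_singleton_iff_inner_left, inner_sub_left,
      real_inner_smul_left, real_inner_self_eq_norm_sq, norm_eq_of_mem_sphere]
    ring
  rw [← range_mvfderiv_subtypeVal (n := n) p] at h1
  obtain ⟨w, hw⟩ := h1
  refine ⟨w, ?_⟩
  have hw' : manifold_D n p w = v -
      ⟪v, (p : EuclideanSpace ℝ (Fin (n + 1)))⟫ • (p : EuclideanSpace ℝ (Fin (n + 1))) := hw
  rw [hw']
  abel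

theorem manifold_der (n : ℕ) (h : sphere (0 : EuclideanSpace ℝ (Fin (n + 1))) 1 → F)
    (hh : ContMDiff (𝓡 n) 𝓘(ℝ, F) ∞ h)
    (p : sphere (0 : EuclideanSpace ℝ (Fin (n + 1))) 1) (v : EuclideanSpace ℝ (Fin (n + 1)))
    (w : TangentSpace (𝓡 n) p)
    (hvw : v = ⟪v, (p : EuclideanSpace ℝ (Fin (n + 1)))⟫ • (p : EuclideanSpace ℝ (Fin (n + 1))) +
      manifold_D n p w) :
    fderiv ℝ (manifold_ext n h) p v = ⟪v, (p : EuclideanSpace ℝ (Fin (n + 1)))⟫ • h p +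
      manifold_T n h p w := by
  have h1 : fderiv ℝ (manifold_ext n h) p v = fderiv ℝ (manifold_ext n h) p
      (⟪v, (p : EuclideanSpace ℝ (Fin (n + 1)))⟫ • (p : EuclideanSpace ℝ (Fin (n + 1))) +
      manifold_D n p w) := congrArg _ hvw
  rw [h1, map_add, map_smul, manifold_ext_euler n h hh p]
  congr 1
  exact manifold_ext_chain n h hh p w

/-- The homogeneous extension of a thick embedded sphere. -/
theorem exists_sthick (n : ℕ)
    (f : sphere (0 : EuclideanSpace ℝ (Fin (n + 1))) 1 →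
      sphere (0 : EuclideanSpace ℝ (Fin (n + 1 + 1))) 1)
    (hf : ContMDiff (𝓡 n) (𝓡 (n + 1)) ∞ f)
    (himm : ∀ x, Function.Injective (mfderiv (𝓡 n) (𝓡 (n + 1)) f x))
    (hinj : Function.Injective f)
    (ν : sphere (0 : EuclideanSpace ℝ (Fin (n + 1))) 1 → EuclideanSpace ℝ (Fin (n + 1 + 1)))
    (hν : ContMDiff (𝓡 n) 𝓘(ℝ, EuclideanSpace ℝ (Fin (n + 1 + 1))) ∞ ν)
    (hν1 : ∀ p, ‖ν p‖ = 1) (hνf : ∀ p, ⟪(f p : EuclideanSpace ℝ (Fin (n + 1 + 1))), ν p⟫ = 0)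
    (hνd : ∀ p v, @inner ℝ (EuclideanSpace ℝ (Fin (n + 1 + 1))) _
      (mfderiv (𝓡 n) 𝓘(ℝ, EuclideanSpace ℝ (Fin (n + 1 + 1)))
        (fun x => (f x : EuclideanSpace ℝ (Fin (n + 1 + 1)))) p v) (ν p) = 0)
    (r₁ r₂ : ℝ) (h₁ : 0 < r₁) (h₁' : r₁ < π / 2) (h₂ : 0 < r₂) (h₂' : r₂ < π / 2)
    (hb₁ : ∀ p q, ⟪(f q : EuclideanSpace ℝ (Fin (n + 1 + 1))),
      cos r₁ • (f p : EuclideanSpace ℝ (Fin (n + 1 + 1))) - sin r₁ • ν p⟫ ≤ cos r₁)
    (hb₂ : ∀ p q, ⟪(f q : EuclideanSpace ℝ (Fin (n + 1 + 1))),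
      cos r₂ • (f p : EuclideanSpace ℝ (Fin (n + 1 + 1))) + sin r₂ • ν p⟫ ≤ cos r₂) :
    ∃ g μ : EuclideanSpace ℝ (Fin (n + 1)) → EuclideanSpace ℝ (Fin (n + 1 + 1)),
      SThick g μ r₁ r₂ ∧
        ∀ x : sphere (0 : EuclideanSpace ℝ (Fin (n + 1))) 1, g x = f x := by
  have hF := Fact.mk (@finrank_euclideanSpace_fin ℝ _ (n + 1))
  have hF' := Fact.mk (@finrank_euclideanSpace_fin ℝ _ (n + 1 + 1))
  have hcf : ContMDiff (𝓡 n) 𝓘(ℝ, EuclideanSpace ℝ (Fin (n + 1 + 1))) ∞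
      (fun x => (f x : EuclideanSpace ℝ (Fin (n + 1 + 1)))) :=
    (contMDiff_coe_sphere (n := n + 1) (m := ∞)).comp hf
  refine ⟨manifold_ext n (fun x => (f x : EuclideanSpace ℝ (Fin (n + 1 + 1)))),
    manifold_ext n ν, ?_, fun x => manifold_ext_sphere n _ x⟩
  constructor
  · intro x hx
    exact (manifold_ext_smooth n _ hcf x hx).contDiffWithinAt
  · intro x hx
    exact (manifold_ext_smooth n _ hν x hx).contDiffWithinAt
  · exact fun t ht x hx => manifold_ext_hom n _ t ht x hx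
  · exact fun t ht x hx => manifold_ext_hom n _ t ht x hx
  · intro p hp
    have := manifold_ext_sphere n (fun x => (f x : EuclideanSpace ℝ (Fin (n + 1 + 1)))) ⟨p, hp⟩
    simp only at this
    rw [this, norm_eq_of_mem_sphere]
  · intro p hp
    have := manifold_ext_sphere n ν ⟨p, hp⟩
    simp only at this
    rw [this, hν1]
  · intro p hp
    rw [injective_iff_map_eq_zero]
    intro v hv
    obtain ⟨w, hw⟩ := manifold_key n ⟨p, hp⟩ v
    have h1 := manifold_der n _ hcf ⟨p, hp⟩ v w hw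
    simp only at h1
    rw [hv] at h1
    have hch : manifold_T n (fun x => (f x : EuclideanSpace ℝ (Fin (n + 1 + 1)))) ⟨p, hp⟩ w =
        manifold_D (n + 1) (f ⟨p, hp⟩) (mfderiv (𝓡 n) (𝓡 (n + 1)) f ⟨p, hp⟩ w) := by
      have h2 : MDifferentiableAt (𝓡 (n + 1)) 𝓘(ℝ, EuclideanSpace ℝ (Fin (n + 1 + 1)))
          ((↑) : sphere (0 : EuclideanSpace ℝ (Fin (n + 1 + 1))) 1 →
            EuclideanSpace ℝ (Fin (n + 1 + 1))) (f ⟨p, hp⟩) :=
        (contMDiff_coe_sphere (n := n + 1) (m := ∞) _).mdifferentiableAt (by simp)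
      have h3 : MDifferentiableAt (𝓡 n) (𝓡 (n + 1)) f ⟨p, hp⟩ :=
        (hf _).mdifferentiableAt (by simp)
      have h4 := mfderiv_comp (⟨p, hp⟩ : sphere (0 : EuclideanSpace ℝ (Fin (n + 1))) 1) h2 h3
      exact congrArg (fun L => L w) h4
    have hmem : manifold_D (n + 1) (f ⟨p, hp⟩) (mfderiv (𝓡 n) (𝓡 (n + 1)) f ⟨p, hp⟩ w) ∈
        (ℝ ∙ (f ⟨p, hp⟩ : EuclideanSpace ℝ (Fin (n + 1 + 1))))ᗮ := by
      rw [← range_mvfderiv_subtypeVal (n := n + 1) (f ⟨p, hp⟩)]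
      exact ⟨_, rfl⟩
    rw [Submodule.mem_orthogonal_singleton_iff_inner_left, ← hch] at hmem
    have h5 : ⟪v, p⟫ = 0 := by
      have h6 := congrArg (fun z => ⟪z, (f ⟨p, hp⟩ : EuclideanSpace ℝ (Fin (n + 1 + 1)))⟫) h1
      simp only [inner_zero_left, inner_add_left, real_inner_smul_left,
        real_inner_self_eq_norm_sq, norm_eq_of_mem_sphere, hmem] at h6
      linarith
    rw [h5, zero_smul, zero_add, hch] at h1
    have h7 : mfderiv (𝓡 n) (𝓡 (n + 1)) f ⟨p, hp⟩ w = 0 := by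
      have h8 := injective_mvfderiv_subtypeVal_sphere (n := n + 1) (f ⟨p, hp⟩)
      rw [injective_iff_map_eq_zero] at h8
      exact h8 _ h1.symm
    have h9 : w = 0 := by
      have h10 := himm ⟨p, hp⟩
      rw [injective_iff_map_eq_zero] at h10
      exact h10 w h7
    have h10 : manifold_D n ⟨p, hp⟩ w = 0 := by
      rw [h9, manifold_D, map_zero]
      rfl
    rw [hw, h10]
    simp only
    rw [h5, zero_smul, zero_add]
  · intro p hp v
    obtain ⟨w, hw⟩ := manifold_key n ⟨p, hp⟩ v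
    have h1 := manifold_der n _ hcf ⟨p, hp⟩ v w hw
    have h2 := manifold_ext_sphere n ν ⟨p, hp⟩
    simp only at h1 h2
    rw [h1, h2, inner_add_left, real_inner_smul_left, hνf, mul_zero, zero_add]
    exact hνd ⟨p, hp⟩ w
  · intro p hp q hq hpq
    have h1 := manifold_ext_sphere n (fun x => (f x : EuclideanSpace ℝ (Fin (n + 1 + 1)))) ⟨p, hp⟩
    have h2 := manifold_ext_sphere n (fun x => (f x : EuclideanSpace ℝ (Fin (n + 1 + 1)))) ⟨q, hq⟩
    simp only at h1 h2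
    rw [h1, h2] at hpq
    exact congrArg Subtype.val (hinj (Subtype.ext hpq))
  · exact h₁
  · exact h₂
  · exact h₁'
  · exact h₂'
  · intro p hp q hq
    have h1 := manifold_ext_sphere n (fun x => (f x : EuclideanSpace ℝ (Fin (n + 1 + 1)))) ⟨p, hp⟩
    have h2 := manifold_ext_sphere n (fun x => (f x : EuclideanSpace ℝ (Fin (n + 1 + 1)))) ⟨q, hq⟩
    have h3 := manifold_ext_sphere n ν ⟨p, hp⟩
    simp only at h1 h2 h3
    rw [tub, h1, h2, h3, cos_neg, sin_neg, neg_smul, ← sub_eq_add_neg]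
    exact hb₁ ⟨p, hp⟩ ⟨q, hq⟩
  · intro p hp q hq
    have h1 := manifold_ext_sphere n (fun x => (f x : EuclideanSpace ℝ (Fin (n + 1 + 1)))) ⟨p, hp⟩
    have h2 := manifold_ext_sphere n (fun x => (f x : EuclideanSpace ℝ (Fin (n + 1 + 1)))) ⟨q, hq⟩
    have h3 := manifold_ext_sphere n ν ⟨p, hp⟩
    simp only at h1 h2 h3
    rw [tub, h1, h2, h3]
    exact hb₂ ⟨p, hp⟩ ⟨q, hq⟩

theorem manifold_diff (n : ℕ) (a : EuclideanSpace ℝ (Fin (n + 1)) → EuclideanSpace ℝ (Fin (n + 1)))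
    (ha : ContDiffOn ℝ ∞ a {0}ᶜ)
    (hs : ∀ y : sphere (0 : EuclideanSpace ℝ (Fin (n + 1))) 1,
      a y ∈ sphere (0 : EuclideanSpace ℝ (Fin (n + 1))) 1) :
    ContMDiff (𝓡 n) (𝓡 n) ∞ (fun y : sphere (0 : EuclideanSpace ℝ (Fin (n + 1))) 1 =>
      (⟨a y, hs y⟩ : sphere (0 : EuclideanSpace ℝ (Fin (n + 1))) 1)) := by
  have := Fact.mk (@finrank_euclideanSpace_fin ℝ _ (n + 1))
  have h1 : ContMDiff (𝓡 n) 𝓘(ℝ, EuclideanSpace ℝ (Fin (n + 1))) ∞
      (fun y : sphere (0 : EuclideanSpace ℝ (Fin (n + 1))) 1 => a y) := by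
    intro y
    have h2 : ContDiffAt ℝ ∞ a (y : EuclideanSpace ℝ (Fin (n + 1))) :=
      ha.contDiffAt (isOpen_compl_singleton.mem_nhds (ne_zero_of_mem_unit_sphere y))
    exact h2.contMDiffAt.comp y contMDiff_coe_sphere.contMDiffAt
  exact ContMDiff.codRestrict_sphere h1 hs

/-- A diffeomorphism of the sphere from maps of the ambient space. -/
theorem exists_diffeo (n : ℕ) (a b : EuclideanSpace ℝ (Fin (n + 1)) → EuclideanSpace ℝ (Fin (n + 1)))
    (ha : ContDiffOn ℝ ∞ a {0}ᶜ) (hb : ContDiffOn ℝ ∞ b {0}ᶜ)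
    (hab : ∀ y, ‖y‖ = 1 → ‖a y‖ = 1 ∧ ‖b y‖ = 1 ∧ b (a y) = y ∧ a (b y) = y) :
    ∃ Φ : Diffeomorph (𝓡 n) (𝓡 n) (sphere (0 : EuclideanSpace ℝ (Fin (n + 1))) 1)
      (sphere (0 : EuclideanSpace ℝ (Fin (n + 1))) 1) ∞,
      ∀ y : sphere (0 : EuclideanSpace ℝ (Fin (n + 1))) 1,
        (Φ y : EuclideanSpace ℝ (Fin (n + 1))) = a y := by
  have hA : ∀ y : sphere (0 : EuclideanSpace ℝ (Fin (n + 1))) 1,
      a y ∈ sphere (0 : EuclideanSpace ℝ (Fin (n + 1))) 1 := fun y => by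
    simpa using (hab y (by simp)).1
  have hB : ∀ y : sphere (0 : EuclideanSpace ℝ (Fin (n + 1))) 1,
      b y ∈ sphere (0 : EuclideanSpace ℝ (Fin (n + 1))) 1 := fun y => by
    simpa using (hab y (by simp)).2.1
  refine ⟨⟨⟨fun y => ⟨a y, hA y⟩, fun y => ⟨b y, hB y⟩, fun y => ?_, fun y => ?_⟩,
    manifold_diff n a ha hA, manifold_diff n b hb hB⟩, fun y => rfl⟩
  · exact Subtype.ext (hab y (by simp)).2.2.1
  · exact Subtype.ext (hab y (by simp)).2.2.2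

/-- Rotations take every equator to the standard one. -/
theorem exists_rotation (n : ℕ) (c : EuclideanSpace ℝ (Fin (n + 1))) (hc : ‖c‖ = 1) :
    ∃ L : EuclideanSpace ℝ (Fin (n + 1)) ≃ₗᵢ[ℝ] EuclideanSpace ℝ (Fin (n + 1)),
      ∀ y, L y (Fin.last n) = ⟪y, c⟫ := by
  have ho : Orthonormal ℝ (({Fin.last n} : Set (Fin (n + 1))).domRestrict
      (fun _ : Fin (n + 1) => c)) := by
    constructor
    · intro i
      simpa using hc
    · intro i j hij
      exact absurd (Subsingleton.elim i j) hij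
  obtain ⟨b, hb⟩ := ho.exists_orthonormalBasis_extension_of_card_eq (by simp)
  refine ⟨b.repr, fun y => ?_⟩
  rw [OrthonormalBasis.repr_apply_apply, hb _ rfl, real_inner_comm]

end Pool.Schoen
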