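import Pool.Agent.H.MP_6c077c_gt.BLDefs
import Pool.Agent.H.MP_6c077c_gt.Manifold

/-! Slices of the unit ball. -/

set_option autoImplicit false

namespace Pool.Schoen

open scoped ContDiff RealInnerProductSpace Interval
open Metric Set MeasureTheory Real

private theorem blslice_basis {E : Type*} [NormedAddCommGroup E] [InnerProductSpace ℝ E]
    [FiniteDimensional ℝ E] (n : ℕ) (hd : Module.finrank ℝ E = n + 1) (c : E) (hc : ‖c‖ = 1) :
    ∃ b : OrthonormalBasis (Fin (n + 1)) ℝ E, b 0 = c := by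
  have ho : Orthonormal ℝ (({0} : Set (Fin (n + 1))).domRestrict
      (fun _ : Fin (n + 1) => c)) := by
    constructor
    · intro i
      simpa using hc
    · intro i j hij
      exact absurd (Subsingleton.elim i j) hij
  obtain ⟨b, hb⟩ := ho.exists_orthonormalBasis_extension_of_card_eq (by simpa using hd)
  exact ⟨b, hb _ rfl⟩

private theorem blslice_rot (n : ℕ) (e : EuclideanSpace ℝ (Fin (n + 1))) (he : ‖e‖ = 1) :
    ∃ L : WithLp 2 (ℝ × EuclideanSpace ℝ (Fin n)) ≃ₗᵢ[ℝ] EuclideanSpace ℝ (Fin (n + 1)),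
      L (WithLp.toLp 2 ((1 : ℝ), (0 : EuclideanSpace ℝ (Fin n)))) = e := by
  have hd : Module.finrank ℝ (WithLp 2 (ℝ × EuclideanSpace ℝ (Fin n))) = n + 1 := by
    rw [(WithLp.linearEquiv 2 ℝ (ℝ × EuclideanSpace ℝ (Fin n))).finrank_eq,
      Module.finrank_prod, Module.finrank_self, finrank_euclideanSpace_fin, add_comm]
  obtain ⟨b, hb⟩ := blslice_basis n hd
    (WithLp.toLp 2 ((1 : ℝ), (0 : EuclideanSpace ℝ (Fin n)))) (by
      rw [← sq_eq_sq₀ (norm_nonneg _) zero_le_one, WithLp.prod_norm_sq_eq_of_L2]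
      simp)
  obtain ⟨b', hb'⟩ := blslice_basis n (by simp) e he
  refine ⟨b.equiv b' (Equiv.refl _), ?_⟩
  rw [← hb, OrthonormalBasis.equiv_apply_basis, Equiv.refl_apply, hb']

private theorem blslice_fub (n : ℕ) (e : EuclideanSpace ℝ (Fin (n + 1))) (he : ‖e‖ = 1)
    (G : ℝ → ℝ → ℝ) (hG : Measurable (Function.uncurry G)) (C : ℝ)
    (hC : ∀ t q, |q| ≤ 1 → |G t q| ≤ C) :
    ∫ y in ball (0 : EuclideanSpace ℝ (Fin (n + 1))) 1, G ⟪e, y⟫ (‖y‖ ^ 2) =
      ∫ t in (-1 : ℝ)..1, ∫ v in ball (0 : EuclideanSpace ℝ (Fin n)) (√(1 - t ^ 2)),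
        G t (t ^ 2 + ‖v‖ ^ 2) := by
  obtain ⟨L, hL⟩ := blslice_rot n e he
  let Ψ : (ℝ × EuclideanSpace ℝ (Fin n)) ≃ᵐ EuclideanSpace ℝ (Fin (n + 1)) :=
    (MeasurableEquiv.toLp 2 (ℝ × EuclideanSpace ℝ (Fin n))).trans L.toHomeomorph.toMeasurableEquiv
  have hΨ : MeasurePreserving Ψ volume volume :=
    L.measurePreserving.comp (WithLp.volume_preserving_toLp ℝ (EuclideanSpace ℝ (Fin n)))
  have hΨa : ∀ p, Ψ p = L (WithLp.toLp 2 p) := fun p => rfl
  have hΨn : ∀ p, ‖Ψ p‖ ^ 2 = p.1 ^ 2 + ‖p.2‖ ^ 2 := by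
    intro p
    rw [hΨa, L.norm_map, WithLp.prod_norm_sq_eq_of_L2]
    simp
  have hΨe : ∀ p, ⟪e, Ψ p⟫ = p.1 := by
    intro p
    rw [hΨa, ← hL, L.inner_map_map, WithLp.prod_inner_apply]
    simp
  have hgm : Measurable fun y : EuclideanSpace ℝ (Fin (n + 1)) => G ⟪e, y⟫ (‖y‖ ^ 2) :=
    hG.comp ((by fun_prop : Continuous fun y : EuclideanSpace ℝ (Fin (n + 1)) =>
      ((⟪e, y⟫ : ℝ), ‖y‖ ^ 2)).measurable)
  have hgi : IntegrableOn (fun y : EuclideanSpace ℝ (Fin (n + 1)) => G ⟪e, y⟫ (‖y‖ ^ 2))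
      (ball 0 1) := by
    refine Measure.integrableOn_of_bounded (M := C) measure_ball_lt_top.ne
      hgm.aestronglyMeasurable ?_
    filter_upwards [ae_restrict_mem measurableSet_ball] with y hy
    rw [mem_ball_zero_iff] at hy
    refine hC _ _ ?_
    rw [abs_of_nonneg (by positivity)]
    nlinarith [norm_nonneg y]
  have hind : ∀ p : ℝ × EuclideanSpace ℝ (Fin n),
      (ball (0 : EuclideanSpace ℝ (Fin (n + 1))) 1).indicator
        (fun y => G ⟪e, y⟫ (‖y‖ ^ 2)) (Ψ p) =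
      (ball (0 : EuclideanSpace ℝ (Fin n)) (√(1 - p.1 ^ 2))).indicator
        (fun v => G p.1 (p.1 ^ 2 + ‖v‖ ^ 2)) p.2 := by
    intro p
    have hiff : Ψ p ∈ ball (0 : EuclideanSpace ℝ (Fin (n + 1))) 1 ↔
        p.2 ∈ ball (0 : EuclideanSpace ℝ (Fin n)) (√(1 - p.1 ^ 2)) := by
      rw [mem_ball_zero_iff, mem_ball_zero_iff, Real.lt_sqrt (norm_nonneg _),
        ← sq_lt_one_iff₀ (norm_nonneg _), hΨn]
      constructor <;> intro h <;> linarith
    by_cases h : Ψ p ∈ ball (0 : EuclideanSpace ℝ (Fin (n + 1))) 1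
    · rw [indicator_of_mem h, indicator_of_mem (hiff.1 h), hΨe, hΨn]
    · rw [indicator_of_notMem h, indicator_of_notMem (fun h' => h (hiff.2 h'))]
  have hi2 : Integrable (fun p : ℝ × EuclideanSpace ℝ (Fin n) =>
      (ball (0 : EuclideanSpace ℝ (Fin n)) (√(1 - p.1 ^ 2))).indicator
        (fun v => G p.1 (p.1 ^ 2 + ‖v‖ ^ 2)) p.2) (volume.prod volume) := by
    have h1 := (hΨ.integrable_comp_emb Ψ.measurableEmbedding
      (g := (ball (0 : EuclideanSpace ℝ (Fin (n + 1))) 1).indicator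
        (fun y => G ⟪e, y⟫ (‖y‖ ^ 2)))).2 (hgi.integrable_indicator measurableSet_ball)
    refine h1.congr (Filter.Eventually.of_forall fun p => ?_)
    exact hind p
  rw [← integral_indicator measurableSet_ball, ← hΨ.integral_comp' (g := (ball
    (0 : EuclideanSpace ℝ (Fin (n + 1))) 1).indicator (fun y => G ⟪e, y⟫ (‖y‖ ^ 2)))]
  simp only [hind]
  rw [Measure.volume_eq_prod, integral_prod _ hi2]
  simp only [integral_indicator measurableSet_ball]
  rw [intervalIntegral.integral_of_le (by norm_num)]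
  symm
  apply setIntegral_eq_integral_of_forall_compl_eq_zero
  intro t ht
  have h0 : √(1 - t ^ 2) = 0 := by
    apply Real.sqrt_eq_zero_of_nonpos
    by_contra hcon
    push Not at hcon
    apply ht
    constructor
    · nlinarith
    · nlinarith
  rw [h0, ball_zero]
  simp

private theorem blslice_vol (n : ℕ) (s : ℝ) (hs : 0 < s) :
    volume.real (ball (0 : EuclideanSpace ℝ (Fin n)) s) = bvol n * s ^ n := by
  rw [Measure.real, Measure.addHaar_ball_of_pos _ _ hs, ENNReal.toReal_mul,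
    ENNReal.toReal_ofReal (by positivity), finrank_euclideanSpace_fin, bvol, mul_comm]

private theorem blslice_mom (n : ℕ) (s : ℝ) (hs : 0 < s) :
    ∫ v in ball (0 : EuclideanSpace ℝ (Fin n)) s, ‖v‖ ^ 2 =
      bvol n * ((n / (n + 2) : ℝ) * s ^ (n + 2)) := by
  rcases n with _ | k
  · have : ∀ v : EuclideanSpace ℝ (Fin 0), ‖v‖ ^ 2 = 0 := by
      intro v
      rw [Subsingleton.elim v 0]
      simp
    simp [this]
  · have h1 : ∀ v : EuclideanSpace ℝ (Fin (k + 1)),
        (ball (0 : EuclideanSpace ℝ (Fin (k + 1))) s).indicator (fun v => ‖v‖ ^ 2) v =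
        (Iio s).indicator (fun r : ℝ => r ^ 2) ‖v‖ := by
      intro v
      by_cases h : ‖v‖ < s
      · rw [indicator_of_mem (by simpa using h), indicator_of_mem (by simpa using h)]
      · rw [indicator_of_notMem (by simpa using h), indicator_of_notMem (by simpa using h)]
    rw [← integral_indicator measurableSet_ball]
    simp only [h1]
    rw [integral_fun_norm_addHaar volume ((Iio s).indicator (fun r : ℝ => r ^ 2)),
      finrank_euclideanSpace_fin]
    have h2 : ∀ y : ℝ, y ^ (k + 1 - 1) • (Iio s).indicator (fun r : ℝ => r ^ 2) y =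
        (Iio s).indicator (fun r : ℝ => r ^ (k + 2)) y := by
      intro y
      by_cases h : y ∈ Iio s
      · rw [indicator_of_mem h, indicator_of_mem h, Nat.add_sub_cancel, smul_eq_mul, pow_add]
      · rw [indicator_of_notMem h, indicator_of_notMem h, smul_zero]
    simp only [h2]
    rw [setIntegral_indicator measurableSet_Iio, Ioi_inter_Iio,
      ← integral_Ioc_eq_integral_Ioo, ← intervalIntegral.integral_of_le hs.le, integral_pow]
    simp only [smul_eq_mul, nsmul_eq_mul, Measure.real]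
    rw [show (volume (ball (0 : EuclideanSpace ℝ (Fin (k + 1))) 1)).toReal = bvol (k + 1) from rfl]
    push_cast
    rw [zero_pow (by omega)]
    field_simp
    ring

theorem bl_slice0 (n : ℕ) (e : EuclideanSpace ℝ (Fin (n + 1))) (he : ‖e‖ = 1) (a : ℝ → ℝ)
    (ha : Measurable a) (C : ℝ) (hC : ∀ τ, |a τ| ≤ C) :
    ∫ y in ball (0 : EuclideanSpace ℝ (Fin (n + 1))) 1, a ⟪e, y⟫ =
      bvol n * ∫ τ in (-1 : ℝ)..1, a τ * √(1 - τ ^ 2) ^ n := by
  rw [blslice_fub n e he (fun t _ => a t) (ha.comp measurable_fst) C (fun t q _ => hC t),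
    ← intervalIntegral.integral_const_mul]
  rw [intervalIntegral.integral_of_le (by norm_num), intervalIntegral.integral_of_le (by norm_num),
    integral_Ioc_eq_integral_Ioo, integral_Ioc_eq_integral_Ioo]
  apply setIntegral_congr_fun measurableSet_Ioo
  intro t ht
  have hs : 0 < √(1 - t ^ 2) := Real.sqrt_pos.2 (by nlinarith [ht.1, ht.2])
  simp only [setIntegral_const, smul_eq_mul]
  rw [blslice_vol n _ hs]
  ring

theorem bl_slice2 (n : ℕ) (e : EuclideanSpace ℝ (Fin (n + 1))) (he : ‖e‖ = 1) (a : ℝ → ℝ)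
    (ha : Measurable a) (C : ℝ) (hC : ∀ τ, |a τ| ≤ C) :
    ∫ y in ball (0 : EuclideanSpace ℝ (Fin (n + 1))) 1, a ⟪e, y⟫ * ‖y‖ ^ 2 =
      bvol n * ∫ τ in (-1 : ℝ)..1, a τ * (√(1 - τ ^ 2) ^ n * τ ^ 2 +
        (n / (n + 2) : ℝ) * √(1 - τ ^ 2) ^ (n + 2)) := by
  rw [blslice_fub n e he (fun t q => a t * q) ((ha.comp measurable_fst).mul measurable_snd) C
    (fun t q hq => by
      rw [abs_mul]
      exact (mul_le_of_le_one_right (abs_nonneg _) hq).trans (hC t)),
    ← intervalIntegral.integral_const_mul]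
  rw [intervalIntegral.integral_of_le (by norm_num), intervalIntegral.integral_of_le (by norm_num),
    integral_Ioc_eq_integral_Ioo, integral_Ioc_eq_integral_Ioo]
  apply setIntegral_congr_fun measurableSet_Ioo
  intro t ht
  have hs : 0 < √(1 - t ^ 2) := Real.sqrt_pos.2 (by nlinarith [ht.1, ht.2])
  have hi : IntegrableOn (fun v : EuclideanSpace ℝ (Fin n) => ‖v‖ ^ 2)
      (ball 0 (√(1 - t ^ 2))) :=
    ((by fun_prop : Continuous fun v : EuclideanSpace ℝ (Fin n) =>
      ‖v‖ ^ 2).continuousOn.integrableOn_compact (isCompact_closedBall 0 (√(1 - t ^ 2)))).mono_set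
      ball_subset_closedBall
  have hc : IntegrableOn (fun _ : EuclideanSpace ℝ (Fin n) => t ^ 2) (ball 0 (√(1 - t ^ 2))) :=
    (continuous_const.continuousOn.integrableOn_compact
      (isCompact_closedBall 0 (√(1 - t ^ 2)))).mono_set ball_subset_closedBall
  simp only
  rw [integral_const_mul, integral_add hc hi, blslice_mom n _ hs]
  simp only [setIntegral_const, smul_eq_mul]
  rw [blslice_vol n _ hs]
  ring

end Pool.Schoen
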