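import Pool.Agent.H.MP_6c077c_gt.BLCalc
import Pool.Agent.H.MP_6c077c_gt.BLSlice

/-! The moment inequality for the unit ball and for kernels. -/

set_option autoImplicit false

namespace Pool.Schoen

open scoped ContDiff RealInnerProductSpace
open Metric Set MeasureTheory

/-- integral of an even function on a symmetric interval -/
theorem blball_even (F : ℝ → ℝ) (hF : Continuous F) (hev : ∀ t, F (-t) = F t) (h : ℝ) :
    ∫ τ in (-h)..h, F τ = 2 * ∫ τ in (0 : ℝ)..h, F τ := by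
  have h1 : ∫ τ in (-h)..(0 : ℝ), F τ = ∫ τ in (0 : ℝ)..h, F τ := by
    have h2 := intervalIntegral.integral_comp_neg (a := 0) (b := h) (f := F)
    rw [neg_zero] at h2
    rw [← h2]
    refine intervalIntegral.integral_congr fun t _ => ?_
    exact hev t
  have h3 := intervalIntegral.integral_add_adjacent_intervals
    (hF.intervalIntegrable (μ := volume) (-h) 0) (hF.intervalIntegrable (μ := volume) 0 h)
  rw [← h3, h1]
  ring

/-- cut off of an even function -/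
theorem blball_cut (F : ℝ → ℝ) (hF : Continuous F) (hev : ∀ t, F (-t) = F t) (h : ℝ)
    (hh : 0 < h) (hh1 : h ≤ 1) :
    ∫ τ in (-1 : ℝ)..1, (if |τ| < h then (1 : ℝ) else 0) * F τ = 2 * ∫ τ in (0 : ℝ)..h, F τ := by
  rw [← blball_even F hF hev h, intervalIntegral.integral_of_le (by norm_num : (-1 : ℝ) ≤ 1),
    intervalIntegral.integral_of_le (by linarith : -h ≤ h), integral_Ioc_eq_integral_Ioo,
    integral_Ioc_eq_integral_Ioo]
  have h1 : Ioo (-h) h = Ioo (-1 : ℝ) 1 ∩ Ioo (-h) h := by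
    rw [inter_eq_right.2]
    exact Ioo_subset_Ioo (by linarith) hh1
  rw [h1, ← setIntegral_indicator measurableSet_Ioo]
  refine integral_congr_ae (Filter.Eventually.of_forall fun τ => ?_)
  by_cases hτ : |τ| < h
  · have : τ ∈ Ioo (-h) h := abs_lt.1 hτ
    simp [hτ, indicator_of_mem this]
  · have : τ ∉ Ioo (-h) h := fun hc => hτ (abs_lt.2 hc)
    simp [hτ, indicator_of_notMem this]

theorem blball_r_cont (k : ℕ) : Continuous fun τ : ℝ => √(1 - τ ^ 2) ^ k :=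
  ((Real.continuous_sqrt.comp (continuous_const.sub (continuous_id.pow 2)))).pow k

/-- the antiderivative -/
theorem blball_anti (n : ℕ) (h : ℝ) (hh : 0 < h) (hh1 : h ≤ 1) :
    ∫ τ in h..(1 : ℝ), τ * √(1 - τ ^ 2) ^ n = √(1 - h ^ 2) ^ (n + 2) / (n + 2) := by
  have hn : (n : ℝ) + 2 ≠ 0 := by positivity
  have hcont : ContinuousOn (fun τ : ℝ => -(√(1 - τ ^ 2) ^ (n + 2) / ((n : ℝ) + 2))) (Icc h 1) :=
    (((blball_r_cont (n + 2)).div_const _).neg).continuousOn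
  have hder : ∀ τ ∈ Ioo h (1 : ℝ), HasDerivAt
      (fun τ : ℝ => -(√(1 - τ ^ 2) ^ (n + 2) / ((n : ℝ) + 2))) (τ * √(1 - τ ^ 2) ^ n) τ := by
    intro τ hτ
    have h0 : 0 < 1 - τ ^ 2 := by nlinarith [hτ.1, hτ.2]
    have h1 : HasDerivAt (fun τ : ℝ => 1 - τ ^ 2) (-(2 * τ)) τ := by
      have := ((hasDerivAt_id τ).pow 2).const_sub 1
      simpa using this
    have h2 := h1.sqrt h0.ne'
    have h3 := ((h2.pow (n + 2)).div_const ((n : ℝ) + 2)).neg
    refine h3.congr_deriv ?_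
    have hs : 0 < √(1 - τ ^ 2) := Real.sqrt_pos.2 h0
    have hp : n + 2 - 1 = n + 1 := by omega
    rw [hp, pow_succ]
    push_cast
    field_simp
  have := intervalIntegral.integral_eq_sub_of_hasDerivAt_of_le hh1 hcont hder
    ((continuous_id.mul (blball_r_cont n)).intervalIntegrable _ _)
  rw [this]
  simp

theorem blball_abs (n : ℕ) (e y : EuclideanSpace ℝ (Fin (n + 1))) (he : ‖e‖ = 1)
    (hy : y ∈ ball (0 : EuclideanSpace ℝ (Fin (n + 1))) 1) : |⟪e, y⟫| < 1 := by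
  have h1 := abs_real_inner_le_norm e y
  rw [he, one_mul] at h1
  rw [mem_ball_zero_iff] at hy
  linarith

theorem blball_meas_lt (n : ℕ) (e : EuclideanSpace ℝ (Fin (n + 1))) (h : ℝ) :
    MeasurableSet {y : EuclideanSpace ℝ (Fin (n + 1)) | |⟪e, y⟫| < h} :=
  (isOpen_lt (by fun_prop) continuous_const).measurableSet

theorem blball_meas_le (n : ℕ) (e : EuclideanSpace ℝ (Fin (n + 1))) (h : ℝ) :
    MeasurableSet {y : EuclideanSpace ℝ (Fin (n + 1)) | h ≤ |⟪e, y⟫|} :=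
  (isClosed_le continuous_const (by fun_prop)).measurableSet

theorem blball_int {n : ℕ} (g : EuclideanSpace ℝ (Fin (n + 1)) → ℝ) (hg : Continuous g) :
    IntegrableOn g (ball (0 : EuclideanSpace ℝ (Fin (n + 1))) 1) :=
  (hg.continuousOn.integrableOn_compact (isCompact_closedBall _ _)).mono_set
    ball_subset_closedBall

/-- the slab part of an integral over the ball -/
theorem blball_slab {n : ℕ} (e : EuclideanSpace ℝ (Fin (n + 1))) (h : ℝ)
    (g : EuclideanSpace ℝ (Fin (n + 1)) → ℝ) :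
    ∫ y in ball (0 : EuclideanSpace ℝ (Fin (n + 1))) 1 ∩ {y | |⟪e, y⟫| < h}, g y =
      ∫ y in ball (0 : EuclideanSpace ℝ (Fin (n + 1))) 1,
        (if |⟪e, y⟫| < h then (1 : ℝ) else 0) * g y := by
  rw [← setIntegral_indicator (blball_meas_lt n e h)]
  refine integral_congr_ae (Filter.Eventually.of_forall fun y => ?_)
  by_cases hy : |⟪e, y⟫| < h
  · have : y ∈ {y : EuclideanSpace ℝ (Fin (n + 1)) | |⟪e, y⟫| < h} := hy
    simp [hy]
  · have : y ∉ {y : EuclideanSpace ℝ (Fin (n + 1)) | |⟪e, y⟫| < h} := hy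
    simp [hy]

theorem blball_cutMeas (h : ℝ) : Measurable fun τ : ℝ => if |τ| < h then (1 : ℝ) else 0 :=
  Measurable.ite (isOpen_lt continuous_abs continuous_const).measurableSet measurable_const
    measurable_const

theorem blball_cutBound (h : ℝ) (τ : ℝ) : |if |τ| < h then (1 : ℝ) else 0| ≤ 1 := by
  split_ifs <;> simp

theorem blball_first (n : ℕ) (e : EuclideanSpace ℝ (Fin (n + 1))) (he : ‖e‖ = 1) (h : ℝ)
    (hh : 0 < h) (hh1 : h ≤ 1) :
    (∫ _y in ball (0 : EuclideanSpace ℝ (Fin (n + 1))) 1 ∩ {y | |⟪e, y⟫| < h}, (1 : ℝ)) =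
      2 * bvol n * ∫ τ in (0 : ℝ)..h, √(1 - τ ^ 2) ^ n := by
  rw [blball_slab e h (fun _ => (1 : ℝ))]
  simp only [mul_one]
  rw [bl_slice0 n e he (fun τ => if |τ| < h then (1 : ℝ) else 0) (blball_cutMeas h) 1
    (blball_cutBound h), blball_cut _ (blball_r_cont n) (fun t => by rw [neg_sq]) h hh hh1]
  ring

theorem blball_second (n : ℕ) (e : EuclideanSpace ℝ (Fin (n + 1))) (he : ‖e‖ = 1) (h : ℝ)
    (hh : 0 < h) (hh1 : h ≤ 1) :
    (∫ y in ball (0 : EuclideanSpace ℝ (Fin (n + 1))) 1 ∩ {y | |⟪e, y⟫| < h},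
          (‖y‖ ^ 2 + h ^ 2)) =
      2 * bvol n * ∫ τ in (0 : ℝ)..h, (√(1 - τ ^ 2) ^ n * (τ ^ 2 + h ^ 2) +
        (n / (n + 2) : ℝ) * √(1 - τ ^ 2) ^ (n + 2)) := by
  have hc2 : Continuous fun y : EuclideanSpace ℝ (Fin (n + 1)) => ‖y‖ ^ 2 := by fun_prop
  have hi1 : IntegrableOn (fun y : EuclideanSpace ℝ (Fin (n + 1)) => ‖y‖ ^ 2)
      (ball 0 1 ∩ {y | |⟪e, y⟫| < h}) := (blball_int _ hc2).mono_set inter_subset_left
  have hi2 : IntegrableOn (fun _ : EuclideanSpace ℝ (Fin (n + 1)) => h ^ 2)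
      (ball 0 1 ∩ {y | |⟪e, y⟫| < h}) :=
    (blball_int _ continuous_const).mono_set inter_subset_left
  rw [integral_add hi1 hi2]
  have e2 : (∫ _y in ball (0 : EuclideanSpace ℝ (Fin (n + 1))) 1 ∩ {y | |⟪e, y⟫| < h}, h ^ 2) =
      h ^ 2 * ∫ _y in ball (0 : EuclideanSpace ℝ (Fin (n + 1))) 1 ∩ {y | |⟪e, y⟫| < h},
        (1 : ℝ) := by
    rw [← integral_const_mul]
    simp only [mul_one]
  rw [e2, blball_first n e he h hh hh1, blball_slab e h (fun y => ‖y‖ ^ 2),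
    bl_slice2 n e he (fun τ => if |τ| < h then (1 : ℝ) else 0) (blball_cutMeas h) 1
    (blball_cutBound h)]
  have hF : Continuous fun τ : ℝ => √(1 - τ ^ 2) ^ n * τ ^ 2 +
      (n / (n + 2) : ℝ) * √(1 - τ ^ 2) ^ (n + 2) :=
    ((blball_r_cont n).mul (continuous_id.pow 2)).add (continuous_const.mul (blball_r_cont _))
  rw [blball_cut _ hF (fun t => by rw [neg_sq]) h hh hh1]
  have e3 : (∫ τ in (0 : ℝ)..h, (√(1 - τ ^ 2) ^ n * (τ ^ 2 + h ^ 2) +
        (n / (n + 2) : ℝ) * √(1 - τ ^ 2) ^ (n + 2))) =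
      (∫ τ in (0 : ℝ)..h, (√(1 - τ ^ 2) ^ n * τ ^ 2 +
        (n / (n + 2) : ℝ) * √(1 - τ ^ 2) ^ (n + 2))) +
      h ^ 2 * ∫ τ in (0 : ℝ)..h, √(1 - τ ^ 2) ^ n := by
    have i1 : IntervalIntegrable (fun τ : ℝ => √(1 - τ ^ 2) ^ n * τ ^ 2 +
        (n / (n + 2) : ℝ) * √(1 - τ ^ 2) ^ (n + 2)) volume 0 h := hF.intervalIntegrable _ _
    have i2 : IntervalIntegrable (fun τ : ℝ => h ^ 2 * √(1 - τ ^ 2) ^ n) volume 0 h :=
      (continuous_const.mul (blball_r_cont n)).intervalIntegrable _ _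
    rw [← intervalIntegral.integral_const_mul, ← intervalIntegral.integral_add i1 i2]
    refine intervalIntegral.integral_congr fun τ _ => ?_
    ring
  rw [e3]
  ring

theorem blball_third (n : ℕ) (e : EuclideanSpace ℝ (Fin (n + 1))) (he : ‖e‖ = 1) (h : ℝ)
    (hh : 0 < h) (hh1 : h ≤ 1) :
    (∫ y in ball (0 : EuclideanSpace ℝ (Fin (n + 1))) 1 ∩ {y | h ≤ |⟪e, y⟫|},
          2 * h * |⟪e, y⟫|) =
      2 * bvol n * (2 * h * √(1 - h ^ 2) ^ (n + 2) / (n + 2)) := by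
  have e1 : (∫ y in ball (0 : EuclideanSpace ℝ (Fin (n + 1))) 1 ∩ {y | h ≤ |⟪e, y⟫|},
          2 * h * |⟪e, y⟫|) = ∫ y in ball (0 : EuclideanSpace ℝ (Fin (n + 1))) 1,
        (fun τ : ℝ => (1 - if |τ| < h then (1 : ℝ) else 0) * (2 * h * min |τ| 1)) ⟪e, y⟫ := by
    rw [← setIntegral_indicator (blball_meas_le n e h)]
    refine setIntegral_congr_fun measurableSet_ball fun y hy => ?_
    have h1 := blball_abs n e y he hy
    by_cases hy2 : |⟪e, y⟫| < h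
    · have : y ∉ {y : EuclideanSpace ℝ (Fin (n + 1)) | h ≤ |⟪e, y⟫|} := fun hc =>
        absurd hy2 (not_lt.2 hc)
      rw [indicator_of_notMem this]
      simp [hy2]
    · have : y ∈ {y : EuclideanSpace ℝ (Fin (n + 1)) | h ≤ |⟪e, y⟫|} := not_lt.1 hy2
      rw [indicator_of_mem this]
      simp [hy2, min_eq_left h1.le]
  rw [e1, bl_slice0 n e he (fun τ : ℝ => (1 - if |τ| < h then (1 : ℝ) else 0) *
    (2 * h * min |τ| 1)) ((measurable_const.sub (blball_cutMeas h)).mul (by fun_prop)) (2 * h) ?_]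
  · have hG : Continuous fun τ : ℝ => |τ| * √(1 - τ ^ 2) ^ n :=
      continuous_abs.mul (blball_r_cont n)
    have hGe : ∀ t : ℝ, |(-t)| * √(1 - (-t) ^ 2) ^ n = |t| * √(1 - t ^ 2) ^ n := fun t => by
      rw [neg_sq, abs_neg]
    have e2 : (∫ τ in (-1 : ℝ)..1, ((1 - if |τ| < h then (1 : ℝ) else 0) *
        (2 * h * min |τ| 1)) * √(1 - τ ^ 2) ^ n) =
        2 * h * ((∫ τ in (-1 : ℝ)..1, |τ| * √(1 - τ ^ 2) ^ n) -
          ∫ τ in (-1 : ℝ)..1, (if |τ| < h then (1 : ℝ) else 0) * (|τ| * √(1 - τ ^ 2) ^ n)) := by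
      rw [← intervalIntegral.integral_sub (hG.intervalIntegrable _ _) ?_,
        ← intervalIntegral.integral_const_mul]
      · refine intervalIntegral.integral_congr fun τ hτ => ?_
        rw [uIcc_of_le (by norm_num : (-1 : ℝ) ≤ 1)] at hτ
        have : |τ| ≤ 1 := abs_le.2 hτ
        simp only [min_eq_left this]
        ring
      · refine (hG.intervalIntegrable (-1) 1).mono_fun ?_ ?_
        · exact ((blball_cutMeas h).mul hG.measurable).aestronglyMeasurable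
        · refine Filter.Eventually.of_forall fun τ => ?_
          simp only [norm_mul]
          have h2 : ‖(if |τ| < h then (1 : ℝ) else 0)‖ ≤ 1 := blball_cutBound h τ
          calc ‖(if |τ| < h then (1 : ℝ) else 0)‖ * (‖|τ|‖ * ‖√(1 - τ ^ 2) ^ n‖) ≤
              1 * (‖|τ|‖ * ‖√(1 - τ ^ 2) ^ n‖) :=
                mul_le_mul_of_nonneg_right h2 (by positivity)
            _ = _ := one_mul _
    rw [e2, blball_cut _ hG hGe h hh hh1, blball_even _ hG hGe 1]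
    have e3 : (∫ τ in (0 : ℝ)..1, |τ| * √(1 - τ ^ 2) ^ n) -
        (∫ τ in (0 : ℝ)..h, |τ| * √(1 - τ ^ 2) ^ n) = √(1 - h ^ 2) ^ (n + 2) / (n + 2) := by
      rw [intervalIntegral.integral_interval_sub_left (hG.intervalIntegrable _ _)
        (hG.intervalIntegrable _ _), ← blball_anti n h hh hh1]
      refine intervalIntegral.integral_congr fun τ hτ => ?_
      rw [uIcc_of_le hh1] at hτ
      rw [abs_of_nonneg (hh.le.trans hτ.1)]
    rw [← mul_sub, e3]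
    ring
  · intro τ
    have h2 : |1 - if |τ| < h then (1 : ℝ) else 0| ≤ 1 := by split_ifs <;> simp
    have h3 : |min |τ| 1| ≤ 1 := by
      rw [abs_of_nonneg (le_min (abs_nonneg _) zero_le_one)]
      exact min_le_right _ _
    rw [abs_mul, abs_mul, abs_of_pos (by positivity : (0 : ℝ) < 2 * h)]
    calc |1 - if |τ| < h then (1 : ℝ) else 0| * (2 * h * |min |τ| 1|) ≤ 1 * (2 * h * 1) := by
          gcongr
      _ = 2 * h := by ring

theorem bl_ball (n : ℕ) (hn : 1 ≤ n) (e : EuclideanSpace ℝ (Fin (n + 1))) (he : ‖e‖ = 1) (h : ℝ)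
    (hh : 0 < h) :
    (∫ _y in ball (0 : EuclideanSpace ℝ (Fin (n + 1))) 1 ∩ {y | |⟪e, y⟫| < h}, (1 : ℝ)) *
      ((∫ y in ball (0 : EuclideanSpace ℝ (Fin (n + 1))) 1 ∩ {y | |⟪e, y⟫| < h},
          (‖y‖ ^ 2 + h ^ 2)) +
        ∫ y in ball (0 : EuclideanSpace ℝ (Fin (n + 1))) 1 ∩ {y | h ≤ |⟪e, y⟫|},
          2 * h * |⟪e, y⟫|) ≤ (2 * bvol n * h) ^ 2 := by
  -- the case h ≤ 1
  have key : ∀ h : ℝ, 0 < h → h ≤ 1 →
      (∫ _y in ball (0 : EuclideanSpace ℝ (Fin (n + 1))) 1 ∩ {y | |⟪e, y⟫| < h}, (1 : ℝ)) *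
      ((∫ y in ball (0 : EuclideanSpace ℝ (Fin (n + 1))) 1 ∩ {y | |⟪e, y⟫| < h},
          (‖y‖ ^ 2 + h ^ 2)) +
        ∫ y in ball (0 : EuclideanSpace ℝ (Fin (n + 1))) 1 ∩ {y | h ≤ |⟪e, y⟫|},
          2 * h * |⟪e, y⟫|) ≤ (2 * bvol n * h) ^ 2 := by
    intro h hh hh1
    rw [blball_first n e he h hh hh1, blball_second n e he h hh hh1,
      blball_third n e he h hh hh1]
    have h1 := bl_calc n hn h hh hh1
    calc 2 * bvol n * (∫ τ in (0 : ℝ)..h, √(1 - τ ^ 2) ^ n) *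
        (2 * bvol n * (∫ τ in (0 : ℝ)..h, (√(1 - τ ^ 2) ^ n * (τ ^ 2 + h ^ 2) +
          (n / (n + 2) : ℝ) * √(1 - τ ^ 2) ^ (n + 2))) +
          2 * bvol n * (2 * h * √(1 - h ^ 2) ^ (n + 2) / (n + 2)))
        = (2 * bvol n) ^ 2 * ((∫ τ in (0 : ℝ)..h, √(1 - τ ^ 2) ^ n) *
      ((∫ τ in (0 : ℝ)..h, (√(1 - τ ^ 2) ^ n * (τ ^ 2 + h ^ 2) +
          (n / (n + 2) : ℝ) * √(1 - τ ^ 2) ^ (n + 2))) +
        2 * h * √(1 - h ^ 2) ^ (n + 2) / (n + 2))) := by ring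
      _ ≤ (2 * bvol n) ^ 2 * h ^ 2 := by gcongr
      _ = (2 * bvol n * h) ^ 2 := by ring
  rcases le_or_gt h 1 with hh1 | hh1
  · exact key h hh hh1
  · have hfull : ∀ c : ℝ, 1 ≤ c → ball (0 : EuclideanSpace ℝ (Fin (n + 1))) 1 ∩
        {y | |⟪e, y⟫| < c} = ball (0 : EuclideanSpace ℝ (Fin (n + 1))) 1 := by
      intro c hc
      rw [inter_eq_left]
      intro y hy
      exact (blball_abs n e y he hy).trans_le hc
    have hempty : ∀ c : ℝ, 1 ≤ c → ball (0 : EuclideanSpace ℝ (Fin (n + 1))) 1 ∩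
        {y | c ≤ |⟪e, y⟫|} = ∅ := by
      intro c hc
      rw [eq_empty_iff_forall_notMem]
      rintro y ⟨hy, hy2⟩
      have h1 := blball_abs n e y he hy
      have h2 : c ≤ |⟪e, y⟫| := hy2
      linarith
    have k1 := key 1 one_pos le_rfl
    rw [hfull 1 le_rfl, hempty 1 le_rfl] at k1
    rw [hfull h hh1.le, hempty h hh1.le]
    rw [setIntegral_empty, add_zero] at k1 ⊢
    have hc2 : Continuous fun y : EuclideanSpace ℝ (Fin (n + 1)) => ‖y‖ ^ 2 := by fun_prop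
    have hsum : ∀ c : ℝ, (∫ y in ball (0 : EuclideanSpace ℝ (Fin (n + 1))) 1,
        (‖y‖ ^ 2 + c ^ 2)) = (∫ y in ball (0 : EuclideanSpace ℝ (Fin (n + 1))) 1, ‖y‖ ^ 2) +
          c ^ 2 * ∫ _y in ball (0 : EuclideanSpace ℝ (Fin (n + 1))) 1, (1 : ℝ) := by
      intro c
      rw [integral_add (blball_int _ hc2) (blball_int _ continuous_const),
        ← integral_const_mul]
      simp only [mul_one]
    rw [hsum] at k1 ⊢
    have hV : 0 ≤ ∫ _y in ball (0 : EuclideanSpace ℝ (Fin (n + 1))) 1, (1 : ℝ) :=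
      integral_nonneg fun _ => zero_le_one
    have hQ : 0 ≤ ∫ y in ball (0 : EuclideanSpace ℝ (Fin (n + 1))) 1, ‖y‖ ^ 2 :=
      integral_nonneg fun _ => by positivity
    have hh2 : 1 ≤ h ^ 2 := by nlinarith
    set V := ∫ _y in ball (0 : EuclideanSpace ℝ (Fin (n + 1))) 1, (1 : ℝ)
    set Q := ∫ y in ball (0 : EuclideanSpace ℝ (Fin (n + 1))) 1, ‖y‖ ^ 2
    calc V * (Q + h ^ 2 * V) ≤ V * (h ^ 2 * Q + h ^ 2 * V) := by
          gcongr
          nlinarith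
      _ = h ^ 2 * (V * (Q + 1 ^ 2 * V)) := by ring
      _ ≤ h ^ 2 * (2 * bvol n * 1) ^ 2 := by gcongr
      _ = (2 * bvol n * h) ^ 2 := by ring

theorem blball_restrict {n : ℕ} (φ : EuclideanSpace ℝ (Fin (n + 1)) → ℝ) (κ : ℝ)
    (hφ : Kernel φ κ) (g : EuclideanSpace ℝ (Fin (n + 1)) → ℝ) (hg : Continuous g)
    (hg0 : ∀ y, 0 ≤ g y) (T : Set (EuclideanSpace ℝ (Fin (n + 1)))) (hT : MeasurableSet T) :
    0 ≤ (∫ y in T, φ y * g y) ∧
    (∫ y in T, φ y * g y) ≤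
      κ * ∫ y in ball (0 : EuclideanSpace ℝ (Fin (n + 1))) 1 ∩ T, g y := by
  have h1 : (∫ y in T, φ y * g y) =
      ∫ y in ball (0 : EuclideanSpace ℝ (Fin (n + 1))) 1 ∩ T, φ y * g y := by
    refine setIntegral_eq_of_subset_of_forall_sdiff_eq_zero hT inter_subset_right ?_
    rintro y ⟨hy1, hy2⟩
    have h2 : 1 ≤ ‖y‖ := by
      by_contra hc
      exact hy2 ⟨mem_ball_zero_iff.2 (not_le.1 hc), hy1⟩
    rw [hφ.supp y h2, zero_mul]
  have hi1 : IntegrableOn (fun y => φ y * g y)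
      (ball (0 : EuclideanSpace ℝ (Fin (n + 1))) 1 ∩ T) :=
    (blball_int _ (hφ.smooth.continuous.mul hg)).mono_set inter_subset_left
  have hi2 : IntegrableOn (fun y => κ * g y)
      (ball (0 : EuclideanSpace ℝ (Fin (n + 1))) 1 ∩ T) :=
    (blball_int _ (continuous_const.mul hg)).mono_set inter_subset_left
  refine ⟨integral_nonneg fun y => mul_nonneg (hφ.nonneg y) (hg0 y), ?_⟩
  rw [h1, ← integral_const_mul]
  refine setIntegral_mono hi1 hi2 fun y => ?_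
  exact mul_le_mul_of_nonneg_right (hφ.le y) (hg0 y)

theorem bl_kernel (n : ℕ) (hn : 1 ≤ n) (φ : EuclideanSpace ℝ (Fin (n + 1)) → ℝ) (κ : ℝ)
    (hφ : Kernel φ κ) (e : EuclideanSpace ℝ (Fin (n + 1))) (he : ‖e‖ = 1) (h : ℝ) (hh : 0 < h) :
    0 ≤ blW φ e h ∧ 0 ≤ blS φ e h ∧ blW φ e h * blS φ e h ≤ (2 * κ * bvol n * h) ^ 2 := by
  have hκ : 0 ≤ κ := (hφ.nonneg 0).trans (hφ.le 0)
  obtain ⟨a1, a2⟩ := blball_restrict φ κ hφ (fun _ => (1 : ℝ)) continuous_const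
    (fun _ => zero_le_one) _ (blball_meas_lt n e h)
  obtain ⟨b1, b2⟩ := blball_restrict φ κ hφ (fun y => ‖y‖ ^ 2 + h ^ 2) (by fun_prop)
    (fun _ => by positivity) _ (blball_meas_lt n e h)
  obtain ⟨c1, c2⟩ := blball_restrict φ κ hφ (fun y => 2 * h * |⟪e, y⟫|) (by fun_prop)
    (fun _ => by positivity) _ (blball_meas_le n e h)
  simp only [mul_one] at a1 a2
  have hW : blW φ e h = ∫ y in {y : EuclideanSpace ℝ (Fin (n + 1)) | |⟪e, y⟫| < h}, φ y := rfl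
  have hS : blS φ e h = (∫ y in {y : EuclideanSpace ℝ (Fin (n + 1)) | |⟪e, y⟫| < h},
      φ y * (‖y‖ ^ 2 + h ^ 2)) +
    ∫ y in {y : EuclideanSpace ℝ (Fin (n + 1)) | h ≤ |⟪e, y⟫|}, φ y * (2 * h * |⟪e, y⟫|) := rfl
  rw [← hW] at a1 a2
  have hS0 : 0 ≤ blS φ e h := by rw [hS]; exact add_nonneg b1 c1
  refine ⟨a1, hS0, ?_⟩
  have hS1 : blS φ e h ≤ κ *
      ((∫ y in ball (0 : EuclideanSpace ℝ (Fin (n + 1))) 1 ∩ {y | |⟪e, y⟫| < h},
          (‖y‖ ^ 2 + h ^ 2)) +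
        ∫ y in ball (0 : EuclideanSpace ℝ (Fin (n + 1))) 1 ∩ {y | h ≤ |⟪e, y⟫|},
          2 * h * |⟪e, y⟫|) := by
    rw [hS, mul_add]
    exact add_le_add b2 c2
  have hA0 : 0 ≤ ∫ _y in ball (0 : EuclideanSpace ℝ (Fin (n + 1))) 1 ∩ {y | |⟪e, y⟫| < h},
      (1 : ℝ) := integral_nonneg fun _ => zero_le_one
  calc blW φ e h * blS φ e h ≤
      (κ * ∫ _y in ball (0 : EuclideanSpace ℝ (Fin (n + 1))) 1 ∩ {y | |⟪e, y⟫| < h}, (1 : ℝ)) *
      (κ * ((∫ y in ball (0 : EuclideanSpace ℝ (Fin (n + 1))) 1 ∩ {y | |⟪e, y⟫| < h},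
          (‖y‖ ^ 2 + h ^ 2)) +
        ∫ y in ball (0 : EuclideanSpace ℝ (Fin (n + 1))) 1 ∩ {y | h ≤ |⟪e, y⟫|},
          2 * h * |⟪e, y⟫|)) := mul_le_mul a2 hS1 hS0 (mul_nonneg hκ hA0)
    _ = κ ^ 2 * ((∫ _y in ball (0 : EuclideanSpace ℝ (Fin (n + 1))) 1 ∩
          {y | |⟪e, y⟫| < h}, (1 : ℝ)) *
      ((∫ y in ball (0 : EuclideanSpace ℝ (Fin (n + 1))) 1 ∩ {y | |⟪e, y⟫| < h},
          (‖y‖ ^ 2 + h ^ 2)) +
        ∫ y in ball (0 : EuclideanSpace ℝ (Fin (n + 1))) 1 ∩ {y | h ≤ |⟪e, y⟫|},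
          2 * h * |⟪e, y⟫|)) := by ring
    _ ≤ κ ^ 2 * (2 * bvol n * h) ^ 2 :=
        mul_le_mul_of_nonneg_left (bl_ball n hn e he h hh) (by positivity)
    _ = (2 * κ * bvol n * h) ^ 2 := by ring

end Pool.Schoen
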