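import Mathlib

/-! The one variable inequality. -/

set_option autoImplicit false

namespace Pool.Schoen

open scoped Interval
open Real

private theorem blcalc_cont (n : ℕ) : Continuous fun τ : ℝ => √(1 - τ ^ 2) ^ n := by fun_prop

private theorem blcalc_ftc (n : ℕ) (h : ℝ) (hh : 0 < h) (hh1 : h ≤ 1) :
    ∫ τ in (0 : ℝ)..h, (√(1 - τ ^ 2) ^ (n + 2) - (n + 2) * τ ^ 2 * √(1 - τ ^ 2) ^ n) =
      h * √(1 - h ^ 2) ^ (n + 2) := by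
  have h1 : ∀ x ∈ Set.Ioo (0 : ℝ) h, HasDerivAt (fun τ : ℝ => τ * √(1 - τ ^ 2) ^ (n + 2))
      (√(1 - x ^ 2) ^ (n + 2) - (n + 2) * x ^ 2 * √(1 - x ^ 2) ^ n) x := by
    intro x hx
    have hpos : 0 < 1 - x ^ 2 := by nlinarith [hx.1, hx.2]
    have hs : 0 < √(1 - x ^ 2) := Real.sqrt_pos.2 hpos
    have d1 : HasDerivAt (fun τ : ℝ => 1 - τ ^ 2) (-(2 * x)) x := by
      have := (hasDerivAt_pow 2 x).const_sub 1
      simpa using this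
    have d2 := (d1.sqrt hpos.ne').pow (n + 2)
    have d3 := (hasDerivAt_id x).mul d2
    refine d3.congr_deriv ?_
    simp only [id, Nat.cast_add, Nat.cast_ofNat, Pi.pow_apply]
    rw [show n + 2 - 1 = n + 1 from rfl, pow_succ _ n]
    field_simp
    ring
  have h2 := intervalIntegral.integral_eq_sub_of_hasDerivAt_of_le hh.le
    (f := fun τ : ℝ => τ * √(1 - τ ^ 2) ^ (n + 2)) (by fun_prop) h1
    ((by fun_prop : Continuous fun x : ℝ =>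
      (√(1 - x ^ 2) ^ (n + 2) - (n + 2) * x ^ 2 * √(1 - x ^ 2) ^ n)).intervalIntegrable _ _)
  rw [h2]
  simp

theorem bl_calc_identity (n : ℕ) (h : ℝ) (hh : 0 < h) (hh1 : h ≤ 1) :
    (∫ τ in (0 : ℝ)..h, (√(1 - τ ^ 2) ^ n * (τ ^ 2 + h ^ 2) +
        (n / (n + 2) : ℝ) * √(1 - τ ^ 2) ^ (n + 2))) +
      2 * h * √(1 - h ^ 2) ^ (n + 2) / (n + 2) =
    ∫ τ in (0 : ℝ)..h, √(1 - τ ^ 2) ^ n * (1 + h ^ 2 - 2 * τ ^ 2) := by
  have hn : (n : ℝ) + 2 ≠ 0 := by positivity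
  have h0 := blcalc_ftc n h hh hh1
  have h1 : 2 * h * √(1 - h ^ 2) ^ (n + 2) / (n + 2) =
      ∫ τ in (0 : ℝ)..h, (2 / (n + 2) : ℝ) *
        (√(1 - τ ^ 2) ^ (n + 2) - (n + 2) * τ ^ 2 * √(1 - τ ^ 2) ^ n) := by
    rw [intervalIntegral.integral_const_mul, h0]
    ring
  rw [h1, ← intervalIntegral.integral_add]
  · apply intervalIntegral.integral_congr
    intro τ hτ
    rw [Set.uIcc_of_le hh.le] at hτ
    have hpos : 0 ≤ 1 - τ ^ 2 := by nlinarith [hτ.1, hτ.2]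
    have e : √(1 - τ ^ 2) ^ (n + 2) = √(1 - τ ^ 2) ^ n * (1 - τ ^ 2) := by
      rw [pow_add, Real.sq_sqrt hpos]
    simp only [e]
    field_simp
    ring
  · exact (by fun_prop : Continuous fun τ : ℝ => (√(1 - τ ^ 2) ^ n * (τ ^ 2 + h ^ 2) +
        (n / (n + 2) : ℝ) * √(1 - τ ^ 2) ^ (n + 2))).intervalIntegrable _ _
  · exact (by fun_prop : Continuous fun τ : ℝ => (2 / (n + 2) : ℝ) *
        (√(1 - τ ^ 2) ^ (n + 2) - (n + 2) * τ ^ 2 * √(1 - τ ^ 2) ^ n)).intervalIntegrable _ _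

private theorem blcalc_sqrt (t : ℝ) (h0 : 0 ≤ t) (h1 : t ≤ 1) (n : ℕ) (hn : 1 ≤ n) :
    √(1 - t ^ 2) ^ n ≤ 1 - t ^ 2 / 2 - t ^ 4 / 8 := by
  have ht2 : t ^ 2 ≤ 1 := by nlinarith
  have ht4 : t ^ 4 ≤ 1 := by nlinarith [sq_nonneg t]
  have e1 : √(1 - t ^ 2) ≤ 1 := by
    rw [Real.sqrt_le_one]
    nlinarith [sq_nonneg t]
  have e2 : √(1 - t ^ 2) ^ n ≤ √(1 - t ^ 2) :=
    pow_le_of_le_one (Real.sqrt_nonneg _) e1 (by omega)
  refine e2.trans ?_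
  apply Real.sqrt_le_iff.2
  constructor
  · nlinarith
  · have : (1 - t ^ 2 / 2 - t ^ 4 / 8) ^ 2 = 1 - t ^ 2 + t ^ 6 / 8 + t ^ 8 / 64 := by ring
    rw [this]
    have : 0 ≤ t ^ 6 / 8 + t ^ 8 / 64 := by positivity
    linarith

private theorem blcalc_int1 (h : ℝ) :
    ∫ t in (0 : ℝ)..h, (1 - t ^ 2 / 2 - t ^ 4 / 8) = h - h ^ 3 / 6 - h ^ 5 / 40 := by
  have h1 : ∀ x ∈ Set.uIcc (0 : ℝ) h, HasDerivAt (fun t : ℝ => t - t ^ 3 / 6 - t ^ 5 / 40)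
      (1 - x ^ 2 / 2 - x ^ 4 / 8) x := by
    intro x _
    have := ((hasDerivAt_id x).sub ((hasDerivAt_pow 3 x).div_const 6)).sub
      ((hasDerivAt_pow 5 x).div_const 40)
    refine this.congr_deriv ?_
    simp
    ring
  rw [intervalIntegral.integral_eq_sub_of_hasDerivAt h1
    ((by fun_prop : Continuous fun x : ℝ => (1 - x ^ 2 / 2 - x ^ 4 / 8)).intervalIntegrable _ _)]
  simp

private theorem blcalc_int2 (h : ℝ) :
    ∫ t in (0 : ℝ)..h, (1 - t ^ 2 / 2 - t ^ 4 / 8) * (1 + h ^ 2 - 2 * t ^ 2) =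
      h * (1 + h ^ 2 / 6 + h ^ 4 / 120 + 3 * h ^ 6 / 280) := by
  have h1 : ∀ x ∈ Set.uIcc (0 : ℝ) h, HasDerivAt (fun t : ℝ => (1 + h ^ 2) *
      (t - t ^ 3 / 6 - t ^ 5 / 40) - (2 * t ^ 3 / 3 - t ^ 5 / 5 - t ^ 7 / 28))
      ((1 - x ^ 2 / 2 - x ^ 4 / 8) * (1 + h ^ 2 - 2 * x ^ 2)) x := by
    intro x _
    have := ((((hasDerivAt_id x).sub ((hasDerivAt_pow 3 x).div_const 6)).sub
      ((hasDerivAt_pow 5 x).div_const 40)).const_mul (1 + h ^ 2)).sub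
      (((((hasDerivAt_pow 3 x).const_mul 2).div_const 3).sub
        ((hasDerivAt_pow 5 x).div_const 5)).sub ((hasDerivAt_pow 7 x).div_const 28))
    refine this.congr_deriv ?_
    simp
    ring
  rw [intervalIntegral.integral_eq_sub_of_hasDerivAt h1
    ((by fun_prop : Continuous fun x : ℝ =>
      (1 - x ^ 2 / 2 - x ^ 4 / 8) * (1 + h ^ 2 - 2 * x ^ 2)).intervalIntegrable _ _)]
  simp
  ring

theorem bl_calc (n : ℕ) (hn : 1 ≤ n) (h : ℝ) (hh : 0 < h) (hh1 : h ≤ 1) :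
    (∫ τ in (0 : ℝ)..h, √(1 - τ ^ 2) ^ n) *
      ((∫ τ in (0 : ℝ)..h, (√(1 - τ ^ 2) ^ n * (τ ^ 2 + h ^ 2) +
          (n / (n + 2) : ℝ) * √(1 - τ ^ 2) ^ (n + 2))) +
        2 * h * √(1 - h ^ 2) ^ (n + 2) / (n + 2)) ≤ h ^ 2 := by
  rw [bl_calc_identity n h hh hh1]
  have a1 : (∫ τ in (0 : ℝ)..h, √(1 - τ ^ 2) ^ n) ≤ h - h ^ 3 / 6 - h ^ 5 / 40 := by
    rw [← blcalc_int1 h]
    apply intervalIntegral.integral_mono_on hh.le
    · exact (blcalc_cont n).intervalIntegrable _ _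
    · exact (by fun_prop : Continuous fun x : ℝ =>
        (1 - x ^ 2 / 2 - x ^ 4 / 8)).intervalIntegrable _ _
    · intro x hx
      exact blcalc_sqrt x hx.1 (hx.2.trans hh1) n hn
  have a2 : (∫ τ in (0 : ℝ)..h, √(1 - τ ^ 2) ^ n * (1 + h ^ 2 - 2 * τ ^ 2)) ≤
      h * (1 + h ^ 2 / 6 + h ^ 4 / 120 + 3 * h ^ 6 / 280) := by
    rw [← blcalc_int2 h]
    apply intervalIntegral.integral_mono_on hh.le
    · exact (by fun_prop : Continuous fun τ : ℝ =>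
        √(1 - τ ^ 2) ^ n * (1 + h ^ 2 - 2 * τ ^ 2)).intervalIntegrable _ _
    · exact (by fun_prop : Continuous fun x : ℝ =>
        (1 - x ^ 2 / 2 - x ^ 4 / 8) * (1 + h ^ 2 - 2 * x ^ 2)).intervalIntegrable _ _
    · intro x hx
      apply mul_le_mul_of_nonneg_right (blcalc_sqrt x hx.1 (hx.2.trans hh1) n hn)
      nlinarith [hx.1, hx.2]
  have b1 : 0 ≤ ∫ τ in (0 : ℝ)..h, √(1 - τ ^ 2) ^ n :=
    intervalIntegral.integral_nonneg hh.le fun x _ => pow_nonneg (Real.sqrt_nonneg _) _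
  have b2 : 0 ≤ ∫ τ in (0 : ℝ)..h, √(1 - τ ^ 2) ^ n * (1 + h ^ 2 - 2 * τ ^ 2) :=
    intervalIntegral.integral_nonneg hh.le fun x hx =>
      mul_nonneg (pow_nonneg (Real.sqrt_nonneg _) _) (by nlinarith [hx.1, hx.2])
  refine (mul_le_mul a1 a2 b2 (b1.trans a1)).trans ?_
  obtain ⟨v, hv⟩ : ∃ v, v = h ^ 2 := ⟨_, rfl⟩
  have hv0 : 0 ≤ v := by rw [hv]; positivity
  have hv1 : v ≤ 1 := by rw [hv]; nlinarith
  have e : (h - h ^ 3 / 6 - h ^ 5 / 40) * (h * (1 + h ^ 2 / 6 + h ^ 4 / 120 + 3 * h ^ 6 / 280)) =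
      v * ((1 - v / 6 - v ^ 2 / 40) * (1 + v / 6 + v ^ 2 / 120 + 3 * v ^ 3 / 280)) := by
    rw [hv]; ring
  rw [e, ← hv]
  have f : (1 - v / 6 - v ^ 2 / 40) * (1 + v / 6 + v ^ 2 / 120 + 3 * v ^ 3 / 280) ≤ 1 := by
    have g : (1 - v / 6 - v ^ 2 / 40) * (1 + v / 6 + v ^ 2 / 120 + 3 * v ^ 3 / 280) =
        1 - v ^ 2 * (2 / 45 - 13 / 2520 * v) - v ^ 4 * (1 / 4800 + 1 / 560) -
          v ^ 5 * (3 / 11200) := by ring
    rw [g]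
    have : 0 ≤ 2 / 45 - 13 / 2520 * v := by linarith
    have h1 := mul_nonneg (sq_nonneg v) this
    have h2 : 0 ≤ v ^ 4 * (1 / 4800 + 1 / 560) := by positivity
    have h3 : 0 ≤ v ^ 5 * (3 / 11200) := by positivity
    linarith
  nlinarith

end Pool.Schoen
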