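import Pool.Agent.H.MP_6c077c_gt.BLDefs

/-! Smoothness of the mollified map and its rescaled form. -/

set_option autoImplicit false

namespace Pool.Schoen

open scoped ContDiff RealInnerProductSpace
open Metric Set MeasureTheory

variable {E V : Type*} [NormedAddCommGroup E] [InnerProductSpace ℝ E] [FiniteDimensional ℝ E]
  [MeasurableSpace E] [BorelSpace E]
  [NormedAddCommGroup V] [InnerProductSpace ℝ V] [FiniteDimensional ℝ V]

private theorem blconv_supp {φ : E → ℝ} {κ : ℝ} (hφ : Kernel φ κ) : HasCompactSupport φ := by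
  refine HasCompactSupport.intro (isCompact_closedBall (0 : E) 1) fun z hz => ?_
  apply hφ.supp
  rw [mem_closedBall_zero_iff, not_le] at hz
  exact hz.le

private theorem blconv_even {φ : E → ℝ} {κ : ℝ} (hφ : Kernel φ κ) (z : E) : φ (-z) = φ z :=
  le_antisymm (hφ.anti z (-z) (norm_neg z).ge) (hφ.anti (-z) z (norm_neg z).le)

theorem blH_contDiff (φ : E → ℝ) (κ : ℝ) (hφ : Kernel φ κ) (F : E → V) (hF : Continuous F) :
    ContDiff ℝ ∞ (blH φ F) := by
  have h1 : blH φ F = MeasureTheory.convolution φ F (ContinuousLinearMap.lsmul ℝ ℝ) volume := by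
    funext X
    unfold blH MeasureTheory.convolution
    rw [← integral_sub_left_eq_self (fun z => φ (z - X) • F z) volume X]
    refine integral_congr_ae (Filter.Eventually.of_forall fun t => ?_)
    simp only [ContinuousLinearMap.lsmul_apply]
    have h2 : X - t - X = -t := by abel
    rw [h2, blconv_even hφ]
  rw [h1]
  exact (blconv_supp hφ).contDiff_convolution_left (ContinuousLinearMap.lsmul ℝ ℝ) hφ.smooth
    hF.locallyIntegrable

theorem blH_scale (φ : E → ℝ) (κ : ℝ) (hφ : Kernel φ κ) (F : E → V) (hF : Continuous F)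
    (hom : ∀ t : ℝ, 0 ≤ t → ∀ z : E, F (t • z) = t • F z) (s : ℝ) (hs : 0 < s) (x : E) :
    s⁻¹ • blH φ F (s • x) = ∫ g, φ g • F (x + s⁻¹ • g) := by
  unfold blH
  rw [← integral_add_right_eq_self (fun z => φ (z - s • x) • F z) (s • x), ← integral_smul]
  refine integral_congr_ae (Filter.Eventually.of_forall fun g => ?_)
  simp only
  have h1 : g + s • x = s • (x + s⁻¹ • g) := by
    rw [smul_add, smul_smul, mul_inv_cancel₀ hs.ne', one_smul, add_comm]
  rw [add_sub_cancel_right, h1, hom s hs.le, smul_comm (φ g) s, smul_smul, inv_mul_cancel₀ hs.ne',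
    one_smul]

/-- At large scales the mollified map is close to `Φ` in the sense of differences. -/
theorem bl_large (φ : E → ℝ) (κ : ℝ) (hφ : Kernel φ κ) (F Φ : E → V) (hF : Continuous F)
    (hom : ∀ t : ℝ, 0 ≤ t → ∀ z : E, F (t • z) = t • F z) (hΦ : ContDiff ℝ ∞ Φ)
    (hFΦ : ∀ z : E, 1 / 2 ≤ ‖z‖ → F z = Φ z) :
    ∃ C : ℝ, 0 ≤ C ∧ ∀ s : ℝ, 2 ≤ s → ∀ x ∈ sphere (0 : E) 1, ∀ y ∈ sphere (0 : E) 1,
      ‖(s⁻¹ • blH φ F (s • x) - s⁻¹ • blH φ F (s • y)) - (Φ x - Φ y)‖ ≤ C / s * ‖x - y‖ := by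
  have hd1 : ContDiff ℝ ∞ (fderiv ℝ Φ) := hΦ.fderiv_right (by simp)
  have hd2 : Continuous (fderiv ℝ (fderiv ℝ Φ)) := hd1.continuous_fderiv (by simp)
  obtain ⟨C, hC⟩ : ∃ C : ℝ, ∀ p ∈ closedBall (0 : E) 3, ‖fderiv ℝ (fderiv ℝ Φ) p‖ ≤ C := by
    have hd3 : Continuous (fun p => ‖fderiv ℝ (fderiv ℝ Φ) p‖) :=
      (continuous_norm (E := E →L[ℝ] E →L[ℝ] V)).comp hd2
    obtain ⟨C, hC⟩ := (isCompact_closedBall (0 : E) 3).bddAbove_image hd3.continuousOn
    exact ⟨C, fun p hp => hC (mem_image_of_mem _ hp)⟩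
  have hC0 : 0 ≤ C := le_trans (norm_nonneg (fderiv ℝ (fderiv ℝ Φ) 0)) (hC 0 (by simp))
  have hLip : ∀ p ∈ closedBall (0 : E) 3, ∀ q ∈ closedBall (0 : E) 3,
      ‖fderiv ℝ Φ q - fderiv ℝ Φ p‖ ≤ C * ‖q - p‖ := fun p hp q hq =>
    (convex_closedBall (0 : E) 3).norm_image_sub_le_of_norm_fderiv_le
      (fun u _ => (hd1.differentiable (by simp)) u) hC hp hq
  refine ⟨C, hC0, ?_⟩
  intro s hs x hx y hy
  have hs0 : 0 < s := by linarith
  have hx1 : ‖x‖ = 1 := by simpa using hx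
  have hy1 : ‖y‖ = 1 := by simpa using hy
  have hφc : Continuous φ := hφ.smooth.continuous
  have hΦc : Continuous Φ := hΦ.continuous
  have hsg : ∀ g : E, ‖g‖ ≤ 1 → ‖s⁻¹ • g‖ ≤ 1 / s := by
    intro g hg
    rw [norm_smul, norm_inv, Real.norm_of_nonneg hs0.le, ← div_eq_inv_mul]
    gcongr
  have hs2 : 1 / s ≤ 1 / 2 := by
    apply one_div_le_one_div_of_le <;> linarith
  have hint : ∀ G : E → V, Continuous G → Integrable (fun g => φ g • G g) := by
    intro G hG
    exact (hφc.smul hG).integrable_of_hasCompactSupport ((blconv_supp hφ).smul_right)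
  have hrep : ∀ u : E, ‖u‖ = 1 → s⁻¹ • blH φ F (s • u) = ∫ g, φ g • Φ (u + s⁻¹ • g) := by
    intro u hu
    rw [blH_scale φ κ hφ F hF hom s hs0 u]
    refine integral_congr_ae (Filter.Eventually.of_forall fun g => ?_)
    simp only
    rcases le_or_gt 1 ‖g‖ with h | h
    · rw [hφ.supp g h, zero_smul, zero_smul]
    · rw [hFΦ]
      have h1 : ‖u‖ ≤ ‖u + s⁻¹ • g‖ + ‖s⁻¹ • g‖ := by
        calc ‖u‖ = ‖(u + s⁻¹ • g) - s⁻¹ • g‖ := by rw [add_sub_cancel_right]
          _ ≤ _ := norm_sub_le _ _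
      have h2 := hsg g h.le
      linarith
  have hconst : ∀ v : V, ∫ g, φ g • v = v := by
    intro v
    rw [integral_smul_const, hφ.int, one_smul]
  have hI1 := hint (fun g => Φ (x + s⁻¹ • g)) (by fun_prop)
  have hI2 := hint (fun g => Φ (y + s⁻¹ • g)) (by fun_prop)
  have hI3 := hint (fun _ => Φ x - Φ y) continuous_const
  have hI12 : Integrable (fun g => φ g • Φ (x + s⁻¹ • g) - φ g • Φ (y + s⁻¹ • g)) := hI1.sub hI2
  have hkey : (s⁻¹ • blH φ F (s • x) - s⁻¹ • blH φ F (s • y)) - (Φ x - Φ y) =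
      ∫ g, φ g • ((Φ (x + s⁻¹ • g) - Φ (y + s⁻¹ • g)) - (Φ x - Φ y)) := by
    rw [hrep x hx1, hrep y hy1, ← integral_sub hI1 hI2]
    nth_rw 1 [← hconst (Φ x - Φ y)]
    rw [← integral_sub hI12 hI3]
    refine integral_congr_ae (Filter.Eventually.of_forall fun g => ?_)
    simp only [smul_sub]
  rw [hkey]
  have hbound : ∀ g : E, ‖φ g • ((Φ (x + s⁻¹ • g) - Φ (y + s⁻¹ • g)) - (Φ x - Φ y))‖ ≤
      φ g * (C / s * ‖x - y‖) := by
    intro g
    rw [norm_smul, Real.norm_of_nonneg (hφ.nonneg g)]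
    rcases le_or_gt 1 ‖g‖ with h | h
    · rw [hφ.supp g h, zero_mul, zero_mul]
    · refine mul_le_mul_of_nonneg_left ?_ (hφ.nonneg g)
      have hder : ∀ p : E, HasFDerivAt (fun p => Φ (p + s⁻¹ • g) - Φ p)
          (fderiv ℝ Φ (p + s⁻¹ • g) - fderiv ℝ Φ p) p := by
        intro p
        have h1 : HasFDerivAt Φ (fderiv ℝ Φ (p + s⁻¹ • g)) (p + s⁻¹ • g) :=
          (hΦ.differentiable (by simp)).differentiableAt.hasFDerivAt
        have h2 : HasFDerivAt Φ (fderiv ℝ Φ p) p :=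
          (hΦ.differentiable (by simp)).differentiableAt.hasFDerivAt
        exact ((hasFDerivAt_comp_add_right (s⁻¹ • g)).2 h1).sub h2
      have hb : ∀ p ∈ closedBall (0 : E) 1,
          ‖fderiv ℝ (fun p => Φ (p + s⁻¹ • g) - Φ p) p‖ ≤ C / s := by
        intro p hp
        rw [mem_closedBall_zero_iff] at hp
        rw [(hder p).fderiv]
        have h1 : p + s⁻¹ • g ∈ closedBall (0 : E) 3 := by
          rw [mem_closedBall_zero_iff]
          have := norm_add_le p (s⁻¹ • g)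
          have := hsg g h.le
          linarith
        have h2 : p ∈ closedBall (0 : E) 3 := by
          rw [mem_closedBall_zero_iff]
          linarith
        refine (hLip p h2 _ h1).trans ?_
        rw [add_sub_cancel_left]
        calc C * ‖s⁻¹ • g‖ ≤ C * (1 / s) := by
              gcongr
              exact hsg g h.le
          _ = C / s := by ring
      have h3 := (convex_closedBall (0 : E) 1).norm_image_sub_le_of_norm_fderiv_le
        (f := fun p => Φ (p + s⁻¹ • g) - Φ p) (fun p _ => (hder p).differentiableAt) hb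
        (x := y) (y := x) (by rw [mem_closedBall_zero_iff]; linarith)
        (by rw [mem_closedBall_zero_iff]; linarith)
      have h4 : (Φ (x + s⁻¹ • g) - Φ (y + s⁻¹ • g)) - (Φ x - Φ y) =
          (Φ (x + s⁻¹ • g) - Φ x) - (Φ (y + s⁻¹ • g) - Φ y) := by abel
      rw [h4]
      exact h3
  calc ‖∫ g, φ g • ((Φ (x + s⁻¹ • g) - Φ (y + s⁻¹ • g)) - (Φ x - Φ y))‖
      ≤ ∫ g, φ g * (C / s * ‖x - y‖) := by
        refine norm_integral_le_of_norm_le ?_ (Filter.Eventually.of_forall hbound)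
        exact (hφc.integrable_of_hasCompactSupport (blconv_supp hφ)).mul_const _
    _ = C / s * ‖x - y‖ := by rw [integral_mul_const, hφ.int, one_mul]

end Pool.Schoen
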