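import Mathlib
import Pool.Agent.H.MP_6c077c_gt.Defs

/-!
Bi-Lipschitz spheres: common definitions.  `F` is a positively homogeneous map whose restriction
to the unit sphere is bi-Lipschitz, `φ` a smooth, radially decreasing probability density
supported in the unit ball, `blH φ F` the mollification of `F`.
-/

set_option autoImplicit false

namespace Pool.Schoen

open scoped ContDiff RealInnerProductSpace
open Metric Set MeasureTheory

section

variable {E V : Type*} [NormedAddCommGroup E] [InnerProductSpace ℝ E]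
  [NormedAddCommGroup V] [InnerProductSpace ℝ V]

/-- The reflection in the hyperplane orthogonal to the unit vector `e`. -/
noncomputable def blRefl (e z : E) : E := z - (2 * ⟪e, z⟫) • e

/-- A positively homogeneous map whose restriction to the unit sphere is bi-Lipschitz. -/
structure BiLip (F : E → V) (l L : ℝ) : Prop where
  pos : 0 < l
  le : l ≤ L
  hom : ∀ t : ℝ, 0 ≤ t → ∀ z : E, F (t • z) = t • F z
  low : ∀ x ∈ sphere (0 : E) 1, ∀ y ∈ sphere (0 : E) 1, l * ‖x - y‖ ≤ ‖F x - F y‖
  upp : ∀ x ∈ sphere (0 : E) 1, ∀ y ∈ sphere (0 : E) 1, ‖F x - F y‖ ≤ L * ‖x - y‖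

end

variable {E V : Type*} [NormedAddCommGroup E] [InnerProductSpace ℝ E] [FiniteDimensional ℝ E]
  [MeasurableSpace E] [BorelSpace E]
  [NormedAddCommGroup V] [InnerProductSpace ℝ V] [FiniteDimensional ℝ V]

/-- Smooth radially decreasing probability densities supported in the closed unit ball. -/
structure Kernel (φ : E → ℝ) (κ : ℝ) : Prop where
  smooth : ContDiff ℝ ∞ φ
  nonneg : ∀ z, 0 ≤ φ z
  le : ∀ z, φ z ≤ κ
  supp : ∀ z, 1 ≤ ‖z‖ → φ z = 0
  anti : ∀ z z', ‖z‖ ≤ ‖z'‖ → φ z' ≤ φ z
  int : ∫ z, φ z = 1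

/-- The mollification of `F` at scale one. -/
noncomputable def blH (φ : E → ℝ) (F : E → V) (X : E) : V := ∫ z, φ (z - X) • F z

/-- The mass of the slab of half width `h`. -/
noncomputable def blW (φ : E → ℝ) (e : E) (h : ℝ) : ℝ := ∫ y in {y : E | |⟪e, y⟫| < h}, φ y

/-- The second moment which controls the mollified map. -/
noncomputable def blS (φ : E → ℝ) (e : E) (h : ℝ) : ℝ :=
  (∫ y in {y : E | |⟪e, y⟫| < h}, φ y * (‖y‖ ^ 2 + h ^ 2)) +
    ∫ y in {y : E | h ≤ |⟪e, y⟫|}, φ y * (2 * h * |⟪e, y⟫|)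

/-- The volume of the unit ball of dimension `n`. -/
noncomputable def bvol (n : ℕ) : ℝ := (volume (ball (0 : EuclideanSpace ℝ (Fin n)) 1)).toReal

end Pool.Schoen
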