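import Pool.Agent.H.MP_6c077c_gt.BLDefs

/-! Existence of kernels close to the uniform density of the unit ball. -/

set_option autoImplicit false

namespace Pool.Schoen

open scoped ContDiff RealInnerProductSpace
open Metric Set MeasureTheory

theorem blkern_bvol_pos (n : ℕ) : 0 < bvol n := by
  unfold bvol
  refine ENNReal.toReal_pos (measure_ball_pos volume _ one_pos).ne' measure_ball_lt_top.ne

theorem blkern_radius (n : ℕ) (ε : ℝ) (hε : 0 < ε) :
    ∃ r : ℝ, 0 < r ∧ r < 1 ∧ 1 < (1 + ε) * r ^ (n + 1) := by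
  have hc : Continuous (fun r : ℝ => (1 + ε) * r ^ (n + 1)) := by fun_prop
  have h1 : ∀ᶠ r in nhds (1 : ℝ), 1 < (1 + ε) * r ^ (n + 1) := by
    refine hc.continuousAt.eventually_const_lt ?_
    simp [hε]
  have h2 : ∀ᶠ r in nhdsWithin (1 : ℝ) (Iio 1), 1 < (1 + ε) * r ^ (n + 1) :=
    h1.filter_mono nhdsWithin_le_nhds
  have h3 : ∀ᶠ r in nhdsWithin (1 : ℝ) (Iio 1), r ∈ Ioo (0 : ℝ) 1 :=
    Ioo_mem_nhdsLT one_pos
  obtain ⟨r, hr1, hr2⟩ := (h2.and h3).exists
  exact ⟨r, hr2.1, hr2.2, hr1⟩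

theorem exists_kernel (n : ℕ) (ε : ℝ) (hε : 0 < ε) :
    ∃ (φ : EuclideanSpace ℝ (Fin (n + 1)) → ℝ) (κ : ℝ), Kernel φ κ ∧ 0 < κ ∧
      κ * bvol (n + 1) < 1 + ε := by
  obtain ⟨r, hr0, hr1, hr⟩ := blkern_radius n ε hε
  have hd : 0 < 1 - r ^ 2 := by nlinarith
  let φ0 : EuclideanSpace ℝ (Fin (n + 1)) → ℝ :=
    fun z => Real.smoothTransition ((1 - ‖z‖ ^ 2) / (1 - r ^ 2))
  have hsm : ContDiff ℝ ∞ φ0 := by
    refine Real.smoothTransition.contDiff.comp ?_
    exact (contDiff_const.sub (contDiff_norm_sq ℝ)).div_const _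
  have hnn : ∀ z, 0 ≤ φ0 z := fun z => Real.smoothTransition.nonneg _
  have hle : ∀ z, φ0 z ≤ 1 := fun z => Real.smoothTransition.le_one _
  have hsupp : ∀ z, 1 ≤ ‖z‖ → φ0 z = 0 := by
    intro z hz
    refine Real.smoothTransition.zero_of_nonpos ?_
    refine div_nonpos_of_nonpos_of_nonneg ?_ hd.le
    nlinarith
  have hanti : ∀ z z', ‖z‖ ≤ ‖z'‖ → φ0 z' ≤ φ0 z := by
    intro z z' h
    refine Real.smoothTransition.monotone ?_
    refine div_le_div_of_nonneg_right ?_ hd.le
    nlinarith [norm_nonneg z]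
  have hone : ∀ z, ‖z‖ ≤ r → φ0 z = 1 := by
    intro z hz
    refine Real.smoothTransition.one_of_one_le ?_
    rw [le_div_iff₀ hd]
    nlinarith [norm_nonneg z]
  have hcs : HasCompactSupport φ0 := by
    refine HasCompactSupport.intro (isCompact_closedBall (0 : EuclideanSpace ℝ (Fin (n + 1))) 1)
      fun z hz => ?_
    rw [mem_closedBall, dist_zero_right, not_le] at hz
    exact hsupp z hz.le
  have hint : Integrable φ0 := hsm.continuous.integrable_of_hasCompactSupport hcs
  have hvol : (volume (ball (0 : EuclideanSpace ℝ (Fin (n + 1))) r)).toReal =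
      r ^ (n + 1) * bvol (n + 1) := by
    rw [Measure.addHaar_ball volume _ hr0.le, ENNReal.toReal_mul,
      ENNReal.toReal_ofReal (pow_nonneg hr0.le _), finrank_euclideanSpace_fin]
    rfl
  have hm : r ^ (n + 1) * bvol (n + 1) ≤ ∫ z, φ0 z := by
    rw [← hvol]
    have h1 : ∫ z, (ball (0 : EuclideanSpace ℝ (Fin (n + 1))) r).indicator (fun _ => (1 : ℝ)) z =
        (volume (ball (0 : EuclideanSpace ℝ (Fin (n + 1))) r)).toReal := by
      rw [integral_indicator measurableSet_ball]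
      simp [Measure.real]
    rw [← h1]
    refine integral_mono ?_ hint ?_
    · exact (integrable_indicator_iff measurableSet_ball).2
        (integrableOn_const measure_ball_lt_top.ne)
    · intro z
      by_cases hz : z ∈ ball (0 : EuclideanSpace ℝ (Fin (n + 1))) r
      · rw [indicator_of_mem hz]
        rw [mem_ball, dist_zero_right] at hz
        exact (hone z hz.le).ge
      · rw [indicator_of_notMem hz]
        exact hnn z
  have hb := blkern_bvol_pos (n + 1)
  have hrp : 0 < r ^ (n + 1) := pow_pos hr0 _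
  have hmpos : 0 < ∫ z, φ0 z := (mul_pos hrp hb).trans_le hm
  refine ⟨fun z => φ0 z / ∫ z, φ0 z, 1 / ∫ z, φ0 z, ?_, by positivity, ?_⟩
  · refine ⟨hsm.div_const _, fun z => div_nonneg (hnn z) hmpos.le, fun z => ?_, fun z hz => ?_,
      fun z z' h => ?_, ?_⟩
    · exact div_le_div_of_nonneg_right (hle z) hmpos.le
    · show φ0 z / _ = 0
      rw [hsupp z hz, zero_div]
    · exact div_le_div_of_nonneg_right (hanti z z' h) hmpos.le
    · rw [integral_div, div_self hmpos.ne']
  · rw [one_div, inv_mul_lt_iff₀ hmpos]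
    have h2 : bvol (n + 1) < (1 + ε) * r ^ (n + 1) * bvol (n + 1) := by
      nlinarith
    have h3 : (1 + ε) * (r ^ (n + 1) * bvol (n + 1)) ≤ (1 + ε) * ∫ z, φ0 z :=
      mul_le_mul_of_nonneg_left hm (by linarith)
    linarith

theorem bvol_pos (n : ℕ) : 0 < bvol n := blkern_bvol_pos n

end Pool.Schoen
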