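import Pool.Agent.H.MP_6c077c_gt.BLPath

/-! Scaling isotopies. -/

set_option autoImplicit false

namespace Pool.Schoen

open scoped ContDiff RealInnerProductSpace
open Metric Set

variable {E V : Type*} [NormedAddCommGroup E] [InnerProductSpace ℝ E] [FiniteDimensional ℝ E]
  [NormedAddCommGroup V] [InnerProductSpace ℝ V] [FiniteDimensional ℝ V]

theorem blscale_low (H : E → V) (c : ℝ)
    (h : ∀ X Y : E, ‖X‖ = ‖Y‖ → c * ‖X - Y‖ ≤ ‖H X - H Y‖) (s : ℝ) (hs : 0 < s) (x y : E)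
    (hxy : ‖x‖ = ‖y‖) :
    c * ‖x - y‖ ≤ ‖s⁻¹ • H (s • x) - s⁻¹ • H (s • y)‖ := by
  have h1 := h (s • x) (s • y) (by rw [norm_smul, norm_smul, hxy])
  rw [← smul_sub, norm_smul, Real.norm_eq_abs, abs_of_pos hs] at h1
  rw [← smul_sub, norm_smul, Real.norm_eq_abs, abs_of_pos (inv_pos.2 hs), le_inv_mul_iff₀ hs]
  linarith

theorem bl_scale (H : E → V) (hH : ContDiff ℝ ∞ H) (c : ℝ) (hc : 0 < c)
    (h : ∀ X Y : E, ‖X‖ = ‖Y‖ → c * ‖X - Y‖ ≤ ‖H X - H Y‖) (s₀ s₁ : ℝ) (h₀ : 0 < s₀)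
    (h₁ : 0 < s₁) :
    CarriesMap (sphere (0 : E) 1) (fun x => s₀⁻¹ • H (s₀ • x)) (fun x => s₁⁻¹ • H (s₁ • x)) := by
  let σ : ℝ → ℝ := fun s => s₀ * Real.exp (s * Real.log (s₁ / s₀))
  have hσpos : ∀ s, 0 < σ s := fun s => mul_pos h₀ (Real.exp_pos _)
  have hσ : ContDiff ℝ ∞ (fun p : ℝ × E => σ p.1) :=
    contDiff_const.mul (Real.contDiff_exp.comp (contDiff_fst.mul contDiff_const))
  have hσ0 : σ 0 = s₀ := by simp [σ]
  have hσ1 : σ 1 = s₁ := by
    simp only [σ, one_mul]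
    rw [Real.exp_log (div_pos h₁ h₀)]
    field_simp
  have hf : ContDiff ℝ ∞ (fun p : ℝ × E => (σ p.1)⁻¹ • H (σ p.1 • p.2)) := by
    apply ContDiff.smul
    · exact hσ.inv (fun p => (hσpos p.1).ne')
    · exact hH.comp (hσ.smul contDiff_snd)
  have key := bl_path (fun p : ℝ × E => (σ p.1)⁻¹ • H (σ p.1 • p.2)) hf c hc (by
    intro s _ x hx y hy
    rw [mem_sphere_zero_iff_norm] at hx hy
    exact blscale_low H c h (σ s) (hσpos s) x y (by rw [hx, hy]))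
  simp only [hσ0, hσ1] at key
  exact key

theorem blscale_deriv (H : E → V) (hH : ContDiff ℝ ∞ H) :
    ∃ K : ℝ, 0 ≤ K ∧ ∀ z ∈ closedBall (0 : E) 1, ‖fderiv ℝ H z - fderiv ℝ H 0‖ ≤ K * ‖z‖ := by
  have h1 : ContDiff ℝ ∞ (fderiv ℝ H) := hH.fderiv_right (by simp)
  have h2 : Continuous (fderiv ℝ (fderiv ℝ H)) := h1.continuous_fderiv (by simp)
  obtain ⟨K, hK⟩ : ∃ K : ℝ, ∀ z ∈ closedBall (0 : E) 1, ‖fderiv ℝ (fderiv ℝ H) z‖ ≤ K := by
    have h3 : Continuous (fun z => ‖fderiv ℝ (fderiv ℝ H) z‖) := by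
      exact @Continuous.norm E (E →L[ℝ] E →L[ℝ] V) inferInstance inferInstance _ h2
    obtain ⟨K, hK⟩ := (isCompact_closedBall (0 : E) 1).bddAbove_image h3.continuousOn
    exact ⟨K, fun z hz => hK ⟨z, hz, rfl⟩⟩
  have hdiff : Differentiable ℝ (fderiv ℝ H) := h1.differentiable (by simp)
  refine ⟨max K 0, le_max_right _ _, fun z hz => ?_⟩
  have h3 := (convex_closedBall (0 : E) 1).norm_image_sub_le_of_norm_fderiv_le (𝕜 := ℝ)
    (f := fderiv ℝ H) (C := max K 0) (fun w _ => hdiff w)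
    (fun w hw => le_trans (hK w hw) (le_max_left _ _))
    (mem_closedBall_self (by norm_num : (0 : ℝ) ≤ 1)) hz
  rwa [sub_zero] at h3

theorem blscale_close (H : E → V) (hH : ContDiff ℝ ∞ H) (K : ℝ)
    (hK : ∀ z ∈ closedBall (0 : E) 1, ‖fderiv ℝ H z - fderiv ℝ H 0‖ ≤ K * ‖z‖) (hK0 : 0 ≤ K)
    (s : ℝ) (hs : 0 < s) (hs1 : s ≤ 1) (x y : E) (hx : x ∈ closedBall (0 : E) 1)
    (hy : y ∈ closedBall (0 : E) 1) :
    ‖(s⁻¹ • H (s • x) - s⁻¹ • H (s • y)) - (fderiv ℝ H 0 x - fderiv ℝ H 0 y)‖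
      ≤ K * s * ‖x - y‖ := by
  have hdH : Differentiable ℝ H := hH.differentiable (by simp)
  have hder : ∀ p : E, HasFDerivAt (fun p : E => s⁻¹ • H (s • p) - fderiv ℝ H 0 p)
      (fderiv ℝ H (s • p) - fderiv ℝ H 0) p := by
    intro p
    have h1 : HasFDerivAt (fun p : E => s • p) (s • ContinuousLinearMap.id ℝ E) p :=
      (hasFDerivAt_id p).const_smul s
    have h2 : HasFDerivAt (fun p : E => H (s • p))
        ((fderiv ℝ H (s • p)).comp (s • ContinuousLinearMap.id ℝ E)) p :=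
      (hdH (s • p)).hasFDerivAt.comp p h1
    have h3 := h2.const_smul s⁻¹
    have h4 : s⁻¹ • (fderiv ℝ H (s • p)).comp (s • ContinuousLinearMap.id ℝ E)
        = fderiv ℝ H (s • p) := by
      ext v
      simp [smul_smul, inv_mul_cancel₀ hs.ne']
    rw [h4] at h3
    exact h3.sub (fderiv ℝ H 0).hasFDerivAt
  have h5 := (convex_closedBall (0 : E) 1).norm_image_sub_le_of_norm_hasFDerivWithin_le
    (f := fun p : E => s⁻¹ • H (s • p) - fderiv ℝ H 0 p)
    (f' := fun p => fderiv ℝ H (s • p) - fderiv ℝ H 0) (C := K * s)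
    (fun p _ => (hder p).hasFDerivWithinAt)
    (by
      intro p hp
      rw [mem_closedBall_zero_iff] at hp
      have h6 : ‖s • p‖ ≤ s := by
        rw [norm_smul, Real.norm_eq_abs, abs_of_pos hs]
        nlinarith
      have h7 : s • p ∈ closedBall (0 : E) 1 := by
        rw [mem_closedBall_zero_iff]; linarith
      exact le_trans (hK _ h7) (by gcongr)) hy hx
  have e : (s⁻¹ • H (s • x) - s⁻¹ • H (s • y)) - (fderiv ℝ H 0 x - fderiv ℝ H 0 y)
      = (s⁻¹ • H (s • x) - fderiv ℝ H 0 x) - (s⁻¹ • H (s • y) - fderiv ℝ H 0 y) := by abel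
  rw [e]
  exact h5

theorem bl_small (H : E → V) (hH : ContDiff ℝ ∞ H) (c : ℝ) (hc : 0 < c)
    (h : ∀ X Y : E, ‖X‖ = ‖Y‖ → c * ‖X - Y‖ ≤ ‖H X - H Y‖) :
    Function.Injective (fderiv ℝ H 0) ∧ ∃ s₀ : ℝ, 0 < s₀ ∧
      CarriesMap (sphere (0 : E) 1) (fun x => s₀⁻¹ • H (s₀ • x)) (fun x => fderiv ℝ H 0 x) := by
  obtain ⟨K, hK0, hK⟩ := blscale_deriv H hH
  set s₀ : ℝ := min 1 (c / (2 * (K + 1))) with hs₀
  have hs0 : 0 < s₀ := lt_min one_pos (by positivity)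
  have hs1 : s₀ ≤ 1 := min_le_left _ _
  have hKs : K * s₀ ≤ c / 2 := by
    have h1 : s₀ ≤ c / (2 * (K + 1)) := min_le_right _ _
    have h2 : K * s₀ ≤ (K + 1) * (c / (2 * (K + 1))) := by
      apply mul_le_mul (by linarith) h1 hs0.le (by linarith)
    have h3 : (K + 1) * (c / (2 * (K + 1))) = c / 2 := by
      field_simp
    linarith
  have hsph : ∀ x ∈ sphere (0 : E) 1, x ∈ closedBall (0 : E) 1 := fun x hx =>
    sphere_subset_closedBall hx
  refine ⟨?_, s₀, hs0, ?_⟩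
  · rw [injective_iff_map_eq_zero]
    intro v hv
    by_contra hne
    have hvn : 0 < ‖v‖ := norm_pos_iff.2 hne
    set x : E := ‖v‖⁻¹ • v with hx
    have hxn : ‖x‖ = 1 := by
      rw [hx, norm_smul, norm_inv, norm_norm, inv_mul_cancel₀ hvn.ne']
    have hAx : fderiv ℝ H 0 x = 0 := by rw [hx, map_smul, hv, smul_zero]
    have hxm : x ∈ closedBall (0 : E) 1 := by rw [mem_closedBall_zero_iff, hxn]
    have hxm' : -x ∈ closedBall (0 : E) 1 := by rw [mem_closedBall_zero_iff, norm_neg, hxn]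
    have h1 := blscale_close H hH K hK hK0 s₀ hs0 hs1 x (-x) hxm hxm'
    have h2 := blscale_low H c h s₀ hs0 x (-x) (by rw [norm_neg])
    rw [map_neg, hAx, neg_zero, sub_zero, sub_zero] at h1
    have h3 : ‖x - -x‖ = 2 := by
      rw [sub_neg_eq_add, ← two_smul ℝ x, norm_smul, hxn]
      norm_num
    rw [h3] at h1 h2
    linarith
  · refine bl_straight (fun x => s₀⁻¹ • H (s₀ • x)) (fun x => fderiv ℝ H 0 x) ?_
      (fderiv ℝ H 0).contDiff c (c / 2) hc (by linarith) ?_ ?_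
    · exact (hH.comp (contDiff_const.smul contDiff_id)).const_smul s₀⁻¹
    · intro x hx y hy
      rw [mem_sphere_zero_iff_norm] at hx hy
      exact blscale_low H c h s₀ hs0 x y (by rw [hx, hy])
    · intro x hx y hy
      refine le_trans (blscale_close H hH K hK hK0 s₀ hs0 hs1 x y (hsph x hx) (hsph y hy)) ?_
      exact mul_le_mul_of_nonneg_right hKs (norm_nonneg _)

end Pool.Schoen
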