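import Pool.Agent.H.MP_6c077c_gt.BLMain
import Pool.Agent.H.MP_6c077c_gt.BLKern
import Pool.Agent.H.MP_6c077c_gt.BLConv
import Pool.Agent.H.MP_6c077c_gt.BLScale

/-! Bi-Lipschitz spheres are unknotted: assembly. -/

set_option autoImplicit false

namespace Pool.Schoen

open scoped ContDiff RealInnerProductSpace
open Metric Set MeasureTheory

variable {V : Type*} [NormedAddCommGroup V] [InnerProductSpace ℝ V] [FiniteDimensional ℝ V]

theorem bl_continuous {E : Type*} [NormedAddCommGroup E] [InnerProductSpace ℝ E]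
    [FiniteDimensional ℝ E] (F : E → V) (hom : ∀ t : ℝ, 0 ≤ t → ∀ z : E, F (t • z) = t • F z)
    (hF : ContDiffOn ℝ ∞ F {0}ᶜ) : Continuous F := by
  have hF0 : F 0 = 0 := by simpa using hom 0 le_rfl 0
  rw [continuous_iff_continuousAt]
  intro z
  by_cases hz : z = 0
  · subst hz
    have hc : ContinuousOn F (sphere (0 : E) 1) :=
      hF.continuousOn.mono (fun x hx => by
        rw [mem_compl_iff, mem_singleton_iff]
        rintro rfl
        simp at hx)
    obtain ⟨C, hC⟩ := (isCompact_sphere (0 : E) 1).exists_bound_of_continuousOn hc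
    have hb : ∀ z : E, ‖F z‖ ≤ C * ‖z‖ := by
      intro z
      by_cases hz : z = 0
      · subst hz; simp [hF0]
      · have hn : ‖z‖ ≠ 0 := norm_ne_zero_iff.2 hz
        have h1 : F z = ‖z‖ • F (‖z‖⁻¹ • z) := by
          rw [← hom _ (norm_nonneg z), smul_smul, mul_inv_cancel₀ hn, one_smul]
        rw [h1, norm_smul, norm_norm, mul_comm]
        refine mul_le_mul_of_nonneg_right (hC _ ?_) (norm_nonneg z)
        rw [mem_sphere_zero_iff_norm, norm_smul, norm_inv, norm_norm, inv_mul_cancel₀ hn]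
    rw [ContinuousAt, hF0]
    have h2 : Filter.Tendsto (fun z : E => C * ‖z‖) (nhds 0) (nhds 0) := by
      have : Continuous fun z : E => C * ‖z‖ := continuous_const.mul continuous_norm
      simpa using this.tendsto 0
    exact squeeze_zero_norm hb h2
  · exact (hF.continuousOn z hz).continuousAt (isOpen_compl_singleton.mem_nhds hz)

theorem bl_cutoff {E : Type*} [NormedAddCommGroup E] [InnerProductSpace ℝ E]
    [FiniteDimensional ℝ E] (F : E → V) (hF : ContDiffOn ℝ ∞ F {0}ᶜ) :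
    ∃ Φ : E → V, ContDiff ℝ ∞ Φ ∧ ∀ z : E, 1 / 2 ≤ ‖z‖ → F z = Φ z := by
  set χ : E → ℝ := fun z => Real.smoothTransition ((‖z‖ ^ 2 - 1 / 16) / (3 / 16)) with hχ
  have hχs : ContDiff ℝ ∞ χ := by
    refine Real.smoothTransition.contDiff.comp ?_
    exact ((contDiff_norm_sq ℝ).sub contDiff_const).div_const _
  refine ⟨fun z => χ z • F z, ?_, ?_⟩
  · rw [contDiff_iff_contDiffAt]
    intro z
    by_cases hz : z = 0
    · subst hz
      have h1 : (fun z => χ z • F z) =ᶠ[nhds (0 : E)] fun _ => (0 : V) := by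
        have h2 : ball (0 : E) (1 / 4) ∈ nhds (0 : E) := ball_mem_nhds _ (by norm_num)
        filter_upwards [h2] with z hz
        rw [mem_ball_zero_iff] at hz
        have h3 : χ z = 0 := by
          rw [hχ]
          refine Real.smoothTransition.zero_of_nonpos ?_
          have : ‖z‖ ^ 2 ≤ 1 / 16 := by
            have := norm_nonneg z
            nlinarith
          have h4 : ‖z‖ ^ 2 - 1 / 16 ≤ 0 := by linarith
          exact div_nonpos_of_nonpos_of_nonneg h4 (by norm_num)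
        rw [h3, zero_smul]
      exact contDiffAt_const.congr_of_eventuallyEq h1
    · exact hχs.contDiffAt.smul (hF.contDiffAt (isOpen_compl_singleton.mem_nhds hz))
  · intro z hz
    have h3 : χ z = 1 := by
      rw [hχ]
      refine Real.smoothTransition.one_of_one_le ?_
      rw [le_div_iff₀ (by norm_num)]
      nlinarith
    simp only [h3, one_smul]

theorem bl_final (n : ℕ) (hn : 1 ≤ n) (F : EuclideanSpace ℝ (Fin (n + 1)) → V)
    (hFs : ContDiffOn ℝ ∞ F {0}ᶜ) (l L : ℝ) (hF : BiLip F l L)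
    (hc : 2 * bvol n * (L ^ 2 - l ^ 2) < bvol (n + 1) * (L ^ 2 + l ^ 2)) :
    ∃ ι : EuclideanSpace ℝ (Fin (n + 1)) →ₗᵢ[ℝ] V,
      CarriesMap (sphere (0 : EuclideanSpace ℝ (Fin (n + 1))) 1) F (fun x => ι x) := by
  have hl := hF.pos
  have hle := hF.le
  have hb0 := bvol_pos n
  have hb1 := bvol_pos (n + 1)
  have hL2 : 0 ≤ L ^ 2 - l ^ 2 := by nlinarith
  -- the choice of `ε`
  obtain ⟨ε, hε, hε'⟩ : ∃ ε : ℝ, 0 < ε ∧
      2 * bvol n * (L ^ 2 - l ^ 2) * (1 + ε) < bvol (n + 1) * (L ^ 2 + l ^ 2) := by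
    set a := 2 * bvol n * (L ^ 2 - l ^ 2) with ha
    set b := bvol (n + 1) * (L ^ 2 + l ^ 2) with hb
    have ha0 : 0 ≤ a := by positivity
    refine ⟨(b - a) / (2 * (a + 1)), by apply div_pos <;> linarith, ?_⟩
    have h1 : a * ((b - a) / (2 * (a + 1))) ≤ (b - a) / 2 := by
      rw [mul_div_assoc', div_le_div_iff₀ (by linarith) (by norm_num)]
      nlinarith
    rw [mul_add, mul_one]
    linarith
  obtain ⟨φ, κ, hφ, hκ, hκε⟩ := exists_kernel n ε hε
  have hcond : (L ^ 2 - l ^ 2) * (2 * κ * bvol n) < L ^ 2 + l ^ 2 := by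
    have h1 : (L ^ 2 - l ^ 2) * (2 * κ * bvol n) * bvol (n + 1) ≤
        2 * bvol n * (L ^ 2 - l ^ 2) * (1 + ε) := by
      have h2 : (L ^ 2 - l ^ 2) * (2 * κ * bvol n) * bvol (n + 1) =
          2 * bvol n * (L ^ 2 - l ^ 2) * (κ * bvol (n + 1)) := by ring
      rw [h2]
      exact mul_le_mul_of_nonneg_left hκε.le (by positivity)
    have h3 : (L ^ 2 - l ^ 2) * (2 * κ * bvol n) * bvol (n + 1) <
        (L ^ 2 + l ^ 2) * bvol (n + 1) := by linarith
    exact lt_of_mul_lt_mul_right h3 hb1.le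
  have hFc := bl_continuous F hF.hom hFs
  obtain ⟨c, hc0, hmain⟩ := bl_main n hn φ κ hφ hκ F hFc l L hF hcond
  have hH := blH_contDiff φ κ hφ F hFc
  obtain ⟨Φ, hΦ, hFΦ⟩ := bl_cutoff F hFs
  obtain ⟨C, hC0, hlarge⟩ := bl_large φ κ hφ F Φ hFc hF.hom hΦ hFΦ
  set s₁ : ℝ := max 2 (2 * C / c + 1) with hs₁
  have hs₁2 : 2 ≤ s₁ := le_max_left _ _
  have hs₁C : C / s₁ < c := by
    rw [div_lt_iff₀ (by linarith)]
    have h1 : 2 * C / c + 1 ≤ s₁ := le_max_right _ _
    have h2 : c * (2 * C / c + 1) ≤ c * s₁ := mul_le_mul_of_nonneg_left h1 hc0.le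
    have h3 : c * (2 * C / c + 1) = 2 * C + c := by field_simp
    linarith
  have hs₁0 : 0 < s₁ := by linarith
  have hg1 : ContDiff ℝ ∞ fun x : EuclideanSpace ℝ (Fin (n + 1)) => s₁⁻¹ • blH φ F (s₁ • x) :=
    ContDiff.const_smul _ (hH.comp (contDiff_id.const_smul s₁))
  have hA : CarriesMap (sphere (0 : EuclideanSpace ℝ (Fin (n + 1))) 1)
      (fun x => s₁⁻¹ • blH φ F (s₁ • x)) Φ := by
    refine bl_straight _ Φ hg1 hΦ c (C / s₁) hc0 hs₁C ?_ (fun x hx y hy => hlarge s₁ hs₁2 x hx y hy)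
    intro x hx y hy
    rw [mem_sphere_zero_iff_norm] at hx hy
    have h1 := hmain (s₁ • x) (s₁ • y) (by rw [norm_smul, norm_smul, hx, hy])
    rw [← smul_sub, norm_smul, Real.norm_eq_abs, abs_of_pos hs₁0] at h1
    show c * ‖x - y‖ ≤ ‖s₁⁻¹ • blH φ F (s₁ • x) - s₁⁻¹ • blH φ F (s₁ • y)‖
    rw [← smul_sub, norm_smul, norm_inv, Real.norm_eq_abs, abs_of_pos hs₁0,
      le_inv_mul_iff₀ hs₁0]
    linarith
  have hB : CarriesMap (sphere (0 : EuclideanSpace ℝ (Fin (n + 1))) 1) F Φ := by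
    obtain ⟨a, b, h1, h2, h3, h4, ⟨R, hR⟩, h6⟩ := CarriesMap.refl (V := V)
      (sphere (0 : EuclideanSpace ℝ (Fin (n + 1))) 1) F
    refine ⟨a, b, h1, h2, h3, h4, ⟨R, hR⟩, ?_⟩
    intro x hx
    rw [h6 x hx]
    refine hFΦ x ?_
    rw [mem_sphere_zero_iff_norm] at hx
    rw [hx]
    norm_num
  obtain ⟨hinj, s₀, hs₀, hD⟩ := bl_small (blH φ F) hH c hc0 hmain
  obtain ⟨ι, hι⟩ := bl_linear (fderiv ℝ (blH φ F) 0) hinj
  have hS := bl_scale (blH φ F) hH c hc0 hmain s₀ s₁ hs₀ hs₁0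
  exact ⟨ι, hB.trans (hA.symm.trans (hS.symm.trans (hD.trans hι)))⟩

end Pool.Schoen
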