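import Pool.Agent.H.MP_6c077c_gt.BLDefs

/-! The moments of the difference of two translated kernels. -/

set_option autoImplicit false

namespace Pool.Schoen

open scoped ContDiff RealInnerProductSpace
open Metric Set MeasureTheory

variable {E : Type*} [NormedAddCommGroup E] [InnerProductSpace ℝ E] [FiniteDimensional ℝ E]
  [MeasurableSpace E] [BorelSpace E]

/-- The difference of the kernels translated to `u + h • e` and to `u - h • e`. -/
noncomputable def blD (φ : E → ℝ) (e u : E) (h : ℝ) (z : E) : ℝ :=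
  φ (z - (u + h • e)) - φ (z - (u - h • e))

theorem blmom_inner_self (e : E) (he : ‖e‖ = 1) : ⟪e, e⟫ = (1 : ℝ) := by
  rw [real_inner_self_eq_norm_sq, he]; norm_num

theorem blmom_add_sq (e : E) (he : ‖e‖ = 1) (y : E) (h : ℝ) :
    ‖y + h • e‖ ^ 2 = ‖y‖ ^ 2 + 2 * h * ⟪e, y⟫ + h ^ 2 := by
  rw [norm_add_sq_real, norm_smul, he, inner_smul_right, real_inner_comm, mul_one, Real.norm_eq_abs,
    sq_abs]
  ring

theorem blmom_sub_sq (e : E) (he : ‖e‖ = 1) (y : E) (h : ℝ) :
    ‖y - h • e‖ ^ 2 = ‖y‖ ^ 2 - 2 * h * ⟪e, y⟫ + h ^ 2 := by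
  rw [norm_sub_sq_real, norm_smul, he, inner_smul_right, real_inner_comm, mul_one, Real.norm_eq_abs,
    sq_abs]
  ring

private theorem blmom_norm_le {x y : E} (h : ‖x‖ ^ 2 ≤ ‖y‖ ^ 2) : ‖x‖ ≤ ‖y‖ :=
  le_of_sq_le_sq h (norm_nonneg y)

private theorem blmom_congr (φ : E → ℝ) (κ : ℝ) (hφ : Kernel φ κ) {x y : E}
    (h : ‖x‖ ^ 2 = ‖y‖ ^ 2) : φ x = φ y :=
  le_antisymm (hφ.anti _ _ (blmom_norm_le h.ge)) (hφ.anti _ _ (blmom_norm_le h.le))

theorem blD_nonneg (φ : E → ℝ) (κ : ℝ) (hφ : Kernel φ κ) (e : E) (he : ‖e‖ = 1) (u : E)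
    (hu : ⟪e, u⟫ = 0) (h : ℝ) (hh : 0 < h) (z : E) (hz : 0 ≤ ⟪e, z⟫) : 0 ≤ blD φ e u h z := by
  unfold blD
  rw [sub_nonneg]
  apply hφ.anti
  apply blmom_norm_le
  have h1 : z - (u + h • e) = (z - u) - h • e := by abel
  have h2 : z - (u - h • e) = (z - u) + h • e := by abel
  have h3 : ⟪e, z - u⟫ = ⟪e, z⟫ := by rw [inner_sub_right, hu, sub_zero]
  rw [h1, h2, blmom_sub_sq e he, blmom_add_sq e he, h3]
  nlinarith [mul_nonneg hh.le hz]

theorem blmom_inner_refl (e : E) (he : ‖e‖ = 1) (z : E) :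
    ⟪e, blRefl e z⟫ = -⟪e, z⟫ := by
  unfold blRefl
  rw [inner_sub_right, inner_smul_right, blmom_inner_self e he]
  ring

theorem blmom_refl_sub (e : E) (he : ‖e‖ = 1) (u : E) (hu : ⟪e, u⟫ = 0) (z : E) :
    ‖blRefl e z - u‖ ^ 2 = ‖z - u‖ ^ 2 := by
  have h1 : blRefl e z - u = (z - u) - (2 * ⟪e, z⟫) • e := by unfold blRefl; abel
  have h3 : ⟪e, z - u⟫ = ⟪e, z⟫ := by rw [inner_sub_right, hu, sub_zero]
  rw [h1, blmom_sub_sq e he, h3]
  ring

theorem blD_refl (φ : E → ℝ) (κ : ℝ) (hφ : Kernel φ κ) (e : E) (he : ‖e‖ = 1) (u : E)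
    (hu : ⟪e, u⟫ = 0) (h : ℝ) (z : E) : blD φ e u h (blRefl e z) = -blD φ e u h z := by
  unfold blD
  have h3 : ∀ x : E, ⟪e, x - u⟫ = ⟪e, x⟫ := fun x => by rw [inner_sub_right, hu, sub_zero]
  have e1 : φ (blRefl e z - (u + h • e)) = φ (z - (u - h • e)) := by
    apply blmom_congr φ κ hφ
    have h1 : blRefl e z - (u + h • e) = (blRefl e z - u) - h • e := by abel
    have h2 : z - (u - h • e) = (z - u) + h • e := by abel
    rw [h1, h2, blmom_sub_sq e he, blmom_add_sq e he, h3, h3, blmom_inner_refl e he,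
      blmom_refl_sub e he u hu]
    ring
  have e2 : φ (blRefl e z - (u - h • e)) = φ (z - (u + h • e)) := by
    apply blmom_congr φ κ hφ
    have h1 : blRefl e z - (u - h • e) = (blRefl e z - u) + h • e := by abel
    have h2 : z - (u + h • e) = (z - u) - h • e := by abel
    rw [h1, h2, blmom_sub_sq e he, blmom_add_sq e he, h3, h3, blmom_inner_refl e he,
      blmom_refl_sub e he u hu]
    ring
  rw [e1, e2]
  ring

/-- the sign with value one at zero -/
private noncomputable def blmom_s (t : ℝ) : ℝ := if 0 ≤ t then 1 else -1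

private theorem blmom_s_abs (t : ℝ) : blmom_s t * |t| = t := by
  unfold blmom_s
  split_ifs with h
  · rw [abs_of_nonneg h, one_mul]
  · rw [abs_of_neg (not_le.mp h)]; ring

private theorem blmom_s_meas : Measurable blmom_s :=
  Measurable.ite measurableSet_Ici measurable_const measurable_const

private theorem blmom_s_norm (t : ℝ) : ‖blmom_s t‖ ≤ 1 := by
  unfold blmom_s
  split_ifs <;> simp

private theorem blmom_integrable (φ : E → ℝ) (κ : ℝ) (hφ : Kernel φ κ) (g : E → ℝ)
    (hg : Continuous g) (e : E) (c : ℝ) :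
    Integrable (fun y => blmom_s (⟪e, y⟫ + c) * (φ y * g y)) := by
  have hcs : HasCompactSupport φ :=
    HasCompactSupport.intro (isCompact_closedBall (0 : E) 1) (fun x hx => by
      apply hφ.supp
      have : ¬ (‖x‖ ≤ 1) := by simpa using hx
      linarith [not_le.mp this])
  have h1 : Integrable (fun y => φ y * g y) :=
    (hφ.smooth.continuous.mul hg).integrable_of_hasCompactSupport hcs.mul_right
  refine h1.bdd_mul (c := 1) ?_ (Filter.Eventually.of_forall fun y => blmom_s_norm _)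
  have hm : Measurable (fun y : E => ⟪e, y⟫ + c) := by fun_prop
  exact (blmom_s_meas.comp hm).aestronglyMeasurable

private theorem blmom_gen (φ : E → ℝ) (κ : ℝ) (hφ : Kernel φ κ) (e : E) (he : ‖e‖ = 1) (u : E)
    (hu : ⟪e, u⟫ = 0) (h : ℝ) (hh : 0 < h) (g : E → ℝ) (hg : Continuous g) :
    Integrable (fun y => φ y * ((1 / 2) * (blmom_s (⟪e, y⟫ + h) * g (y + h • e) -
      blmom_s (⟪e, y⟫ - h) * g (y - h • e)))) ∧
    (1 / 2) * ∫ z, |blD φ e u h z| * g (z - u) =
      ∫ y, φ y * ((1 / 2) * (blmom_s (⟪e, y⟫ + h) * g (y + h • e) -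
      blmom_s (⟪e, y⟫ - h) * g (y - h • e))) := by
  have hP : Integrable (fun y => blmom_s (⟪e, y⟫ + h) * (φ y * g (y + h • e))) :=
    blmom_integrable φ κ hφ (fun y => g (y + h • e)) (by fun_prop) e h
  have hQ : Integrable (fun y => blmom_s (⟪e, y⟫ - h) * (φ y * g (y - h • e))) := by
    have := blmom_integrable φ κ hφ (fun y => g (y - h • e)) (by fun_prop) e (-h)
    simpa [sub_eq_add_neg] using this
  have hPQ : Integrable (fun y => φ y * ((1 / 2) * (blmom_s (⟪e, y⟫ + h) * g (y + h • e) -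
      blmom_s (⟪e, y⟫ - h) * g (y - h • e)))) := by
    have := (hP.sub hQ).const_mul (1 / 2)
    refine this.congr (Filter.Eventually.of_forall fun y => ?_)
    simp only [Pi.sub_apply]
    ring
  refine ⟨hPQ, ?_⟩
  have hee := blmom_inner_self e he
  have hpt : ∀ y : E, |blD φ e u h (u + y)| * g (u + y - u) =
      blmom_s (⟪e, y - h • e⟫ + h) * (φ (y - h • e) * g (y - h • e + h • e)) -
      blmom_s (⟪e, y + h • e⟫ - h) * (φ (y + h • e) * g (y + h • e - h • e)) := by
    intro y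
    have e1 : ⟪e, y - h • e⟫ + h = ⟪e, y⟫ := by
      rw [inner_sub_right, inner_smul_right, hee]; ring
    have e2 : ⟪e, y + h • e⟫ - h = ⟪e, y⟫ := by
      rw [inner_add_right, inner_smul_right, hee]; ring
    have e3 : y - h • e + h • e = y := by abel
    have e4 : y + h • e - h • e = y := by abel
    have e5 : u + y - u = y := by abel
    rw [e1, e2, e3, e4, e5]
    have e6 : blD φ e u h (u + y) = φ (y - h • e) - φ (y + h • e) := by
      unfold blD
      congr 2 <;> abel
    have hiu : ⟪e, u + y⟫ = ⟪e, y⟫ := by rw [inner_add_right, hu, zero_add]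
    unfold blmom_s
    split_ifs with hs
    · have := blD_nonneg φ κ hφ e he u hu h hh (u + y) (by rw [hiu]; exact hs)
      rw [abs_of_nonneg this, e6]
      ring
    · have h1 := blD_nonneg φ κ hφ e he u hu h hh (blRefl e (u + y))
        (by rw [blmom_inner_refl e he, hiu]; linarith [not_le.mp hs])
      rw [blD_refl φ κ hφ e he u hu] at h1
      have h2 : blD φ e u h (u + y) ≤ 0 := by linarith
      rw [abs_of_nonpos h2, e6]
      ring
  have h1 : ∫ z, |blD φ e u h z| * g (z - u) = ∫ y, |blD φ e u h (u + y)| * g (u + y - u) :=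
    (integral_add_left_eq_self (fun z => |blD φ e u h z| * g (z - u)) u).symm
  rw [h1]
  simp_rw [hpt]
  rw [integral_sub (hP.comp_sub_right (h • e)) (hQ.comp_add_right (h • e)),
    integral_sub_right_eq_self (fun y => blmom_s (⟪e, y⟫ + h) * (φ y * g (y + h • e))) (h • e),
    integral_add_right_eq_self (fun y => blmom_s (⟪e, y⟫ - h) * (φ y * g (y - h • e))) (h • e),
    ← integral_sub hP hQ, ← integral_const_mul]
  congr 1
  ext y
  ring

private theorem blmom_null (e : E) (he : ‖e‖ = 1) (h : ℝ) :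
    ∀ᵐ y : E, ⟪e, y⟫ ≠ -h := by
  rw [MeasureTheory.ae_iff]
  have hne : (LinearMap.ker (innerSL ℝ e : E →L[ℝ] ℝ).toLinearMap) ≠ ⊤ := by
    intro htop
    have : e ∈ (LinearMap.ker (innerSL ℝ e : E →L[ℝ] ℝ).toLinearMap) := by rw [htop]; trivial
    rw [LinearMap.mem_ker] at this
    have h2 : ⟪e, e⟫ = (0 : ℝ) := by simpa using this
    rw [blmom_inner_self e he] at h2
    norm_num at h2
  have h0 := Measure.addHaar_submodule (volume : Measure E) _ hne
  rw [← measure_preimage_add_right volume (h • e)] at h0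
  refine measure_mono_null ?_ h0
  intro y hy
  simp only [Set.mem_setOf_eq, not_not, ne_eq] at hy
  simp only [Set.mem_preimage, SetLike.mem_coe, LinearMap.mem_ker]
  have : ⟪e, y + h • e⟫ = (0 : ℝ) := by
    rw [inner_add_right, inner_smul_right, hy, blmom_inner_self e he]; ring
  simpa using this

private theorem blmom_slab (e : E) (h : ℝ) : MeasurableSet {y : E | |⟪e, y⟫| < h} := by
  have : Measurable (fun y : E => |⟪e, y⟫|) := by fun_prop
  exact measurableSet_lt this measurable_const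

theorem bl_mom0 (φ : E → ℝ) (κ : ℝ) (hφ : Kernel φ κ) (e : E) (he : ‖e‖ = 1) (u : E)
    (hu : ⟪e, u⟫ = 0) (h : ℝ) (hh : 0 < h) :
    (1 / 2) * ∫ z, |blD φ e u h z| = blW φ e h := by
  obtain ⟨-, h2⟩ := blmom_gen φ κ hφ e he u hu h hh (fun _ => 1) continuous_const
  simp only [mul_one] at h2
  rw [h2]
  unfold blW
  rw [← integral_indicator (blmom_slab e h)]
  apply integral_congr_ae
  filter_upwards [blmom_null e he h] with y hy
  rw [Set.indicator_apply]
  simp only [Set.mem_setOf_eq]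
  unfold blmom_s
  split_ifs with h1 h2 h3 h4 h5 h6 h7 h8
  all_goals first | ring | skip
  all_goals exfalso
  all_goals simp only [abs_lt, not_and_or, not_lt, not_le] at *
  all_goals grind

theorem bl_mom1 (φ : E → ℝ) (κ : ℝ) (hφ : Kernel φ κ) (e : E) (he : ‖e‖ = 1) (u : E)
    (hu : ⟪e, u⟫ = 0) (h : ℝ) (hh : 0 < h) :
    (1 / 2) * ∫ z, |blD φ e u h z| * |⟪e, z⟫| = h := by
  obtain ⟨-, h2⟩ := blmom_gen φ κ hφ e he u hu h hh (fun z => |⟪e, z⟫|) (by fun_prop)
  have e1 : ∀ z : E, |⟪e, z - u⟫| = |⟪e, z⟫| := fun z => by rw [inner_sub_right, hu, sub_zero]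
  simp only [e1] at h2
  rw [h2]
  have hee := blmom_inner_self e he
  have e2 : ∀ y : E, φ y * ((1 / 2) * (blmom_s (⟪e, y⟫ + h) * |⟪e, y + h • e⟫| -
      blmom_s (⟪e, y⟫ - h) * |⟪e, y - h • e⟫|)) = h * φ y := by
    intro y
    have a1 : ⟪e, y + h • e⟫ = ⟪e, y⟫ + h := by
      rw [inner_add_right, inner_smul_right, hee]; ring
    have a2 : ⟪e, y - h • e⟫ = ⟪e, y⟫ - h := by
      rw [inner_sub_right, inner_smul_right, hee]; ring
    rw [a1, a2, blmom_s_abs, blmom_s_abs]
    ring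
  simp_rw [e2]
  rw [integral_const_mul, hφ.int, mul_one]

theorem bl_mom2 (φ : E → ℝ) (κ : ℝ) (hφ : Kernel φ κ) (e : E) (he : ‖e‖ = 1) (u : E)
    (hu : ⟪e, u⟫ = 0) (h : ℝ) (hh : 0 < h) :
    (1 / 2) * ∫ z, |blD φ e u h z| * ‖z - u‖ ^ 2 = blS φ e h := by
  obtain ⟨h1, h2⟩ := blmom_gen φ κ hφ e he u hu h hh (fun z => ‖z‖ ^ 2) (by fun_prop)
  rw [h2]
  unfold blS
  rw [← integral_add_compl (blmom_slab e h) h1]
  congr 1
  · apply integral_congr_ae
    filter_upwards [ae_restrict_mem (blmom_slab e h)] with y hy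
    simp only [abs_lt] at hy
    rw [blmom_add_sq e he, blmom_sub_sq e he]
    unfold blmom_s
    rw [if_pos (by linarith [hy.1]), if_neg (by linarith [hy.2])]
    ring
  · have hset : ({y : E | |⟪e, y⟫| < h})ᶜ = {y : E | h ≤ |⟪e, y⟫|} := by
      ext y; simp
    rw [hset]
    have hms : MeasurableSet {y : E | h ≤ |⟪e, y⟫|} := by
      rw [← hset]; exact (blmom_slab e h).compl
    apply integral_congr_ae
    filter_upwards [ae_restrict_mem hms, ae_restrict_of_ae (blmom_null e he h)] with y hy hy2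
    change h ≤ |⟪e, y⟫| at hy
    rw [blmom_add_sq e he, blmom_sub_sq e he]
    unfold blmom_s
    rcases le_abs.mp hy with h3 | h3
    · rw [if_pos (by linarith), if_pos (by linarith), abs_of_nonneg (by linarith)]
      ring
    · have h4 : ⟪e, y⟫ < -h := lt_of_le_of_ne (by linarith) hy2
      rw [if_neg (by linarith), if_neg (by linarith), abs_of_nonpos (by linarith)]
      ring

end Pool.Schoen
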