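import Pool.Agent.H.MP_6c077c_gt.BLPoint
import Pool.Agent.H.MP_6c077c_gt.BLMom

/-! The lower bound for the mollified map tested against a chord. -/

set_option autoImplicit false

namespace Pool.Schoen

open scoped ContDiff RealInnerProductSpace
open Metric Set MeasureTheory

variable {E V : Type*} [NormedAddCommGroup E] [InnerProductSpace ℝ E] [FiniteDimensional ℝ E]
  [MeasurableSpace E] [BorelSpace E]
  [NormedAddCommGroup V] [InnerProductSpace ℝ V] [FiniteDimensional ℝ V]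

private theorem blhalf_refl_eq (e : E) (he : ‖e‖ = 1) (z : E) :
    blRefl e z = (Submodule.span ℝ {e})ᗮ.reflection z := by
  rw [Submodule.reflection_orthogonal_apply, Submodule.reflection_singleton_apply, he]
  unfold blRefl
  simp only [RCLike.ofReal_real_eq_id, id_eq, one_pow, div_one, neg_sub]
  rw [two_mul, add_smul, two_smul]

private theorem blhalf_integral_refl (e : E) (he : ‖e‖ = 1) (f : E → V) :
    ∫ z, f (blRefl e z) = ∫ z, f z := by
  have h1 : blRefl e = ⇑((Submodule.span ℝ {e})ᗮ.reflection) := by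
    ext z
    exact blhalf_refl_eq e he z
  rw [h1]
  exact ((Submodule.span ℝ {e})ᗮ.reflection.measurePreserving).integral_comp
    ((Submodule.span ℝ {e})ᗮ.reflection.toHomeomorph.measurableEmbedding) f

private theorem blhalf_refl_cont (e : E) : Continuous (blRefl e) := by
  unfold blRefl
  fun_prop

private theorem blhalf_shift_cs (φ : E → ℝ) (κ : ℝ) (hφ : Kernel φ κ) (X : E) :
    HasCompactSupport (fun z => φ (z - X)) :=
  HasCompactSupport.intro (isCompact_closedBall X 1) (fun x hx => by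
    apply hφ.supp
    have h1 : ¬ (dist x X ≤ 1) := by simpa using hx
    rw [dist_eq_norm] at h1
    linarith [not_le.mp h1])

private theorem blhalf_D_cont (φ : E → ℝ) (κ : ℝ) (hφ : Kernel φ κ) (e u : E) (h : ℝ) :
    Continuous (blD φ e u h) := by
  have := hφ.smooth.continuous
  unfold blD
  fun_prop

private theorem blhalf_D_cs (φ : E → ℝ) (κ : ℝ) (hφ : Kernel φ κ) (e u : E) (h : ℝ) :
    HasCompactSupport (blD φ e u h) :=
  (blhalf_shift_cs φ κ hφ (u + h • e)).sub (blhalf_shift_cs φ κ hφ (u - h • e))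

private theorem blhalf_int_smul (φ : E → ℝ) (κ : ℝ) (hφ : Kernel φ κ) (e u : E) (h : ℝ)
    (G : E → V) (hG : Continuous G) : Integrable (fun z => blD φ e u h z • G z) :=
  ((blhalf_D_cont φ κ hφ e u h).smul hG).integrable_of_hasCompactSupport
    (blhalf_D_cs φ κ hφ e u h).smul_right

private theorem blhalf_int_abs (φ : E → ℝ) (κ : ℝ) (hφ : Kernel φ κ) (e u : E) (h : ℝ)
    (g : E → ℝ) (hg : Continuous g) : Integrable (fun z => |blD φ e u h z| * g z) := by
  have h1 : HasCompactSupport (fun z => |blD φ e u h z|) :=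
    (blhalf_D_cs φ κ hφ e u h).comp_left (g := fun t => |t|) abs_zero
  exact ((blhalf_D_cont φ κ hφ e u h).abs.mul hg).integrable_of_hasCompactSupport h1.mul_right

private theorem blhalf_int_shift (φ : E → ℝ) (κ : ℝ) (hφ : Kernel φ κ) (X : E)
    (G : E → V) (hG : Continuous G) : Integrable (fun z => φ (z - X) • G z) := by
  have hc : Continuous (fun z => φ (z - X)) := by
    have := hφ.smooth.continuous
    fun_prop
  exact (hc.smul hG).integrable_of_hasCompactSupport (blhalf_shift_cs φ κ hφ X).smul_right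

theorem bl_half (φ : E → ℝ) (κ : ℝ) (hφ : Kernel φ κ) (F : E → V) (hF : Continuous F) (e : E)
    (he : ‖e‖ = 1) (u : E) (hu : ⟪e, u⟫ = 0) (h : ℝ) (hh : 0 < h) :
    blH φ F (u + h • e) - blH φ F (u - h • e) =
      (1 / 2 : ℝ) • ∫ z, blD φ e u h z • (F z - F (blRefl e z)) := by
  have h1 : blH φ F (u + h • e) - blH φ F (u - h • e) = ∫ z, blD φ e u h z • F z := by
    unfold blH blD
    rw [← integral_sub (blhalf_int_shift φ κ hφ _ F hF) (blhalf_int_shift φ κ hφ _ F hF)]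
    congr 1
    ext z
    rw [sub_smul]
  have hcr : Continuous (fun z => F (blRefl e z)) := hF.comp (blhalf_refl_cont e)
  have h2 : ∫ z, blD φ e u h z • F (blRefl e z) = - ∫ z, blD φ e u h z • F z := by
    rw [← blhalf_integral_refl e he (fun z => blD φ e u h z • F z), ← integral_neg]
    congr 1
    ext z
    rw [blD_refl φ κ hφ e he u hu, neg_smul, neg_neg]
  have h3 : ∫ z, blD φ e u h z • (F z - F (blRefl e z)) =
      (∫ z, blD φ e u h z • F z) - ∫ z, blD φ e u h z • F (blRefl e z) := by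
    rw [← integral_sub (blhalf_int_smul φ κ hφ e u h F hF) (blhalf_int_smul φ κ hφ e u h _ hcr)]
    congr 1
    ext z
    rw [smul_sub]
  rw [h1, h3, h2, sub_neg_eq_add, ← two_smul ℝ, smul_smul]
  norm_num

private theorem blhalf_refl_refl (e : E) (he : ‖e‖ = 1) (z : E) :
    blRefl e (blRefl e z) = z := by
  rw [blhalf_refl_eq e he, blhalf_refl_eq e he, Submodule.reflection_reflection]

private theorem blhalf_pt (φ : E → ℝ) (κ : ℝ) (hφ : Kernel φ κ) (F : E → V)
    (l L : ℝ) (hF : BiLip F l L) (e : E) (he : ‖e‖ = 1) (u : E) (hu : ⟪e, u⟫ = 0) (h : ℝ)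
    (hh : 0 < h) (τ : ℝ) (hτ : 0 ≤ τ) (z : E) :
    |blD φ e u h z| * (2 * (L ^ 2 + l ^ 2) * (|⟪e, z⟫| * τ) -
      (L ^ 2 - l ^ 2) * (‖z - u‖ ^ 2 + τ ^ 2)) ≤
      ⟪F (u + τ • e) - F (u - τ • e), blD φ e u h z • (F z - F (blRefl e z))⟫ := by
  rw [inner_smul_right,
    real_inner_comm (F z - F (blRefl e z)) (F (u + τ • e) - F (u - τ • e))]
  rcases le_or_gt 0 (⟪e, z⟫ : ℝ) with hz | hz
  · have h1 := blD_nonneg φ κ hφ e he u hu h hh z hz
    rw [abs_of_nonneg h1, abs_of_nonneg hz]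
    exact mul_le_mul_of_nonneg_left (bl_pointwise F l L hF e he u hu τ hτ z) h1
  · have hz' : 0 ≤ (⟪e, blRefl e z⟫ : ℝ) := by rw [blmom_inner_refl e he]; linarith
    have h1 := blD_nonneg φ κ hφ e he u hu h hh (blRefl e z) hz'
    have h2 := mul_le_mul_of_nonneg_left
      (bl_pointwise F l L hF e he u hu τ hτ (blRefl e z)) h1
    rw [blmom_refl_sub e he u hu, blhalf_refl_refl e he, blmom_inner_refl e he] at h2
    rw [blD_refl φ κ hφ e he u hu] at h1 h2
    have h3 : blD φ e u h z ≤ 0 := by linarith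
    rw [abs_of_nonpos h3, abs_of_neg hz]
    refine h2.trans (le_of_eq ?_)
    rw [← neg_sub (F z) (F (blRefl e z)), inner_neg_left]
    ring

theorem bl_lower (φ : E → ℝ) (κ : ℝ) (hφ : Kernel φ κ) (F : E → V) (hFc : Continuous F)
    (l L : ℝ) (hF : BiLip F l L) (e : E) (he : ‖e‖ = 1) (u : E) (hu : ⟪e, u⟫ = 0) (h : ℝ)
    (hh : 0 < h) (τ : ℝ) (hτ : 0 ≤ τ) :
    2 * (L ^ 2 + l ^ 2) * (τ * h) - (L ^ 2 - l ^ 2) * (blS φ e h + τ ^ 2 * blW φ e h) ≤
      ⟪blH φ F (u + h • e) - blH φ F (u - h • e), F (u + τ • e) - F (u - τ • e)⟫ := by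
  have hcr : Continuous (fun z => F (blRefl e z)) := hFc.comp (blhalf_refl_cont e)
  have hI : Integrable (fun z => blD φ e u h z • (F z - F (blRefl e z))) :=
    blhalf_int_smul φ κ hφ e u h _ (hFc.sub hcr)
  have i0 : Integrable (fun z => |blD φ e u h z|) := by
    simpa using blhalf_int_abs φ κ hφ e u h (fun _ => 1) continuous_const
  have i1 : Integrable (fun z => |blD φ e u h z| * |⟪e, z⟫|) :=
    blhalf_int_abs φ κ hφ e u h (fun z => |⟪e, z⟫|) (by fun_prop)
  have i2 : Integrable (fun z => |blD φ e u h z| * ‖z - u‖ ^ 2) :=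
    blhalf_int_abs φ κ hφ e u h (fun z => ‖z - u‖ ^ 2) (by fun_prop)
  have hlow : Integrable (fun z => |blD φ e u h z| * (2 * (L ^ 2 + l ^ 2) * (|⟪e, z⟫| * τ) -
      (L ^ 2 - l ^ 2) * (‖z - u‖ ^ 2 + τ ^ 2))) :=
    blhalf_int_abs φ κ hφ e u h _ (by fun_prop)
  have hmono := integral_mono hlow (hI.const_inner (F (u + τ • e) - F (u - τ • e)))
    (fun z => blhalf_pt φ κ hφ F l L hF e he u hu h hh τ hτ z)
  rw [integral_inner hI] at hmono
  have hlhs : ∫ z, |blD φ e u h z| * (2 * (L ^ 2 + l ^ 2) * (|⟪e, z⟫| * τ) -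
      (L ^ 2 - l ^ 2) * (‖z - u‖ ^ 2 + τ ^ 2)) =
      2 * (2 * (L ^ 2 + l ^ 2) * (τ * h) -
        (L ^ 2 - l ^ 2) * (blS φ e h + τ ^ 2 * blW φ e h)) := by
    have m0 := bl_mom0 φ κ hφ e he u hu h hh
    have m1 := bl_mom1 φ κ hφ e he u hu h hh
    have m2 := bl_mom2 φ κ hφ e he u hu h hh
    have e0 : ∀ z, |blD φ e u h z| * (2 * (L ^ 2 + l ^ 2) * (|⟪e, z⟫| * τ) -
        (L ^ 2 - l ^ 2) * (‖z - u‖ ^ 2 + τ ^ 2)) =
        (2 * (L ^ 2 + l ^ 2) * τ) * (|blD φ e u h z| * |⟪e, z⟫|) -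
        ((L ^ 2 - l ^ 2) * (|blD φ e u h z| * ‖z - u‖ ^ 2) +
          ((L ^ 2 - l ^ 2) * τ ^ 2) * |blD φ e u h z|) := by
      intro z
      ring
    simp_rw [e0]
    have j1 : Integrable (fun z => (2 * (L ^ 2 + l ^ 2) * τ) * (|blD φ e u h z| * |⟪e, z⟫|)) :=
      i1.const_mul _
    have j2 : Integrable (fun z => (L ^ 2 - l ^ 2) * (|blD φ e u h z| * ‖z - u‖ ^ 2)) :=
      i2.const_mul _
    have j0 : Integrable (fun z => ((L ^ 2 - l ^ 2) * τ ^ 2) * |blD φ e u h z|) :=
      i0.const_mul _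
    have j20 : Integrable (fun z => (L ^ 2 - l ^ 2) * (|blD φ e u h z| * ‖z - u‖ ^ 2) +
        ((L ^ 2 - l ^ 2) * τ ^ 2) * |blD φ e u h z|) := j2.add j0
    rw [integral_sub j1 j20, integral_add j2 j0, integral_const_mul, integral_const_mul,
      integral_const_mul, ← m0, ← m2]
    linear_combination (2 * (2 * (L ^ 2 + l ^ 2) * τ)) * m1
  rw [hlhs] at hmono
  rw [bl_half φ κ hφ F hFc e he u hu h hh, inner_smul_left,
    real_inner_comm (F (u + τ • e) - F (u - τ • e))]
  simp only [RCLike.conj_to_real]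
  linarith

end Pool.Schoen
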