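import Pool.Agent.H.MP_6c077c_gt.BLHalf
import Pool.Agent.H.MP_6c077c_gt.BLBall

/-! The mollified map is uniformly expanding on all spheres about the origin. -/

set_option autoImplicit false

namespace Pool.Schoen

open scoped ContDiff RealInnerProductSpace
open Metric Set MeasureTheory

variable {V : Type*} [NormedAddCommGroup V] [InnerProductSpace ℝ V] [FiniteDimensional ℝ V]

private theorem blmain_bvol_pos (n : ℕ) : 0 < bvol n := by
  unfold bvol
  exact ENNReal.toReal_pos (measure_ball_pos volume _ one_pos).ne' measure_ball_lt_top.ne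

private theorem blmain_choose {W S M : ℝ} (hW : 0 ≤ W) (hS : 0 ≤ S) (hM : 0 < M)
    (h : W * S ≤ M ^ 2) : ∃ T : ℝ, 0 < T ∧ S + T ^ 2 * W ≤ 2 * T * M := by
  rcases hW.eq_or_lt with h0 | h0
  · refine ⟨S / (2 * M) + 1, by positivity, ?_⟩
    rw [← h0, mul_zero, add_zero]
    have h1 : 2 * (S / (2 * M) + 1) * M = S + 2 * M := by
      field_simp
    rw [h1]
    linarith
  · refine ⟨M / W, by positivity, ?_⟩
    have h1 : (M / W) ^ 2 * W = M ^ 2 / W := by
      field_simp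
    have h2 : 2 * (M / W) * M = M ^ 2 / W + M ^ 2 / W := by
      field_simp
      ring
    have h3 : S ≤ M ^ 2 / W := by
      rw [le_div_iff₀ h0]
      linarith
    rw [h1, h2]
    linarith

theorem bl_main (n : ℕ) (hn : 1 ≤ n) (φ : EuclideanSpace ℝ (Fin (n + 1)) → ℝ) (κ : ℝ)
    (hφ : Kernel φ κ) (hκ : 0 < κ) (F : EuclideanSpace ℝ (Fin (n + 1)) → V) (hFc : Continuous F)
    (l L : ℝ) (hF : BiLip F l L)
    (hc : (L ^ 2 - l ^ 2) * (2 * κ * bvol n) < L ^ 2 + l ^ 2) :
    ∃ c : ℝ, 0 < c ∧ ∀ X Y : EuclideanSpace ℝ (Fin (n + 1)), ‖X‖ = ‖Y‖ →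
      c * ‖X - Y‖ ≤ ‖blH φ F X - blH φ F Y‖ := by
  have hl : 0 < l := hF.pos
  have hL : 0 < L := lt_of_lt_of_le hl hF.le
  have hv := blmain_bvol_pos n
  set K : ℝ := 2 * κ * bvol n with hK
  have hK0 : 0 < K := by rw [hK]; positivity
  set G : ℝ := (L ^ 2 + l ^ 2) - (L ^ 2 - l ^ 2) * K with hG
  have hG0 : 0 < G := by rw [hG]; linarith
  have hLl : 0 ≤ L ^ 2 - l ^ 2 := by
    have := hF.le
    nlinarith
  refine ⟨G / (2 * L), by positivity, fun X Y hXY => ?_⟩
  by_cases hne : X = Y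
  · rw [hne, sub_self, norm_zero, mul_zero]
    exact norm_nonneg _
  have hd : 0 < ‖X - Y‖ := norm_pos_iff.2 (sub_ne_zero.2 hne)
  set h : ℝ := ‖X - Y‖ / 2 with hh
  have hh0 : 0 < h := by rw [hh]; positivity
  set e : EuclideanSpace ℝ (Fin (n + 1)) := (‖X - Y‖)⁻¹ • (X - Y) with he
  set u : EuclideanSpace ℝ (Fin (n + 1)) := (1 / 2 : ℝ) • (X + Y) with hu
  have he1 : ‖e‖ = 1 := by
    rw [he, norm_smul, norm_inv, norm_norm, inv_mul_cancel₀ hd.ne']
  have heh : h • e = (1 / 2 : ℝ) • (X - Y) := by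
    rw [he, smul_smul, hh]
    congr 1
    field_simp
  have hX : u + h • e = X := by
    rw [heh, hu, ← smul_add]
    have h1 : X + Y + (X - Y) = (2 : ℝ) • X := by
      rw [two_smul]
      abel
    rw [h1, smul_smul]
    norm_num
  have hY : u - h • e = Y := by
    rw [heh, hu, ← smul_sub]
    have h1 : X + Y - (X - Y) = (2 : ℝ) • Y := by
      rw [two_smul]
      abel
    rw [h1, smul_smul]
    norm_num
  have heu : ⟪e, u⟫ = 0 := by
    rw [he, hu, real_inner_smul_left, real_inner_smul_right, inner_sub_left, inner_add_right,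
      inner_add_right, real_inner_self_eq_norm_sq, real_inner_self_eq_norm_sq, hXY,
      real_inner_comm Y X]
    ring
  obtain ⟨hW, hS, hWS⟩ := bl_kernel n hn φ κ hφ e he1 h hh0
  have hM : 0 < K * h := by positivity
  obtain ⟨T, hT, hTM⟩ := blmain_choose hW hS hM (by
    refine hWS.trans (le_of_eq ?_)
    rw [hK])
  have h1 := bl_lower φ κ hφ F hFc l L hF e he1 u heu h hh0 T hT.le
  have h2 := bl_norm_test F l L hF e he1 u heu T hT.le
  have h3 := real_inner_le_norm (blH φ F (u + h • e) - blH φ F (u - h • e))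
    (F (u + T • e) - F (u - T • e))
  rw [hX, hY] at h1 h3
  have h4 : ‖blH φ F X - blH φ F Y‖ * ‖F (u + T • e) - F (u - T • e)‖ ≤
      ‖blH φ F X - blH φ F Y‖ * (2 * L * T) :=
    mul_le_mul_of_nonneg_left h2 (norm_nonneg _)
  have h5 : (L ^ 2 - l ^ 2) * (blS φ e h + T ^ 2 * blW φ e h) ≤
      (L ^ 2 - l ^ 2) * (2 * T * (K * h)) := mul_le_mul_of_nonneg_left hTM hLl
  have h6 : (2 * T) * (h * G) ≤ (2 * T) * (‖blH φ F X - blH φ F Y‖ * L) := by
    have h7 : (2 * T) * (h * G) = 2 * (L ^ 2 + l ^ 2) * (T * h) -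
        (L ^ 2 - l ^ 2) * (2 * T * (K * h)) := by
      rw [hG]
      ring
    rw [h7]
    have h8 : (2 * T) * (‖blH φ F X - blH φ F Y‖ * L) =
        ‖blH φ F X - blH φ F Y‖ * (2 * L * T) := by ring
    rw [h8]
    linarith
  have h9 : h * G ≤ ‖blH φ F X - blH φ F Y‖ * L := le_of_mul_le_mul_left h6 (by positivity)
  have h10 : G / (2 * L) * ‖X - Y‖ = h * G / L := by
    rw [hh]
    field_simp
  rw [h10, div_le_iff₀ hL]
  exact h9

end Pool.Schoen
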