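import Pool.Agent.H.MP_6c077c_gt.Isotopy

/-! Isotopies through maps which expand the unit sphere. -/

set_option autoImplicit false

namespace Pool.Schoen

open scoped ContDiff RealInnerProductSpace
open Metric Set

variable {E V : Type*} [NormedAddCommGroup E] [InnerProductSpace ℝ E] [FiniteDimensional ℝ E]
  [NormedAddCommGroup V] [InnerProductSpace ℝ V] [FiniteDimensional ℝ V]

omit [FiniteDimensional ℝ E] in
theorem blpath_curve_norm (x u : E) (hx : ‖x‖ = 1) (hu : ‖u‖ = 1) (hux : ⟪u, x⟫ = 0) (t : ℝ) :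
    ‖Real.cos t • x + Real.sin t • u‖ = 1 := by
  have h1 : ‖Real.cos t • x + Real.sin t • u‖ ^ 2 = 1 := by
    rw [norm_add_sq_real, inner_smul_left, inner_smul_right, norm_smul, norm_smul, hx, hu,
      real_inner_comm, hux]
    simp only [Real.norm_eq_abs, mul_one, mul_zero, add_zero, sq_abs]
    exact Real.cos_sq_add_sin_sq t
  have h2 := norm_nonneg (Real.cos t • x + Real.sin t • u)
  nlinarith [h1, h2]

omit [FiniteDimensional ℝ E] [FiniteDimensional ℝ V] in
theorem blpath_imm (g : E → V) (hg : ContDiff ℝ ∞ g) (c : ℝ) (hc : 0 < c)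
    (h : ∀ x ∈ sphere (0 : E) 1, ∀ y ∈ sphere (0 : E) 1, c * ‖x - y‖ ≤ ‖g x - g y‖)
    (x : E) (hx : x ∈ sphere (0 : E) 1) (v : E) (hvx : ⟪v, x⟫ = 0)
    (hD : fderiv ℝ g x v = 0) : v = 0 := by
  by_contra hv
  have hvn : 0 < ‖v‖ := norm_pos_iff.2 hv
  have hx1 : ‖x‖ = 1 := by simpa using hx
  set u : E := ‖v‖⁻¹ • v with hu
  have hu1 : ‖u‖ = 1 := by
    rw [hu, norm_smul, norm_inv, norm_norm, inv_mul_cancel₀ hvn.ne']
  have hux : ⟪u, x⟫ = 0 := by
    rw [hu, inner_smul_left, hvx, mul_zero]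
  have hDu : fderiv ℝ g x u = 0 := by
    rw [hu, map_smul, hD, smul_zero]
  have hy : HasDerivAt (fun t : ℝ => Real.cos t • x + Real.sin t • u) u 0 := by
    have h1 := ((Real.hasDerivAt_cos 0).smul_const x).add ((Real.hasDerivAt_sin 0).smul_const u)
    have h2 : -Real.sin 0 • x + Real.cos 0 • u = u := by simp
    rw [h2] at h1
    exact h1
  have hy0 : (fun t : ℝ => Real.cos t • x + Real.sin t • u) 0 = x := by simp
  have hgd : HasFDerivAt g (fderiv ℝ g x) ((fun t : ℝ => Real.cos t • x + Real.sin t • u) 0) := by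
    rw [hy0]
    exact (hg.differentiable (by simp) x).hasFDerivAt
  have hcomp := hgd.comp_hasDerivAt (0 : ℝ) hy
  rw [hDu] at hcomp
  have hs1 := (hasDerivAt_iff_tendsto_slope.1 hcomp).norm
  have hs2 := ((hasDerivAt_iff_tendsto_slope.1 hy).norm).const_mul c
  have hle := le_of_tendsto_of_tendsto' hs2 hs1 (fun t => ?_)
  · rw [hu1, norm_zero, mul_one] at hle
    exact absurd hle (not_le.2 hc)
  · rw [slope_def_module, slope_def_module, norm_smul, norm_smul, Function.comp_apply,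
      Function.comp_apply]
    have hy0' : Real.cos 0 • x + Real.sin 0 • u = x := hy0
    rw [hy0']
    have h3 := h (Real.cos t • x + Real.sin t • u)
      (by rw [mem_sphere_zero_iff_norm]; exact blpath_curve_norm x u hx1 hu1 hux t) x hx
    calc c * (‖(t - 0)⁻¹‖ * ‖Real.cos t • x + Real.sin t • u - x‖)
        = ‖(t - 0)⁻¹‖ * (c * ‖Real.cos t • x + Real.sin t • u - x‖) := by ring
      _ ≤ ‖(t - 0)⁻¹‖ * ‖g (Real.cos t • x + Real.sin t • u) - g x‖ :=
          mul_le_mul_of_nonneg_left h3 (norm_nonneg _)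

theorem bl_path (f : ℝ × E → V) (hf : ContDiff ℝ ∞ f) (c : ℝ) (hc : 0 < c)
    (h : ∀ s ∈ Icc (0 : ℝ) 1, ∀ x ∈ sphere (0 : E) 1, ∀ y ∈ sphere (0 : E) 1,
      c * ‖x - y‖ ≤ ‖f (s, x) - f (s, y)‖) :
    CarriesMap (sphere (0 : E) 1) (fun x => f (0, x)) (fun x => f (1, x)) := by
  refine isotopy_extension f hf ?_ ?_
  · intro s hs x hx y hy hxy
    have h1 := h s hs x hx y hy
    have h2 : f (s, x) = f (s, y) := hxy
    rw [h2, sub_self, norm_zero] at h1
    have h3 : ‖x - y‖ ≤ 0 := by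
      by_contra h4
      push Not at h4
      exact absurd h1 (not_le.2 (mul_pos hc h4))
    exact sub_eq_zero.1 (norm_le_zero_iff.1 h3)
  · intro s hs x hx v hvx hD
    exact blpath_imm (fun y => f (s, y)) (hf.comp (contDiff_const.prodMk contDiff_id)) c hc
      (h s hs) x hx v hvx hD

theorem bl_straight (g₁ g₂ : E → V) (h₁ : ContDiff ℝ ∞ g₁) (h₂ : ContDiff ℝ ∞ g₂) (c ε : ℝ)
    (hc : 0 < c) (hε : ε < c)
    (hlow : ∀ x ∈ sphere (0 : E) 1, ∀ y ∈ sphere (0 : E) 1, c * ‖x - y‖ ≤ ‖g₁ x - g₁ y‖)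
    (hclose : ∀ x ∈ sphere (0 : E) 1, ∀ y ∈ sphere (0 : E) 1,
      ‖(g₁ x - g₁ y) - (g₂ x - g₂ y)‖ ≤ ε * ‖x - y‖) :
    CarriesMap (sphere (0 : E) 1) g₁ g₂ := by
  have hf : ContDiff ℝ ∞ (fun p : ℝ × E => (1 - p.1) • g₁ p.2 + p.1 • g₂ p.2) :=
    ((contDiff_const.sub contDiff_fst).smul (h₁.comp contDiff_snd)).add
      (contDiff_fst.smul (h₂.comp contDiff_snd))
  have hpos : 0 < c - max ε 0 := sub_pos.2 (max_lt hε hc)
  have hmain := bl_path (fun p : ℝ × E => (1 - p.1) • g₁ p.2 + p.1 • g₂ p.2) hf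
    (c - max ε 0) hpos ?_
  · simpa using hmain
  · intro s hs x hx y hy
    have e : ((1 - s) • g₁ x + s • g₂ x) - ((1 - s) • g₁ y + s • g₂ y) =
        (g₁ x - g₁ y) - s • ((g₁ x - g₁ y) - (g₂ x - g₂ y)) := by
      module
    change (c - max ε 0) * ‖x - y‖ ≤
      ‖((1 - s) • g₁ x + s • g₂ x) - ((1 - s) • g₁ y + s • g₂ y)‖
    rw [e]
    have h3 := norm_sub_norm_le (g₁ x - g₁ y) (s • ((g₁ x - g₁ y) - (g₂ x - g₂ y)))
    have h4 : ‖s • ((g₁ x - g₁ y) - (g₂ x - g₂ y))‖ ≤ max ε 0 * ‖x - y‖ := by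
      rw [norm_smul, Real.norm_eq_abs, abs_of_nonneg hs.1]
      calc s * ‖(g₁ x - g₁ y) - (g₂ x - g₂ y)‖
          ≤ 1 * ‖(g₁ x - g₁ y) - (g₂ x - g₂ y)‖ :=
            mul_le_mul_of_nonneg_right hs.2 (norm_nonneg _)
        _ ≤ ε * ‖x - y‖ := by rw [one_mul]; exact hclose x hx y hy
        _ ≤ max ε 0 * ‖x - y‖ :=
            mul_le_mul_of_nonneg_right (le_max_left _ _) (norm_nonneg _)
    have h5 := hlow x hx y hy
    nlinarith [h3, h4, h5]

omit [FiniteDimensional ℝ E] [FiniteDimensional ℝ V] in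
theorem blpath_diag {n : ℕ} (b : OrthonormalBasis (Fin n) ℝ E) (ι : E →ₗᵢ[ℝ] V)
    (a : Fin n → ℝ) (c : ℝ) (hc : 0 < c) (ha : ∀ i, c ≤ a i) (z : E) :
    c * ‖z‖ ≤ ‖ι (∑ i, (a i * ⟪b i, z⟫) • b i)‖ := by
  rw [ι.norm_map]
  have h1 : ‖∑ i, (a i * ⟪b i, z⟫) • b i‖ ^ 2 = ∑ i, (a i * ⟪b i, z⟫) ^ 2 := by
    rw [← b.sum_sq_norm_inner_right]
    apply Finset.sum_congr rfl
    intro j _
    rw [b.orthonormal.inner_right_fintype, Real.norm_eq_abs, sq_abs]
  have h2 : ‖z‖ ^ 2 = ∑ i, ⟪b i, z⟫ ^ 2 := by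
    rw [← b.sum_sq_norm_inner_right]
    apply Finset.sum_congr rfl
    intro j _
    rw [Real.norm_eq_abs, sq_abs]
  have h3 : (c * ‖z‖) ^ 2 ≤ ‖∑ i, (a i * ⟪b i, z⟫) • b i‖ ^ 2 := by
    rw [mul_pow, h1, h2, Finset.mul_sum]
    apply Finset.sum_le_sum
    intro i _
    rw [mul_pow]
    exact mul_le_mul_of_nonneg_right (pow_le_pow_left₀ hc.le (ha i) 2) (sq_nonneg _)
  exact le_of_sq_le_sq h3 (norm_nonneg _)

/-- Injective linear maps are isotopic to isometric ones. -/
theorem bl_linear (A : E →L[ℝ] V) (hA : Function.Injective A) :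
    ∃ ι : E →ₗᵢ[ℝ] V, CarriesMap (sphere (0 : E) 1) (fun x => A x) (fun x => ι x) := by
  classical
  set A' : E →ₗ[ℝ] V := (A : E →ₗ[ℝ] V) with hA'
  set T : E →ₗ[ℝ] E := (LinearMap.adjoint A').comp A' with hT
  have hTin : ∀ x y, ⟪T x, y⟫ = ⟪A x, A y⟫ := by
    intro x y
    rw [hT, LinearMap.comp_apply, LinearMap.adjoint_inner_left]
    rfl
  have hsymm : T.IsSymmetric := by
    intro x y
    rw [hTin, real_inner_comm, ← hTin, real_inner_comm]
  set n := Module.finrank ℝ E with hn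
  set b := hsymm.eigenvectorBasis hn.symm with hb
  set μ : Fin n → ℝ := fun i => ‖A (b i)‖ with hμ
  have hμ0 : ∀ i, 0 < μ i := by
    intro i
    refine norm_pos_iff.2 fun h => ?_
    have h1 : b i = 0 := hA (by rw [h, map_zero])
    have h2 := b.orthonormal.1 i
    rw [h1, norm_zero] at h2
    exact zero_ne_one h2
  have horth : ∀ i j, i ≠ j → ⟪A (b i), A (b j)⟫ = 0 := by
    intro i j hij
    rw [← hTin, hb, hsymm.apply_eigenvectorBasis, ← hb, RCLike.real_smul_eq_coe_smul (K := ℝ),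
      inner_smul_left, b.orthonormal.2 hij, mul_zero]
  set w : Fin n → V := fun i => (μ i)⁻¹ • A (b i) with hw
  have hwo : Orthonormal ℝ w := by
    constructor
    · intro i
      rw [hw]
      simp only
      rw [norm_smul, norm_inv, Real.norm_eq_abs, abs_of_pos (hμ0 i)]
      exact inv_mul_cancel₀ (hμ0 i).ne'
    · intro i j hij
      rw [hw]
      simp only
      rw [inner_smul_left, inner_smul_right, horth i j hij, mul_zero, mul_zero]
  set L : E →ₗ[ℝ] V := b.toBasis.constr ℝ w with hL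
  have hLb : ∀ i, L (b i) = w i := by
    intro i
    rw [hL, ← b.coe_toBasis, Module.Basis.constr_basis]
  set ι : E →ₗᵢ[ℝ] V := L.isometryOfOrthonormal (v := b.toBasis)
    (by rw [b.coe_toBasis]; exact b.orthonormal)
    (by
      have h : L ∘ b.toBasis = w := by
        funext i
        rw [Function.comp_apply, b.coe_toBasis, hLb]
      rw [h]; exact hwo) with hι
  have hιb : ∀ i, ι (b i) = w i := fun i => hLb i
  obtain ⟨c0, hc0, hc0'⟩ : ∃ c0 : ℝ, 0 < c0 ∧ ∀ i, c0 ≤ μ i := by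
    rcases isEmpty_or_nonempty (Fin n) with h | h
    · exact ⟨1, one_pos, fun i => (h.false i).elim⟩
    · obtain ⟨i0, _, h1⟩ := Finset.exists_min_image Finset.univ μ Finset.univ_nonempty
      exact ⟨μ i0, hμ0 i0, fun i => h1 i (Finset.mem_univ i)⟩
  set c := min 1 c0 with hc
  have hcpos : 0 < c := lt_min one_pos hc0
  have hf : ContDiff ℝ ∞ (fun p : ℝ × E =>
      ι (∑ i, (((1 - p.1) * μ i + p.1) * ⟪b i, p.2⟫) • b i)) := by
    refine ι.toContinuousLinearMap.contDiff.comp (ContDiff.sum fun i _ => ?_)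
    refine ContDiff.smul (ContDiff.mul ?_ ?_) contDiff_const
    · exact ((contDiff_const.sub contDiff_fst).mul contDiff_const).add contDiff_fst
    · exact contDiff_const.inner ℝ contDiff_snd
  have hmain := bl_path (fun p : ℝ × E =>
      ι (∑ i, (((1 - p.1) * μ i + p.1) * ⟪b i, p.2⟫) • b i)) hf c hcpos ?_
  · refine ⟨ι, ?_⟩
    have e0 : (fun x : E => ι (∑ i, (((1 - (0 : ℝ)) * μ i + 0) * ⟪b i, x⟫) • b i)) =
        fun x => A x := by
      funext x
      have h1 : A x = A (∑ i, ⟪b i, x⟫ • b i) := by rw [b.sum_repr']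
      rw [h1, map_sum, map_sum]
      apply Finset.sum_congr rfl
      intro i _
      rw [map_smul, map_smul, hιb, hw]
      simp only
      rw [smul_smul]
      congr 1
      have := (hμ0 i).ne'
      field_simp
      ring
    have e1 : (fun x : E => ι (∑ i, (((1 - (1 : ℝ)) * μ i + 1) * ⟪b i, x⟫) • b i)) =
        fun x => ι x := by
      funext x
      congr 1
      conv_rhs => rw [← b.sum_repr' x]
      apply Finset.sum_congr rfl
      intro i _
      congr 1
      ring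
    simp only at hmain
    rw [e0, e1] at hmain
    exact hmain
  · intro s hs x _ y _
    have h1 := blpath_diag b ι (fun i => (1 - s) * μ i + s) c hcpos ?_ (x - y)
    · have h2 : ι (∑ i, (((1 - s) * μ i + s) * ⟪b i, x - y⟫) • b i) =
          ι (∑ i, (((1 - s) * μ i + s) * ⟪b i, x⟫) • b i) -
          ι (∑ i, (((1 - s) * μ i + s) * ⟪b i, y⟫) • b i) := by
        rw [← map_sub, ← Finset.sum_sub_distrib]
        congr 1
        apply Finset.sum_congr rfl
        intro i _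
        rw [inner_sub_right, mul_sub, sub_smul]
      rw [h2] at h1
      exact h1
    · intro i
      have h3 : c ≤ μ i := (min_le_right _ _).trans (hc0' i)
      have h4 : c ≤ 1 := min_le_left _ _
      have h5 := hs.1
      have h6 := hs.2
      nlinarith

end Pool.Schoen
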