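import Pool.Agent.H.MP_6c077c_gt.BLDefs

/-! The pointwise inequality between parallel chords. -/

set_option autoImplicit false

namespace Pool.Schoen

open scoped ContDiff RealInnerProductSpace
open Metric Set

variable {E V : Type*} [NormedAddCommGroup E] [InnerProductSpace ℝ E]
  [NormedAddCommGroup V] [InnerProductSpace ℝ V]

private theorem blpoint_smul (e : E) (r : ℝ) (x : E) : blRefl e (r • x) = r • blRefl e x := by
  unfold blRefl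
  rw [real_inner_smul_right, smul_sub, smul_smul]
  congr 2
  ring

private theorem blpoint_inner {e : E} (he : ‖e‖ = 1) (x y : E) :
    ⟪blRefl e x, blRefl e y⟫ = ⟪x, y⟫ := by
  unfold blRefl
  have h1 : ⟪e, e⟫ = 1 := by rw [real_inner_self_eq_norm_sq, he]; norm_num
  rw [inner_sub_left, inner_sub_right, inner_sub_right, real_inner_smul_left,
    real_inner_smul_right, real_inner_smul_left, real_inner_smul_right, h1,
    real_inner_comm e x]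
  ring

private theorem blpoint_inner' {e : E} (x y : E) :
    ⟪x, blRefl e y⟫ = ⟪x, y⟫ - 2 * ⟪e, x⟫ * ⟪e, y⟫ := by
  unfold blRefl
  rw [inner_sub_right, real_inner_smul_right, real_inner_comm e x]
  ring

private theorem blpoint_norm {e : E} (he : ‖e‖ = 1) (x : E) : ‖blRefl e x‖ = ‖x‖ := by
  have h1 : ‖blRefl e x‖ ^ 2 = ‖x‖ ^ 2 := by
    rw [← real_inner_self_eq_norm_sq, ← real_inner_self_eq_norm_sq, blpoint_inner he]
  exact (sq_eq_sq₀ (norm_nonneg _) (norm_nonneg _)).1 h1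

private theorem blpoint_polar {e : E} (he : ‖e‖ = 1) (z : E) :
    ∃ r : ℝ, 0 ≤ r ∧ ∃ x : E, ‖x‖ = 1 ∧ z = r • x := by
  by_cases hz : z = 0
  · exact ⟨0, le_rfl, e, he, by rw [hz, zero_smul]⟩
  · refine ⟨‖z‖, norm_nonneg _, ‖z‖⁻¹ • z, ?_, ?_⟩
    · rw [norm_smul, norm_inv, norm_norm, inv_mul_cancel₀ (norm_ne_zero_iff.2 hz)]
    · rw [smul_smul, mul_inv_cancel₀ (norm_ne_zero_iff.2 hz), one_smul]

private theorem blpoint_sq {x y : E} (hx : ‖x‖ = 1) (hy : ‖y‖ = 1) :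
    ‖x - y‖ ^ 2 = 2 - 2 * ⟪x, y⟫ := by
  rw [norm_sub_sq_real, hx, hy]
  ring

private theorem blpoint_low {F : E → V} {l L : ℝ} (hF : BiLip F l L) {x y : E} (hx : ‖x‖ = 1)
    (hy : ‖y‖ = 1) : l ^ 2 * (2 - 2 * ⟪x, y⟫) ≤ ‖F x - F y‖ ^ 2 := by
  have h1 := hF.low x (mem_sphere_zero_iff_norm.2 hx) y (mem_sphere_zero_iff_norm.2 hy)
  have h2 := pow_le_pow_left₀ (mul_nonneg hF.pos.le (norm_nonneg _)) h1 2
  rwa [mul_pow, blpoint_sq hx hy] at h2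

private theorem blpoint_upp {F : E → V} {l L : ℝ} (hF : BiLip F l L) {x y : E} (hx : ‖x‖ = 1)
    (hy : ‖y‖ = 1) : ‖F x - F y‖ ^ 2 ≤ L ^ 2 * (2 - 2 * ⟪x, y⟫) := by
  have h1 := hF.upp x (mem_sphere_zero_iff_norm.2 hx) y (mem_sphere_zero_iff_norm.2 hy)
  have h2 := pow_le_pow_left₀ (norm_nonneg _) h1 2
  rwa [mul_pow, blpoint_sq hx hy] at h2

private theorem blpoint_unit {F : E → V} {l L : ℝ} (hF : BiLip F l L) {e : E} (he : ‖e‖ = 1)
    {x y : E} (hx : ‖x‖ = 1) (hy : ‖y‖ = 1) :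
    2 * l ^ 2 * (1 - ⟪x, y⟫ + 2 * ⟪e, x⟫ * ⟪e, y⟫) - 2 * L ^ 2 * (1 - ⟪x, y⟫) ≤
      ⟪F x - F (blRefl e x), F y - F (blRefl e y)⟫ := by
  have hx' : ‖blRefl e x‖ = 1 := by rw [blpoint_norm he, hx]
  have hy' : ‖blRefl e y‖ = 1 := by rw [blpoint_norm he, hy]
  have h1 := blpoint_low hF hx hy'
  have h2 := blpoint_low hF hx' hy
  have h3 := blpoint_upp hF hx hy
  have h4 := blpoint_upp hF hx' hy'
  rw [blpoint_inner'] at h1
  rw [real_inner_comm, blpoint_inner', real_inner_comm x y] at h2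
  rw [blpoint_inner he] at h4
  obtain ⟨a, ha⟩ : ∃ a, a = F x := ⟨_, rfl⟩
  obtain ⟨b, hb⟩ : ∃ b, b = F (blRefl e x) := ⟨_, rfl⟩
  obtain ⟨c, hc⟩ : ∃ c, c = F y := ⟨_, rfl⟩
  obtain ⟨d, hd⟩ : ∃ d, d = F (blRefl e y) := ⟨_, rfl⟩
  rw [← ha, ← hd] at h1
  rw [← hb, ← hc] at h2
  rw [← ha, ← hc] at h3
  rw [← hb, ← hd] at h4
  rw [← ha, ← hb, ← hc, ← hd]
  have h5 : 2 * ⟪a - b, c - d⟫ =
      ‖a - d‖ ^ 2 + ‖b - c‖ ^ 2 - ‖a - c‖ ^ 2 - ‖b - d‖ ^ 2 := by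
    rw [norm_sub_sq_real, norm_sub_sq_real, norm_sub_sq_real, norm_sub_sq_real, inner_sub_left,
      inner_sub_right, inner_sub_right]
    ring
  nlinarith

private theorem blpoint_cross {F : E → V} {l L : ℝ} (hF : BiLip F l L) {e : E} (he : ‖e‖ = 1)
    (z w : E) :
    2 * l ^ 2 * (‖z‖ * ‖w‖ - ⟪z, w⟫ + 2 * ⟪e, z⟫ * ⟪e, w⟫) -
      2 * L ^ 2 * (‖z‖ * ‖w‖ - ⟪z, w⟫) ≤
      ⟪F z - F (blRefl e z), F w - F (blRefl e w)⟫ := by
  obtain ⟨r, hr, x, hx, rfl⟩ := blpoint_polar he z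
  obtain ⟨s, hs, y, hy, rfl⟩ := blpoint_polar he w
  have h1 := mul_le_mul_of_nonneg_left (blpoint_unit hF he hx hy) (mul_nonneg hr hs)
  rw [blpoint_smul, blpoint_smul, hF.hom r hr, hF.hom r hr, hF.hom s hs, hF.hom s hs,
    ← smul_sub, ← smul_sub, real_inner_smul_left, real_inner_smul_right, norm_smul, norm_smul,
    Real.norm_of_nonneg hr, Real.norm_of_nonneg hs, hx, hy, real_inner_smul_left,
    real_inner_smul_right, real_inner_smul_right, real_inner_smul_right]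
  refine le_trans (le_of_eq ?_) (h1.trans (le_of_eq ?_))
  · ring
  · ring

private theorem blpoint_refl {e u : E} (he : ‖e‖ = 1) (hu : ⟪e, u⟫ = 0) (τ : ℝ) :
    blRefl e (u + τ • e) = u - τ • e := by
  unfold blRefl
  have h1 : ⟪e, e⟫ = 1 := by rw [real_inner_self_eq_norm_sq, he]; norm_num
  rw [inner_add_right, real_inner_smul_right, h1, hu]
  module

theorem bl_pointwise (F : E → V) (l L : ℝ) (hF : BiLip F l L) (e : E) (he : ‖e‖ = 1) (u : E)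
    (hu : ⟪e, u⟫ = 0) (τ : ℝ) (hτ : 0 ≤ τ) (z : E) :
    2 * (L ^ 2 + l ^ 2) * (⟪e, z⟫ * τ) - (L ^ 2 - l ^ 2) * (‖z - u‖ ^ 2 + τ ^ 2) ≤
      ⟪F z - F (blRefl e z), F (u + τ • e) - F (u - τ • e)⟫ := by
  have _ := hτ
  have h1 := blpoint_cross hF he z (u + τ • e)
  rw [blpoint_refl he hu] at h1
  have h2 : ⟪e, e⟫ = 1 := by rw [real_inner_self_eq_norm_sq, he]; norm_num
  have h3 : ⟪e, u + τ • e⟫ = τ := by
    rw [inner_add_right, real_inner_smul_right, h2, hu]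
    ring
  have h4 : ⟪z, u + τ • e⟫ = ⟪z, u⟫ + τ * ⟪e, z⟫ := by
    rw [inner_add_right, real_inner_smul_right, real_inner_comm e z]
  have h5 : ‖u + τ • e‖ ^ 2 = ‖u‖ ^ 2 + τ ^ 2 := by
    rw [norm_add_sq_real, real_inner_smul_right, real_inner_comm e u, hu, norm_smul, he,
      Real.norm_eq_abs, mul_one, sq_abs]
    ring
  rw [h3, h4] at h1
  have h6 : ‖z - u‖ ^ 2 = ‖z‖ ^ 2 - 2 * ⟪z, u⟫ + ‖u‖ ^ 2 := norm_sub_sq_real z u
  have h7 : 0 ≤ L ^ 2 - l ^ 2 := by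
    have := pow_le_pow_left₀ hF.pos.le hF.le 2
    linarith
  refine le_trans ?_ h1
  rw [h6]
  have h8 : 0 ≤ (L ^ 2 - l ^ 2) * (‖z‖ - ‖u + τ • e‖) ^ 2 := mul_nonneg h7 (sq_nonneg _)
  have h9 : (‖z‖ - ‖u + τ • e‖) ^ 2 = ‖z‖ ^ 2 - 2 * (‖z‖ * ‖u + τ • e‖) + (‖u‖ ^ 2 + τ ^ 2) := by
    rw [← h5]
    ring
  rw [h9] at h8
  nlinarith

theorem bl_norm_test (F : E → V) (l L : ℝ) (hF : BiLip F l L) (e : E) (he : ‖e‖ = 1) (u : E)
    (hu : ⟪e, u⟫ = 0) (τ : ℝ) (hτ : 0 ≤ τ) :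
    ‖F (u + τ • e) - F (u - τ • e)‖ ≤ 2 * L * τ := by
  obtain ⟨s, hs, y, hy, hw⟩ := blpoint_polar he (u + τ • e)
  have h1 := blpoint_refl he hu τ
  rw [← h1, hw, blpoint_smul, hF.hom s hs, hF.hom s hs, ← smul_sub, norm_smul,
    Real.norm_of_nonneg hs]
  have h2 := hF.upp y (mem_sphere_zero_iff_norm.2 hy) (blRefl e y)
    (mem_sphere_zero_iff_norm.2 (by rw [blpoint_norm he, hy]))
  have h3 : s * ‖y - blRefl e y‖ = 2 * τ := by
    have h4 : s • (y - blRefl e y) = (2 * τ) • e := by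
      rw [smul_sub, ← blpoint_smul, ← hw, h1]
      module
    have h5 := congrArg norm h4
    rwa [norm_smul, norm_smul, he, mul_one, Real.norm_of_nonneg hs,
      Real.norm_of_nonneg (by positivity)] at h5
  calc s * ‖F y - F (blRefl e y)‖ ≤ s * (L * ‖y - blRefl e y‖) := mul_le_mul_of_nonneg_left h2 hs
    _ = L * (s * ‖y - blRefl e y‖) := by ring
    _ = 2 * L * τ := by rw [h3]; ring

end Pool.Schoen
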