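import Mathlib

/-! A bicollared closed subset of a simply connected space has two sides. -/

set_option autoImplicit false

namespace Pool.Schoen

open Set

/-- A function which is continuous on the image of a closed embedding and constant on a closed
set, the two sets covering the space, is continuous. -/
private theorem liftside_cont {X Q C : Type*} [TopologicalSpace X] [TopologicalSpace Q]
    [TopologicalSpace C] (t : Q → X) (ht : Topology.IsClosedEmbedding t) (χ : X → C)
    (h1 : Continuous (fun q => χ (t q))) (Z : Set X) (hZ : IsClosed Z) (c : C)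
    (h2 : ∀ x ∈ Z, χ x = c) (hcov : ∀ x, x ∉ Z → x ∈ range t) : Continuous χ := by
  have hK : ContinuousOn χ (range t) := by
    rw [continuousOn_iff_isClosed]
    intro D hD
    refine ⟨t '' ((fun q => χ (t q)) ⁻¹' D), ht.isClosedMap _ (hD.preimage h1), ?_⟩
    ext x
    constructor
    · rintro ⟨hx, q, rfl⟩
      exact ⟨⟨q, hx, rfl⟩, q, rfl⟩
    · rintro ⟨⟨q, hq, rfl⟩, hx⟩
      exact ⟨hq, hx⟩
  have hZc : ContinuousOn χ Z := by
    refine (continuousOn_const (c := c)).congr ?_
    intro x hx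
    exact h2 x hx
  have := hK.union_of_isClosed hZc ht.isClosed_range hZ
  have huniv : range t ∪ Z = univ := by
    ext x
    simp only [mem_union, mem_univ, iff_true]
    by_cases hx : x ∈ Z
    · exact Or.inr hx
    · exact Or.inl (hcov x hx)
  rw [huniv] at this
  exact continuousOn_univ.1 this

theorem lift_side {X P : Type*} [TopologicalSpace X] [T2Space X] [SimplyConnectedSpace X]
    [LocallyPathConnectedSpace X] [TopologicalSpace P] [CompactSpace P] [ConnectedSpace P]
    (τ : P × ℝ → X) (α β : ℝ) (hα : 0 < α) (hβ : 0 < β)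
    (hc : ContinuousOn τ (univ ×ˢ Icc (-α) β)) (hinj : InjOn τ (univ ×ˢ Icc (-α) β))
    (hopen : IsOpen (τ '' (univ ×ˢ Ioo (-α) β))) :
    ∃ F : X → ℝ, Continuous F ∧ (∀ p, ∀ u ∈ Icc (-α) β, F (τ (p, u)) = u) ∧
      ∀ x, x ∉ τ '' (univ ×ˢ Ioo (-α) β) → F x = -α ∨ F x = β := by
  classical
  set T : ℝ := α + β with hT
  have hTpos : 0 < T := by positivity
  -- the compact parameter space
  let t : P × Icc (-α) β → X := fun q => τ (q.1, (q.2 : ℝ))
  have ht_cont : Continuous t := by
    have h : Continuous (fun q : P × Icc (-α) β => ((q.1, (q.2 : ℝ)) : P × ℝ)) := by fun_prop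
    exact hc.comp_continuous h (fun q => ⟨mem_univ _, q.2.2⟩)
  have ht_inj : Function.Injective t := by
    intro q q' hqq
    have := hinj (x₁ := (q.1, (q.2 : ℝ))) (x₂ := (q'.1, (q'.2 : ℝ)))
      ⟨mem_univ _, q.2.2⟩ ⟨mem_univ _, q'.2.2⟩ hqq
    simp only [Prod.mk.injEq] at this
    exact Prod.ext this.1 (Subtype.ext this.2)
  have ht : Topology.IsClosedEmbedding t := ht_cont.isClosedEmbedding ht_inj
  -- the circle valued map
  let χ : X → AddCircle T := Function.extend t
    (fun q => (((q.2 : ℝ) + α : ℝ) : AddCircle T)) (fun _ => 0)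
  have hχt : ∀ q, χ (t q) = (((q.2 : ℝ) + α : ℝ) : AddCircle T) := fun q =>
    ht_inj.extend_apply _ _ q
  have hχO : ∀ x ∈ (τ '' (univ ×ˢ Ioo (-α) β))ᶜ, χ x = 0 := by
    intro x hx
    by_cases hxr : x ∈ range t
    · obtain ⟨q, rfl⟩ := hxr
      rw [hχt]
      have hq := q.2.2
      rcases eq_or_lt_of_le hq.1 with h | h
      · rw [← h]
        simp
      · rcases eq_or_lt_of_le hq.2 with h' | h'
        · rw [h', add_comm β α, ← hT]
          exact AddCircle.coe_period T
        · exact absurd ⟨(q.1, (q.2 : ℝ)), ⟨mem_univ _, h, h'⟩, rfl⟩ hx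
    · have : ¬ ∃ q, t q = x := hxr
      exact Function.extend_apply' _ _ _ this
  have hχ : Continuous χ := by
    refine liftside_cont t ht χ ?_ _ hopen.isClosed_compl 0 hχO ?_
    · simp only [hχt]
      exact (AddCircle.continuous_mk' T).comp (by fun_prop)
    · intro x hx
      simp only [mem_compl_iff, not_not] at hx
      obtain ⟨⟨p, u⟩, ⟨-, hu⟩, rfl⟩ := hx
      exact ⟨(p, ⟨u, Ioo_subset_Icc_self hu⟩), rfl⟩
  -- the lift
  obtain ⟨p₀⟩ : Nonempty P := inferInstance
  have hab : -α ≤ β := by linarith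
  have h0 : ((0 : ℝ) : AddCircle T) = χ (t (p₀, ⟨-α, left_mem_Icc.2 hab⟩)) := by
    rw [hχt]
    simp
  obtain ⟨θ, ⟨-, hθ⟩, -⟩ := (AddCircle.isCoveringMap_coe T).existsUnique_continuousMap_lifts
    (⟨χ, hχ⟩ : C(X, AddCircle T)) (t (p₀, ⟨-α, left_mem_Icc.2 hab⟩)) 0 h0
  have hθ' : ∀ x, ((θ x : ℝ) : AddCircle T) = χ x := fun x => congrFun hθ x
  -- the integer on the tube
  have : PreconnectedSpace (Icc (-α) β) := Subtype.preconnectedSpace isPreconnected_Icc
  have hk : ∀ q : P × Icc (-α) β, ∃ k : ℤ, (k : ℝ) = (θ (t q) - ((q.2 : ℝ) + α)) / T := by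
    intro q
    have h : ((θ (t q) - ((q.2 : ℝ) + α) : ℝ) : AddCircle T) = 0 := by
      rw [AddCircle.coe_sub, hθ', hχt]
      simp
    obtain ⟨n, hn⟩ := (AddCircle.coe_eq_zero_iff T).1 h
    refine ⟨n, ?_⟩
    rw [← hn, zsmul_eq_mul]
    field_simp
  choose k hk using hk
  have hkc : Continuous k := by
    rw [Int.isClosedEmbedding_coe_real.isEmbedding.continuous_iff]
    have : ((fun n : ℤ => (n : ℝ)) ∘ k) = fun q => (θ (t q) - ((q.2 : ℝ) + α)) / T := by
      funext q
      exact hk q
    rw [this]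
    have h2 : Continuous (fun q => θ (t q)) := θ.continuous.comp ht_cont
    fun_prop
  have hconst : ∀ q q', k q = k q' := fun q q' =>
    PreconnectedSpace.constant inferInstance hkc
  set m : ℤ := k (p₀, ⟨-α, left_mem_Icc.2 hab⟩) with hm
  have hθt : ∀ q, θ (t q) = (q.2 : ℝ) + α + m * T := by
    intro q
    have h := hk q
    rw [hconst q (p₀, ⟨-α, left_mem_Icc.2 hab⟩), ← hm] at h
    field_simp at h
    linarith
  refine ⟨fun x => max (-α) (min β (θ x - m * T - α)), ?_, ?_, ?_⟩
  · have := θ.continuous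
    fun_prop
  · intro p u hu
    have h := hθt (p, ⟨u, hu⟩)
    change θ (τ (p, u)) = u + α + m * T at h
    change max (-α) (min β (θ (τ (p, u)) - m * T - α)) = u
    rw [h]
    have : u + α + m * T - m * T - α = u := by ring
    rw [this, min_eq_right hu.2, max_eq_right hu.1]
  · intro x hx
    have h := hθ' x
    rw [hχO x hx] at h
    obtain ⟨n, hn⟩ := (AddCircle.coe_eq_zero_iff T).1 h
    rw [zsmul_eq_mul] at hn
    change max (-α) (min β (θ x - m * T - α)) = -α ∨ max (-α) (min β (θ x - m * T - α)) = β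
    rw [← hn]
    rcases le_or_gt n m with hnm | hnm
    · left
      have h1 : (n : ℝ) ≤ m := by exact_mod_cast hnm
      have h2 : (n : ℝ) * T ≤ m * T := mul_le_mul_of_nonneg_right h1 hTpos.le
      exact max_eq_left ((min_le_right _ _).trans (by linarith))
    · right
      have h1 : (m : ℝ) + 1 ≤ n := by exact_mod_cast hnm
      have h2 : ((m : ℝ) + 1) * T ≤ n * T := mul_le_mul_of_nonneg_right h1 hTpos.le
      rw [min_eq_left (by rw [hT] at h2 ⊢; linarith), max_eq_right hab]

end Pool.Schoen
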