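import Mathlib

/-! A smooth embedding of the unit sphere has a globally defined smooth left inverse. -/

set_option autoImplicit false

namespace Pool.Schoen

open scoped ContDiff RealInnerProductSpace Manifold Topology
open Metric Set

variable {E V : Type*} [NormedAddCommGroup E] [InnerProductSpace ℝ E] [FiniteDimensional ℝ E]
  [NormedAddCommGroup V] [InnerProductSpace ℝ V] [FiniteDimensional ℝ V]


omit [FiniteDimensional ℝ E] in
/-- linear part -/
theorem leftinv_linear (A : E →L[ℝ] V) (x₀ : E)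
    (h : ∀ v : E, ⟪v, x₀⟫ = 0 → A v = 0 → v = 0) :
    ∃ L : V →L[ℝ] E, (∀ y, ⟪L y, x₀⟫ = 0) ∧ ∀ v : E, ⟪v, x₀⟫ = 0 → L (A v) = v := by
  classical
  let T : Submodule ℝ E := (ℝ ∙ x₀)ᗮ
  have hT : ∀ v : E, v ∈ T ↔ ⟪v, x₀⟫ = 0 := by
    intro v
    rw [Submodule.mem_orthogonal_singleton_iff_inner_left]
  let B : T →ₗ[ℝ] V := (A : E →ₗ[ℝ] V).comp T.subtype
  have hB : LinearMap.ker B = ⊥ := by
    rw [LinearMap.ker_eq_bot']
    intro v hv
    have := h v ((hT v).1 v.2) hv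
    exact Subtype.ext this
  obtain ⟨g, hg⟩ := B.exists_leftInverse_of_injective hB
  refine ⟨LinearMap.toContinuousLinearMap (T.subtype.comp g), ?_, ?_⟩
  · intro y
    exact (hT _).1 (g y).2
  · intro v hv
    have h1 := LinearMap.congr_fun hg ⟨v, (hT v).2 hv⟩
    have h2 : g (A v) = ⟨v, (hT v).2 hv⟩ := h1
    show ((g (A v) : T) : E) = v
    rw [h2]

theorem leftinv_local (f : E → V) (hf : ContDiff ℝ ∞ f) (hinj : InjOn f (sphere 0 1))
    (x₀ : E) (hx₀ : x₀ ∈ sphere (0 : E) 1)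
    (himm : ∀ v : E, ⟪v, x₀⟫ = 0 → fderiv ℝ f x₀ v = 0 → v = 0) :
    ∃ U ∈ 𝓝 (f x₀), ∃ P : V → E, ContDiffOn ℝ ∞ P U ∧
      ∀ y ∈ U, ∀ x ∈ sphere (0 : E) 1, f x = y → P y = x := by
  classical
  obtain ⟨L, hL1, hL2⟩ := leftinv_linear (fderiv ℝ f x₀) x₀ himm
  have hn0 : ‖x₀‖ = 1 := by simpa using hx₀
  -- the auxiliary map
  set Θ : E → E := fun x => L (f x) + ((‖x‖ ^ 2 - 1) / 2) • x₀ with hΘ
  have hΘs : ContDiff ℝ ∞ Θ := by
    have h1 : ContDiff ℝ ∞ fun x : E => L (f x) := L.contDiff.comp hf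
    have h2 : ContDiff ℝ ∞ fun x : E => ((‖x‖ ^ 2 - 1) / 2) • x₀ :=
      (((contDiff_norm_sq ℝ).sub contDiff_const).div_const 2).smul contDiff_const
    exact h1.add h2
  have hder : ∀ v : E, fderiv ℝ Θ x₀ v = L (fderiv ℝ f x₀ v) + ⟪x₀, v⟫ • x₀ := by
    intro v
    have h1 : HasFDerivAt (fun x : E => L (f x)) (L.comp (fderiv ℝ f x₀)) x₀ :=
      L.hasFDerivAt.comp x₀ (hf.differentiable (by norm_num)).differentiableAt.hasFDerivAt
    have h2 : HasFDerivAt (fun x : E => ‖x‖ ^ 2) (2 • (innerSL ℝ x₀)) x₀ :=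
      (hasStrictFDerivAt_norm_sq x₀).hasFDerivAt
    have h3 := ((h2.sub_const 1).mul_const (1 / 2 : ℝ)).smul_const x₀
    have hev : Θ =ᶠ[𝓝 x₀] ((fun x : E => L (f x)) + fun x : E =>
        ((‖x‖ ^ 2 - 1) * (1 / 2 : ℝ)) • x₀) := by
      filter_upwards with x
      simp only [hΘ, Pi.add_apply]
      congr 2
      ring
    have h5 := (h1.add h3).congr_of_eventuallyEq hev
    rw [h5.fderiv]
    simp only [ContinuousLinearMap.add_apply, ContinuousLinearMap.comp_apply,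
      ContinuousLinearMap.smulRight_apply, ContinuousLinearMap.smul_apply, innerSL_apply_apply,
      smul_eq_mul, nsmul_eq_mul]
    congr 2
    push_cast
    ring
  have hinjd : Function.Injective (fderiv ℝ Θ x₀) := by
    rw [injective_iff_map_eq_zero]
    intro v hv
    rw [hder v] at hv
    have h1 : ⟪L (fderiv ℝ f x₀ v) + ⟪x₀, v⟫ • x₀, x₀⟫ = 0 := by
      rw [hv, inner_zero_left]
    rw [inner_add_left, hL1, inner_smul_left, real_inner_self_eq_norm_sq, hn0] at h1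
    have h2 : ⟪x₀, v⟫ = 0 := by simpa using h1
    rw [h2, zero_smul, add_zero] at hv
    have h3 : ⟪v, x₀⟫ = 0 := by rw [real_inner_comm]; exact h2
    rw [hL2 v h3] at hv
    exact hv
  -- invertibility of derivative near `x₀`
  have hinv0 : (fderiv ℝ Θ x₀).IsInvertible := by
    let e := LinearEquiv.ofInjectiveEndo (fderiv ℝ Θ x₀ : E →ₗ[ℝ] E) hinjd
    refine ⟨e.toContinuousLinearEquiv, ?_⟩
    ext v
    rfl
  obtain ⟨e0, he0⟩ := hinv0
  have hne : (∞ : WithTop ℕ∞) ≠ 0 := by simp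
  have hΘd : HasFDerivAt Θ (e0 : E →L[ℝ] E) x₀ := by
    rw [he0]
    exact (hΘs.differentiable (by norm_num)).differentiableAt.hasFDerivAt
  let e := hΘs.contDiffAt.toOpenPartialHomeomorph Θ hΘd hne
  have hex : x₀ ∈ e.source := ContDiffAt.mem_toOpenPartialHomeomorph_source _ _ _
  have hecoe : ∀ x, e x = Θ x := fun _ => rfl
  have hfc : Continuous (fun x => fderiv ℝ Θ x) := hΘs.continuous_fderiv (by simp)
  have hWo : IsOpen {x : E | (fderiv ℝ Θ x).IsInvertible} := by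
    have h1 : IsOpen (Set.range ((↑) : (E ≃L[ℝ] E) → E →L[ℝ] E)) :=
      ContinuousLinearEquiv.isOpen
    have h2 := h1.preimage hfc
    exact h2
  set W : Set E := e.source ∩ {x : E | (fderiv ℝ Θ x).IsInvertible} with hW
  have hWopen : IsOpen W := e.open_source.inter hWo
  have hx₀W : x₀ ∈ W := ⟨hex, ⟨e0, he0⟩⟩
  set O : Set E := e.target ∩ e.symm ⁻¹' W with hO
  have hOopen : IsOpen O := e.symm.isOpen_inter_preimage hWopen
  have hsm : ∀ z ∈ O, ContDiffAt ℝ ∞ e.symm z := by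
    rintro z ⟨hz1, hz2⟩
    obtain ⟨ez, hez⟩ := hz2.2
    refine e.contDiffAt_symm hz1 (f₀' := ez) ?_ hΘs.contDiffAt
    rw [hez]
    exact (hΘs.differentiable (by norm_num)).differentiableAt.hasFDerivAt
  have hΘx : ∀ x ∈ sphere (0 : E) 1, Θ x = L (f x) := by
    intro x hx
    have hx1 : ‖x‖ = 1 := by simpa using hx
    simp only [hΘ, hx1]
    norm_num
  -- the neighbourhood
  have hK : IsCompact (f '' (sphere (0 : E) 1 \ W)) :=
    ((isCompact_sphere (0 : E) 1).diff hWopen).image hf.continuous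
  set U : Set V := (f '' (sphere (0 : E) 1 \ W))ᶜ ∩ L ⁻¹' O with hU
  have hUopen : IsOpen U := hK.isClosed.isOpen_compl.inter (hOopen.preimage L.continuous)
  have hy₀ : f x₀ ∈ U := by
    refine ⟨?_, ?_⟩
    · rintro ⟨x, ⟨hxs, hxW⟩, hx⟩
      have := hinj hxs hx₀ hx
      exact hxW (this ▸ hx₀W)
    · show L (f x₀) ∈ O
      rw [← hΘx x₀ hx₀, ← hecoe]
      refine ⟨e.map_source hex, ?_⟩
      show e.symm (e x₀) ∈ W
      rw [e.left_inv hex]
      exact hx₀W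
  refine ⟨U, hUopen.mem_nhds hy₀, fun y => e.symm (L y), ?_, ?_⟩
  · intro y hy
    have h1 : ContDiffAt ℝ ∞ e.symm (L y) := hsm _ hy.2
    exact (h1.comp y L.contDiff.contDiffAt).contDiffWithinAt
  · intro y hy x hx hxy
    have hxW : x ∈ W := by
      by_contra hcon
      exact hy.1 ⟨x, ⟨hx, hcon⟩, hxy⟩
    show e.symm (L y) = x
    rw [← hxy, ← hΘx x hx, ← hecoe, e.left_inv hxW.1]

theorem exists_left_inverse (f : E → V) (hf : ContDiff ℝ ∞ f) (hinj : InjOn f (sphere 0 1))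
    (himm : ∀ x ∈ sphere (0 : E) 1, ∀ v : E, ⟪v, x⟫ = 0 → fderiv ℝ f x v = 0 → v = 0) :
    ∃ P : V → E, ContDiff ℝ ∞ P ∧ ∀ x ∈ sphere (0 : E) 1, P (f x) = x := by
  classical
  let t : V → Set E := fun y => {z | ∀ x ∈ sphere (0 : E) 1, f x = y → z = x}
  have ht : ∀ y, Convex ℝ (t y) := by
    intro y z1 h1 z2 h2 a b ha hb hab x hx hxy
    rw [h1 x hx hxy, h2 x hx hxy, ← add_smul, hab, one_smul]
  have hloc : ∀ y : V, ∃ U ∈ 𝓝 y, ∃ g : V → E, ContMDiffOn 𝓘(ℝ, V) 𝓘(ℝ, E) ((⊤ : ℕ∞) : WithTop ℕ∞) g U ∧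
      ∀ z ∈ U, g z ∈ t z := by
    intro y
    by_cases hy : y ∈ f '' sphere (0 : E) 1
    · obtain ⟨x₀, hx₀, rfl⟩ := hy
      obtain ⟨U, hU, P, hP, hP2⟩ := leftinv_local f hf hinj x₀ hx₀ (himm x₀ hx₀)
      refine ⟨U, hU, P, hP.contMDiffOn, ?_⟩
      intro z hz x hx hxz
      exact hP2 z hz x hx hxz
    · have hc : IsClosed (f '' sphere (0 : E) 1) :=
        ((isCompact_sphere (0 : E) 1).image hf.continuous).isClosed
      refine ⟨(f '' sphere (0 : E) 1)ᶜ, hc.isOpen_compl.mem_nhds hy, fun _ => 0,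
        contMDiffOn_const, ?_⟩
      intro z hz x hx hxz
      exact absurd ⟨x, hx, hxz⟩ hz
  obtain ⟨g, hg⟩ := exists_contMDiffMap_forall_mem_convex_of_local (n := (⊤ : ℕ∞)) 𝓘(ℝ, V) ht hloc
  refine ⟨g, ?_, ?_⟩
  · exact contMDiff_iff_contDiff.1 g.contMDiff
  · intro x hx
    exact hg (f x) x hx rfl

end Pool.Schoen
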