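import Pool.Agent.H.MP_6c077c_gt.Defs
import Pool.Agent.H.MP_6c077c_gt.Small
import Pool.Agent.H.MP_6c077c_gt.LeftInv

/-! Isotopy extension for spheres in a Euclidean space. -/

set_option autoImplicit false

namespace Pool.Schoen

open scoped ContDiff RealInnerProductSpace
open Metric Set

variable {E V : Type*} [NormedAddCommGroup E] [InnerProductSpace ℝ E] [FiniteDimensional ℝ E]
  [NormedAddCommGroup V] [InnerProductSpace ℝ V] [FiniteDimensional ℝ V]

theorem isotopy_local (f : ℝ × E → V) (hf : ContDiff ℝ ∞ f) (s₀ : ℝ)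
    (hinj : InjOn (fun x => f (s₀, x)) (sphere 0 1))
    (himm : ∀ x ∈ sphere (0 : E) 1, ∀ v : E, ⟪v, x⟫ = 0 →
      fderiv ℝ (fun y => f (s₀, y)) x v = 0 → v = 0) :
    ∃ ε : ℝ, 0 < ε ∧ ∀ s, |s - s₀| < ε →
      CarriesMap (sphere (0 : E) 1) (fun x => f (s₀, x)) (fun x => f (s, x)) := by
  have hf0 : ContDiff ℝ ∞ fun x : E => f (s₀, x) := hf.comp (contDiff_const.prodMk contDiff_id)
  obtain ⟨P, hP, hPf⟩ := exists_left_inverse (fun x => f (s₀, x)) hf0 hinj himm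
  -- a bound of the image of the sphere
  have hbdd : Bornology.IsBounded ((fun x => f (s₀, x)) '' sphere (0 : E) 1) :=
    ((isCompact_sphere (0 : E) 1).image hf0.continuous).isBounded
  obtain ⟨R0, hR0⟩ := hbdd.exists_norm_le
  set R1 : ℝ := max R0 0 + 1 with hR1
  have hR1pos : 0 < R1 := by
    have := le_max_right R0 0
    linarith
  let b : ContDiffBump (0 : V) := ⟨R1, R1 + 1, hR1pos, by linarith⟩
  set g : ℝ × V → V := fun q => (b q.2) • (f (q.1, P q.2) - f (s₀, P q.2)) with hg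
  have hgs : ContDiff ℝ ∞ g := by
    have hb : ContDiff ℝ ∞ fun q : ℝ × V => b q.2 := b.contDiff.comp contDiff_snd
    have h1 : ContDiff ℝ ∞ fun q : ℝ × V => f (q.1, P q.2) :=
      hf.comp (contDiff_fst.prodMk (hP.comp contDiff_snd))
    have h2 : ContDiff ℝ ∞ fun q : ℝ × V => f (s₀, P q.2) :=
      hf.comp (contDiff_const.prodMk (hP.comp contDiff_snd))
    exact hb.smul (h1.sub h2)
  have hg0 : ∀ x, g (s₀, x) = 0 := by
    intro x
    simp [hg]
  have hgR : ∀ s x, R1 + 1 ≤ ‖x‖ → g (s, x) = 0 := by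
    intro s x hx
    have hb0 : b x = 0 := b.zero_of_le_dist (by simpa [dist_zero_right] using hx)
    simp [hg, hb0]
  obtain ⟨ε, hε, -, hsmall⟩ := close_C1 g s₀ 1 one_pos hgs.contDiffOn hg0 (R1 + 1) hgR
  refine ⟨ε, hε, fun s hs => ?_⟩
  have hgsm : ContDiff ℝ ∞ fun y => g (s, y) := hgs.comp (contDiff_const.prodMk contDiff_id)
  obtain ⟨ψ, hψ, hψ1, hψ2⟩ := small_diffeo (fun y => g (s, y)) hgsm (hsmall s hs)
  refine ⟨fun y => y + g (s, y), ψ, contDiff_id.add hgsm, hψ, hψ1, hψ2, ⟨R1 + 1, ?_⟩, ?_⟩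
  · intro x hx
    show x + g (s, x) = x
    rw [hgR s x hx, add_zero]
  · intro x hx
    have h1 : ‖f (s₀, x)‖ ≤ R0 := hR0 _ ⟨x, hx, rfl⟩
    have hb1 : b (f (s₀, x)) = 1 := by
      refine b.one_of_mem_closedBall ?_
      rw [mem_closedBall_zero_iff]
      show ‖f (s₀, x)‖ ≤ R1
      have := le_max_left R0 0
      linarith
    have hPx : P (f (s₀, x)) = x := hPf x hx
    simp only [hg, hb1, hPx, one_smul]
    abel

theorem isotopy_extension (f : ℝ × E → V) (hf : ContDiff ℝ ∞ f)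
    (hinj : ∀ s ∈ Icc (0 : ℝ) 1, InjOn (fun x => f (s, x)) (sphere 0 1))
    (himm : ∀ s ∈ Icc (0 : ℝ) 1, ∀ x ∈ sphere (0 : E) 1, ∀ v : E, ⟪v, x⟫ = 0 →
      fderiv ℝ (fun y => f (s, y)) x v = 0 → v = 0) :
    CarriesMap (sphere (0 : E) 1) (fun x => f (0, x)) (fun x => f (1, x)) :=
  chain (fun s t => CarriesMap (sphere (0 : E) 1) (fun x => f (s, x)) (fun x => f (t, x)))
    (fun _ => CarriesMap.refl _ _) (fun _ _ h => h.symm) (fun _ _ _ h h' => h.trans h')
    (fun s hs => by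
      obtain ⟨ε, h1, h2⟩ := isotopy_local f hf s (hinj s hs) (himm s hs)
      exact ⟨ε, h1, fun t _ ht => h2 t ht⟩)

end Pool.Schoen
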