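import Mathlib
import Pool.Agent.H.MP_6c077c_gt.Defs
import Pool.Agent.H.MP_6c077c_gt.Small
import Pool.Agent.H.MP_6c077c_gt.Implicit

/-! The regular zero sets of a smooth family of functions are ambient isotopic, together with the
sublevel sets they bound. -/

set_option autoImplicit false

namespace Pool.Schoen

open scoped ContDiff Topology

section

variable {V : Type*} [NormedAddCommGroup V] [NormedSpace ℝ V]

/-- `Carries2 A A' B B'`: a smooth diffeomorphism of `V` which is the identity outside a bounded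
set maps `A` onto `B` and `A'` onto `B'`. -/
def Carries2 (A A' B B' : Set V) : Prop :=
  ∃ φ ψ : V → V, ContDiff ℝ ∞ φ ∧ ContDiff ℝ ∞ ψ ∧ (∀ x, ψ (φ x) = x) ∧ (∀ x, φ (ψ x) = x) ∧
    (∃ R : ℝ, ∀ x, R ≤ ‖x‖ → φ x = x) ∧ φ '' A = B ∧ φ '' A' = B'

theorem Carries2.refl (A A' : Set V) : Carries2 A A' A A' :=
  ⟨id, id, contDiff_id, contDiff_id, fun _ => rfl, fun _ => rfl, ⟨0, fun _ _ => rfl⟩, by simp,
    by simp⟩

theorem Carries2.symm {A A' B B' : Set V} (h : Carries2 A A' B B') : Carries2 B B' A A' := by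
  obtain ⟨φ, ψ, h1, h2, h3, h4, ⟨R, hR⟩, h6, h7⟩ := h
  have hid : ψ ∘ φ = id := funext h3
  refine ⟨ψ, φ, h2, h1, h4, h3, ⟨R, supp_inv h3 R hR⟩, ?_, ?_⟩
  · rw [← h6, ← Set.image_comp, hid, Set.image_id]
  · rw [← h7, ← Set.image_comp, hid, Set.image_id]

theorem Carries2.trans {A A' B B' C C' : Set V} (h : Carries2 A A' B B')
    (h' : Carries2 B B' C C') : Carries2 A A' C C' := by
  obtain ⟨φ, ψ, h1, h2, h3, h4, ⟨R, hR⟩, h6, h7⟩ := h
  obtain ⟨φ', ψ', k1, k2, k3, k4, ⟨R', hR'⟩, k6, k7⟩ := h'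
  refine ⟨φ' ∘ φ, ψ ∘ ψ', k1.comp h1, h2.comp k2, ?_, ?_,
    ⟨max R R', supp_comp (φ := φ) (φ' := φ') hR hR'⟩, ?_, ?_⟩
  · intro x; simp [k3, h3]
  · intro x; simp [k4, h4]
  · rw [Set.image_comp, h6, k6]
  · rw [Set.image_comp, h7, k7]

theorem Carries2.carries {A A' B B' : Set V} (h : Carries2 A A' B B') : Carries A B := by
  obtain ⟨φ, ψ, h1, h2, h3, h4, hR, h6, -⟩ := h
  exact ⟨φ, ψ, h1, h2, h3, h4, hR, h6⟩

theorem Carries2.carries' {A A' B B' : Set V} (h : Carries2 A A' B B') : Carries A' B' := by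
  obtain ⟨φ, ψ, h1, h2, h3, h4, hR, -, h7⟩ := h
  exact ⟨φ, ψ, h1, h2, h3, h4, hR, h7⟩

end

variable {V : Type*} [NormedAddCommGroup V] [InnerProductSpace ℝ V] [FiniteDimensional ℝ V]

private theorem family_gradient_contDiff' (f : V → ℝ) (hf : ContDiff ℝ ∞ f) :
    ContDiff ℝ ∞ (gradient f) := by
  have h1 : ContDiff ℝ ∞ (fderiv ℝ f) := hf.fderiv_right (by simp)
  have h2 : gradient f = fun x => (InnerProductSpace.toDual ℝ V).symm (fderiv ℝ f x) := rfl
  rw [h2]
  exact (InnerProductSpace.toDual ℝ V).symm.contDiff.comp h1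

/-- The sign of a path of functions along a path of bijections carrying zero sets to zero sets is
constant. -/
theorem sign_path (a b : ℝ) (u : ℝ → ℝ) (hu : ContinuousOn u (Set.uIcc a b))
    (hne : ∀ s ∈ Set.uIcc a b, u s ≠ 0) : (u a ≤ 0 ↔ u b ≤ 0) := by
  have key : ∀ x y : ℝ, ContinuousOn u (Set.uIcc x y) → (∀ s ∈ Set.uIcc x y, u s ≠ 0) →
      u x ≤ 0 → u y ≤ 0 := by
    intro x y hc hn hx
    by_contra hy
    push Not at hy
    have := intermediate_value_uIcc hc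
    have h0 : (0 : ℝ) ∈ Set.uIcc (u x) (u y) := by
      rw [Set.mem_uIcc]; left; exact ⟨hx, hy.le⟩
    obtain ⟨s, hs, hs0⟩ := this h0
    exact hn s hs hs0
  constructor
  · exact key a b hu hne
  · intro h
    refine key b a ?_ ?_ h
    · rwa [Set.uIcc_comm]
    · rwa [Set.uIcc_comm]

theorem family_local2 (G : ℝ × V → ℝ) (hG : ContDiff ℝ ∞ G) (K : Set V) (hK : IsCompact K)
    (hz : ∀ s ∈ Set.Icc (0 : ℝ) 1, ∀ x, G (s, x) = 0 →
      x ∈ K ∧ fderiv ℝ (fun y => G (s, y)) x ≠ 0) (s₀ : ℝ) (hs₀ : s₀ ∈ Set.Icc (0 : ℝ) 1) :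
    ∃ ε : ℝ, 0 < ε ∧ ∀ s ∈ Set.Icc (0 : ℝ) 1, |s - s₀| < ε →
      Carries2 {x : V | G (s₀, x) = 0} {x : V | G (s₀, x) ≤ 0}
        {x : V | G (s, x) = 0} {x : V | G (s, x) ≤ 0} := by
  have : ProperSpace V := FiniteDimensional.proper ℝ V
  set Z : Set V := {x : V | G (s₀, x) = 0} with hZdef
  have hGc : Continuous G := hG.continuous
  have hG0 : ContDiff ℝ ∞ (fun y => G (s₀, y)) := hG.comp (contDiff_const.prodMk contDiff_id)
  have hZclosed : IsClosed Z := isClosed_eq hG0.continuous continuous_const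
  have hZK : Z ⊆ K := fun x hx => (hz s₀ hs₀ x hx).1
  have hZc : IsCompact Z := hK.of_isClosed_subset hZclosed hZK
  obtain ⟨ε, U, h, hε, hU, hZU, hh, hh0, hhG⟩ :=
    implicit_step G hG s₀ Z hZc (fun x hx => (hz s₀ hs₀ x hx).2)
  obtain ⟨V1, hV1o, hZV1, hV1U, hV1c⟩ := exists_open_between_and_isCompact_closure hZc hU hZU
  obtain ⟨V3, hV3o, hV13, hV3U, hV3c⟩ := exists_open_between_and_isCompact_closure hV1c hU hV1U
  obtain ⟨V2, hV2o, hZV2, hV21, hV2c⟩ := exists_open_between_and_isCompact_closure hZc hV1o hZV1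
  obtain ⟨χ, hχ, hχr, hχ0, hχ1⟩ := exists_contMDiff_zero_iff_one_iff_of_isClosed
    (M := V) (modelWithCornersSelf ℝ V) (n := (⊤ : ℕ∞)) (s := V3ᶜ) (t := closure V1)
    hV3o.isClosed_compl isClosed_closure
    (Set.disjoint_left.2 (fun x hx hx' => hx (hV13 hx')))
  have hχs : ContDiff ℝ ∞ χ := hχ.contDiff
  set X : V → V := gradient (fun y => G (s₀, y)) with hXdef
  have hX : ContDiff ℝ ∞ X := family_gradient_contDiff' _ hG0
  set g : ℝ × V → V := fun q => (χ q.2 * h q) • X q.2 with hgdef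
  have hg0 : ∀ x, g (s₀, x) = 0 := by
    intro x
    by_cases hx : x ∈ U
    · simp [hgdef, hh0 x hx]
    · have : χ x = 0 := (hχ0 x).1 (fun hx3 => hx (hV3U (subset_closure hx3)))
      simp [hgdef, this]
  have hgz : ∀ s x, x ∉ V3 → g (s, x) = 0 := by
    intro s x hx
    have : χ x = 0 := (hχ0 x).1 hx
    simp [hgdef, this]
  have hgs : ContDiffOn ℝ ∞ g (Set.Ioo (s₀ - ε) (s₀ + ε) ×ˢ (Set.univ : Set V)) := by
    rintro ⟨s, x⟩ ⟨hs, -⟩
    apply ContDiffAt.contDiffWithinAt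
    by_cases hx : x ∈ U
    · have hat : ContDiffAt ℝ ∞ h (s, x) :=
        hh.contDiffAt ((isOpen_Ioo.prod hU).mem_nhds ⟨hs, hx⟩)
      have h1 : ContDiffAt ℝ ∞ (fun q : ℝ × V => χ q.2) (s, x) :=
        (hχs.comp contDiff_snd).contDiffAt
      have h2 : ContDiffAt ℝ ∞ (fun q : ℝ × V => X q.2) (s, x) :=
        (hX.comp contDiff_snd).contDiffAt
      exact (h1.mul hat).smul h2
    · have hx' : x ∈ (closure V3)ᶜ := fun h3 => hx (hV3U h3)
      have hev : g =ᶠ[𝓝 (s, x)] (fun _ => (0 : V)) := by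
        have hop : IsOpen ((Set.univ : Set ℝ) ×ˢ (closure V3)ᶜ) :=
          isOpen_univ.prod isClosed_closure.isOpen_compl
        filter_upwards [hop.mem_nhds (show (s, x) ∈ (Set.univ : Set ℝ) ×ˢ (closure V3)ᶜ from
          ⟨Set.mem_univ _, hx'⟩)] with q hq
        exact hgz q.1 q.2 (fun h3 => hq.2 (subset_closure h3))
      exact contDiffAt_const.congr_of_eventuallyEq hev
  obtain ⟨R, hR⟩ : ∃ R : ℝ, ∀ x ∈ V3, ‖x‖ < R := by
    obtain ⟨R, hR⟩ := hV3c.isBounded.subset_ball (0 : V)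
    exact ⟨R, fun x hx => by simpa using hR (subset_closure hx)⟩
  have hgR : ∀ s x, R ≤ ‖x‖ → g (s, x) = 0 := fun s x hx =>
    hgz s x (fun h3 => absurd (hR x h3) (not_lt.2 hx))
  obtain ⟨ε₁, hε₁, hε₁ε, hd1⟩ := close_C1 g s₀ ε hε hgs hg0 R hgR
  obtain ⟨d, hd, hthick⟩ := hV2c.exists_thickening_subset_open hV1o hV21
  -- the zero set stays in V2
  have hcomp : IsCompact (K \ V2) := hK.diff hV2o
  have ev1 : ∀ᶠ s in 𝓝 s₀, ∀ y ∈ K \ V2, G (s, y) ≠ 0 := by
    apply hcomp.eventually_forall_of_forall_eventually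
    rintro y ⟨-, hy⟩
    have hne : G (s₀, y) ≠ 0 := fun h0 => hy (hZV2 h0)
    have := (hGc.continuousAt (x := (s₀, y))).eventually_ne hne
    simpa using this
  have ev2 : ∀ᶠ s in 𝓝 s₀, ∀ y ∈ closure V3, ‖g (s, y)‖ < d := by
    apply hV3c.eventually_forall_of_forall_eventually
    intro y hy
    have hca : ContinuousAt g (s₀, y) :=
      (hgs.contDiffAt ((isOpen_Ioo.prod isOpen_univ).mem_nhds
        ⟨⟨by linarith, by linarith⟩, Set.mem_univ _⟩)).continuousAt
    have hlt : ‖g (s₀, y)‖ < d := by rw [hg0 y, norm_zero]; exact hd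
    have := hca.norm.eventually_lt_const hlt
    simpa using this
  obtain ⟨ε₂, hε₂, hball⟩ := Metric.eventually_nhds_iff.1 (ev1.and ev2)
  have hmain : ∀ s ∈ Set.Icc (0 : ℝ) 1, |s - s₀| < min ε₁ ε₂ → ∃ ψ : V → V,
      ContDiff ℝ ∞ (fun x => x + g (s, x)) ∧ ContDiff ℝ ∞ ψ ∧ (∀ x, ψ (x + g (s, x)) = x) ∧
      (∀ x, ψ x + g (s, ψ x) = x) ∧
      (fun x => x + g (s, x)) '' {x : V | G (s₀, x) = 0} = {x : V | G (s, x) = 0} := by
    intro s hs hss
    have hs1 : |s - s₀| < ε₁ := lt_of_lt_of_le hss (min_le_left _ _)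
    have hs2 : |s - s₀| < ε₂ := lt_of_lt_of_le hss (min_le_right _ _)
    obtain ⟨hA, hB⟩ := hball (show dist s s₀ < ε₂ by rwa [Real.dist_eq])
    have hsI : s ∈ Set.Ioo (s₀ - ε) (s₀ + ε) := by
      have := abs_lt.1 (lt_of_lt_of_le hs1 hε₁ε)
      exact ⟨by linarith [this.1], by linarith [this.2]⟩
    have hgsm : ContDiff ℝ ∞ (fun y => g (s, y)) := by
      rw [contDiff_iff_contDiffAt]
      intro y
      have hat : ContDiffAt ℝ ∞ g (s, y) :=
        hgs.contDiffAt ((isOpen_Ioo.prod isOpen_univ).mem_nhds ⟨hsI, Set.mem_univ _⟩)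
      exact ContDiffAt.comp y hat (contDiffAt_const.prodMk contDiffAt_id)
    obtain ⟨ψ, hψ, hψ1, hψ2⟩ := small_diffeo (fun y => g (s, y)) hgsm (hd1 s hs1)
    refine ⟨ψ, contDiff_id.add hgsm, hψ, hψ1, hψ2, ?_⟩
    have key : ∀ x ∈ V1, G (s, x + g (s, x)) = G (s₀, x) := by
      intro x hx
      have hc1 : χ x = 1 := (hχ1 x).1 (subset_closure hx)
      have := hhG s hsI x (hV1U (subset_closure hx))
      rw [← this]
      simp only [hgdef, hc1, one_mul, hXdef]
    have hsmall : ∀ x, ‖g (s, x)‖ < d := by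
      intro x
      by_cases hx : x ∈ V3
      · exact hB x (subset_closure hx)
      · rw [hgz s x hx, norm_zero]; exact hd
    apply Set.Subset.antisymm
    · rintro _ ⟨x, hx, rfl⟩
      show G (s, x + g (s, x)) = 0
      rw [key x (hZV1 hx)]
      exact hx
    · intro y hy
      have hyK : y ∈ K := (hz s hs y hy).1
      have hyV2 : y ∈ V2 := by
        by_contra hcon
        exact hA y ⟨hyK, hcon⟩ hy
      have hxy : ψ y + g (s, ψ y) = y := hψ2 y
      have hxV1 : ψ y ∈ V1 := by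
        apply hthick
        rw [Metric.mem_thickening_iff]
        refine ⟨y, subset_closure hyV2, ?_⟩
        rw [dist_eq_norm]
        have : ψ y - y = - g (s, ψ y) := by
          nth_rewrite 2 [← hxy]
          abel
        rw [this, norm_neg]
        exact hsmall _
      refine ⟨ψ y, ?_, hxy⟩
      show G (s₀, ψ y) = 0
      rw [← key (ψ y) hxV1, hxy]
      exact hy
  refine ⟨min ε₁ ε₂, lt_min hε₁ hε₂, ?_⟩
  intro s hs hss
  obtain ⟨ψ, hφs, hψ, hψ1, hψ2, him⟩ := hmain s hs hss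
  refine ⟨fun x => x + g (s, x), ψ, hφs, hψ, hψ1, hψ2,
    ⟨R, fun x hx => by simp only [hgR s x hx, add_zero]⟩, him, ?_⟩
  -- the sign is preserved
  have hsub : ∀ r ∈ Set.uIcc s₀ s, r ∈ Set.Icc (0 : ℝ) 1 ∧ |r - s₀| < min ε₁ ε₂ := by
    intro r hr
    refine ⟨Set.uIcc_subset_Icc hs₀ hs hr, ?_⟩
    have h1 := Set.abs_sub_left_of_mem_uIcc hr
    rw [abs_sub_comm] at hss ⊢
    rw [abs_sub_comm] at hss
    calc |s₀ - r| = |r - s₀| := abs_sub_comm _ _
      _ ≤ |s - s₀| := h1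
      _ < _ := hss
  have hsign : ∀ x : V, (G (s₀, x) ≤ 0 ↔ G (s, x + g (s, x)) ≤ 0) := by
    intro x
    by_cases hx : G (s₀, x) = 0
    · have h1 : x + g (s, x) ∈ {x : V | G (s, x) = 0} := by
        rw [← him]
        exact ⟨x, hx, rfl⟩
      have h2 : G (s, x + g (s, x)) = 0 := h1
      rw [hx, h2]
    · have hp := sign_path s₀ s (fun r => G (r, x + g (r, x))) ?_ ?_
      · simpa only [hg0 x, add_zero] using hp
      · have hco : ContinuousOn (fun r : ℝ => g (r, x)) (Set.uIcc s₀ s) := by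
          intro r hr
          have hr' := (hsub r hr).2
          have hr1 : |r - s₀| < ε := lt_of_lt_of_le (lt_of_lt_of_le hr' (min_le_left _ _)) hε₁ε
          have hr2 := abs_lt.1 hr1
          have hat : ContinuousAt g (r, x) :=
            (hgs.contDiffAt ((isOpen_Ioo.prod isOpen_univ).mem_nhds
              ⟨⟨by linarith [hr2.1], by linarith [hr2.2]⟩, Set.mem_univ _⟩)).continuousAt
          exact (ContinuousAt.comp (f := fun r : ℝ => (r, x)) hat
            (by fun_prop)).continuousWithinAt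
        exact hGc.comp_continuousOn (continuousOn_id.prodMk (continuousOn_const.add hco))
      · intro r hr h0
        obtain ⟨hr0, hr1⟩ := hsub r hr
        obtain ⟨ψ', -, -, hψ1', -, him'⟩ := hmain r hr0 hr1
        have h1 : x + g (r, x) ∈ {x : V | G (r, x) = 0} := h0
        rw [← him'] at h1
        obtain ⟨x', hx', hxx⟩ := h1
        have h2 : x' = x := by
          have := congrArg ψ' hxx
          rwa [hψ1', hψ1'] at this
        exact hx (h2 ▸ hx')
  ext y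
  constructor
  · rintro ⟨x, hx, rfl⟩
    exact (hsign x).1 hx
  · intro hy
    refine ⟨ψ y, ?_, hψ2 y⟩
    have : G (s, ψ y + g (s, ψ y)) ≤ 0 := by rw [hψ2 y]; exact hy
    exact (hsign (ψ y)).2 this

/-- The regular zero sets of a smooth family of functions are ambient isotopic, by
diffeomorphisms which also carry the sublevel sets onto each other. -/
theorem family_sub (G : ℝ × V → ℝ) (hG : ContDiff ℝ ∞ G) (K : Set V) (hK : IsCompact K)
    (hz : ∀ s ∈ Set.Icc (0 : ℝ) 1, ∀ x, G (s, x) = 0 →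
      x ∈ K ∧ fderiv ℝ (fun y => G (s, y)) x ≠ 0) :
    Carries2 {x : V | G (0, x) = 0} {x : V | G (0, x) ≤ 0}
      {x : V | G (1, x) = 0} {x : V | G (1, x) ≤ 0} :=
  chain (fun s t => Carries2 {x : V | G (s, x) = 0} {x : V | G (s, x) ≤ 0}
      {x : V | G (t, x) = 0} {x : V | G (t, x) ≤ 0})
    (fun _ => Carries2.refl _ _) (fun _ _ h => h.symm) (fun _ _ _ h h' => h.trans h')
    (fun s hs => family_local2 G hG K hK hz s hs)

end Pool.Schoen
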