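import Pool.Agent.H.MP_6c077c_gt.Tube

/-! No normal great circle arc enters the thick sphere on its way to a deep antipodal point. -/

set_option autoImplicit false

namespace Pool.Schoen

open scoped ContDiff RealInnerProductSpace
open Metric Set Real

variable {E E' : Type*} [NormedAddCommGroup E] [InnerProductSpace ℝ E] [FiniteDimensional ℝ E]
  [NormedAddCommGroup E'] [InnerProductSpace ℝ E'] [FiniteDimensional ℝ E']

omit [FiniteDimensional ℝ E] [FiniteDimensional ℝ E'] in
private theorem greatcircle_zero {f ν : E → E'} {α β : ℝ} (hα : 0 < α) (hβ : 0 < β) {F : E' → ℝ}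
    (hF : Side f ν α β F) {w : E'} (hw : w ∈ sphere (0 : E') 1) (h0 : F w = 0) :
    ∃ q ∈ sphere (0 : E) 1, w = f q := by
  by_cases h : ∃ p ∈ sphere (0 : E) 1, ∃ u ∈ Ioo (-α) β, w = tub f ν p u
  · obtain ⟨p, hp, u, hu, he⟩ := h
    have h1 := hF.tube p hp u (Ioo_subset_Icc_self hu)
    rw [← he, h0] at h1
    refine ⟨p, hp, ?_⟩
    rw [he, ← h1]
    simp [tub]
  · exfalso
    push Not at h
    rcases hF.off w hw h with h1 | h1
    · rw [h0] at h1; linarith
    · rw [h0] at h1; linarith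

private theorem greatcircle_cont {f ν : E → E'} {r₁ r₂ : ℝ} (h : Thick f ν r₁ r₂) {α β : ℝ}
    {F : E' → ℝ} (hF : Side f ν α β F) {p : E} (hp : p ∈ sphere (0 : E) 1) :
    Continuous (fun u => F (tub f ν p u)) := by
  have h1 : Continuous (fun u => tub f ν p u) := by
    unfold tub
    fun_prop
  exact hF.cont.comp_continuous h1 (fun u => mem_sphere_zero_iff_norm.2 (norm_tub h hp u))

private theorem greatcircle_cos {x y : ℝ} (hx : 0 ≤ x) (hy : y ≤ π) (h : cos x ≤ cos y) :
    y ≤ x := by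
  by_contra hlt
  push Not at hlt
  have := cos_lt_cos_of_nonneg_of_le_pi hx hy hlt
  linarith

/-- Deep points of the negative side are far from the hypersurface. -/
private theorem greatcircle_neg {f ν : E → E'} {r₁ r₂ : ℝ} (h : Thick f ν r₁ r₂)
    (hE : Nontrivial E) {α β : ℝ} (hα : 0 < α) (hα' : α < r₁) (hβ : 0 < β) (F : E' → ℝ)
    (hF : Side f ν α β F) {a : ℝ} (ha : 0 < a) (ha' : a < α)
    {c : E'} (hc : ‖c‖ = 1) (hca : F c ≤ -a) {q : E} (hq : q ∈ sphere (0 : E) 1) :
    ⟪c, f q⟫ ≤ cos a := by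
  obtain ⟨p, hp, u, hu, rfl, hle⟩ := exists_foot h hE hc
  have hu' := abs_le.1 hu
  have hG := greatcircle_cont h hF hp
  have key : u ≤ -a := by
    by_contra hua
    push Not at hua
    rcases le_or_gt u β with hb | hb
    · have h1 := hF.tube p hp u ⟨by linarith, hb⟩
      linarith
    · have hGβ := hF.tube p hp β ⟨by linarith, le_rfl⟩
      obtain ⟨t, ht, ht0⟩ := intermediate_value_Icc' hb.le hG.continuousOn
        (show (0 : ℝ) ∈ Icc (F (tub f ν p u)) (F (tub f ν p β)) from ⟨by linarith, by linarith⟩)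
      simp only at ht0
      obtain ⟨s, hs, hse⟩ := greatcircle_zero hα hβ hF
        (mem_sphere_zero_iff_norm.2 (norm_tub h hp t)) ht0
      have h2 := hle s hs
      rw [← hse, inner_tub h hp] at h2
      have h3 := greatcircle_cos (by linarith [ht.2]) hu'.2 h2
      linarith [ht.1]
  refine (hle q hq).trans ?_
  rw [← cos_neg u]
  exact cos_le_cos_of_nonneg_of_le_pi ha.le (by linarith [hu'.1]) (by linarith)

/-- Deep points of the positive side are far from the hypersurface. -/
private theorem greatcircle_pos {f ν : E → E'} {r₁ r₂ : ℝ} (h : Thick f ν r₁ r₂)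
    (hE : Nontrivial E) {α β : ℝ} (hα : 0 < α) (hβ : 0 < β) (F : E' → ℝ)
    (hF : Side f ν α β F) {b : ℝ} (hb : 0 < b) (hb' : b < β)
    {c : E'} (hc : ‖c‖ = 1) (hcb : b ≤ F c) {q : E} (hq : q ∈ sphere (0 : E) 1) :
    ⟪c, f q⟫ ≤ cos b := by
  obtain ⟨p, hp, u, hu, rfl, hle⟩ := exists_foot h hE hc
  have hu' := abs_le.1 hu
  have hG := greatcircle_cont h hF hp
  have key : b ≤ u := by
    by_contra hua
    push Not at hua
    rcases le_or_gt (-α) u with hb1 | hb1
    · have h1 := hF.tube p hp u ⟨hb1, by linarith⟩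
      linarith
    · have hGα := hF.tube p hp (-α) ⟨le_rfl, by linarith⟩
      obtain ⟨t, ht, ht0⟩ := intermediate_value_Icc' hb1.le hG.continuousOn
        (show (0 : ℝ) ∈ Icc (F (tub f ν p (-α))) (F (tub f ν p u)) from
          ⟨by linarith, by linarith⟩)
      simp only at ht0
      obtain ⟨s, hs, hse⟩ := greatcircle_zero hα hβ hF
        (mem_sphere_zero_iff_norm.2 (norm_tub h hp t)) ht0
      have h2 := hle s hs
      rw [← hse, inner_tub h hp, ← cos_neg (u - t), ← cos_neg u] at h2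
      have h3 := greatcircle_cos (by linarith [ht.1]) (by linarith [hu'.1]) h2
      linarith [ht.2]
  refine (hle q hq).trans ?_
  exact cos_le_cos_of_nonneg_of_le_pi hb.le hu'.2 key

private theorem greatcircle_two {x r : ℝ} (hx : 0 < x) (hx' : x < π) (hr : 0 < r)
    (hr' : r < π / 2) (h : cos (x - r) ≤ cos r) : 2 * r ≤ x := by
  have hpi := pi_pos
  rcases le_or_gt r x with h1 | h1
  · have := greatcircle_cos (by linarith) (by linarith) h
    linarith
  · rw [← cos_neg (x - r)] at h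
    have := greatcircle_cos (by linarith) (by linarith) h
    linarith

theorem great_circle {f ν : E → E'} {r₁ r₂ : ℝ} (h : Thick f ν r₁ r₂) (hE : Nontrivial E)
    {α β : ℝ} (hα : 0 < α) (hα' : α < r₁) (hβ : 0 < β) (hβ' : β < r₂) (F : E' → ℝ)
    (hF : Side f ν α β F) {a b : ℝ} (ha : 0 < a) (ha' : a < α) (hb : 0 < b) (hb' : b < β)
    (hsum : π < 2 * (r₁ + r₂) + a + b) {c : E'} (hc : ‖c‖ = 1) (hca : F c ≤ -a)
    (hcb : b ≤ F (-c)) {p : E} (hp : p ∈ sphere (0 : E) 1) {θ : ℝ} (hθ : θ ∈ Ioo 0 π) :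
    c ≠ tub f ν p θ := by
  intro he
  have hG := greatcircle_cont h hF hp
  have hlt₁ := h.lt₁
  have hlt₂ := h.lt₂
  have hpos₁ := h.pos₁
  have hpos₂ := h.pos₂
  have hpi := pi_pos
  obtain ⟨hθ0, hθπ⟩ := hθ
  have hnc : -c = tub f ν p (θ - π) := by
    rw [he]
    simp only [tub, cos_sub_pi, sin_sub_pi, neg_smul]
    abel
  -- the positive arc
  have hβθ : β < θ := by
    by_contra hle
    push Not at hle
    have h1 := hF.tube p hp θ ⟨by linarith, hle⟩
    rw [← he] at h1
    linarith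
  have hGβ := hF.tube p hp β ⟨by linarith, le_rfl⟩
  have hGθ : F (tub f ν p θ) ≤ -a := by rw [← he]; exact hca
  obtain ⟨t, ht, ht0⟩ := intermediate_value_Icc' hβθ.le hG.continuousOn
    (show (0 : ℝ) ∈ Icc (F (tub f ν p θ)) (F (tub f ν p β)) from ⟨by linarith, by linarith⟩)
  simp only at ht0
  obtain ⟨s, hs, hse⟩ := greatcircle_zero hα hβ hF
    (mem_sphere_zero_iff_norm.2 (norm_tub h hp t)) ht0
  have hb2 := h.ball₂ p hp s hs
  rw [← hse, inner_tub h hp] at hb2
  have ht2 : 2 * r₂ ≤ t :=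
    greatcircle_two (by linarith [ht.1]) (by linarith [ht.2]) hpos₂ hlt₂ hb2
  have hθa : a ≤ θ - t := by
    have h1 := greatcircle_neg h hE hα hα' hβ F hF ha ha' hc hca hs
    rw [← hse, he, inner_tub h hp] at h1
    exact greatcircle_cos (by linarith [ht.2]) (by linarith) h1
  -- the negative arc
  have hncn : ‖-c‖ = 1 := by rw [norm_neg, hc]
  have hαθ : θ - π < -α := by
    by_contra hle
    push Not at hle
    have h1 := hF.tube p hp (θ - π) ⟨hle, by linarith⟩
    rw [← hnc] at h1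
    linarith
  have hGα := hF.tube p hp (-α) ⟨le_rfl, by linarith⟩
  have hGπ : b ≤ F (tub f ν p (θ - π)) := by rw [← hnc]; exact hcb
  obtain ⟨v, hv, hv0⟩ := intermediate_value_Icc' hαθ.le hG.continuousOn
    (show (0 : ℝ) ∈ Icc (F (tub f ν p (-α))) (F (tub f ν p (θ - π))) from
      ⟨by linarith, by linarith⟩)
  simp only at hv0
  obtain ⟨s', hs', hse'⟩ := greatcircle_zero hα hβ hF
    (mem_sphere_zero_iff_norm.2 (norm_tub h hp v)) hv0
  have hb1 := h.ball₁ p hp s' hs'
  rw [← hse', inner_tub h hp, ← cos_neg (v - -r₁)] at hb1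
  have hv2 : 2 * r₁ ≤ -v :=
    greatcircle_two (by linarith [hv.2]) (by linarith [hv.1]) hpos₁ hlt₁
      (by rw [show -v - r₁ = -(v - -r₁) by ring]; exact hb1)
  have hθb : b ≤ v - (θ - π) := by
    have h1 := greatcircle_pos h hE hα hβ F hF hb hb' hncn hcb hs'
    rw [← hse', hnc, inner_tub h hp, ← cos_neg] at h1
    have := greatcircle_cos (by linarith [hv.1]) (by linarith) h1
    linarith
  linarith

end Pool.Schoen
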