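import Pool.Agent.H.MP_6c077c_gt.Ray

/-! The one-sided criterion in the unit sphere. -/

set_option autoImplicit false

namespace Pool.Schoen

open scoped ContDiff RealInnerProductSpace
open Metric Set Real

section stereo

set_option linter.unusedSectionVars false

variable {W : Type*} [NormedAddCommGroup W] [InnerProductSpace ℝ W] [FiniteDimensional ℝ W]

/-- radial stereographic projection -/
noncomputable def stereo_S (v : W) (y : W) : (ℝ ∙ v)ᗮ :=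
  (2 / (‖y‖ - ⟪v, y⟫)) • (ℝ ∙ v)ᗮ.orthogonalProjectionOnto y

/-- inverse stereographic projection -/
noncomputable def stereo_T (v : W) (x : (ℝ ∙ v)ᗮ) : W := stereoInvFunAux v (x : W)

/-- the map of the sphere given by a map of the plane, extended radially -/
noncomputable def stereo_A (v : W) (φ : (ℝ ∙ v)ᗮ → (ℝ ∙ v)ᗮ) (y : W) : W :=
  open Classical in if ‖y‖ = ⟪v, y⟫ then y else ‖y‖ • stereo_T v (φ (stereo_S v y))

variable {v : W}

theorem stereo_norm_T (hv : ‖v‖ = 1) (x : (ℝ ∙ v)ᗮ) : ‖stereo_T v x‖ = 1 := by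
  have h := stereoInvFunAux_mem hv x.2
  rwa [mem_sphere_zero_iff_norm] at h

theorem stereo_inner_T (hv : ‖v‖ = 1) (x : (ℝ ∙ v)ᗮ) :
    ⟪v, stereo_T v x⟫ = (‖x‖ ^ 2 - 4) / (‖x‖ ^ 2 + 4) := by
  have h2 : ⟪v, (x : W)⟫ = 0 := Submodule.mem_orthogonal_singleton_iff_inner_right.mp x.2
  have h3 : ⟪v, v⟫ = (1 : ℝ) := by rw [real_inner_self_eq_norm_sq, hv]; norm_num
  unfold stereo_T
  rw [stereoInvFunAux_apply, inner_smul_right, inner_add_right, inner_smul_right, inner_smul_right,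
    h2, h3]
  rw [Submodule.coe_norm]
  ring

theorem stereo_T_ne (hv : ‖v‖ = 1) (x : (ℝ ∙ v)ᗮ) : ‖stereo_T v x‖ ≠ ⟪v, stereo_T v x⟫ := by
  rw [stereo_norm_T hv, stereo_inner_T hv]
  intro h
  have h1 : (0 : ℝ) < ‖x‖ ^ 2 + 4 := by positivity
  rw [eq_div_iff h1.ne'] at h
  linarith

theorem stereo_ST (hv : ‖v‖ = 1) (x : (ℝ ∙ v)ᗮ) : stereo_S v (stereo_T v x) = x := by
  have h := stereo_right_inv hv x
  unfold stereo_S
  rw [stereo_norm_T hv]
  exact h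

theorem stereo_TS_unit (hv : ‖v‖ = 1) {y : W} (hy : ‖y‖ = 1) (hne : ‖y‖ ≠ ⟪v, y⟫) :
    stereo_T v (stereo_S v y) = y := by
  have h1 : y ≠ v := by
    rintro rfl
    apply hne
    rw [real_inner_self_eq_norm_sq, hy]; norm_num
  have h := stereo_left_inv hv (x := ⟨y, by simpa using hy⟩) h1
  have h2 := congrArg (fun z : sphere (0 : W) 1 => (z : W)) h
  have h3 : stereo_S v y = stereoToFun v y := by
    unfold stereo_S
    rw [hy]
    rfl
  rw [h3]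
  exact h2

theorem stereo_S_smul {t : ℝ} (ht : 0 < t) (y : W) : stereo_S v (t • y) = stereo_S v y := by
  unfold stereo_S
  rw [map_smul, norm_smul, inner_smul_right, Real.norm_eq_abs, abs_of_pos ht, smul_smul]
  congr 1
  rw [← mul_sub]
  by_cases h : ‖y‖ - ⟪v, y⟫ = 0
  · rw [h]; simp
  · field_simp

theorem stereo_TS (hv : ‖v‖ = 1) {y : W} (hy : y ≠ 0) (hne : ‖y‖ ≠ ⟪v, y⟫) :
    ‖y‖ • stereo_T v (stereo_S v y) = y := by
  have hp : 0 < ‖y‖ := norm_pos_iff.2 hy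
  have h1 : ‖‖y‖⁻¹ • y‖ = 1 := by
    rw [norm_smul, norm_inv, norm_norm, inv_mul_cancel₀ hp.ne']
  have h2 : ‖‖y‖⁻¹ • y‖ ≠ ⟪v, ‖y‖⁻¹ • y⟫ := by
    rw [h1, inner_smul_right]
    intro h
    apply hne
    have := congrArg (fun s => ‖y‖ * s) h
    simp only [mul_one, ← mul_assoc, mul_inv_cancel₀ hp.ne', one_mul] at this
    exact this
  have h3 := stereo_TS_unit hv h1 h2
  rw [stereo_S_smul (inv_pos.2 hp)] at h3
  rw [h3, smul_smul, mul_inv_cancel₀ hp.ne', one_smul]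

theorem stereo_norm_S (hv : ‖v‖ = 1) {y : W} (hy : y ≠ 0) (hne : ‖y‖ ≠ ⟪v, y⟫) :
    ‖stereo_S v y‖ ^ 2 * (‖y‖ - ⟪v, y⟫) = 4 * (‖y‖ + ⟪v, y⟫) := by
  have h1 := stereo_TS hv hy hne
  have h2 : ⟪v, y⟫ = ‖y‖ * ((‖stereo_S v y‖ ^ 2 - 4) / (‖stereo_S v y‖ ^ 2 + 4)) := by
    conv_lhs => rw [← h1]
    rw [inner_smul_right, stereo_inner_T hv]
  rw [h2]
  have h3 : (0 : ℝ) < ‖stereo_S v y‖ ^ 2 + 4 := by positivity
  field_simp
  ring

theorem stereo_contDiffAt_S {y : W} (hy : y ≠ 0) (hne : ‖y‖ ≠ ⟪v, y⟫) :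
    ContDiffAt ℝ ∞ (stereo_S v) y := by
  have h1 : ContDiffAt ℝ ∞ (fun y : W => 2 / (‖y‖ - ⟪v, y⟫)) y := by
    refine contDiffAt_const.div ((contDiffAt_norm ℝ hy).sub (innerSL ℝ v).contDiff.contDiffAt) ?_
    intro h
    exact hne (sub_eq_zero.1 h)
  have h2 : ContDiffAt ℝ ∞ (fun y : W => (ℝ ∙ v)ᗮ.orthogonalProjectionOnto y) y :=
    ((ℝ ∙ v)ᗮ.orthogonalProjectionOnto).contDiff.contDiffAt
  exact h1.smul h2

theorem stereo_contDiff_T : ContDiff ℝ ∞ (stereo_T v) := by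
  have h : ContDiff ℝ ∞ (stereoInvFunAux v) := contDiff_stereoInvFunAux
  exact h.comp (ℝ ∙ v)ᗮ.subtypeL.contDiff

theorem stereo_A_contDiffOn (hv : ‖v‖ = 1) {φ : (ℝ ∙ v)ᗮ → (ℝ ∙ v)ᗮ} (hφ : ContDiff ℝ ∞ φ)
    {R : ℝ} (hR : ∀ x, R ≤ ‖x‖ → φ x = x) : ContDiffOn ℝ ∞ (stereo_A v φ) {0}ᶜ := by
  intro y hy
  have hy0 : y ≠ 0 := hy
  refine ContDiffAt.contDiffWithinAt ?_
  have hc1 : Continuous (fun z : W => ‖z‖) := continuous_norm
  have hc2 : Continuous (fun z : W => ⟪v, z⟫) := (innerSL ℝ v).continuous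
  by_cases h : ‖y‖ = ⟪v, y⟫
  · -- near the ray of `v`
    set R' := max R 0 with hR'
    have hR0 : 0 ≤ R' := le_max_right _ _
    have hO : IsOpen {z : W | R' ^ 2 * (‖z‖ - ⟪v, z⟫) < 4 * (‖z‖ + ⟪v, z⟫)} :=
      isOpen_lt (continuous_const.mul (hc1.sub hc2)) (continuous_const.mul (hc1.add hc2))
    have hyO : y ∈ {z : W | R' ^ 2 * (‖z‖ - ⟪v, z⟫) < 4 * (‖z‖ + ⟪v, z⟫)} := by
      have hp : 0 < ‖y‖ := norm_pos_iff.2 hy0
      show R' ^ 2 * (‖y‖ - ⟪v, y⟫) < 4 * (‖y‖ + ⟪v, y⟫)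
      rw [← h]
      simp only [sub_self, mul_zero]
      linarith
    have he : stereo_A v φ =ᶠ[nhds y] id := by
      filter_upwards [hO.mem_nhds hyO] with z hz
      have hz' : R' ^ 2 * (‖z‖ - ⟪v, z⟫) < 4 * (‖z‖ + ⟪v, z⟫) := hz
      unfold stereo_A
      by_cases hzv : ‖z‖ = ⟪v, z⟫
      · rw [if_pos hzv]; rfl
      · rw [if_neg hzv]
        have hz0 : z ≠ 0 := by
          rintro rfl
          simp at hz'
        have h1 := stereo_norm_S hv hz0 hzv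
        have h2 : 0 < ‖z‖ - ⟪v, z⟫ := by
          have h3 : ⟪v, z⟫ ≤ ‖z‖ := by
            have := real_inner_le_norm v z
            rwa [hv, one_mul] at this
          exact lt_of_le_of_ne (sub_nonneg.2 h3) (fun h4 => hzv (sub_eq_zero.1 h4.symm))
        rw [← h1] at hz'
        have h3 : R' ^ 2 < ‖stereo_S v z‖ ^ 2 := lt_of_mul_lt_mul_right hz' h2.le
        have h4 : R' < ‖stereo_S v z‖ := lt_of_pow_lt_pow_left₀ 2 (norm_nonneg _) h3
        rw [hR _ ((le_max_left _ _).trans h4.le), stereo_TS hv hz0 hzv]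
        rfl
    exact contDiffAt_id.congr_of_eventuallyEq he
  · have hO : IsOpen {z : W | ‖z‖ ≠ ⟪v, z⟫} := isOpen_ne_fun hc1 hc2
    have he : stereo_A v φ =ᶠ[nhds y] fun z => ‖z‖ • stereo_T v (φ (stereo_S v z)) := by
      filter_upwards [hO.mem_nhds h] with z hz
      unfold stereo_A
      rw [if_neg hz]
    refine ContDiffAt.congr_of_eventuallyEq ?_ he
    refine (contDiffAt_norm ℝ hy0).smul ?_
    exact (stereo_contDiff_T.comp hφ).contDiffAt.comp y (stereo_contDiffAt_S hy0 h)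

theorem stereo_A_T (hv : ‖v‖ = 1) (φ : (ℝ ∙ v)ᗮ → (ℝ ∙ v)ᗮ) (x : (ℝ ∙ v)ᗮ) :
    stereo_A v φ (stereo_T v x) = stereo_T v (φ x) := by
  unfold stereo_A
  rw [if_neg (stereo_T_ne hv x), stereo_norm_T hv, one_smul, stereo_ST hv]

theorem stereo_A_norm (hv : ‖v‖ = 1) (φ : (ℝ ∙ v)ᗮ → (ℝ ∙ v)ᗮ) {y : W} (hy : ‖y‖ = 1) :
    ‖stereo_A v φ y‖ = 1 := by
  unfold stereo_A
  by_cases h : ‖y‖ = ⟪v, y⟫
  · rw [if_pos h]; exact hy
  · rw [if_neg h, hy, one_smul, stereo_norm_T hv]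

theorem stereo_A_inv (hv : ‖v‖ = 1) {φ ψ : (ℝ ∙ v)ᗮ → (ℝ ∙ v)ᗮ} (hφ : ∀ x, ψ (φ x) = x)
    {y : W} (hy : ‖y‖ = 1) : stereo_A v ψ (stereo_A v φ y) = y := by
  by_cases h : ‖y‖ = ⟪v, y⟫
  · have h1 : stereo_A v φ y = y := by unfold stereo_A; rw [if_pos h]
    have h2 : stereo_A v ψ y = y := by unfold stereo_A; rw [if_pos h]
    rw [h1, h2]
  · have h1 := stereo_TS_unit hv hy h
    rw [← h1, stereo_A_T hv, stereo_A_T hv, hφ]

/-- the key computation: derivatives along a curve orthogonal to the radius -/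
theorem stereo_key (hv : ‖v‖ = 1) {F : W → ℝ} (hF : ContDiffOn ℝ ∞ F {0}ᶜ)
    (x : (ℝ ∙ v)ᗮ) {w : W} (hw : ⟪w, stereo_T v x⟫ = 0) :
    ∃ ξ : (ℝ ∙ v)ᗮ, fderiv ℝ (fun x => F (stereo_T v x)) x ξ = fderiv ℝ F (stereo_T v x) w ∧
      ⟪x, ξ⟫ = 4 * ⟪v, w⟫ / (1 - ⟪v, stereo_T v x⟫) ^ 2 := by
  set y := stereo_T v x with hy
  have hy1 : ‖y‖ = 1 := stereo_norm_T hv x
  have hy0 : y ≠ 0 := by
    intro h
    rw [h] at hy1
    simp at hy1
  have hyne : ‖y‖ ≠ ⟪v, y⟫ := stereo_T_ne hv x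
  have hτ : (1 : ℝ) - ⟪v, y⟫ ≠ 0 := by
    rw [hy1] at hyne
    exact sub_ne_zero.2 hyne
  have hFy : DifferentiableAt ℝ F y :=
    ((hF y hy0).contDiffAt (isOpen_compl_singleton.mem_nhds hy0)).differentiableAt (by simp)
  have hG : DifferentiableAt ℝ (fun x => F (stereo_T v x)) x := by
    have h1 : DifferentiableAt ℝ (stereo_T v) x := stereo_contDiff_T.contDiffAt.differentiableAt
      (by simp)
    exact DifferentiableAt.comp x hFy h1
  -- the curve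
  have hγ : HasDerivAt (fun t : ℝ => y + t • w) w 0 := by
    have h1 : HasDerivAt (fun t : ℝ => t • w) ((1 : ℝ) • w) 0 := (hasDerivAt_id (0 : ℝ)).smul_const w
    rw [one_smul] at h1
    exact h1.const_add y
  have hn2 : ∀ t : ℝ, ‖y + t • w‖ ^ 2 = 1 + t ^ 2 * ‖w‖ ^ 2 := by
    intro t
    rw [norm_add_sq_real, hy1, inner_smul_right, real_inner_comm, hw, norm_smul, mul_pow,
      Real.norm_eq_abs, sq_abs]
    ring
  have hn : ∀ t : ℝ, ‖y + t • w‖ = √(1 + t ^ 2 * ‖w‖ ^ 2) := by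
    intro t
    rw [← hn2, Real.sqrt_sq (norm_nonneg _)]
  have hnd : HasDerivAt (fun t : ℝ => ‖y + t • w‖) 0 0 := by
    have h1 : HasDerivAt (fun t : ℝ => 1 + t ^ 2 * ‖w‖ ^ 2) 0 0 := by
      have h2 := (((hasDerivAt_id (0 : ℝ)).pow 2).mul_const (‖w‖ ^ 2)).const_add 1
      simpa using h2
    have h3 := h1.sqrt (by simp)
    rw [zero_div] at h3
    have h4 : (fun t : ℝ => ‖y + t • w‖) = fun t : ℝ => √(1 + t ^ 2 * ‖w‖ ^ 2) := funext hn
    rw [h4]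
    exact h3
  have hγ0 : ∀ t : ℝ, y + t • w ≠ 0 := by
    intro t h
    have := hn2 t
    rw [h] at this
    simp only [norm_zero] at this
    nlinarith [sq_nonneg (t * ‖w‖), mul_pow t ‖w‖ 2]
  have hev : ∀ᶠ t in nhds (0 : ℝ), ‖y + t • w‖ ≠ ⟪v, y + t • w⟫ := by
    have hO : IsOpen {t : ℝ | ‖y + t • w‖ ≠ ⟪v, y + t • w⟫} := by
      refine isOpen_ne_fun ?_ ?_
      · exact (continuous_const.add (continuous_id.smul continuous_const)).norm
      · exact (innerSL ℝ v).continuous.comp (continuous_const.add (continuous_id.smul continuous_const))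
    refine hO.mem_nhds ?_
    show ‖y + (0 : ℝ) • w‖ ≠ ⟪v, y + (0 : ℝ) • w⟫
    rw [zero_smul, add_zero]
    exact hyne
  have hSd : DifferentiableAt ℝ (stereo_S v) (y + (0 : ℝ) • w) := by
    rw [zero_smul, add_zero]
    exact (stereo_contDiffAt_S hy0 hyne).differentiableAt (by simp)
  set ξ := fderiv ℝ (stereo_S v) (y + (0 : ℝ) • w) w with hξ
  have hx : HasDerivAt (fun t : ℝ => stereo_S v (y + t • w)) ξ 0 := by
    have hS' : HasFDerivAt (stereo_S v) (fderiv ℝ (stereo_S v) (y + (0 : ℝ) • w))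
      (y + (0 : ℝ) • w) := hSd.hasFDerivAt
    exact hS'.comp_hasDerivAt (0 : ℝ) hγ
  have hx0 : stereo_S v (y + (0 : ℝ) • w) = x := by
    rw [zero_smul, add_zero, hy, stereo_ST hv]
  refine ⟨ξ, ?_, ?_⟩
  · -- chain rule
    have h1 : HasDerivAt (fun t : ℝ => F (stereo_T v (stereo_S v (y + t • w))))
        (fderiv ℝ (fun x => F (stereo_T v x)) x ξ) 0 := by
      have h2 : HasFDerivAt (fun x => F (stereo_T v x)) (fderiv ℝ (fun x => F (stereo_T v x)) x)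
          (stereo_S v (y + (0 : ℝ) • w)) := by
        rw [hx0]; exact hG.hasFDerivAt
      exact h2.comp_hasDerivAt (0 : ℝ) hx
    have h3 : HasDerivAt (fun t : ℝ => F (‖y + t • w‖⁻¹ • (y + t • w))) (fderiv ℝ F y w) 0 := by
      have h4 : HasDerivAt (fun t : ℝ => ‖y + t • w‖⁻¹ • (y + t • w)) w 0 := by
        have h5 := hnd.fun_inv (by rw [zero_smul, add_zero, hy1]; norm_num)
        have h6 := h5.fun_smul hγ
        simpa [hy1] using h6
      have h7 : HasFDerivAt F (fderiv ℝ F y) (‖y + (0 : ℝ) • w‖⁻¹ • (y + (0 : ℝ) • w)) := by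
        rw [zero_smul, add_zero, hy1, inv_one, one_smul]
        exact hFy.hasFDerivAt
      exact h7.comp_hasDerivAt (0 : ℝ) h4
    have h8 : (fun t : ℝ => F (stereo_T v (stereo_S v (y + t • w)))) =ᶠ[nhds 0]
        fun t : ℝ => F (‖y + t • w‖⁻¹ • (y + t • w)) := by
      filter_upwards [hev] with t ht
      have h9 := stereo_TS hv (hγ0 t) ht
      congr 1
      have hp : ‖y + t • w‖ ≠ 0 := (norm_pos_iff.2 (hγ0 t)).ne'
      calc stereo_T v (stereo_S v (y + t • w))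
          = ‖y + t • w‖⁻¹ • (‖y + t • w‖ • stereo_T v (stereo_S v (y + t • w))) := by
            rw [smul_smul, inv_mul_cancel₀ hp, one_smul]
        _ = ‖y + t • w‖⁻¹ • (y + t • w) := by rw [h9]
    exact (h1.congr_of_eventuallyEq h8.symm).unique h3
  · -- norm of the projection
    have h1 : HasDerivAt (fun t : ℝ => ‖stereo_S v (y + t • w)‖ ^ 2) (2 * ⟪x, ξ⟫) 0 := by
      have h2 := hx.norm_sq
      rw [hx0] at h2
      exact h2
    have hin : HasDerivAt (fun t : ℝ => ⟪v, y + t • w⟫) ⟪v, w⟫ 0 :=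
      (innerSL ℝ v).hasFDerivAt.comp_hasDerivAt (0 : ℝ) hγ
    have h3 : HasDerivAt (fun t : ℝ => 4 * (‖y + t • w‖ + ⟪v, y + t • w⟫) /
        (‖y + t • w‖ - ⟪v, y + t • w⟫)) (8 * ⟪v, w⟫ / (1 - ⟪v, y⟫) ^ 2) 0 := by
      have h4 := ((hnd.fun_add hin).const_mul 4).fun_div (hnd.fun_sub hin)
        (by rw [zero_smul, add_zero, hy1]; exact hτ)
      simp only [zero_smul, add_zero, hy1, zero_add, zero_sub] at h4
      have h5 : (8 : ℝ) * ⟪v, w⟫ / (1 - ⟪v, y⟫) ^ 2 =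
          (4 * ⟪v, w⟫ * (1 - ⟪v, y⟫) - 4 * (1 + ⟪v, y⟫) * -⟪v, w⟫) / (1 - ⟪v, y⟫) ^ 2 := by ring
      rw [h5]
      exact h4
    have h5 : (fun t : ℝ => ‖stereo_S v (y + t • w)‖ ^ 2) =ᶠ[nhds 0]
        fun t : ℝ => 4 * (‖y + t • w‖ + ⟪v, y + t • w⟫) / (‖y + t • w‖ - ⟪v, y + t • w⟫) := by
      filter_upwards [hev] with t ht
      rw [eq_div_iff (sub_ne_zero.2 ht)]
      exact stereo_norm_S hv (hγ0 t) ht
    have h6 := (h1.congr_of_eventuallyEq h5.symm).unique h3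
    have h7 : (2 : ℝ) * ⟪x, ξ⟫ = 2 * (4 * ⟪v, w⟫ / (1 - ⟪v, y⟫) ^ 2) := by
      rw [h6]; ring
    exact mul_left_cancel₀ two_ne_zero h7

theorem stereo_T_dist (hv : ‖v‖ = 1) (x : (ℝ ∙ v)ᗮ) :
    ‖stereo_T v x - v‖ ^ 2 * (‖x‖ ^ 2 + 4) = 16 := by
  have h1 : ‖stereo_T v x - v‖ ^ 2 = 2 - 2 * ((‖x‖ ^ 2 - 4) / (‖x‖ ^ 2 + 4)) := by
    rw [norm_sub_sq_real, stereo_norm_T hv, hv, real_inner_comm, stereo_inner_T hv]
    ring
  rw [h1]
  have h3 : (0 : ℝ) < ‖x‖ ^ 2 + 4 := by positivity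
  field_simp
  ring

end stereo

variable {W : Type*} [NormedAddCommGroup W] [InnerProductSpace ℝ W] [FiniteDimensional ℝ W]

/-- If no great semicircle from `-c` to `c` crosses `{F = 0}` orthogonally into the side of `c`
... then `{F = 0}` is carried to the equator orthogonal to `c` by a diffeomorphism of the sphere,
given as the restriction of maps of the ambient space. -/
theorem ray_sphere (F : W → ℝ) (hF : ContDiffOn ℝ ∞ F {0}ᶜ) (c : W) (hc : ‖c‖ = 1)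
    (hc1 : F c < 0) (hc2 : 0 < F (-c))
    (hin : ∀ y : W, ‖y‖ = 1 → F y = 0 → ∀ k : ℝ, 0 ≤ k →
      ∃ w : W, ⟪w, y⟫ = 0 ∧ fderiv ℝ F y w ≠ k * ⟪w, c⟫) :
    ∃ a b : W → W, ContDiffOn ℝ ∞ a {0}ᶜ ∧ ContDiffOn ℝ ∞ b {0}ᶜ ∧
      (∀ y, ‖y‖ = 1 → ‖a y‖ = 1 ∧ ‖b y‖ = 1 ∧ b (a y) = y ∧ a (b y) = y) ∧
      a '' {y : W | ‖y‖ = 1 ∧ F y = 0} = {y : W | ‖y‖ = 1 ∧ ⟪y, c⟫ = 0} := by
  set v : W := -c with hvdef
  have hv : ‖v‖ = 1 := by rw [hvdef, norm_neg, hc]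
  have hcv : c = -v := by rw [hvdef, neg_neg]
  have hv0 : v ≠ 0 := by
    intro h
    rw [h] at hv
    simp at hv
  set G : (ℝ ∙ v)ᗮ → ℝ := fun x => F (stereo_T v x) with hGdef
  have hT0 : ∀ x : (ℝ ∙ v)ᗮ, stereo_T v x ∈ ({0}ᶜ : Set W) := by
    intro x h
    have h1 := stereo_norm_T hv x
    rw [mem_singleton_iff.1 h] at h1
    simp at h1
  have hG : ContDiff ℝ ∞ G := by
    rw [contDiff_iff_contDiffAt]
    intro x
    have h1 : ContDiffAt ℝ ∞ F (stereo_T v x) :=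
      (hF _ (hT0 x)).contDiffAt (isOpen_compl_singleton.mem_nhds (hT0 x))
    exact h1.comp x stereo_contDiff_T.contDiffAt
  have hb : Bornology.IsBounded {x | G x ≤ 0} := by
    have h1 : ContinuousAt F v :=
      ((hF v hv0).contDiffAt (isOpen_compl_singleton.mem_nhds hv0)).continuousAt
    have h2 : ∀ᶠ y in nhds v, 0 < F y := h1.eventually (lt_mem_nhds hc2)
    obtain ⟨δ, hδ, h3⟩ := Metric.eventually_nhds_iff.1 h2
    refine (Metric.isBounded_closedBall (x := (0 : (ℝ ∙ v)ᗮ)) (r := 4 / δ)).subset ?_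
    intro x hx
    rw [mem_closedBall_zero_iff]
    by_contra hcon
    push Not at hcon
    have h4 : δ ≤ ‖stereo_T v x - v‖ := by
      by_contra h5
      push Not at h5
      have h6 := h3 (y := stereo_T v x) (by rw [dist_eq_norm]; exact h5)
      exact absurd h6 (not_lt.2 hx)
    have h5 := stereo_T_dist hv x
    have h6 : (4 / δ) ^ 2 < ‖x‖ ^ 2 := by
      have : 0 < 4 / δ := by positivity
      exact pow_lt_pow_left₀ hcon this.le two_ne_zero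
    have h7 : δ ^ 2 ≤ ‖stereo_T v x - v‖ ^ 2 := pow_le_pow_left₀ hδ.le h4 2
    have h8 : (4 / δ) ^ 2 * δ ^ 2 = 16 := by
      field_simp
      norm_num
    nlinarith [sq_nonneg ‖x‖, sq_nonneg δ, mul_le_mul h7 (le_refl (‖x‖ ^ 2 + 4)) (by positivity)
      (by positivity), mul_lt_mul_of_pos_right h6 (pow_pos hδ 2), pow_pos hδ 2]
  have hT00 : stereo_T v (0 : (ℝ ∙ v)ᗮ) = c := by
    unfold stereo_T
    rw [stereoInvFunAux_apply, hcv]
    simp only [Submodule.coe_zero, norm_zero, smul_zero, zero_add, ne_eq, OfNat.ofNat_ne_zero,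
      not_false_eq_true, zero_pow, zero_sub, smul_smul]
    norm_num
  have hG0 : G 0 < 0 := by
    rw [hGdef]
    show F (stereo_T v 0) < 0
    rw [hT00]
    exact hc1
  have hinG : ∀ x, G x = 0 → ∀ l : ℝ, 0 ≤ l → fderiv ℝ G x ≠ -(l • innerSL ℝ (x - 0)) := by
    intro x hx l hl heq
    have hy1 : ‖stereo_T v x‖ = 1 := stereo_norm_T hv x
    obtain ⟨w, hw, hne⟩ := hin (stereo_T v x) hy1 hx (4 * l / (1 - ⟪v, stereo_T v x⟫) ^ 2)
      (by positivity)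
    obtain ⟨ξ, h1, h2⟩ := stereo_key hv hF x hw
    apply hne
    rw [← h1]
    have h3 : fderiv ℝ (fun x => F (stereo_T v x)) x ξ = -(l * ⟪x, ξ⟫) := by
      have h4 : fderiv ℝ (fun x => F (stereo_T v x)) x = -(l • innerSL ℝ (x - 0)) := heq
      rw [h4, sub_zero]
      simp
    rw [h3, h2, hcv, inner_neg_right, real_inner_comm]
    ring
  obtain ⟨φ, ψ, hφ, hψ, h1, h2, ⟨R, hR⟩, himg⟩ := ray_criterion G hG hb 0 hG0 hinG 2 two_pos
  have hR' := supp_inv h1 R hR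
  have hne_v : ∀ y : W, ‖y‖ = 1 → ⟪y, c⟫ = 0 → ‖y‖ ≠ ⟪v, y⟫ := by
    intro y hy hyc h
    rw [hcv, inner_neg_right, real_inner_comm] at hyc
    rw [hy] at h
    linarith
  refine ⟨stereo_A v φ, stereo_A v ψ, stereo_A_contDiffOn hv hφ hR, stereo_A_contDiffOn hv hψ hR',
    fun y hy => ⟨stereo_A_norm hv φ hy, stereo_A_norm hv ψ hy, stereo_A_inv hv h1 hy,
      stereo_A_inv hv h2 hy⟩, ?_⟩
  ext y
  constructor
  · rintro ⟨z, ⟨hz1, hz2⟩, rfl⟩
    refine ⟨stereo_A_norm hv φ hz1, ?_⟩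
    have hzne : ‖z‖ ≠ ⟪v, z⟫ := by
      intro h
      rw [hz1] at h
      have h3 : v = z := (inner_eq_one_iff_of_norm_eq_one hv hz1).1 h.symm
      rw [← h3] at hz2
      exact absurd hz2 hc2.ne'
    have hTS := stereo_TS_unit hv hz1 hzne
    have hGS : G (stereo_S v z) = 0 := by
      show F (stereo_T v (stereo_S v z)) = 0
      rw [hTS]; exact hz2
    have h3 : φ (stereo_S v z) ∈ Metric.sphere (0 : (ℝ ∙ v)ᗮ) 2 := by
      rw [← himg]
      exact ⟨_, hGS, rfl⟩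
    rw [mem_sphere_zero_iff_norm] at h3
    have h4 : stereo_A v φ z = stereo_T v (φ (stereo_S v z)) := by
      conv_lhs => rw [← hTS]
      exact stereo_A_T hv φ _
    rw [h4, hcv, inner_neg_right, real_inner_comm, stereo_inner_T hv, h3]
    norm_num
  · rintro ⟨hy1, hy2⟩
    have hyne := hne_v y hy1 hy2
    have hy0 : y ≠ 0 := by
      intro h
      rw [h] at hy1
      simp at hy1
    have h3 := stereo_norm_S hv hy0 hyne
    have h4 : ⟪v, y⟫ = 0 := by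
      rw [hcv, inner_neg_right, real_inner_comm] at hy2
      linarith
    rw [h4, hy1] at h3
    have h5 : ‖stereo_S v y‖ = 2 := by
      have h6 : ‖stereo_S v y‖ ^ 2 = 2 ^ 2 := by linarith
      exact (pow_left_inj₀ (norm_nonneg _) (by norm_num) two_ne_zero).1 h6
    have h6 : stereo_S v y ∈ φ '' {x | G x = 0} := by
      rw [himg, mem_sphere_zero_iff_norm]; exact h5
    obtain ⟨x0, hx0, hx1⟩ := h6
    refine ⟨stereo_T v x0, ⟨stereo_norm_T hv x0, hx0⟩, ?_⟩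
    rw [stereo_A_T hv, hx1, stereo_TS_unit hv hy1 hyne]

end Pool.Schoen
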