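import Mathlib

/-! No smooth retraction of the ball onto the sphere (Milnor's volume argument). -/

set_option autoImplicit false

namespace Pool.Schoen

open Metric Set MeasureTheory

variable {V : Type*} [NormedAddCommGroup V] [InnerProductSpace ℝ V] [FiniteDimensional ℝ V]

private theorem milnor_poly (A : V →L[ℝ] V) : ∃ p : Polynomial ℝ,
    p.natDegree ≤ Module.finrank ℝ V ∧
      ∀ t : ℝ, p.eval t = (ContinuousLinearMap.id ℝ V + t • A).det := by
  classical
  let b := Module.finBasis ℝ V
  let M : Matrix (Fin (Module.finrank ℝ V)) (Fin (Module.finrank ℝ V)) ℝ :=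
    LinearMap.toMatrix b b (A : V →ₗ[ℝ] V)
  refine ⟨Matrix.det ((Polynomial.X : Polynomial ℝ) • M.map Polynomial.C
    + (1 : Matrix _ _ ℝ).map Polynomial.C), ?_, fun t => ?_⟩
  · have := Polynomial.natDegree_det_X_add_C_le M 1
    simpa using this
  · have h1 : (ContinuousLinearMap.id ℝ V + t • A).det
        = (1 + t • M).det := by
      have h2 : LinearMap.toMatrix b b ((ContinuousLinearMap.id ℝ V + t • A : V →L[ℝ] V) : V →ₗ[ℝ] V)
          = 1 + t • M := by
        have h3 : ((ContinuousLinearMap.id ℝ V + t • A : V →L[ℝ] V) : V →ₗ[ℝ] V)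
            = LinearMap.id + t • (A : V →ₗ[ℝ] V) := rfl
        rw [h3, map_add, map_smul, LinearMap.toMatrix_id]
      rw [← h2, LinearMap.det_toMatrix]
    rw [h1, ← Polynomial.coe_evalRingHom, RingHom.map_det]
    congr 1
    ext i j
    by_cases hij : i = j
    · subst hij
      simp [Matrix.add_apply, Matrix.smul_apply, add_comm]
      exact mul_comm _ _
    · simp [Matrix.add_apply, Matrix.smul_apply, Matrix.one_apply_ne hij]
      exact mul_comm _ _

theorem no_smooth_retraction [Nontrivial V] (r : V → V) (hr : ContDiff ℝ 1 r)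
    (h1 : ∀ x, ‖r x‖ = 1) (hid : ∀ x, ‖x‖ = 1 → r x = x) : False := by
  classical
  letI : MeasurableSpace V := borel V
  haveI : BorelSpace V := ⟨rfl⟩
  haveI : CompleteSpace V := FiniteDimensional.complete ℝ V
  haveI : ProperSpace V := FiniteDimensional.proper ℝ V
  let μ : Measure V := Measure.addHaar
  let g : V → V := fun x => r x - x
  have hg : ContDiff ℝ 1 g := hr.sub contDiff_id
  have hgd : Differentiable ℝ g := hg.differentiable one_ne_zero
  have hgc : Continuous (fderiv ℝ g) := hg.continuous_fderiv one_ne_zero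
  -- bound on the derivative
  obtain ⟨C₀, hC₀⟩ := (isCompact_closedBall (0 : V) 1).exists_bound_of_continuousOn hgc.continuousOn
  let C : ℝ := max C₀ 0
  have hC0 : 0 ≤ C := le_max_right _ _
  have hC : ∀ x ∈ closedBall (0 : V) 1, ‖fderiv ℝ g x‖ ≤ C := fun x hx =>
    (hC₀ x hx).trans (le_max_left _ _)
  have hlip : ∀ x ∈ closedBall (0 : V) 1, ∀ y ∈ closedBall (0 : V) 1,
      ‖g y - g x‖ ≤ C * ‖y - x‖ := fun x hx y hy =>
    Convex.norm_image_sub_le_of_norm_fderiv_le (𝕜 := ℝ) (fun z _ => hgd z) hC
      (convex_closedBall 0 1) hx hy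
  let t₀ : ℝ := 1 / (2 * (C + 1))
  have ht₀ : 0 < t₀ := by positivity
  have ht₀C : t₀ * C < 1 := by
    simp only [t₀]
    rw [div_mul_eq_mul_div, one_mul, div_lt_one (by positivity)]
    linarith
  have ht₀1 : t₀ < 1 := by
    simp only [t₀]
    rw [div_lt_one (by positivity)]
    linarith
  let D : ℝ → V → ℝ := fun t x => (ContinuousLinearMap.id ℝ V + t • fderiv ℝ g x).det
  have hDc : ∀ t, Continuous (D t) := fun t => by
    have h2 : Continuous (fun x => ContinuousLinearMap.id ℝ V + t • fderiv ℝ g x) :=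
      continuous_const.add (hgc.const_smul t)
    exact ContinuousLinearMap.continuous_det.comp h2
  let f : ℝ → V → V := fun t x => x + t • g x
  have hfd : ∀ t x, HasFDerivAt (f t) (ContinuousLinearMap.id ℝ V + t • fderiv ℝ g x) x :=
    fun t x => (hasFDerivAt_id x).add ((hgd x).hasFDerivAt.const_smul t)
  have hfs : ∀ t x, HasStrictFDerivAt (f t) (ContinuousLinearMap.id ℝ V + t • fderiv ℝ g x) x := by
    intro t x
    have h2 : ContDiff ℝ 1 (f t) := contDiff_id.add (contDiff_const.smul hg)
    have h3 := h2.contDiffAt.hasStrictFDerivAt (x := x) one_ne_zero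
    rwa [(hfd t x).fderiv] at h3
  -- injectivity of the derivative
  have hinjD : ∀ t, 0 ≤ t → t * C < 1 → ∀ x ∈ closedBall (0 : V) 1, ∀ v,
      (ContinuousLinearMap.id ℝ V + t • fderiv ℝ g x) v = 0 → v = 0 := by
    intro t ht0 htC x hx v hv
    have h2 : v + t • fderiv ℝ g x v = 0 := hv
    have h3 : ‖v‖ = t * ‖fderiv ℝ g x v‖ := by
      rw [eq_neg_of_add_eq_zero_left h2, norm_neg, norm_smul, Real.norm_of_nonneg ht0]
      rw [← eq_neg_of_add_eq_zero_left h2]
    have h4 : ‖fderiv ℝ g x v‖ ≤ C * ‖v‖ :=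
      (ContinuousLinearMap.le_opNorm _ _).trans (mul_le_mul_of_nonneg_right (hC x hx) (norm_nonneg _))
    have h5 : ‖v‖ ≤ t * C * ‖v‖ := by
      calc ‖v‖ = t * ‖fderiv ℝ g x v‖ := h3
        _ ≤ t * (C * ‖v‖) := mul_le_mul_of_nonneg_left h4 ht0
        _ = t * C * ‖v‖ := by ring
    have h6 : ‖v‖ ≤ 0 := by
      by_contra hcon
      push Not at hcon
      nlinarith
    exact norm_le_zero_iff.1 h6
  have hequiv : ∀ t, 0 ≤ t → t * C < 1 → ∀ x ∈ closedBall (0 : V) 1,
      ∃ A : V ≃L[ℝ] V, (A : V →L[ℝ] V) = ContinuousLinearMap.id ℝ V + t • fderiv ℝ g x := by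
    intro t ht0 htC x hx
    have hinj : Function.Injective
        ((ContinuousLinearMap.id ℝ V + t • fderiv ℝ g x : V →L[ℝ] V) : V →ₗ[ℝ] V) :=
      (injective_iff_map_eq_zero _).2 (hinjD t ht0 htC x hx)
    refine ⟨(LinearEquiv.ofInjectiveEndo _ hinj).toContinuousLinearEquiv, ?_⟩
    ext v
    rfl
  -- positivity of the determinant
  have hDpos : ∀ t, 0 ≤ t → t * C < 1 → ∀ x ∈ closedBall (0 : V) 1, 0 < D t x := by
    intro t ht0 htC x hx
    by_contra hcon
    push Not at hcon
    have hc : ContinuousOn (fun s => D s x) (Icc 0 t) := by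
      have : Continuous (fun s : ℝ => D s x) :=
        ContinuousLinearMap.continuous_det.comp
          (continuous_const.add (continuous_id.smul continuous_const))
      exact this.continuousOn
    have hD0 : D 0 x = 1 := by
      show (ContinuousLinearMap.id ℝ V + (0 : ℝ) • fderiv ℝ g x).det = 1
      rw [zero_smul, add_zero]
      exact LinearMap.det_id
    have hmem : (0 : ℝ) ∈ Icc (D t x) (D 0 x) := ⟨hcon, by rw [hD0]; exact zero_le_one⟩
    obtain ⟨s, hs, hs0⟩ := intermediate_value_Icc' ht0 hc hmem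
    have hsC : s * C < 1 := lt_of_le_of_lt (mul_le_mul_of_nonneg_right hs.2 hC0) htC
    obtain ⟨A, hA⟩ := hequiv s hs.1 hsC x hx
    have h2 : D s x ≠ 0 := by
      show (ContinuousLinearMap.id ℝ V + s • fderiv ℝ g x).det ≠ 0
      rw [← hA]
      exact (LinearEquiv.isUnit_det' A.toLinearEquiv).ne_zero
    exact h2 hs0
  -- volume for small `t`
  have hvol : ∀ t, 0 ≤ t → t ≤ t₀ → ∫ x in ball (0 : V) 1, D t x ∂μ = μ.real (ball (0 : V) 1) := by
    intro t ht0 htt
    have htC : t * C < 1 := lt_of_le_of_lt (mul_le_mul_of_nonneg_right htt hC0) ht₀C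
    have ht1 : t < 1 := lt_of_le_of_lt htt ht₀1
    have hinj : InjOn (f t) (closedBall (0 : V) 1) := by
      intro x hx y hy hxy
      have h2 : x - y = t • (g y - g x) := by
        have h3 : x + t • g x = y + t • g y := hxy
        rw [smul_sub, sub_eq_sub_iff_add_eq_add, h3, add_comm]
      have h3 : ‖x - y‖ ≤ t * C * ‖x - y‖ := by
        calc ‖x - y‖ = t * ‖g y - g x‖ := by rw [h2, norm_smul, Real.norm_of_nonneg ht0]
          _ ≤ t * (C * ‖y - x‖) := mul_le_mul_of_nonneg_left (hlip x hx y hy) ht0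
          _ = t * C * ‖x - y‖ := by rw [norm_sub_rev y x]; ring
      have h4 : ‖x - y‖ ≤ 0 := by
        by_contra hcon
        push Not at hcon
        nlinarith
      exact sub_eq_zero.1 (norm_le_zero_iff.1 h4)
    have hmaps : ∀ x ∈ ball (0 : V) 1, f t x ∈ ball (0 : V) 1 := by
      intro x hx
      rw [mem_ball_zero_iff] at hx ⊢
      have h2 : f t x = (1 - t) • x + t • r x := by
        show x + t • (r x - x) = _
        rw [smul_sub, sub_smul, one_smul]; abel
      rw [h2]
      calc ‖(1 - t) • x + t • r x‖ ≤ ‖(1 - t) • x‖ + ‖t • r x‖ := norm_add_le _ _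
        _ = (1 - t) * ‖x‖ + t := by
            rw [norm_smul, norm_smul, h1, Real.norm_of_nonneg (by linarith),
              Real.norm_of_nonneg ht0, mul_one]
        _ < 1 := by nlinarith [norm_nonneg x]
    have hopen : IsOpen (f t '' ball (0 : V) 1) := by
      rw [isOpen_iff_mem_nhds]
      rintro _ ⟨x, hx, rfl⟩
      obtain ⟨A, hA⟩ := hequiv t ht0 htC x (ball_subset_closedBall hx)
      have h2 := hfs t x
      rw [← hA] at h2
      rw [← h2.map_nhds_eq_of_equiv]
      exact Filter.image_mem_map (isOpen_ball.mem_nhds hx)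
    have hclosed : IsClosed (f t '' closedBall (0 : V) 1) := by
      refine IsCompact.isClosed ((isCompact_closedBall (0 : V) 1).image ?_)
      exact continuous_id.add (continuous_const.smul hg.continuous)
    have himg : f t '' ball (0 : V) 1 = ball (0 : V) 1 := by
      apply Subset.antisymm
      · rintro _ ⟨x, hx, rfl⟩; exact hmaps x hx
      · have hpre : IsPreconnected (ball (0 : V) 1) := (convex_ball (0 : V) 1).isPreconnected
        have hcover : ball (0 : V) 1 ⊆ f t '' ball (0 : V) 1 ∪ (f t '' closedBall (0 : V) 1)ᶜ := by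
          intro y hy
          by_cases h : y ∈ f t '' closedBall (0 : V) 1
          · left
            obtain ⟨x, hx, rfl⟩ := h
            refine ⟨x, ?_, rfl⟩
            rw [mem_closedBall_zero_iff] at hx
            rw [mem_ball_zero_iff]
            rcases lt_or_eq_of_le hx with h | h
            · exact h
            · exfalso
              have h2 : f t x = x := by
                show x + t • (r x - x) = x
                rw [hid x h, sub_self, smul_zero, add_zero]
              rw [h2, mem_ball_zero_iff] at hy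
              linarith
          · right; exact h
        have hne : (ball (0 : V) 1 ∩ f t '' ball (0 : V) 1).Nonempty :=
          ⟨f t 0, hmaps 0 (mem_ball_self one_pos), ⟨0, mem_ball_self one_pos, rfl⟩⟩
        have hdisj : ball (0 : V) 1 ∩ (f t '' ball (0 : V) 1 ∩ (f t '' closedBall (0 : V) 1)ᶜ) = ∅ := by
          ext y
          simp only [mem_inter_iff, mem_compl_iff, mem_empty_iff_false, iff_false]
          rintro ⟨_, ⟨x, hx, rfl⟩, h⟩
          exact h ⟨x, ball_subset_closedBall hx, rfl⟩
        intro y hy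
        rcases hcover hy with h | h
        · exact h
        · exfalso
          have h2 := hpre _ _ hopen hclosed.isOpen_compl hcover hne ⟨y, hy, h⟩
          rw [hdisj] at h2
          exact Set.not_nonempty_empty h2
    have h2 := integral_image_eq_integral_abs_det_fderiv_smul (μ := μ) (f := f t)
      (s := ball (0 : V) 1) measurableSet_ball (fun x _ => (hfd t x).hasFDerivWithinAt)
      (hinj.mono ball_subset_closedBall) (fun _ => (1 : ℝ))
    rw [himg] at h2
    have h3 : ∫ x in ball (0 : V) 1, D t x ∂μ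
        = ∫ x in ball (0 : V) 1, |(ContinuousLinearMap.id ℝ V + t • fderiv ℝ g x).det| • (1 : ℝ) ∂μ := by
      refine setIntegral_congr_fun measurableSet_ball (fun x hx => ?_)
      have := hDpos t ht0 htC x (ball_subset_closedBall hx)
      simp only [smul_eq_mul, mul_one]
      exact (abs_of_pos this).symm
    rw [h3, ← h2]
    simp
  -- interpolation
  let n : ℕ := Module.finrank ℝ V
  let v : Fin (n + 1) → ℝ := fun i => t₀ * ((i : ℝ) / ((n : ℝ) + 1))
  have hv0 : ∀ i, 0 ≤ v i := fun i => by positivity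
  have hv1 : ∀ i, v i ≤ t₀ := fun i => by
    have h2 : ((i : ℕ) : ℝ) / ((n : ℝ) + 1) ≤ 1 := by
      rw [div_le_one (by positivity)]
      have : (i : ℕ) < n + 1 := i.2
      exact_mod_cast this.le
    calc v i = t₀ * ((i : ℝ) / ((n : ℝ) + 1)) := rfl
      _ ≤ t₀ * 1 := mul_le_mul_of_nonneg_left h2 ht₀.le
      _ = t₀ := mul_one _
  have hvinj : Set.InjOn v (Finset.univ : Finset (Fin (n + 1))) := by
    intro i _ j _ hij
    have h2 : t₀ * ((i : ℝ) / ((n : ℝ) + 1)) = t₀ * ((j : ℝ) / ((n : ℝ) + 1)) := hij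
    have h3 := mul_left_cancel₀ ht₀.ne' h2
    have h4 : ((i : ℕ) : ℝ) = ((j : ℕ) : ℝ) := by
      field_simp at h3
      exact h3
    exact Fin.ext (by exact_mod_cast h4)
  let w : Fin (n + 1) → ℝ := fun i => (Lagrange.basis Finset.univ v i).eval 1
  have hw : ∑ i, w i = 1 := by
    have := Lagrange.sum_basis hvinj ⟨0, Finset.mem_univ _⟩
    have h2 := congrArg (Polynomial.eval (1 : ℝ)) this
    rw [Polynomial.eval_finsetSum, Polynomial.eval_one] at h2
    exact h2
  have hint : ∀ x, D 1 x = ∑ i, w i * D (v i) x := by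
    intro x
    obtain ⟨p, hp1, hp2⟩ := milnor_poly (fderiv ℝ g x)
    have hdeg : p.degree < (Finset.univ : Finset (Fin (n + 1))).card := by
      rw [Finset.card_univ, Fintype.card_fin]
      refine lt_of_le_of_lt Polynomial.degree_le_natDegree ?_
      exact_mod_cast Nat.lt_succ_of_le hp1
    have h2 := Lagrange.eq_interpolate hvinj hdeg
    have h3 := congrArg (Polynomial.eval (1 : ℝ)) h2
    rw [Lagrange.interpolate_apply, Polynomial.eval_finsetSum] at h3
    have h4 : D 1 x = p.eval 1 := (hp2 1).symm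
    rw [h4, h3]
    refine Finset.sum_congr rfl fun i _ => ?_
    rw [Polynomial.eval_mul, Polynomial.eval_C, hp2 (v i), mul_comm]
  have hDint : ∀ t, IntegrableOn (D t) (ball (0 : V) 1) μ := fun t =>
    ((hDc t).continuousOn.integrableOn_compact (isCompact_closedBall (0 : V) 1)).mono_set
      ball_subset_closedBall
  have hfin : ∫ x in ball (0 : V) 1, D 1 x ∂μ = μ.real (ball (0 : V) 1) := by
    simp_rw [hint]
    rw [integral_finsetSum _ (fun i _ => (hDint (v i)).const_mul (w i))]
    have : ∀ i, ∫ x in ball (0 : V) 1, w i * D (v i) x ∂μ = w i * μ.real (ball (0 : V) 1) := by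
      intro i
      rw [integral_const_mul, hvol (v i) (hv0 i) (hv1 i)]
    simp_rw [this]
    rw [← Finset.sum_mul, hw, one_mul]
  -- the determinant vanishes at `t = 1`
  have hD1 : ∀ x, D 1 x = 0 := by
    intro x
    by_contra hcon
    have hrd : HasFDerivAt r (fderiv ℝ r x) x := (hr.differentiable one_ne_zero x).hasFDerivAt
    have h2 : ContinuousLinearMap.id ℝ V + (1 : ℝ) • fderiv ℝ g x = fderiv ℝ r x := by
      have h3 : fderiv ℝ g x = fderiv ℝ r x - ContinuousLinearMap.id ℝ V :=
        (hrd.sub (hasFDerivAt_id x)).fderiv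
      rw [h3, one_smul]; abel
    have h4 : (fderiv ℝ r x).det ≠ 0 := by
      rw [← h2]; exact hcon
    have h5 : Function.Surjective (fderiv ℝ r x) := by
      have hu : IsUnit (LinearMap.det ((fderiv ℝ r x : V →L[ℝ] V) : V →ₗ[ℝ] V)) :=
        isUnit_iff_ne_zero.2 h4
      exact ((Module.End.isUnit_iff _).1 ((LinearMap.isUnit_iff_isUnit_det _).2 hu)).surjective
    have h6 : ∀ y, inner ℝ (r x) (fderiv ℝ r x y) = 0 := by
      intro y
      have h7 : HasFDerivAt (fun z => ‖r z‖ ^ 2) (2 • (innerSL ℝ (r x)).comp (fderiv ℝ r x)) x :=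
        hrd.norm_sq
      have h8 : (fun z => ‖r z‖ ^ 2) = fun _ => (1 : ℝ) := by
        funext z; rw [h1 z, one_pow]
      rw [h8] at h7
      have h9 := h7.unique (hasFDerivAt_const (1 : ℝ) x)
      have h10 := congrArg (fun L : V →L[ℝ] ℝ => L y) h9
      simp at h10
      exact h10
    obtain ⟨y, hy⟩ := h5 (r x)
    have h7 := h6 y
    rw [hy, real_inner_self_eq_norm_sq, h1 x] at h7
    norm_num at h7
  simp_rw [hD1] at hfin
  rw [integral_zero] at hfin
  have hpos : 0 < μ.real (ball (0 : V) 1) := by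
    rw [measureReal_def]
    exact ENNReal.toReal_pos (measure_ball_pos μ (0 : V) one_pos).ne' measure_ball_lt_top.ne
  linarith

end Pool.Schoen
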