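import Pool.Agent.H.MP_6c077c_gt.Milnor

/-! Continuous maps which are the identity outside the unit ball have a zero. -/

set_option autoImplicit false

namespace Pool.Schoen

open Metric Set MeasureTheory

variable {V : Type*} [NormedAddCommGroup V] [InnerProductSpace ℝ V] [FiniteDimensional ℝ V]

theorem exists_zero (R : V → V) (hR : Continuous R) (hid : ∀ x, 1 ≤ ‖x‖ → R x = x) :
    ∃ x, R x = 0 := by
  rcases subsingleton_or_nontrivial V with hV | hV
  · exact ⟨0, Subsingleton.elim _ _⟩
  by_contra hno
  push Not at hno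
  obtain ⟨g, hg, hga, hgs⟩ := (hR.sub continuous_id).exists_contDiff_approx 1
    (ε := fun x => ‖R x‖) hR.norm (fun x => norm_pos_iff.mpr (hno x))
  have hg0 : ∀ x, 1 ≤ ‖x‖ → g x = 0 := by
    intro x hx
    by_contra h
    have := hgs (Function.mem_support.mpr h)
    rw [Function.mem_support] at this
    exact this (by simp [hid x hx])
  have hne : ∀ x, x + g x ≠ 0 := by
    intro x h
    have h1 := hga x
    rw [dist_eq_norm] at h1
    have h2 : g x - (R x - x) = -R x := by
      have : g x = -x := by
        rw [eq_neg_iff_add_eq_zero, add_comm]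
        exact h
      rw [this]
      abel
    simp only [Pi.sub_apply, id_eq] at h1
    rw [h2, norm_neg] at h1
    exact lt_irrefl _ h1
  have hR1 : ContDiff ℝ 1 (fun x => x + g x) := contDiff_id.add hg
  refine no_smooth_retraction (fun x => ‖x + g x‖⁻¹ • (x + g x)) ?_ ?_ ?_
  · exact ((hR1.norm ℝ hne).inv (fun x => norm_ne_zero_iff.mpr (hne x))).smul hR1
  · intro x
    rw [norm_smul, norm_inv, norm_norm]
    exact inv_mul_cancel₀ (norm_ne_zero_iff.mpr (hne x))
  · intro x hx
    simp only [hg0 x hx.ge, add_zero, hx, inv_one, one_smul]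

end Pool.Schoen
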