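import Pool.Agent.H.MP_6c077c_gt.Tube

/-! From smooth data: the continuous data, and a smooth defining function. -/

set_option autoImplicit false

namespace Pool.Schoen

open scoped ContDiff RealInnerProductSpace
open Metric Set Real

variable {E E' : Type*} [NormedAddCommGroup E] [InnerProductSpace ℝ E] [FiniteDimensional ℝ E]
  [NormedAddCommGroup E'] [InnerProductSpace ℝ E'] [FiniteDimensional ℝ E']

omit [InnerProductSpace ℝ E] [FiniteDimensional ℝ E] in
private theorem ss_ne {p : E} (hp : p ∈ sphere (0 : E) 1) : p ≠ 0 := by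
  rintro rfl
  simp at hp

omit [FiniteDimensional ℝ E] in
private theorem ss_unit {x : E} (hx : x ≠ 0) : ‖x‖⁻¹ • x ∈ sphere (0 : E) 1 := by
  have h0 : ‖x‖ ≠ 0 := norm_ne_zero_iff.2 hx
  simp [norm_smul, h0]

omit [FiniteDimensional ℝ E] in
private theorem ss_N {t : ℝ} (ht : 0 < t) {w : E} (hw : ‖w‖ = 1) : ‖t • w‖⁻¹ • (t • w) = w := by
  rw [norm_smul, hw, mul_one, Real.norm_of_nonneg ht.le, inv_smul_smul₀ ht.ne']

omit [FiniteDimensional ℝ E] [FiniteDimensional ℝ E'] in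
private theorem ss_cdf {f ν : E → E'} {r₁ r₂ : ℝ} (h : SThick f ν r₁ r₂) {x : E} (hx : x ≠ 0) :
    ContDiffAt ℝ ∞ f x := h.sf.contDiffAt (isOpen_compl_singleton.mem_nhds hx)

omit [FiniteDimensional ℝ E] [FiniteDimensional ℝ E'] in
private theorem ss_cdν {f ν : E → E'} {r₁ r₂ : ℝ} (h : SThick f ν r₁ r₂) {x : E} (hx : x ≠ 0) :
    ContDiffAt ℝ ∞ ν x := h.sν.contDiffAt (isOpen_compl_singleton.mem_nhds hx)

omit [FiniteDimensional ℝ E] [FiniteDimensional ℝ E'] in
private theorem ss_df {f ν : E → E'} {r₁ r₂ : ℝ} (h : SThick f ν r₁ r₂) {x : E} (hx : x ≠ 0) :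
    HasFDerivAt f (fderiv ℝ f x) x :=
  ((ss_cdf h hx).differentiableAt (by simp)).hasFDerivAt

omit [FiniteDimensional ℝ E] [FiniteDimensional ℝ E'] in
private theorem ss_dν {f ν : E → E'} {r₁ r₂ : ℝ} (h : SThick f ν r₁ r₂) {x : E} (hx : x ≠ 0) :
    HasFDerivAt ν (fderiv ℝ ν x) x :=
  ((ss_cdν h hx).differentiableAt (by simp)).hasFDerivAt

omit [FiniteDimensional ℝ E] [FiniteDimensional ℝ E'] in
private theorem ss_euler {f ν : E → E'} {r₁ r₂ : ℝ} (h : SThick f ν r₁ r₂) {p : E} (hp : p ≠ 0) :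
    fderiv ℝ f p p = f p := by
  have h1 : HasDerivAt (fun t : ℝ => f (t • p)) (fderiv ℝ f p p) 1 := by
    have h2 : HasFDerivAt f (fderiv ℝ f p) ((1 : ℝ) • p) := by
      rw [one_smul]
      exact ss_df h hp
    have h3 : HasDerivAt (fun t : ℝ => t • p) ((1 : ℝ) • p) 1 :=
      (hasDerivAt_id (1 : ℝ)).smul_const p
    have h4 := h2.comp_hasDerivAt (1 : ℝ) h3
    rw [one_smul] at h4
    exact h4
  have h4 : HasDerivAt (fun t : ℝ => f (t • p)) (f p) 1 := by
    have h5 : HasDerivAt (fun t : ℝ => t • f p) ((1 : ℝ) • f p) 1 :=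
      (hasDerivAt_id (1 : ℝ)).smul_const (f p)
    rw [one_smul] at h5
    refine h5.congr_of_eventuallyEq ?_
    filter_upwards [lt_mem_nhds (zero_lt_one (α := ℝ))] with t ht
    exact h.hf t ht p hp
  exact h1.unique h4

omit [FiniteDimensional ℝ E] [FiniteDimensional ℝ E'] in
private theorem ss_norm {f ν : E → E'} {r₁ r₂ : ℝ} (h : SThick f ν r₁ r₂) {x : E} (hx : x ≠ 0) :
    ‖f x‖ = ‖x‖ := by
  have h0 : 0 < ‖x‖ := norm_pos_iff.2 hx
  have h1 : x = ‖x‖ • (‖x‖⁻¹ • x) := by rw [smul_inv_smul₀ h0.ne']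
  have h2 := ss_unit hx
  calc ‖f x‖ = ‖f (‖x‖ • (‖x‖⁻¹ • x))‖ := by rw [← h1]
    _ = ‖‖x‖ • f (‖x‖⁻¹ • x)‖ := by rw [h.hf _ h0 _ (ss_ne h2)]
    _ = ‖x‖ := by rw [norm_smul, h.nf _ h2]; simp

omit [FiniteDimensional ℝ E] [FiniteDimensional ℝ E'] in
private theorem ss_inner {f ν : E → E'} {r₁ r₂ : ℝ} (h : SThick f ν r₁ r₂) {p : E} (hp : p ≠ 0)
    (v : E) : ⟪f p, fderiv ℝ f p v⟫ = ⟪p, v⟫ := by
  have h1 := (ss_df h hp).norm_sq
  have h2 := (hasFDerivAt_id (𝕜 := ℝ) p).norm_sq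
  have h3 : (fun x : E => ‖f x‖ ^ 2) =ᶠ[nhds p] fun x => ‖id x‖ ^ 2 := by
    filter_upwards [isOpen_compl_singleton.mem_nhds hp] with x hx
    rw [ss_norm h hx]
    rfl
  have h4 := (h2.congr_of_eventuallyEq h3).unique h1
  have h5 := congrArg (fun L : E →L[ℝ] ℝ => L v) h4
  simp at h5
  linarith

omit [FiniteDimensional ℝ E] [FiniteDimensional ℝ E'] in
private theorem ss_fν {f ν : E → E'} {r₁ r₂ : ℝ} (h : SThick f ν r₁ r₂) {p : E}
    (hp : p ∈ sphere (0 : E) 1) : ⟪f p, ν p⟫ = 0 := by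
  have h1 := h.orth p hp p
  rwa [ss_euler h (ss_ne hp)] at h1

/-- A unit vector orthogonal to the image of the tangent space lies on the normal circle. -/
theorem SThick.normal {f ν : E → E'} {r₁ r₂ : ℝ} (h : SThick f ν r₁ r₂)
    (hE' : Module.finrank ℝ E' = Module.finrank ℝ E + 1) {w : E'} (hw : ‖w‖ = 1) {p : E}
    (hp : p ∈ sphere (0 : E) 1) (hv : ∀ v : E, ⟪v, p⟫ = 0 → ⟪w, fderiv ℝ f p v⟫ = 0) :
    ∃ u ∈ Ioc (-π) π, w = tub f ν p u := by
  have hp0 := ss_ne hp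
  have hpn : ‖p‖ = 1 := by simpa using hp
  have hf1 : ‖f p‖ = 1 := h.nf p hp
  have hν1 : ‖ν p‖ = 1 := h.nν p hp
  have hfν := ss_fν h hp
  set D : E →ₗ[ℝ] E' := (fderiv ℝ f p).toLinearMap with hD
  have hDi : Function.Injective D := h.imm p hp
  set K : Submodule ℝ E' := LinearMap.range D with hK
  have hKd : Module.finrank ℝ K = Module.finrank ℝ E := LinearMap.finrank_range_of_inj hDi
  have hKo : Module.finrank ℝ Kᗮ = 1 := by
    have := Submodule.finrank_add_finrank_orthogonal K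
    omega
  have hνK : ν p ∈ Kᗮ := by
    rw [Submodule.mem_orthogonal]
    rintro _ ⟨v, rfl⟩
    exact h.orth p hp v
  have hwK : w - ⟪w, f p⟫ • f p ∈ Kᗮ := by
    rw [Submodule.mem_orthogonal']
    rintro _ ⟨v, rfl⟩
    have e1 : v = (v - ⟪v, p⟫ • p) + ⟪v, p⟫ • p := by abel
    have e2 : ⟪v - ⟪v, p⟫ • p, p⟫ = 0 := by
      rw [inner_sub_left, real_inner_smul_left, real_inner_self_eq_norm_sq, hpn]
      ring
    have e3 := hv _ e2
    have e4 : ⟪f p, fderiv ℝ f p (v - ⟪v, p⟫ • p)⟫ = 0 := by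
      rw [ss_inner h hp0, real_inner_comm, e2]
    have e5 : D v = fderiv ℝ f p (v - ⟪v, p⟫ • p) + ⟪v, p⟫ • f p := by
      rw [← ss_euler h hp0]
      change fderiv ℝ f p v = _
      rw [← map_smul, ← map_add, ← e1]
    rw [e5, inner_sub_left, inner_add_right, inner_add_right, real_inner_smul_left,
      real_inner_smul_left, e3, e4, real_inner_smul_right, real_inner_smul_right,
      real_inner_self_eq_norm_sq, hf1]
    ring
  have hν0 : (⟨ν p, hνK⟩ : Kᗮ) ≠ 0 := by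
    intro h0
    have : ν p = 0 := congrArg Subtype.val h0
    rw [this] at hν1
    simp at hν1
  obtain ⟨y, hy⟩ := (finrank_eq_one_iff_of_nonzero' _ hν0).1 hKo ⟨_, hwK⟩
  have hy' : y • ν p = w - ⟪w, f p⟫ • f p := congrArg Subtype.val hy
  set x : ℝ := ⟪w, f p⟫ with hx
  have hwe : w = x • f p + y • ν p := by rw [hy']; abel
  have hxy : x ^ 2 + y ^ 2 = 1 := by
    have e : ‖w‖ ^ 2 = x ^ 2 + y ^ 2 := by
      rw [← real_inner_self_eq_norm_sq, hwe]
      simp only [inner_add_left, inner_add_right, real_inner_smul_left, real_inner_smul_right]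
      rw [real_inner_comm (f p) (ν p), hfν, real_inner_self_eq_norm_sq,
        real_inner_self_eq_norm_sq, hf1, hν1]
      ring
    rw [← e, hw]
    norm_num
  set z : ℂ := ⟨x, y⟩ with hz
  have hzn : ‖z‖ = 1 := by
    rw [Complex.norm_def, Complex.normSq_mk]
    rw [show x * x + y * y = 1 by nlinarith [hxy]]
    simp
  have hz0 : z ≠ 0 := by
    intro h0
    rw [h0] at hzn
    simp at hzn
  refine ⟨z.arg, Complex.arg_mem_Ioc z, ?_⟩
  have hc : cos z.arg = x := by rw [Complex.cos_arg hz0, hzn]; simp [hz]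
  have hs : sin z.arg = y := by rw [Complex.sin_arg, hzn]; simp [hz]
  rw [tub, hc, hs, ← hwe]

theorem SThick.thick {f ν : E → E'} {r₁ r₂ : ℝ} (h : SThick f ν r₁ r₂)
    (hE' : Module.finrank ℝ E' = Module.finrank ℝ E + 1) : Thick f ν r₁ r₂ := by
  have hsub : sphere (0 : E) 1 ⊆ {0}ᶜ := fun x hx => ss_ne hx
  refine ⟨h.sf.continuousOn.mono hsub, h.sν.continuousOn.mono hsub, h.nf, h.nν,
    fun p hp => ss_fν h hp, h.inj, ?_, h.pos₁, h.pos₂, h.lt₁, h.lt₂, h.ball₁, h.ball₂⟩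
  intro w hw p hp hmax
  have hp0 := ss_ne hp
  have hpn : ‖p‖ = 1 := by simpa using hp
  have key : ∀ v : E, ⟪v, p⟫ = 0 → ⟪w, fderiv ℝ f p v⟫ = 0 := by
    intro v hv
    have h1 : HasFDerivAt (fun x : E => ⟪w, f x⟫) ((innerSL ℝ w).comp (fderiv ℝ f p)) p :=
      (innerSL ℝ w).hasFDerivAt.comp p (ss_df h hp0)
    have h2 : HasFDerivAt (fun x : E => ‖x‖ ^ 2) (2 • (innerSL ℝ p)) p :=
      (hasStrictFDerivAt_norm_sq p).hasFDerivAt
    have h3 := h2.sqrt (by rw [hpn]; norm_num)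
    have h4 := h1.sub (h3.mul_const ⟪w, f p⟫)
    have hmx : IsLocalMax (fun x : E => ⟪w, f x⟫ - √(‖x‖ ^ 2) * ⟪w, f p⟫) p := by
      filter_upwards [isOpen_compl_singleton.mem_nhds hp0] with x hx
      have hx0 : 0 < ‖x‖ := norm_pos_iff.2 hx
      have e1 : x = ‖x‖ • (‖x‖⁻¹ • x) := by rw [smul_inv_smul₀ hx0.ne']
      have e2 := ss_unit hx
      have e3 := hmax _ e2
      have e4 : ⟪w, f x⟫ = ‖x‖ * ⟪w, f (‖x‖⁻¹ • x)⟫ := by
        conv_lhs => rw [e1, h.hf _ hx0 _ (ss_ne e2)]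
        rw [real_inner_smul_right]
      simp only [Real.sqrt_sq (norm_nonneg _), hpn]
      rw [e4]
      nlinarith
    have h5 := hmx.hasFDerivAt_eq_zero h4
    have h6 := congrArg (fun L : E →L[ℝ] ℝ => L v) h5
    have e5 : ⟪p, v⟫ = 0 := by rw [real_inner_comm]; exact hv
    simpa [e5] using h6
  obtain ⟨u, hu, hwu⟩ := h.normal hE' hw hp key
  exact ⟨u, abs_le.2 ⟨hu.1.le, hu.2⟩, hwu⟩

/-- A smooth function, locally constant away from zero, with the sign of its argument. -/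
private theorem ss_zeta {η : ℝ} (hη : 0 < η) : ∃ ζ : ℝ → ℝ, ContDiff ℝ ∞ ζ ∧ ζ 0 = 0 ∧
    (∀ u, 0 < u → 0 < ζ u) ∧ (∀ u, u < 0 → ζ u < 0) ∧ (∀ u, η ≤ u → ζ u = ζ η) ∧
    (∀ u, u ≤ -η → ζ u = ζ (-η)) ∧ ∃ c, 0 < c ∧ HasDerivAt ζ c 0 := by
  let b : ContDiffBump (0 : ℝ) := ⟨η / 2, η, by linarith, by linarith⟩
  have hbc : Continuous (b : ℝ → ℝ) := b.continuous
  have hd : ∀ u : ℝ, HasDerivAt (fun u : ℝ => ∫ t in (0 : ℝ)..u, b t) (b u) u := fun u =>
    intervalIntegral.integral_hasDerivAt_right (hbc.intervalIntegrable _ _)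
      (hbc.stronglyMeasurableAtFilter _ _) hbc.continuousAt
  have hder : deriv (fun u : ℝ => ∫ t in (0 : ℝ)..u, b t) = b := funext fun u => (hd u).deriv
  have hmono : Monotone (fun u : ℝ => ∫ t in (0 : ℝ)..u, b t) :=
    monotone_of_deriv_nonneg (fun u => (hd u).differentiableAt) (fun u => by
      rw [hder]; exact b.nonneg)
  have hstr : StrictMonoOn (fun u : ℝ => ∫ t in (0 : ℝ)..u, b t) (Icc (-η) η) := by
    refine strictMonoOn_of_deriv_pos (convex_Icc _ _)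
      (fun u _ => (hd u).continuousAt.continuousWithinAt) ?_
    intro u hu
    rw [interior_Icc] at hu
    rw [hder]
    refine b.pos_of_mem_ball ?_
    rw [mem_ball, Real.dist_eq, sub_zero, abs_lt]
    exact hu
  have h0 : (∫ t in (0 : ℝ)..0, b t) = 0 := intervalIntegral.integral_same
  refine ⟨fun u : ℝ => ∫ t in (0 : ℝ)..u, b t, ?_, h0, ?_, ?_, ?_, ?_, b 0, ?_, hd 0⟩
  · rw [contDiff_infty_iff_deriv]
    exact ⟨fun u => (hd u).differentiableAt, by rw [hder]; exact b.contDiff⟩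
  · intro u hu
    have h1 : (∫ t in (0 : ℝ)..0, b t) < ∫ t in (0 : ℝ)..(min u η), b t :=
      hstr ⟨by linarith, hη.le⟩ ⟨by linarith [lt_min hu hη], min_le_right _ _⟩ (lt_min hu hη)
    have h2 := hmono (min_le_left u η)
    simp only at h2
    linarith
  · intro u hu
    have h1 : (∫ t in (0 : ℝ)..(max u (-η)), b t) < ∫ t in (0 : ℝ)..0, b t :=
      hstr ⟨le_max_right _ _, by linarith [max_lt hu (neg_lt_zero.2 hη)]⟩
        ⟨by linarith, hη.le⟩ (max_lt hu (neg_lt_zero.2 hη))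
    have h2 := hmono (le_max_left u (-η))
    simp only at h2
    linarith
  · intro u hu
    have h1 : (∫ t in (0 : ℝ)..u, b t) = (∫ t in (0 : ℝ)..η, b t) + ∫ t in η..u, b t :=
      (intervalIntegral.integral_add_adjacent_intervals (hbc.intervalIntegrable _ _)
        (hbc.intervalIntegrable _ _)).symm
    have h2 : (∫ t in η..u, b t) = ∫ t in η..u, (0 : ℝ) := by
      refine intervalIntegral.integral_congr fun t ht => ?_
      rw [uIcc_of_le hu] at ht
      refine b.zero_of_le_dist ?_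
      rw [Real.dist_eq, sub_zero]
      exact ht.1.trans (le_abs_self t)
    simp only [h1, h2, intervalIntegral.integral_zero, add_zero]
  · intro u hu
    have h1 : (∫ t in (0 : ℝ)..u, b t) = (∫ t in (0 : ℝ)..(-η), b t) + ∫ t in (-η)..u, b t :=
      (intervalIntegral.integral_add_adjacent_intervals (hbc.intervalIntegrable _ _)
        (hbc.intervalIntegrable _ _)).symm
    have h2 : (∫ t in (-η)..u, b t) = ∫ t in (-η)..u, (0 : ℝ) := by
      refine intervalIntegral.integral_congr fun t ht => ?_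
      rw [uIcc_of_ge hu] at ht
      refine b.zero_of_le_dist ?_
      rw [Real.dist_eq, sub_zero]
      change η ≤ |t|
      have := neg_le_abs t
      linarith [ht.2]
    simp only [h1, h2, intervalIntegral.integral_zero, add_zero]
  · exact b.pos_of_mem_ball (mem_ball_self (show (0 : ℝ) < η from hη))

omit [FiniteDimensional ℝ E] [FiniteDimensional ℝ E'] in
private theorem ss_cdΦ {f ν : E → E'} {r₁ r₂ : ℝ} (h : SThick f ν r₁ r₂) {z : E × ℝ}
    (hz : z.1 ≠ 0) : ContDiffAt ℝ ∞ (fun z : E × ℝ => cos z.2 • f z.1 + sin z.2 • ν z.1) z := by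
  have h1 : ContDiffAt ℝ ∞ (fun z : E × ℝ => f z.1) z := (ss_cdf h hz).comp z contDiffAt_fst
  have h2 : ContDiffAt ℝ ∞ (fun z : E × ℝ => ν z.1) z := (ss_cdν h hz).comp z contDiffAt_fst
  exact ((Real.contDiff_cos.contDiffAt.comp z contDiffAt_snd).smul h1).add
    ((Real.contDiff_sin.contDiffAt.comp z contDiffAt_snd).smul h2)

/-- The derivative of the tube map at the zero section. -/
private theorem ss_DΦ {f ν : E → E'} {r₁ r₂ : ℝ} (h : SThick f ν r₁ r₂)
    (hE' : Module.finrank ℝ E' = Module.finrank ℝ E + 1) {p : E}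
    (hp : p ∈ sphere (0 : E) 1) : ∃ e : (E × ℝ) ≃L[ℝ] E',
      HasFDerivAt (fun z : E × ℝ => cos z.2 • f z.1 + sin z.2 • ν z.1)
        (e : (E × ℝ) →L[ℝ] E') (p, 0) := by
  have hp0 := ss_ne hp
  have h1 : HasFDerivAt (fun z : E × ℝ => f z.1)
      ((fderiv ℝ f p).comp (ContinuousLinearMap.fst ℝ E ℝ)) (p, 0) :=
    HasFDerivAt.comp (p, (0 : ℝ)) (ss_df h hp0) hasFDerivAt_fst
  have h2 : HasFDerivAt (fun z : E × ℝ => ν z.1)
      ((fderiv ℝ ν p).comp (ContinuousLinearMap.fst ℝ E ℝ)) (p, 0) :=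
    HasFDerivAt.comp (p, (0 : ℝ)) (ss_dν h hp0) hasFDerivAt_fst
  have h3 : HasFDerivAt (fun z : E × ℝ => z.2) (ContinuousLinearMap.snd ℝ E ℝ) (p, 0) :=
    hasFDerivAt_snd
  have h4 := (h3.cos.smul h1).add (h3.sin.smul h2)
  obtain ⟨L, hL, hLv⟩ : ∃ L : (E × ℝ) →L[ℝ] E',
      HasFDerivAt (fun z : E × ℝ => cos z.2 • f z.1 + sin z.2 • ν z.1) L (p, 0) ∧
      ∀ v s, L (v, s) = fderiv ℝ f p v + s • ν p := by
    refine ⟨_, h4, fun v s => ?_⟩
    simp
  have hinj : Function.Injective L.toLinearMap := by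
    rw [← LinearMap.ker_eq_bot, LinearMap.ker_eq_bot']
    rintro ⟨v, s⟩ hvs
    have e1 : fderiv ℝ f p v + s • ν p = 0 := by rw [← hLv]; exact hvs
    have e2 : s = 0 := by
      have := congrArg (fun w : E' => ⟪w, ν p⟫) e1
      simp only [inner_add_left, real_inner_smul_left, h.orth p hp v, inner_zero_left,
        real_inner_self_eq_norm_sq, h.nν p hp] at this
      linarith
    rw [e2, zero_smul, add_zero] at e1
    have e3 : v = 0 := h.imm p hp (by rw [e1, map_zero])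
    rw [e2, e3]
    rfl
  have hdim : Module.finrank ℝ (E × ℝ) = Module.finrank ℝ E' := by
    rw [Module.finrank_prod, hE', Module.finrank_self]
  let e : (E × ℝ) ≃L[ℝ] E' :=
    (LinearMap.linearEquivOfInjective L.toLinearMap hinj hdim).toContinuousLinearEquiv
  refine ⟨e, ?_⟩
  have he : (e : (E × ℝ) →L[ℝ] E') = L := by
    ext z <;> rfl
  rw [he]
  exact hL

/-- The normalized side function is smooth near every point of the hypersurface. -/
private theorem ss_near {f ν : E → E'} {r₁ r₂ : ℝ} (h : SThick f ν r₁ r₂)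
    (hE' : Module.finrank ℝ E' = Module.finrank ℝ E + 1)
    {α β : ℝ} (hα : 0 < α) (hβ : 0 < β) (F : E' → ℝ)
    (hF : Side f ν α β F) {p : E} (hp : p ∈ sphere (0 : E) 1) :
    ∀ᶠ w in nhds (f p), ContDiffAt ℝ ∞ (fun w : E' => F (‖w‖⁻¹ • w)) w := by
  have hp0 := ss_ne hp
  have hT := h.thick hE'
  obtain ⟨e, he⟩ := ss_DΦ h hE' hp
  set Φ : E × ℝ → E' := fun z : E × ℝ => cos z.2 • f z.1 + sin z.2 • ν z.1 with hΦ
  have hcd : ContDiffAt ℝ ∞ Φ (p, 0) := ss_cdΦ h hp0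
  set P := hcd.toOpenPartialHomeomorph Φ he (by simp) with hP
  have hPc : (P : E × ℝ → E') = Φ := rfl
  have hsrc : ((p, 0) : E × ℝ) ∈ P.source := hcd.mem_toOpenPartialHomeomorph_source he (by simp)
  have hΦp : Φ (p, 0) = f p := by simp [hΦ]
  have htgt : f p ∈ P.target := by
    have := P.map_source hsrc
    rwa [hPc, hΦp] at this
  have hsymm : P.symm (f p) = (p, 0) := by
    have := P.left_inv hsrc
    rwa [hPc, hΦp] at this
  have hcont : Filter.Tendsto P.symm (nhds (f p)) (nhds (p, 0)) := by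
    have := P.continuousAt_symm htgt
    rwa [ContinuousAt, hsymm] at this
  -- near points of the zero section the derivative stays invertible
  have hinv : ∀ᶠ z in nhds ((p, 0) : E × ℝ), z.1 ≠ 0 ∧ z.2 ∈ Ioo (-α) β ∧
      ∃ e' : (E × ℝ) ≃L[ℝ] E', HasFDerivAt Φ (e' : (E × ℝ) →L[ℝ] E') z := by
    have c1 : ∀ᶠ z in nhds ((p, 0) : E × ℝ), z.1 ≠ 0 :=
      continuousAt_fst.eventually (isOpen_compl_singleton.mem_nhds hp0)
    have c2 : ∀ᶠ z in nhds ((p, 0) : E × ℝ), z.2 ∈ Ioo (-α) β :=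
      continuousAt_snd.eventually (Ioo_mem_nhds (neg_lt_zero.2 hα) hβ)
    have c3 : ContinuousAt (fderiv ℝ Φ) (p, 0) := hcd.continuousAt_fderiv (by simp)
    have c4 : ∀ᶠ z in nhds ((p, 0) : E × ℝ),
        fderiv ℝ Φ z ∈ range ((↑) : ((E × ℝ) ≃L[ℝ] E') → (E × ℝ) →L[ℝ] E') := by
      refine c3.eventually ?_
      rw [he.fderiv]
      exact ContinuousLinearEquiv.nhds e
    filter_upwards [c1, c2, c4] with z hz1 hz2 hz3
    obtain ⟨e', he'⟩ := hz3
    refine ⟨hz1, hz2, e', ?_⟩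
    rw [he']
    exact ((ss_cdΦ h hz1).differentiableAt (by simp)).hasFDerivAt
  have hev : ∀ᶠ w in nhds (f p), w ∈ P.target ∧ (P.symm w).1 ≠ 0 ∧ (P.symm w).2 ∈ Ioo (-α) β ∧
      ∃ e' : (E × ℝ) ≃L[ℝ] E', HasFDerivAt Φ (e' : (E × ℝ) →L[ℝ] E') (P.symm w) := by
    filter_upwards [P.open_target.mem_nhds htgt, hcont.eventually hinv] with w h1 h2
    exact ⟨h1, h2⟩
  have hG : ∀ᶠ w in nhds (f p), F (‖w‖⁻¹ • w) = (P.symm w).2 := by
    filter_upwards [hev] with w hw
    obtain ⟨hw1, hw2, hw3, -⟩ := hw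
    set x := (P.symm w).1 with hx
    set u := (P.symm w).2 with hu
    have e1 : Φ (x, u) = w := P.right_inv hw1
    have hx0 : 0 < ‖x‖ := norm_pos_iff.2 hw2
    have e2 := ss_unit hw2
    have e3 : Φ (x, u) = ‖x‖ • tub f ν (‖x‖⁻¹ • x) u := by
      have e4 : x = ‖x‖ • (‖x‖⁻¹ • x) := by rw [smul_inv_smul₀ hx0.ne']
      have e5 : f x = ‖x‖ • f (‖x‖⁻¹ • x) := by
        conv_lhs => rw [e4, h.hf _ hx0 _ (ss_ne e2)]
      have e6 : ν x = ‖x‖ • ν (‖x‖⁻¹ • x) := by
        conv_lhs => rw [e4, h.hν _ hx0 _ (ss_ne e2)]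
      simp only [hΦ, tub]
      rw [e5, e6, smul_add, smul_comm, smul_comm (sin u)]
    rw [← e1, e3, ss_N hx0 (norm_tub hT e2 u)]
    exact hF.tube _ e2 u ⟨hw3.1.le, hw3.2.le⟩
  filter_upwards [hev, hG.eventually_nhds] with w hw1 hw2
  obtain ⟨k1, k2, -, e', k4⟩ := hw1
  have k5 : ContDiffAt ℝ ∞ P.symm w := P.contDiffAt_symm k1 k4 (ss_cdΦ h k2)
  exact (contDiffAt_snd.comp w k5).congr_of_eventuallyEq hw2

theorem smooth_side {f ν : E → E'} {r₁ r₂ : ℝ} (h : SThick f ν r₁ r₂)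
    (hE : Nontrivial E) (hE' : Module.finrank ℝ E' = Module.finrank ℝ E + 1)
    {α β : ℝ} (hα : 0 < α) (hα' : α < r₁) (hβ : 0 < β) (hβ' : β < r₂) (F : E' → ℝ)
    (hF : Side f ν α β F) :
    ∃ F₁ : E' → ℝ, ContDiffOn ℝ ∞ F₁ {0}ᶜ ∧
      (∀ w ∈ sphere (0 : E') 1, (F₁ w = 0 ↔ F w = 0) ∧ (F₁ w < 0 ↔ F w < 0)) ∧
      ∀ p ∈ sphere (0 : E) 1, (∀ v : E, fderiv ℝ F₁ (f p) (fderiv ℝ f p v) = 0) ∧
        0 < fderiv ℝ F₁ (f p) (ν p) := by
  have hT := h.thick hE'
  set G : E' → ℝ := fun w : E' => F (‖w‖⁻¹ • w) with hG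
  have hGs : ∀ w ∈ sphere (0 : E') 1, G w = F w := by
    intro w hw
    have : ‖w‖ = 1 := by simpa using hw
    simp [hG, this]
  have hNc : ∀ w : E', w ≠ 0 → ContinuousAt (fun w : E' => ‖w‖⁻¹ • w) w := fun w hw =>
    (continuousAt_id.norm.inv₀ (norm_ne_zero_iff.2 hw)).smul continuousAt_id
  have hGc : ∀ w : E', w ≠ 0 → ContinuousAt G w := by
    intro w hw
    have h1 : Filter.Tendsto (fun w : E' => ‖w‖⁻¹ • w) (nhds w)
        (nhdsWithin (‖w‖⁻¹ • w) (sphere (0 : E') 1)) := by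
      refine tendsto_nhdsWithin_iff.2 ⟨hNc w hw, ?_⟩
      filter_upwards [isOpen_compl_singleton.mem_nhds hw] with x hx
      exact ss_unit hx
    exact (hF.cont _ (ss_unit hw)).tendsto.comp h1
  have hfs : ∀ p ∈ sphere (0 : E) 1, f p ∈ sphere (0 : E') 1 := by
    intro p hp
    simpa using h.nf p hp
  have htub0 : ∀ p, tub f ν p 0 = f p := fun p => by simp [tub]
  have hFf : ∀ p ∈ sphere (0 : E) 1, F (f p) = 0 := by
    intro p hp
    have := hF.tube p hp 0 ⟨by linarith, hβ.le⟩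
    rwa [htub0] at this
  -- the compact set of unit vectors where smoothness is not known
  set K : Set E' := sphere (0 : E') 1 \ interior {w | ContDiffAt ℝ ∞ G w} with hK
  have hKc : IsCompact K := (isCompact_sphere _ _).diff isOpen_interior
  have hKF : ∀ w ∈ K, 0 < |F w| := by
    intro w hw
    rw [abs_pos]
    intro h0
    by_cases hex : ∀ p ∈ sphere (0 : E) 1, ∀ u ∈ Ioo (-α) β, w ≠ tub f ν p u
    · rcases hF.off w hw.1 hex with h1 | h1 <;> linarith
    · push Not at hex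
      obtain ⟨p, hp, u, hu, hwu⟩ := hex
      have h1 := hF.tube p hp u ⟨hu.1.le, hu.2.le⟩
      rw [← hwu, h0] at h1
      rw [← h1, htub0] at hwu
      apply hw.2
      rw [hwu, mem_interior_iff_mem_nhds]
      exact ss_near h hE' hα hβ F hF hp
  obtain ⟨m, hm0, hm⟩ : ∃ m, 0 < m ∧ ∀ w ∈ K, m ≤ |F w| := by
    rcases K.eq_empty_or_nonempty with hKe | hKn
    · exact ⟨1, one_pos, by simp [hKe]⟩
    · obtain ⟨w₀, hw₀, hmin⟩ := hKc.exists_isMinOn hKn
        ((hF.cont.mono sdiff_subset).abs)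
      exact ⟨|F w₀|, hKF w₀ hw₀, fun w hw => hmin hw⟩
  obtain ⟨ζ, hζ, hζ0, hζp, hζn, hζr, hζl, c, hc0, hζd⟩ := ss_zeta (half_pos hm0)
  have hζ0' : ∀ u, ζ u = 0 ↔ u = 0 := by
    intro u
    refine ⟨fun hu => ?_, fun hu => by rw [hu, hζ0]⟩
    rcases lt_trichotomy u 0 with h1 | h1 | h1
    · linarith [hζn u h1]
    · exact h1
    · linarith [hζp u h1]
  have hζn' : ∀ u, ζ u < 0 ↔ u < 0 := by
    intro u
    refine ⟨fun hu => ?_, hζn u⟩
    rcases lt_trichotomy u 0 with h1 | h1 | h1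
    · exact h1
    · rw [h1, hζ0] at hu
      exact absurd hu (lt_irrefl _)
    · linarith [hζp u h1]
  have hunit : ∀ w ∈ sphere (0 : E') 1, ContDiffAt ℝ ∞ (fun w => ζ (G w)) w := by
    intro w hw
    by_cases hwi : w ∈ interior {w | ContDiffAt ℝ ∞ G w}
    · exact hζ.contDiffAt.comp w (interior_subset hwi)
    · have h1 := hm w ⟨hw, hwi⟩
      have hc := hGc w (ss_ne hw)
      rw [← hGs w hw] at h1
      rcases le_abs'.1 h1 with h2 | h2
      · have h3 : ∀ᶠ x in nhds w, G x < -(m / 2) := hc.eventually_lt continuousAt_const (by linarith)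
        refine (contDiffAt_const (c := ζ (-(m / 2)))).congr_of_eventuallyEq ?_
        filter_upwards [h3] with x hx
        exact hζl _ hx.le
      · have h3 : ∀ᶠ x in nhds w, m / 2 < G x := continuousAt_const.eventually_lt hc (by linarith)
        refine (contDiffAt_const (c := ζ (m / 2))).congr_of_eventuallyEq ?_
        filter_upwards [h3] with x hx
        exact hζr _ hx.le
  have hall : ∀ w : E', w ≠ 0 → ContDiffAt ℝ ∞ (fun w => ζ (G w)) w := by
    intro w hw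
    have hw0 : 0 < ‖w‖⁻¹ := inv_pos.2 (norm_pos_iff.2 hw)
    have h1 : (fun w => ζ (G w)) = (fun w => ζ (G w)) ∘ fun x : E' => ‖w‖⁻¹ • x := by
      funext x
      simp only [Function.comp, hG]
      congr 2
      rw [norm_smul, Real.norm_of_nonneg hw0.le, mul_inv, inv_inv, smul_smul]
      rw [show ‖w‖ * ‖x‖⁻¹ * ‖w‖⁻¹ = ‖x‖⁻¹ by
        rw [mul_comm (‖w‖), mul_assoc, mul_inv_cancel₀ (norm_ne_zero_iff.2 hw), mul_one]]
    rw [h1]
    exact (hunit _ (ss_unit hw)).comp w (contDiffAt_id.const_smul _)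
  refine ⟨fun w => ζ (G w), fun w hw => (hall w hw).contDiffWithinAt, ?_, ?_⟩
  · intro w hw
    simp only [hGs w hw]
    exact ⟨hζ0' _, hζn' _⟩
  · intro p hp
    have hp0 := ss_ne hp
    have hd : HasFDerivAt (fun w => ζ (G w)) (fderiv ℝ (fun w => ζ (G w)) (f p)) (f p) :=
      ((hall _ (ss_ne (hfs p hp))).differentiableAt (by simp)).hasFDerivAt
    constructor
    · intro v
      have h1 : HasFDerivAt (fun x => ζ (G (f x)))
          ((fderiv ℝ (fun w => ζ (G w)) (f p)).comp (fderiv ℝ f p)) p :=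
        hd.comp p (ss_df h hp0)
      have h2 : HasFDerivAt (fun x => ζ (G (f x))) (0 : E →L[ℝ] ℝ) p := by
        refine (hasFDerivAt_const (0 : ℝ) p).congr_of_eventuallyEq ?_
        filter_upwards [isOpen_compl_singleton.mem_nhds hp0] with x hx
        have hx0 : 0 < ‖x‖ := norm_pos_iff.2 hx
        have e1 := ss_unit hx
        have e2 : f x = ‖x‖ • f (‖x‖⁻¹ • x) := by
          rw [← h.hf _ hx0 _ (ss_ne e1), smul_inv_smul₀ hx0.ne']
        simp only [hG]
        rw [e2, ss_N hx0 (h.nf _ e1), hFf _ e1, hζ0]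
      have h3 := congrArg (fun L : E →L[ℝ] ℝ => L v) (h1.unique h2)
      simpa using h3
    · have h1 : HasDerivAt (fun u : ℝ => tub f ν p u) (ν p) 0 := by
        have e1 := ((Real.hasDerivAt_cos 0).smul_const (f p)).add
          ((Real.hasDerivAt_sin 0).smul_const (ν p))
        simp only [cos_zero, sin_zero, neg_zero, zero_smul, one_smul, zero_add] at e1
        exact e1
      have h2 : HasDerivAt (fun u : ℝ => ζ (G (tub f ν p u)))
          (fderiv ℝ (fun w => ζ (G w)) (f p) (ν p)) 0 := by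
        have hd' : HasFDerivAt (fun w => ζ (G w)) (fderiv ℝ (fun w => ζ (G w)) (f p))
            (tub f ν p 0) := by
          rw [htub0]
          exact hd
        exact hd'.comp_hasDerivAt (0 : ℝ) h1
      have h3 : HasDerivAt (fun u : ℝ => ζ (G (tub f ν p u))) c 0 := by
        refine hζd.congr_of_eventuallyEq ?_
        filter_upwards [Ioo_mem_nhds (neg_lt_zero.2 hα) hβ] with u hu
        have e1 : tub f ν p u ∈ sphere (0 : E') 1 := by
          simpa using norm_tub hT hp u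
        rw [hGs _ e1, hF.tube p hp u ⟨hu.1.le, hu.2.le⟩]
      rw [h2.unique h3]
      exact hc0

end Pool.Schoen
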