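import Pool.Agent.H.MP_6c077c_gt.SideExists
import Pool.Agent.H.MP_6c077c_gt.Antipode
import Pool.Agent.H.MP_6c077c_gt.GreatCircle
import Pool.Agent.H.MP_6c077c_gt.SmoothSide
import Pool.Agent.H.MP_6c077c_gt.Stereo

/-! Thick spheres in the unit sphere are unknotted (ambient form). -/

set_option autoImplicit false

namespace Pool.Schoen

open scoped ContDiff RealInnerProductSpace
open Metric Set Real

variable {E E' : Type*} [NormedAddCommGroup E] [InnerProductSpace ℝ E] [FiniteDimensional ℝ E]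
  [NormedAddCommGroup E'] [InnerProductSpace ℝ E'] [FiniteDimensional ℝ E']

omit [FiniteDimensional ℝ E] [FiniteDimensional ℝ E'] in
private theorem thicks_orth {f ν : E → E'} {r₁ r₂ : ℝ} (h : SThick f ν r₁ r₂) {p : E}
    (hp : p ∈ sphere (0 : E) 1) {v : E} (hv : ⟪v, p⟫ = 0) : ⟪fderiv ℝ f p v, f p⟫ = 0 := by
  have hp1 : ‖p‖ = 1 := by simpa using hp
  have hp0 : p ≠ 0 := by
    intro h0
    rw [h0, norm_zero] at hp1
    exact zero_ne_one hp1
  have hnhds : ({0}ᶜ : Set E) ∈ nhds p := isOpen_compl_singleton.mem_nhds hp0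
  have hfd : DifferentiableAt ℝ f p := (h.sf.contDiffAt hnhds).differentiableAt (by simp)
  have hnorm : ∀ x : E, x ≠ 0 → ‖f x‖ = ‖x‖ := by
    intro x hx
    have hx' : 0 < ‖x‖ := norm_pos_iff.2 hx
    have h1 : x = ‖x‖ • (‖x‖⁻¹ • x) := by
      rw [smul_smul, mul_inv_cancel₀ hx'.ne', one_smul]
    have h2 : ‖x‖⁻¹ • x ≠ 0 := smul_ne_zero (inv_ne_zero hx'.ne') hx
    have h3 : ‖x‖⁻¹ • x ∈ sphere (0 : E) 1 := by
      rw [mem_sphere_zero_iff_norm, norm_smul, norm_inv, norm_norm, inv_mul_cancel₀ hx'.ne']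
    have h4 : f x = ‖x‖ • f (‖x‖⁻¹ • x) := by
      conv_lhs => rw [h1]
      exact h.hf ‖x‖ hx' _ h2
    rw [h4, norm_smul, norm_norm, h.nf _ h3, mul_one]
  have hev : (fun x : E => ⟪f x, f x⟫) =ᶠ[nhds p] fun x => ⟪x, x⟫ := by
    filter_upwards [hnhds] with x hx
    rw [real_inner_self_eq_norm_sq, real_inner_self_eq_norm_sq, hnorm x hx]
  have hd1 : HasFDerivAt (fun x : E => ⟪f x, f x⟫)
      ((fderivInnerCLM ℝ (f p, f p)).comp ((fderiv ℝ f p).prod (fderiv ℝ f p))) p :=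
    hfd.hasFDerivAt.inner ℝ hfd.hasFDerivAt
  have hd2 : HasFDerivAt (fun x : E => ⟪x, x⟫)
      ((fderivInnerCLM ℝ (p, p)).comp ((ContinuousLinearMap.id ℝ E).prod
        (ContinuousLinearMap.id ℝ E))) p :=
    (hasFDerivAt_id p).inner ℝ (hasFDerivAt_id p)
  have he := (hd1.congr_of_eventuallyEq hev.symm).unique hd2
  have he2 := congrArg (fun L : E →L[ℝ] ℝ => L v) he
  simp only [ContinuousLinearMap.comp_apply, ContinuousLinearMap.prod_apply,
    fderivInnerCLM_apply, ContinuousLinearMap.id_apply] at he2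
  rw [real_inner_comm (fderiv ℝ f p v) (f p), real_inner_comm v p, hv] at he2
  linarith

private theorem thicks_zero {f ν : E → E'} {α β : ℝ} {F : E' → ℝ} (hα : 0 < α) (hβ : 0 < β)
    (hF : Side f ν α β F) {y : E'} (hy : ‖y‖ = 1) (h0 : F y = 0) :
    ∃ p ∈ sphere (0 : E) 1, y = f p := by
  by_contra hcon
  push Not at hcon
  have hoff : ∀ p ∈ sphere (0 : E) 1, ∀ u ∈ Ioo (-α) β, y ≠ tub f ν p u := by
    intro p hp u hu he
    have h1 := hF.tube p hp u ⟨hu.1.le, hu.2.le⟩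
    rw [← he, h0] at h1
    rw [← h1] at he
    apply hcon p hp
    rw [he]
    simp [tub]
  rcases hF.off y (by simpa using hy) hoff with h1 | h1 <;> linarith

theorem thick_S {f ν : E → E'} {r₁ r₂ : ℝ} (h : SThick f ν r₁ r₂)
    (hE : 2 ≤ Module.finrank ℝ E) (hE' : Module.finrank ℝ E' = Module.finrank ℝ E + 1)
    (hsum : π / 3 < r₁ + r₂) :
    ∃ c : E', ‖c‖ = 1 ∧ ∃ a b : E' → E', ContDiffOn ℝ ∞ a {0}ᶜ ∧ ContDiffOn ℝ ∞ b {0}ᶜ ∧
      (∀ y, ‖y‖ = 1 → ‖a y‖ = 1 ∧ ‖b y‖ = 1 ∧ b (a y) = y ∧ a (b y) = y) ∧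
      a '' (f '' sphere 0 1) = {y : E' | ‖y‖ = 1 ∧ ⟪y, c⟫ = 0} := by
  have hT : Thick f ν r₁ r₂ := h.thick hE'
  have hN : Nontrivial E := Module.nontrivial_of_finrank_pos (R := ℝ) (by omega)
  have p1 := h.pos₁
  have p2 := h.pos₂
  obtain ⟨e, he0, he1, he2, he3⟩ : ∃ e : ℝ, 0 < e ∧ 4 * e ≤ r₁ ∧ 4 * e ≤ r₂ ∧
      8 * e ≤ 3 * (r₁ + r₂) - π := by
    refine ⟨min (min (r₁ / 4) (r₂ / 4)) ((3 * (r₁ + r₂) - π) / 8), ?_, ?_, ?_, ?_⟩
    · refine lt_min (lt_min (by linarith) (by linarith)) (by linarith)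
    · have := (min_le_left (min (r₁ / 4) (r₂ / 4)) ((3 * (r₁ + r₂) - π) / 8)).trans
        (min_le_left _ _)
      linarith
    · have := (min_le_left (min (r₁ / 4) (r₂ / 4)) ((3 * (r₁ + r₂) - π) / 8)).trans
        (min_le_right _ _)
      linarith
    · have := min_le_right (min (r₁ / 4) (r₂ / 4)) ((3 * (r₁ + r₂) - π) / 8)
      linarith
  have hα : 0 < r₁ - e := by linarith
  have hα' : r₁ - e < r₁ := by linarith
  have hβ : 0 < r₂ - e := by linarith
  have hβ' : r₂ - e < r₂ := by linarith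
  have ha : 0 < r₁ - 2 * e := by linarith
  have ha' : r₁ - 2 * e < r₁ - e := by linarith
  have hb : 0 < r₂ - 2 * e := by linarith
  have hb' : r₂ - 2 * e < r₂ - e := by linarith
  obtain ⟨F, hF⟩ := exists_side hT hE hE' hα hα' hβ hβ'
  obtain ⟨c, hc, hca, hcb⟩ := exists_antipodal hT hE hE' hα hα' hβ hβ' F hF ha ha' hb hb'
  obtain ⟨F₁, hF1, hsgn, hder⟩ := smooth_side h hN hE' hα hα' hβ hβ' F hF
  have hcs : c ∈ sphere (0 : E') 1 := by simpa using hc
  have hcs' : -c ∈ sphere (0 : E') 1 := by simpa using hc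
  have hFp : ∀ p ∈ sphere (0 : E) 1, F (f p) = 0 := by
    intro p hp
    have h1 := hF.tube p hp 0 ⟨by linarith, hβ.le⟩
    simpa [tub] using h1
  refine ⟨c, hc, ?_⟩
  have hset : f '' sphere 0 1 = {y : E' | ‖y‖ = 1 ∧ F₁ y = 0} := by
    ext y
    constructor
    · rintro ⟨p, hp, rfl⟩
      have h1 : f p ∈ sphere (0 : E') 1 := by
        rw [mem_sphere_zero_iff_norm]; exact h.nf p hp
      exact ⟨h.nf p hp, (hsgn (f p) h1).1.2 (hFp p hp)⟩
    · rintro ⟨hy1, hy2⟩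
      obtain ⟨p, hp, hyp⟩ := thicks_zero hα hβ hF hy1
        ((hsgn y (by simpa using hy1)).1.1 hy2)
      exact ⟨p, hp, hyp.symm⟩
  rw [hset]
  refine ray_sphere F₁ hF1 c hc ((hsgn c hcs).2.2 (by linarith)) ?_ ?_
  · by_contra hcon
    rcases lt_or_eq_of_le (not_lt.1 hcon) with h1 | h1
    · have := (hsgn (-c) hcs').2.1 h1
      linarith
    · have := (hsgn (-c) hcs').1.1 h1
      linarith
  · intro y hy hFy k hk
    by_contra hcon
    push Not at hcon
    obtain ⟨p, hp, rfl⟩ := thicks_zero hα hβ hF hy ((hsgn y (by simpa using hy)).1.1 hFy)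
    obtain ⟨hd0, hd1⟩ := hder p hp
    have hνf : ⟪ν p, f p⟫ = 0 := by
      rw [real_inner_comm]; exact hT.orth p hp
    have h1 := hcon (ν p) hνf
    rw [h1] at hd1
    have hk0 : 0 < k := by
      rcases lt_or_eq_of_le hk with h2 | h2
      · exact h2
      · rw [← h2, zero_mul] at hd1
        exact absurd hd1 (lt_irrefl 0)
    have hνc : 0 < ⟪ν p, c⟫ := (mul_pos_iff_of_pos_left hk0).1 hd1
    have hperp : ∀ v : E, ⟪v, p⟫ = 0 → ⟪c, fderiv ℝ f p v⟫ = 0 := by
      intro v hv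
      have h2 := hcon (fderiv ℝ f p v) (thicks_orth h hp hv)
      rw [hd0 v] at h2
      have h3 : ⟪fderiv ℝ f p v, c⟫ = 0 := by
        rcases mul_eq_zero.1 h2.symm with h4 | h4
        · exact absurd h4 hk0.ne'
        · exact h4
      rw [real_inner_comm]; exact h3
    obtain ⟨u, hu, hcu⟩ := SThick.normal h hE' hc hp hperp
    have hsin : 0 < sin u := by
      have h2 : ⟪ν p, c⟫ = sin u := by
        rw [hcu, tub, inner_add_right, real_inner_smul_right, real_inner_smul_right, hνf,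
          real_inner_self_eq_norm_sq, hT.nν p hp]
        ring
      rw [← h2]; exact hνc
    have hu0 : 0 < u := by
      by_contra hu0
      have := Real.sin_nonpos_of_nonpos_of_neg_pi_le (not_lt.1 hu0) hu.1.le
      linarith
    have huπ : u < π := by
      rcases lt_or_eq_of_le hu.2 with h2 | h2
      · exact h2
      · rw [h2, sin_pi] at hsin
        exact absurd hsin (lt_irrefl 0)
    exact great_circle hT hN hα hα' hβ hβ' F hF ha ha' hb hb' (by linarith) hc hca hcb hp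
      ⟨hu0, huπ⟩ hcu

end Pool.Schoen
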