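import Pool.Agent.H.MP_6c077c_gt.QuadAlg
import Pool.Agent.H.MP_6c077c_gt.Isotopy

/-! Quadratic embeddings of spheres are unknotted. -/

set_option autoImplicit false

namespace Pool.Schoen

open scoped ContDiff RealInnerProductSpace
open Metric Set

variable {E V : Type*} [NormedAddCommGroup E] [InnerProductSpace ℝ E] [FiniteDimensional ℝ E]
  [NormedAddCommGroup V] [InnerProductSpace ℝ V] [FiniteDimensional ℝ V]

omit [FiniteDimensional ℝ E] [FiniteDimensional ℝ V] in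
theorem quad_hasFDerivAt (a : V) (A : E →L[ℝ] V) (Q : E →L[ℝ] E →L[ℝ] V) (c : ℝ) (x : E) :
    HasFDerivAt (fun y => a + A y + c • Q y y) (A + c • (Q x + Q.flip x)) x := by
  have h1 : HasFDerivAt (fun y => Q y y) (Q x + Q.flip x) x := by
    have h2 := (Q.hasFDerivAt (x := x)).clm_apply (hasFDerivAt_id x)
    refine h2.congr_fderiv ?_
    ext v
    simp
  have h3 := ((A.hasFDerivAt (x := x)).const_add a).add (h1.const_smul c)
  exact h3

theorem quad_carries (a : V) (A : E →L[ℝ] V) (Q : E →L[ℝ] E →L[ℝ] V)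
    (hinj : InjOn (fun x => a + A x + Q x x) (sphere 0 1))
    (himm : ∀ x ∈ sphere (0 : E) 1, ∀ v : E, ⟪v, x⟫ = 0 → A v + (Q x v + Q v x) = 0 → v = 0) :
    CarriesMap (sphere (0 : E) 1) (fun x => a + A x + Q x x) (fun x => a + A x) := by
  have hf : ContDiff ℝ ∞ (fun p : ℝ × E => a + A p.2 + (1 - p.1) • Q p.2 p.2) := by
    refine (contDiff_const.add (A.contDiff.comp contDiff_snd)).add ?_
    refine (contDiff_const.sub contDiff_fst).smul ?_
    exact (Q.contDiff.comp contDiff_snd).clm_apply contDiff_snd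
  have h := isotopy_extension (fun p : ℝ × E => a + A p.2 + (1 - p.1) • Q p.2 p.2) hf ?_ ?_
  · simpa using h
  · intro s hs
    exact quad_inj a A Q hinj (1 - s) ⟨by linarith [hs.2], by linarith [hs.1]⟩
  · intro s hs x hx v hv hd
    have h1 := (quad_hasFDerivAt a A Q (1 - s) x).fderiv
    simp only at hd
    rw [h1] at hd
    refine quad_imm a A Q hinj himm (1 - s) ⟨by linarith [hs.2], by linarith [hs.1]⟩ x hx v hv ?_
    simpa using hd

/-- A linear injection is a linear isometry up to an invertible linear map of the target. -/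
theorem exists_isometry (A : E →L[ℝ] V) (hA : Function.Injective A) :
    ∃ (T : V ≃L[ℝ] V) (ι : E →ₗᵢ[ℝ] V), ∀ x, T (A x) = ι x := by
  have hA' : Function.Injective (A : E →ₗ[ℝ] V) := hA
  let R : Submodule ℝ V := LinearMap.range (A : E →ₗ[ℝ] V)
  let e1 : E ≃ₗ[ℝ] R := LinearEquiv.ofInjective (A : E →ₗ[ℝ] V) hA'
  have hfr : Module.finrank ℝ E = Module.finrank ℝ R := e1.finrank_eq
  let j : E ≃ₗᵢ[ℝ] R := (stdOrthonormalBasis ℝ E).equiv (stdOrthonormalBasis ℝ R) (finCongr hfr)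
  have hc : IsCompl R Rᗮ := Submodule.isCompl_orthogonal R
  let e : (R × Rᗮ) ≃ₗ[ℝ] V := Submodule.prodEquivOfIsCompl R Rᗮ hc
  let S : R ≃ₗ[ℝ] R := e1.symm.trans j.toLinearEquiv
  let T0 : V ≃ₗ[ℝ] V := e.symm.trans ((S.prodCongr (LinearEquiv.refl ℝ Rᗮ)).trans e)
  refine ⟨T0.toContinuousLinearEquiv, R.subtypeₗᵢ.comp j.toLinearIsometry, fun x => ?_⟩
  have h1 : e.symm (A x) = (e1 x, 0) := by
    rw [LinearEquiv.symm_apply_eq]
    change A x = Submodule.prodEquivOfIsCompl R Rᗮ hc (e1 x, 0)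
    rw [Submodule.coe_prodEquivOfIsCompl']
    simp only [Submodule.coe_zero, add_zero]
    rfl
  change e ((S.prodCongr (LinearEquiv.refl ℝ Rᗮ)) (e.symm (A x))) = (j x : V)
  rw [h1]
  change Submodule.prodEquivOfIsCompl R Rᗮ hc (S (e1 x), 0) = (j x : V)
  rw [Submodule.coe_prodEquivOfIsCompl']
  simp [S]

/-- Every quadratic embedding of a round sphere in a Euclidean space is taken to a standard
linear sphere by a diffeomorphism of the space. -/
theorem quad_unknotted (a : V) (A : E →L[ℝ] V) (Q : E →L[ℝ] E →L[ℝ] V)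
    (hinj : InjOn (fun x => a + A x + Q x x) (sphere 0 1))
    (himm : ∀ x ∈ sphere (0 : E) 1, ∀ v : E, ⟪v, x⟫ = 0 → A v + (Q x v + Q v x) = 0 → v = 0) :
    ∃ (φ ψ : V → V) (ι : E →ₗᵢ[ℝ] V), ContDiff ℝ ∞ φ ∧ ContDiff ℝ ∞ ψ ∧ (∀ x, ψ (φ x) = x) ∧
      (∀ x, φ (ψ x) = x) ∧ ∀ x ∈ sphere (0 : E) 1, φ (a + A x + Q x x) = ι x := by
  obtain ⟨φ, ψ, h1, h2, h3, h4, -, h6⟩ := quad_carries a A Q hinj himm
  obtain ⟨T, ι, hT⟩ := exists_isometry A (quad_A_inj a A Q hinj)
  refine ⟨fun x => T (φ x - a), fun y => ψ (a + T.symm y), ι, ?_, ?_, ?_, ?_, ?_⟩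
  · exact T.contDiff.comp (h1.sub contDiff_const)
  · exact h2.comp (contDiff_const.add T.symm.contDiff)
  · intro x; simp [h3]
  · intro x; simp [h4]
  · intro x hx
    have := h6 x hx
    simp only at this
    change T (φ (a + A x + Q x x) - a) = ι x
    rw [this, ← hT]
    simp

end Pool.Schoen
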