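import Mathlib

/-! Quadratic embeddings of spheres: the straight-line homotopy to the linear part. -/

set_option autoImplicit false

namespace Pool.Schoen

open scoped ContDiff RealInnerProductSpace
open Metric Set

variable {E V : Type*} [NormedAddCommGroup E] [InnerProductSpace ℝ E]
  [NormedAddCommGroup V] [NormedSpace ℝ V]

/-- The basic relation excluded by injectivity. -/
theorem quadalg_key (a : V) (A : E →L[ℝ] V) (Q : E →L[ℝ] E →L[ℝ] V)
    (hinj : InjOn (fun x => a + A x + Q x x) (sphere 0 1)) (u v : E) (huv : ⟪u, v⟫ = 0)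
    (hn : ‖u‖ ^ 2 + ‖v‖ ^ 2 = 4) (hv : v ≠ 0) :
    A v + (1 / 2 : ℝ) • (Q u v + Q v u) ≠ 0 := by
  intro h
  have h1 : ‖u + v‖ ^ 2 = 4 := by
    rw [norm_add_sq_real, huv]; linarith
  have h2 : ‖u - v‖ ^ 2 = 4 := by
    rw [norm_sub_sq_real, huv]; linarith
  have h1' : ‖u + v‖ = 2 := by
    have : ‖u + v‖ ^ 2 = 2 ^ 2 := by rw [h1]; norm_num
    exact (sq_eq_sq₀ (norm_nonneg _) (by norm_num)).1 this
  have h2' : ‖u - v‖ = 2 := by
    have : ‖u - v‖ ^ 2 = 2 ^ 2 := by rw [h2]; norm_num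
    exact (sq_eq_sq₀ (norm_nonneg _) (by norm_num)).1 this
  have hx : (1 / 2 : ℝ) • (u + v) ∈ sphere (0 : E) 1 := by
    rw [mem_sphere_zero_iff_norm, norm_smul, h1']; norm_num
  have hy : (1 / 2 : ℝ) • (u - v) ∈ sphere (0 : E) 1 := by
    rw [mem_sphere_zero_iff_norm, norm_smul, h2']; norm_num
  have hne : (1 / 2 : ℝ) • (u + v) ≠ (1 / 2 : ℝ) • (u - v) := by
    intro he
    have h3 : u + v = u - v := smul_right_injective E (by norm_num : (1 / 2 : ℝ) ≠ 0) he
    have h4 : v + v = 0 := by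
      have h5 : (u + v) - (u - v) = 0 := by rw [h3, sub_self]
      have h6 : (u + v) - (u - v) = v + v := by abel
      rw [← h6, h5]
    have h5 : (2 : ℝ) • v = 0 := by rw [two_smul]; exact h4
    exact hv ((smul_eq_zero.1 h5).resolve_left (by norm_num))
  apply hne
  apply hinj hx hy
  have h7 : (a + A ((1 / 2 : ℝ) • (u + v)) + Q ((1 / 2 : ℝ) • (u + v)) ((1 / 2 : ℝ) • (u + v)))
      - (a + A ((1 / 2 : ℝ) • (u - v)) + Q ((1 / 2 : ℝ) • (u - v)) ((1 / 2 : ℝ) • (u - v)))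
      = A v + (1 / 2 : ℝ) • (Q u v + Q v u) := by
    simp only [map_smul, map_add, map_sub, smul_add, smul_sub, ContinuousLinearMap.add_apply,
      ContinuousLinearMap.sub_apply, ContinuousLinearMap.smul_apply, ContinuousLinearMap.coe_smul',
      Pi.smul_apply, smul_smul]
    module
  exact sub_eq_zero.1 (h7.trans h)

/-- The rescaled relation. -/
theorem quadalg_keyS (a : V) (A : E →L[ℝ] V) (Q : E →L[ℝ] E →L[ℝ] V)
    (hinj : InjOn (fun x => a + A x + Q x x) (sphere 0 1)) (s : ℝ) (u v : E) (huv : ⟪u, v⟫ = 0)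
    (hn : s ^ 2 * ‖u‖ ^ 2 < 4) (hv : v ≠ 0) :
    A v + (s / 2 : ℝ) • (Q u v + Q v u) ≠ 0 := by
  intro h
  have hvn : 0 < ‖v‖ := norm_pos_iff.2 hv
  set t : ℝ := Real.sqrt (4 - s ^ 2 * ‖u‖ ^ 2) / ‖v‖ with ht
  have htpos : 0 < t := div_pos (Real.sqrt_pos.2 (by linarith)) hvn
  refine quadalg_key a A Q hinj (s • u) (t • v) ?_ ?_ ?_ ?_
  · rw [inner_smul_left, inner_smul_right, huv]; simp
  · rw [norm_smul, norm_smul, mul_pow, mul_pow, Real.norm_eq_abs, Real.norm_eq_abs, sq_abs, sq_abs,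
      ht, div_pow, Real.sq_sqrt (by linarith), div_mul_cancel₀ _ (by positivity)]
    ring
  · exact smul_ne_zero htpos.ne' hv
  · have h1 : A (t • v) + (1 / 2 : ℝ) • (Q (s • u) (t • v) + Q (t • v) (s • u))
        = t • (A v + (s / 2 : ℝ) • (Q u v + Q v u)) := by
      simp only [map_smul, ContinuousLinearMap.smul_apply, ContinuousLinearMap.coe_smul',
        Pi.smul_apply, smul_add, smul_smul]
      module
    rw [h1, h, smul_zero]

theorem quad_inj (a : V) (A : E →L[ℝ] V) (Q : E →L[ℝ] E →L[ℝ] V)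
    (hinj : InjOn (fun x => a + A x + Q x x) (sphere 0 1)) (s : ℝ) (hs : s ∈ Icc (0 : ℝ) 1) :
    InjOn (fun x => a + A x + s • Q x x) (sphere 0 1) := by
  intro x hx y hy hxy
  by_contra hne
  have hx1 : ‖x‖ = 1 := mem_sphere_zero_iff_norm.1 hx
  have hy1 : ‖y‖ = 1 := mem_sphere_zero_iff_norm.1 hy
  have hv : x - y ≠ 0 := sub_ne_zero.2 hne
  have hvn : 0 < ‖x - y‖ := norm_pos_iff.2 hv
  have huv : ⟪x + y, x - y⟫ = 0 := by
    rw [real_inner_comm]
    have : ⟪x - y, x + y⟫ = ‖x‖ ^ 2 - ‖y‖ ^ 2 := by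
      rw [inner_add_right, inner_sub_left, inner_sub_left, real_inner_self_eq_norm_sq,
        real_inner_self_eq_norm_sq, real_inner_comm x y]
      ring
    rw [this, hx1, hy1]; ring
  have hpar : ‖x + y‖ ^ 2 + ‖x - y‖ ^ 2 = 4 := by
    rw [norm_add_sq_real, norm_sub_sq_real, hx1, hy1]; ring
  have hu4 : ‖x + y‖ ^ 2 < 4 := by nlinarith [pow_pos hvn 2]
  have hs2 : s ^ 2 ≤ 1 := by nlinarith [hs.1, hs.2]
  have hlt : s ^ 2 * ‖x + y‖ ^ 2 < 4 := by nlinarith [sq_nonneg ‖x + y‖]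
  refine quadalg_keyS a A Q hinj s (x + y) (x - y) huv hlt hv ?_
  have h1 : A (x - y) + (s / 2 : ℝ) • (Q (x + y) (x - y) + Q (x - y) (x + y))
      = (a + A x + s • Q x x) - (a + A y + s • Q y y) := by
    simp only [map_add, map_sub, ContinuousLinearMap.add_apply, ContinuousLinearMap.sub_apply]
    module
  rw [h1]
  exact sub_eq_zero.2 hxy

theorem quad_imm (a : V) (A : E →L[ℝ] V) (Q : E →L[ℝ] E →L[ℝ] V)
    (hinj : InjOn (fun x => a + A x + Q x x) (sphere 0 1))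
    (himm : ∀ x ∈ sphere (0 : E) 1, ∀ v : E, ⟪v, x⟫ = 0 → A v + (Q x v + Q v x) = 0 → v = 0)
    (s : ℝ) (hs : s ∈ Icc (0 : ℝ) 1) (x : E) (hx : x ∈ sphere (0 : E) 1) (v : E) (hv : ⟪v, x⟫ = 0)
    (h : A v + s • (Q x v + Q v x) = 0) : v = 0 := by
  rcases eq_or_lt_of_le hs.2 with h1 | h1
  · refine himm x hx v hv ?_
    rw [h1, one_smul] at h
    exact h
  · by_contra hne
    have hx1 : ‖x‖ = 1 := mem_sphere_zero_iff_norm.1 hx
    refine quadalg_keyS a A Q hinj s ((2 : ℝ) • x) v ?_ ?_ hne ?_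
    · rw [inner_smul_left, real_inner_comm, hv]; simp
    · have h3 : ‖(2 : ℝ) • x‖ = 2 := by
        rw [norm_smul, hx1]; norm_num
      have h4 : s ^ 2 < 1 := by nlinarith [hs.1]
      rw [h3]
      nlinarith
    · have h2 : A v + (s / 2 : ℝ) • (Q ((2 : ℝ) • x) v + Q v ((2 : ℝ) • x))
          = A v + s • (Q x v + Q v x) := by
        simp only [map_smul, ContinuousLinearMap.smul_apply, ContinuousLinearMap.coe_smul',
          Pi.smul_apply]
        module
      rw [h2, h]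

theorem quad_A_inj (a : V) (A : E →L[ℝ] V) (Q : E →L[ℝ] E →L[ℝ] V)
    (hinj : InjOn (fun x => a + A x + Q x x) (sphere 0 1)) : Function.Injective A := by
  rw [injective_iff_map_eq_zero]
  intro x hx
  by_contra hne
  refine quadalg_keyS a A Q hinj 0 0 x (by simp) (by simp) hne ?_
  rw [hx]; simp

end Pool.Schoen
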