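import Pool.Agent.H.MP_6c077c_gt.Tube
import Pool.Agent.H.MP_6c077c_gt.LiftSide

/-! Existence of the truncated signed distance function of a thick sphere. -/

set_option autoImplicit false

namespace Pool.Schoen

open scoped ContDiff RealInnerProductSpace
open Metric Set Real

variable {E E' : Type*} [NormedAddCommGroup E] [InnerProductSpace ℝ E] [FiniteDimensional ℝ E]
  [NormedAddCommGroup E'] [InnerProductSpace ℝ E'] [FiniteDimensional ℝ E']

/-- the exterior of a ball is connected. -/
theorem sideexists_outer {V : Type*} [NormedAddCommGroup V] [InnerProductSpace ℝ V]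
    [FiniteDimensional ℝ V] (hV : 2 ≤ Module.finrank ℝ V) {R : ℝ} (hR : 0 ≤ R) :
    IsConnected {x : V | R < ‖x‖} := by
  have hrank : 1 < Module.rank ℝ V := by
    rw [← Module.finrank_eq_rank]
    exact_mod_cast (by omega : 1 < Module.finrank ℝ V)
  have h1 : IsConnected (sphere (0 : V) 1) := isConnected_sphere hrank 0 zero_le_one
  have h2 : IsConnected (Ioi R) := isConnected_Ioi
  have h3 := (h2.prod h1).image (fun z : ℝ × V => z.1 • z.2) (by fun_prop)
  convert h3 using 1
  ext x
  simp only [mem_ofPred_eq, mem_image, mem_prod, mem_Ioi, mem_sphere_iff_norm, sub_zero, Prod.exists]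
  constructor
  · intro hx
    have hx0 : 0 < ‖x‖ := lt_of_le_of_lt hR hx
    refine ⟨‖x‖, ‖x‖⁻¹ • x, ⟨hx, ?_⟩, ?_⟩
    · rw [norm_smul, norm_inv, norm_norm, inv_mul_cancel₀ hx0.ne']
    · rw [smul_smul, mul_inv_cancel₀ hx0.ne', one_smul]
  · rintro ⟨a, b, ⟨h1, h2⟩, rfl⟩
    rw [norm_smul, h2, mul_one, Real.norm_of_nonneg (hR.trans h1.le)]
    exact h1

theorem exists_side {f ν : E → E'} {r₁ r₂ : ℝ} (h : Thick f ν r₁ r₂)
    (hE : 2 ≤ Module.finrank ℝ E) (hE' : Module.finrank ℝ E' = Module.finrank ℝ E + 1)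
    {α β : ℝ} (hα : 0 < α) (hα' : α < r₁) (hβ : 0 < β) (hβ' : β < r₂) :
    ∃ F : E' → ℝ, Side f ν α β F := by
  classical
  have hnt : Nontrivial E := Module.nontrivial_of_finrank_pos (R := ℝ) (by omega)
  have hrankE : 1 < Module.rank ℝ E := by
    rw [← Module.finrank_eq_rank]
    exact_mod_cast (by omega : 1 < Module.finrank ℝ E)
  have hsph : IsConnected (sphere (0 : E) 1) := isConnected_sphere hrankE 0 zero_le_one
  obtain ⟨p0, hp0⟩ := hsph.nonempty
  obtain ⟨t, ht1, ht2⟩ := exists_between hβ'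
  set q : E' := tub f ν p0 t with hq
  have hqn : ‖q‖ = 1 := norm_tub h hp0 t
  have hq0 : q ≠ 0 := by
    intro h0
    rw [h0, norm_zero] at hqn
    exact zero_ne_one hqn
  have hIcc : ∀ u ∈ Icc (-α) β, u ∈ Ioo (-r₁) r₂ := fun u hu =>
    ⟨by linarith [hu.1], by linarith [hu.2]⟩
  have hqtube : ∀ p ∈ sphere (0 : E) 1, ∀ u ∈ Icc (-α) β, tub f ν p u ≠ q := by
    intro p hp u hu he
    have := (tub_inj h hp hp0 (hIcc u hu) ⟨by linarith [h.pos₁], ht2⟩ he).2
    linarith [hu.2]
  -- the stereographic chart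
  set V := (ℝ ∙ q)ᗮ with hVdef
  have hVrank : 2 ≤ Module.finrank ℝ V := by
    have : Fact (Module.finrank ℝ E' = Module.finrank ℝ E + 1) := ⟨hE'⟩
    rw [hVdef, Submodule.finrank_orthogonal_span_singleton (n := Module.finrank ℝ E) hq0]
    exact hE
  set e := stereographic hqn with he
  have hsrc : ∀ w : sphere (0 : E') 1, (w : E') ≠ q → w ∈ e.source := by
    intro w hw
    rw [he, stereographic_source]
    intro hwq
    apply hw
    rw [mem_singleton_iff] at hwq
    rw [hwq]
  have hsrc' : ∀ w : sphere (0 : E') 1, w ∈ e.source → (w : E') ≠ q := by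
    intro w hw hwq
    rw [he, stereographic_source] at hw
    apply hw
    rw [mem_singleton_iff]
    exact Subtype.ext hwq
  have htgt : e.target = univ := by rw [he, stereographic_target]
  have : CompactSpace (sphere (0 : E) 1) := isCompact_iff_compactSpace.mp (isCompact_sphere 0 1)
  have : ConnectedSpace (sphere (0 : E) 1) := isConnected_iff_connectedSpace.mp hsph
  have : CompactSpace (sphere (0 : E') 1) := isCompact_iff_compactSpace.mp (isCompact_sphere 0 1)
  -- the tube map
  set T : sphere (0 : E) 1 × ℝ → sphere (0 : E') 1 := fun z =>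
    ⟨tub f ν z.1 z.2, by rw [mem_sphere_zero_iff_norm]; exact norm_tub h z.1.2 z.2⟩ with hT
  have hTc : Continuous T := by
    rw [hT]
    refine Continuous.subtype_mk ?_ _
    exact (continuousOn_tub h).comp_continuous
      (f := fun z : sphere (0 : E) 1 × ℝ => ((z.1 : E), z.2)) (by fun_prop)
      (fun z => ⟨z.1.2, mem_univ _⟩)
  have hTsrc : ∀ z ∈ (univ : Set (sphere (0 : E) 1)) ×ˢ Icc (-α) β, T z ∈ e.source := by
    rintro z ⟨-, hz⟩
    exact hsrc _ (hqtube z.1 z.1.2 z.2 hz)
  have hTinj : InjOn T ((univ : Set (sphere (0 : E) 1)) ×ˢ Icc (-α) β) := by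
    rintro z ⟨-, hz⟩ z' ⟨-, hz'⟩ hzz
    have h1 : tub f ν z.1 z.2 = tub f ν z'.1 z'.2 := congrArg Subtype.val hzz
    obtain ⟨h2, h3⟩ := tub_inj h z.1.2 z'.1.2 (hIcc _ hz) (hIcc _ hz') h1
    exact Prod.ext (Subtype.ext h2) h3
  set τ : sphere (0 : E) 1 × ℝ → V := fun z => e (T z) with hτ
  have hτc : ContinuousOn τ ((univ : Set (sphere (0 : E) 1)) ×ˢ Icc (-α) β) :=
    e.continuousOn.comp hTc.continuousOn hTsrc
  have hτinj : InjOn τ ((univ : Set (sphere (0 : E) 1)) ×ˢ Icc (-α) β) := by
    intro z hz z' hz' hzz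
    exact hTinj hz hz' (e.injOn (hTsrc z hz) (hTsrc z' hz') hzz)
  have hIooIcc : (univ : Set (sphere (0 : E) 1)) ×ˢ Ioo (-α) β ⊆ univ ×ˢ Icc (-α) β :=
    prod_mono subset_rfl Ioo_subset_Icc_self
  have hopen : IsOpen (τ '' ((univ : Set (sphere (0 : E) 1)) ×ˢ Ioo (-α) β)) := by
    obtain ⟨O, hO, hO'⟩ := isOpen_tube h hnt hα hα' hβ hβ'
    have h1 : T '' ((univ : Set (sphere (0 : E) 1)) ×ˢ Ioo (-α) β) = Subtype.val ⁻¹' O := by
      ext w
      simp only [mem_image, mem_preimage]
      rw [hO' w w.2]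
      constructor
      · rintro ⟨z, ⟨-, hz⟩, rfl⟩
        exact ⟨z.1, z.1.2, z.2, hz, rfl⟩
      · rintro ⟨p, hp, u, hu, hw⟩
        exact ⟨(⟨p, hp⟩, u), ⟨mem_univ _, hu⟩, Subtype.ext hw.symm⟩
    have h2 : τ '' ((univ : Set (sphere (0 : E) 1)) ×ˢ Ioo (-α) β) = e '' (Subtype.val ⁻¹' O) := by
      rw [← h1, image_image]
    rw [h2]
    apply e.isOpen_image_of_subset_source (hO.preimage continuous_subtype_val)
    rw [← h1]
    rintro _ ⟨z, hz, rfl⟩
    exact hTsrc z (hIooIcc hz)
  obtain ⟨G, hGc, hGt, hGo⟩ := lift_side τ α β hα hβ hτc hτinj hopen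
  -- near infinity
  have hcpt : IsCompact (τ '' ((univ : Set (sphere (0 : E) 1)) ×ˢ Icc (-α) β)) :=
    (isCompact_univ.prod isCompact_Icc).image_of_continuousOn hτc
  obtain ⟨R₀, hR₀⟩ := hcpt.isBounded.subset_closedBall 0
  set R := max R₀ 0 with hRdef
  have hR0 : 0 ≤ R := le_max_right _ _
  have hRt : τ '' ((univ : Set (sphere (0 : E) 1)) ×ˢ Icc (-α) β) ⊆ closedBall 0 R :=
    hR₀.trans (closedBall_subset_closedBall (le_max_left _ _))
  have hout : ∀ x : V, R < ‖x‖ → G x = -α ∨ G x = β := by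
    intro x hx
    apply hGo
    intro hx'
    have := hRt (image_mono hIooIcc hx')
    rw [mem_closedBall_zero_iff] at this
    linarith
  have hconn := sideexists_outer hVrank hR0
  obtain ⟨x0, hx0⟩ := hconn.nonempty
  set k := G x0 with hk
  have hkab : k = -α ∨ k = β := hout x0 hx0
  have hconst : ∀ x : V, R < ‖x‖ → G x = k := by
    intro x hx
    have hpre := (hconn.image G hGc.continuousOn).isPreconnected.ordConnected
    by_contra hne
    have h1 : G x ∈ G '' {x : V | R < ‖x‖} := ⟨x, hx, rfl⟩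
    have h2 : k ∈ G '' {x : V | R < ‖x‖} := ⟨x0, hx0, rfl⟩
    have h0 : (0 : ℝ) ∈ G '' {x : V | R < ‖x‖} := by
      rcases hout x hx with hx1 | hx1 <;> rcases hkab with hk1 | hk1
      · exact absurd (hx1.trans hk1.symm) hne
      · exact hpre.out h1 h2 ⟨by rw [hx1]; linarith, by rw [hk1]; exact hβ.le⟩
      · exact hpre.out h2 h1 ⟨by rw [hk1]; linarith, by rw [hx1]; exact hβ.le⟩
      · exact absurd (hx1.trans hk1.symm) hne
    obtain ⟨y, hy, hy0⟩ := h0
    rcases hout y hy with h3 | h3 <;> linarith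
  -- the function
  refine ⟨fun w => if w = q then k else G (stereoToFun q w), ?_, ?_, ?_⟩
  · intro w hw
    by_cases hwq : w = q
    · -- continuity at q
      have hK : IsCompact (e.symm '' closedBall 0 R) := by
        refine (isCompact_closedBall 0 R).image_of_continuousOn ?_
        exact e.continuousOn_symm.mono (by rw [htgt]; exact subset_univ _)
      have hK' : IsCompact (Subtype.val '' (e.symm '' closedBall (0 : V) R)) :=
        hK.image continuous_subtype_val
      have hqK : q ∉ Subtype.val '' (e.symm '' closedBall (0 : V) R) := by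
        rintro ⟨w', ⟨x, -, rfl⟩, hx⟩
        exact hsrc' _ (e.map_target (by rw [htgt]; exact mem_univ x)) hx
      have hev : ∀ᶠ w' in nhdsWithin w (sphere (0 : E') 1),
          (if w' = q then k else G (stereoToFun q w')) = k := by
        have hmem : (Subtype.val '' (e.symm '' closedBall (0 : V) R))ᶜ ∈ nhds w := by
          rw [hwq]
          exact hK'.isClosed.isOpen_compl.mem_nhds hqK
        filter_upwards [mem_nhdsWithin_of_mem_nhds hmem, self_mem_nhdsWithin] with w' hw1 hw2
        split_ifs with hw3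
        · rfl
        · have hs : (⟨w', hw2⟩ : sphere (0 : E') 1) ∈ e.source := hsrc _ hw3
          have hst : stereoToFun q w' = e ⟨w', hw2⟩ := rfl
          rw [hst]
          apply hconst
          by_contra hle
          push Not at hle
          apply hw1
          refine ⟨⟨w', hw2⟩, ⟨e ⟨w', hw2⟩, ?_, e.left_inv hs⟩, rfl⟩
          rw [mem_closedBall_zero_iff]
          exact hle
      refine ContinuousWithinAt.congr_of_eventuallyEq (f := fun _ => k)
        continuousWithinAt_const hev ?_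
      simp only [hwq, if_true]
    · have hcont : ContinuousAt (stereoToFun q) w := by
        have hne : w ∈ {x : E' | innerSL ℝ q x ≠ (1 : ℝ)} := by
          simp only [mem_ofPred_eq, innerSL_apply_apply, ne_eq]
          intro h1
          have := (inner_eq_one_iff_of_norm_eq_one (𝕜 := ℝ) hqn
            (by simpa using hw : ‖w‖ = 1)).mp h1
          exact hwq this.symm
        refine (continuousOn_stereoToFun (v := q)).continuousAt ?_
        have hop : IsOpen {x : E' | innerSL ℝ q x ≠ (1 : ℝ)} :=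
          isOpen_ne_fun (innerSL ℝ q).continuous continuous_const
        exact hop.mem_nhds hne
      have hc2 : ContinuousAt (fun w => G (stereoToFun q w)) w :=
        hGc.continuousAt.comp hcont
      refine ContinuousAt.continuousWithinAt ?_
      refine hc2.congr ?_
      filter_upwards [isOpen_ne.mem_nhds hwq] with w' hw'
      rw [if_neg hw']
  · intro p hp u hu
    have h1 := hqtube p hp u hu
    simp only [if_neg h1]
    exact hGt ⟨p, hp⟩ u hu
  · intro w hw hw'
    by_cases hwq : w = q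
    · simp only [if_pos hwq]
      exact hkab
    · simp only [if_neg hwq]
      apply hGo
      rintro ⟨z, hz, hz2⟩
      have hs : (⟨w, hw⟩ : sphere (0 : E') 1) ∈ e.source := hsrc _ hwq
      have h2 : T z = ⟨w, hw⟩ := e.injOn (hTsrc z (hIooIcc hz)) hs hz2
      exact hw' z.1 z.1.2 z.2 hz.2 (congrArg Subtype.val h2).symm

end Pool.Schoen
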