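import Mathlib
import Pool.Agent.H.MP_6c077c_gt.Ray

/-! Thick hypersurfaces of a Euclidean space are unknotted. -/

set_option autoImplicit false

namespace Pool.Schoen

open scoped ContDiff

variable {V : Type*} [NormedAddCommGroup V] [InnerProductSpace ℝ V] [FiniteDimensional ℝ V]

/-- sign of a function near a zero with positive derivative. -/
theorem thickr_sign (g : ℝ → ℝ) (g' : ℝ) (hg' : HasDerivAt g g' 0) (hpos : 0 < g')
    (h0 : g 0 = 0) : ∃ ε > 0, (∀ t, 0 < t → t < ε → 0 < g t) ∧ (∀ t, -ε < t → t < 0 → g t < 0) := by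
  have hd : deriv g 0 > 0 := by rw [hg'.deriv]; exact hpos
  have h := eventually_nhdsWithin_sign_eq_of_deriv_pos hd h0
  rw [Metric.eventually_nhds_iff] at h
  obtain ⟨ε, hε, h⟩ := h
  refine ⟨ε, hε, fun t ht1 ht2 => ?_, fun t ht1 ht2 => ?_⟩
  · have h1 := h (y := t) (by rw [Real.dist_eq, sub_zero, abs_of_pos ht1]; exact ht2)
    rw [sub_zero, sign_pos ht1, sign_eq_one_iff] at h1
    exact h1
  · have h1 := h (y := t) (by rw [Real.dist_eq, sub_zero, abs_of_neg ht2]; linarith)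
    rw [sub_zero, sign_neg ht2, sign_eq_neg_one_iff] at h1
    exact h1

/-- the three zeros on the line. -/
theorem thickr_zeros (g : ℝ → ℝ) (hg : Continuous g) (g' : ℝ) (hg' : HasDerivAt g g' 0)
    (hpos : 0 < g') (h0 : g 0 = 0) (s : ℝ) (hs : 0 < s) (hgs : g s < 0) (T : ℝ) (hT : s < T)
    (hT1 : 0 < g T) (hT2 : 0 < g (-T)) :
    ∃ u₁ u₂ u₃ : ℝ, 0 < u₁ ∧ u₁ < s ∧ 0 < u₂ ∧ 0 < u₃ ∧ g u₁ = 0 ∧ g (-u₂) = 0 ∧
      g (s + u₃) = 0 := by
  obtain ⟨ε, hε, h1, h2⟩ := thickr_sign g g' hg' hpos h0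
  set t : ℝ := min ε s / 2 with ht
  have hm : 0 < min ε s := lt_min hε hs
  have ht0 : 0 < t := by rw [ht]; linarith
  have ht1 : t < ε := by
    have := min_le_left ε s
    rw [ht]; linarith
  have ht2 : t < s := by
    have := min_le_right ε s
    rw [ht]; linarith
  have hgt := h1 t ht0 ht1
  have hgt' := h2 (-t) (by linarith) (by linarith)
  obtain ⟨u₁, hu1, hu1'⟩ : ∃ u ∈ Set.Ioo t s, g u = 0 := by
    have := intermediate_value_Ioo' ht2.le hg.continuousOn
    exact this ⟨hgs, hgt⟩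
  obtain ⟨u₃, hu3, hu3'⟩ : ∃ u ∈ Set.Ioo s T, g u = 0 := by
    have := intermediate_value_Ioo hT.le hg.continuousOn
    exact this ⟨hgs, hT1⟩
  obtain ⟨u₂, hu2, hu2'⟩ : ∃ u ∈ Set.Ioo (-T) (-t), g u = 0 := by
    have := intermediate_value_Ioo' (show -T ≤ -t by linarith) hg.continuousOn
    exact this ⟨hgt', hT2⟩
  refine ⟨u₁, -u₂, u₃ - s, by linarith [hu1.1], hu1.2, by linarith [hu2.2], by linarith [hu3.1],
    hu1', ?_, ?_⟩
  · rw [neg_neg]; exact hu2'
  · rw [add_sub_cancel]; exact hu3'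

/-- The line argument: a ray from `c` entering `{F ≤ 0}` orthogonally at `x` forces a large
diameter. -/
theorem line_argument (F : V → ℝ) (hF : ContDiff ℝ ∞ F) (hb : Bornology.IsBounded {x | F x ≤ 0})
    (r₁ r₂ a : ℝ) (h₁ : 0 ≤ r₁) (h₂ : 0 ≤ r₂) (ha : 0 < a) (c : V)
    (hc : ∀ x, dist x c < a → F x < 0)
    (hin : ∀ x, F x = 0 → ∀ y, F y = 0 → r₁ ≤ dist y (x - (r₁ / ‖gradient F x‖) • gradient F x))
    (hout : ∀ x, F x = 0 → ∀ y, F y = 0 → r₂ ≤ dist y (x + (r₂ / ‖gradient F x‖) • gradient F x))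
    (x : V) (hx : F x = 0) (hx0 : gradient F x ≠ 0) (l : ℝ) (hl : 0 ≤ l)
    (hxl : fderiv ℝ F x = -(l • innerSL ℝ (x - c))) :
    ∃ y z, F y = 0 ∧ F z = 0 ∧ 2 * (r₁ + r₂ + a) ≤ dist y z := by
  have hdiff : Differentiable ℝ F := hF.differentiable (by simp)
  -- the gradient
  have hgrad : gradient F x = -(l • (x - c)) := by
    apply (InnerProductSpace.toDual ℝ V).injective
    ext v
    rw [InnerProductSpace.toDual_apply_apply, InnerProductSpace.toDual_apply_apply,
      inner_gradient_left, hxl]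
    rw [inner_neg_left, real_inner_smul_left]
    rfl
  have hl0 : l ≠ 0 := by
    rintro rfl
    apply hx0
    rw [hgrad]; simp
  have hlpos : 0 < l := lt_of_le_of_ne hl (Ne.symm hl0)
  have hxc : x - c ≠ 0 := by
    intro h
    apply hx0
    rw [hgrad, h]; simp
  set s : ℝ := ‖x - c‖ with hsdef
  have hs : 0 < s := norm_pos_iff.2 hxc
  set ν : V := -(s⁻¹ • (x - c)) with hν
  have hνn : ‖ν‖ = 1 := by
    rw [hν, norm_neg, norm_smul, norm_inv, Real.norm_of_nonneg hs.le, ← hsdef,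
      inv_mul_cancel₀ hs.ne']
  have hgn : ‖gradient F x‖ = l * s := by
    rw [hgrad, norm_neg, norm_smul, Real.norm_of_nonneg hl]
  have hrν : ∀ r : ℝ, (r / ‖gradient F x‖) • gradient F x = r • ν := by
    intro r
    rw [hgn, hgrad, hν, smul_neg, smul_neg, smul_smul, smul_smul]
    congr 2
    field_simp
  have hcx : c = x + s • ν := by
    rw [hν, smul_neg, smul_smul, mul_inv_cancel₀ hs.ne', one_smul]
    abel
  -- the function on the line
  set g : ℝ → ℝ := fun t => F (x + t • ν) with hg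
  have hgc : Continuous g := hF.continuous.comp (by fun_prop)
  have hgd : HasDerivAt g (l * s) 0 := by
    have h1 : HasDerivAt (fun t : ℝ => x + t • ν) ν 0 := by
      have := ((hasDerivAt_id (0 : ℝ)).smul_const ν).const_add x
      simpa using this
    have h2 : HasFDerivAt F (fderiv ℝ F x) (x + (0 : ℝ) • ν) := by
      rw [zero_smul, add_zero]
      exact (hdiff x).hasFDerivAt
    have h3 := h2.comp_hasDerivAt (0 : ℝ) h1
    have h4 : fderiv ℝ F x ν = l * s := by
      rw [hxl, hν]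
      simp only [neg_apply, smul_apply, innerSL_apply_apply, inner_neg_right,
        real_inner_smul_right, real_inner_self_eq_norm_sq, smul_eq_mul, ← hsdef]
      field_simp
    rw [h4] at h3
    exact h3
  have hg0 : g 0 = 0 := by simp only [hg, zero_smul, add_zero]; exact hx
  have hgs : g s < 0 := by
    have := hc c (by rw [dist_self]; exact ha)
    rw [hcx] at this
    exact this
  obtain ⟨R, hR⟩ := hb.exists_norm_le
  have hbig : ∀ t : ℝ, R + ‖x‖ < |t| → 0 < g t := by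
    intro t ht
    by_contra hcon
    have h1 : ‖x + t • ν‖ ≤ R := hR _ (not_lt.1 hcon)
    have h2 : |t| ≤ ‖x + t • ν‖ + ‖x‖ := by
      have h3 : ‖t • ν‖ = |t| := by rw [norm_smul, hνn, mul_one, Real.norm_eq_abs]
      have h4 : t • ν = (x + t • ν) - x := by abel
      rw [← h3]
      conv_lhs => rw [h4]
      exact norm_sub_le _ _
    linarith
  set T : ℝ := s + |R| + ‖x‖ + 1 with hTdef
  have hTR : R + ‖x‖ < T := by
    have := le_abs_self R
    rw [hTdef]; linarith
  have hT0 : 0 < T := by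
    have := abs_nonneg R
    have := norm_nonneg x
    rw [hTdef]; linarith
  have hsT : s < T := by
    have := abs_nonneg R
    have := norm_nonneg x
    rw [hTdef]; linarith
  obtain ⟨u₁, u₂, u₃, hu1, hu1s, hu2, hu3, hz1, hz2, hz3⟩ :=
    thickr_zeros g hgc (l * s) hgd (mul_pos hlpos hs) hg0 s hs hgs T hsT
      (hbig T (by rw [abs_of_pos hT0]; exact hTR))
      (hbig (-T) (by rw [abs_neg, abs_of_pos hT0]; exact hTR))
  have hdist : ∀ t t' : ℝ, dist (x + t • ν) (x + t' • ν) = |t - t'| := by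
    intro t t'
    rw [dist_add_left, dist_eq_norm, ← sub_smul, norm_smul, hνn, mul_one, Real.norm_eq_abs]
  -- the four estimates
  have e1 : 2 * r₂ ≤ u₁ := by
    have h1 := hout x hx _ hz1
    rw [hrν, hdist] at h1
    rcases le_abs.1 h1 with h | h <;> linarith
  have e2 : a ≤ s - u₁ := by
    by_contra hcon
    have h1 := hc (x + u₁ • ν) (by
      rw [hcx, hdist, abs_sub_comm, abs_of_pos (by linarith)]
      linarith)
    have h2 : F (x + u₁ • ν) = 0 := hz1
    linarith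
  have e3 : 2 * r₁ ≤ u₂ := by
    have h1 := hin x hx _ hz2
    rw [hrν, sub_eq_add_neg, ← neg_smul, hdist] at h1
    rcases le_abs.1 h1 with h | h <;> linarith
  have e4 : a ≤ u₃ := by
    by_contra hcon
    have h1 := hc (x + (s + u₃) • ν) (by
      rw [hcx, hdist, add_sub_cancel_left, abs_of_pos hu3]
      linarith)
    have h2 : F (x + (s + u₃) • ν) = 0 := hz3
    linarith
  refine ⟨x + (-u₂) • ν, x + (s + u₃) • ν, hz2, hz3, ?_⟩
  rw [hdist, abs_sub_comm, abs_of_pos (by linarith)]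
  linarith

theorem thick_R (F : V → ℝ) (hF : ContDiff ℝ ∞ F) (hb : Bornology.IsBounded {x | F x ≤ 0})
    (hreg : ∀ x, F x = 0 → gradient F x ≠ 0)
    (r₁ r₂ a : ℝ) (h₁ : 0 ≤ r₁) (h₂ : 0 ≤ r₂) (ha : 0 < a) (c : V)
    (hc : ∀ x, dist x c < a → F x < 0)
    (hin : ∀ x, F x = 0 → ∀ y, F y = 0 → r₁ ≤ dist y (x - (r₁ / ‖gradient F x‖) • gradient F x))
    (hout : ∀ x, F x = 0 → ∀ y, F y = 0 → r₂ ≤ dist y (x + (r₂ / ‖gradient F x‖) • gradient F x))
    (hd : ∀ x, F x = 0 → ∀ y, F y = 0 → dist x y < 2 * (r₁ + r₂ + a)) :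
    Carries {x | F x = 0} (Metric.sphere (0 : V) 1) := by
  refine (ray_criterion F hF hb c (hc c (by simpa using ha)) ?_ 1 one_pos).trans
    (sphere_carries c 0 1 1 one_pos one_pos)
  intro x hx l hl h
  obtain ⟨y, z, hy, hz, hyz⟩ := line_argument F hF hb r₁ r₂ a h₁ h₂ ha c hc hin hout x hx
    (hreg x hx) l hl h
  exact absurd (hd y hy z hz) (not_lt.2 hyz)

end Pool.Schoen
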