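import Pool.Agent.H.MP_6c077c_gt.TubeDefs

/-! Metric geometry of the normal tube of a thick sphere. -/

set_option autoImplicit false

namespace Pool.Schoen

open scoped ContDiff RealInnerProductSpace
open Metric Set Real

variable {E E' : Type*} [NormedAddCommGroup E] [InnerProductSpace ℝ E] [FiniteDimensional ℝ E]
  [NormedAddCommGroup E'] [InnerProductSpace ℝ E'] [FiniteDimensional ℝ E']

theorem inner_tub {f ν : E → E'} {r₁ r₂ : ℝ} (h : Thick f ν r₁ r₂) {p : E}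
    (hp : p ∈ sphere (0 : E) 1) (u t : ℝ) : ⟪tub f ν p u, tub f ν p t⟫ = cos (u - t) := by
  have h1 : ⟪f p, f p⟫ = 1 := by rw [real_inner_self_eq_norm_sq, h.nf p hp, one_pow]
  have h2 : ⟪ν p, ν p⟫ = 1 := by rw [real_inner_self_eq_norm_sq, h.nν p hp, one_pow]
  have h3 : ⟪f p, ν p⟫ = 0 := h.orth p hp
  have h4 : ⟪ν p, f p⟫ = 0 := by rw [real_inner_comm]; exact h3
  unfold tub
  simp only [inner_add_left, inner_add_right, real_inner_smul_left, real_inner_smul_right, h1, h2,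
    h3, h4]
  rw [cos_sub]
  ring

theorem norm_tub {f ν : E → E'} {r₁ r₂ : ℝ} (h : Thick f ν r₁ r₂) {p : E}
    (hp : p ∈ sphere (0 : E) 1) (u : ℝ) : ‖tub f ν p u‖ = 1 := by
  have h1 := inner_tub h hp u u
  rw [sub_self, cos_zero, real_inner_self_eq_norm_sq] at h1
  nlinarith [norm_nonneg (tub f ν p u)]

theorem continuousOn_tub {f ν : E → E'} {r₁ r₂ : ℝ} (h : Thick f ν r₁ r₂) :
    ContinuousOn (fun z : E × ℝ => tub f ν z.1 z.2) (sphere (0 : E) 1 ×ˢ univ) := by
  unfold tub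
  have h1 : ContinuousOn (fun z : E × ℝ => f z.1) (sphere (0 : E) 1 ×ˢ univ) :=
    h.cf.comp continuous_fst.continuousOn fun z hz => hz.1
  have h2 : ContinuousOn (fun z : E × ℝ => ν z.1) (sphere (0 : E) 1 ×ˢ univ) :=
    h.cν.comp continuous_fst.continuousOn fun z hz => hz.1
  have h3 : Continuous fun z : E × ℝ => cos z.2 := continuous_cos.comp continuous_snd
  have h4 : Continuous fun z : E × ℝ => sin z.2 := continuous_sin.comp continuous_snd
  exact (h3.continuousOn.smul h1).add (h4.continuousOn.smul h2)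

theorem tube_zero (f ν : E → E') (p : E) : tub f ν p 0 = f p := by
  unfold tub
  simp

theorem tube_inner_f {f ν : E → E'} {r₁ r₂ : ℝ} (h : Thick f ν r₁ r₂) {p : E}
    (hp : p ∈ sphere (0 : E) 1) (u : ℝ) : ⟪tub f ν p u, f p⟫ = cos u := by
  have h1 := inner_tub h hp u 0
  rwa [tube_zero, sub_zero] at h1

theorem tube_inner_nu {f ν : E → E'} {r₁ r₂ : ℝ} (h : Thick f ν r₁ r₂) {p : E}
    (hp : p ∈ sphere (0 : E) 1) (u : ℝ) : ⟪tub f ν p u, ν p⟫ = sin u := by
  have h1 := inner_tub h hp u (π / 2)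
  have h2 : tub f ν p (π / 2) = ν p := by
    unfold tub
    simp
  rw [h2, cos_sub, cos_pi_div_two, sin_pi_div_two] at h1
  rw [h1]
  ring

/-- Inside the tube `f p` is the unique nearest point. -/
theorem tub_lt {f ν : E → E'} {r₁ r₂ : ℝ} (h : Thick f ν r₁ r₂) {p q : E}
    (hp : p ∈ sphere (0 : E) 1) (hq : q ∈ sphere (0 : E) 1) (hpq : p ≠ q) {u : ℝ}
    (hu : u ∈ Ioo (-r₁) r₂) : ⟪tub f ν p u, f q⟫ < cos u := by
  have hlt : ⟪f p, f q⟫ < 1 := by
    rw [inner_lt_one_iff_real_of_norm_eq_one (h.nf p hp) (h.nf q hq)]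
    exact fun he => hpq (h.inj hp hq he)
  have hπ := pi_pos
  rcases lt_trichotomy u 0 with h0 | h0 | h0
  · have hid : sin r₁ • tub f ν p u = sin (r₁ + u) • f p + sin (-u) • tub f ν p (-r₁) := by
      unfold tub
      rw [smul_add, smul_smul, smul_smul, smul_add, smul_smul, smul_smul, ← add_assoc,
        ← add_smul]
      congr 2
      · rw [sin_add, sin_neg, cos_neg]
        ring
      · rw [sin_neg, sin_neg]
        ring
    have h1 := congrArg (fun w => ⟪w, f q⟫) hid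
    simp only [inner_add_left, real_inner_smul_left] at h1
    have hs1 : 0 < sin r₁ := sin_pos_of_pos_of_lt_pi h.pos₁ (by linarith [h.lt₁])
    have hs2 : 0 < sin (r₁ + u) := sin_pos_of_pos_of_lt_pi (by linarith [hu.1])
      (by linarith [h.lt₁])
    have hs3 : 0 < sin (-u) := sin_pos_of_pos_of_lt_pi (by linarith)
      (by linarith [hu.1, h.lt₁])
    have hb := h.ball₁ p hp q hq
    rw [real_inner_comm] at hb
    have h2 : sin r₁ * cos u = sin (r₁ + u) + sin (-u) * cos r₁ := by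
      rw [sin_add, sin_neg]
      ring
    have h3 : sin r₁ * ⟪tub f ν p u, f q⟫ < sin r₁ * cos u := by
      rw [h1, h2]
      have h4 : sin (r₁ + u) * ⟪f p, f q⟫ < sin (r₁ + u) * 1 :=
        mul_lt_mul_of_pos_left hlt hs2
      have h5 : sin (-u) * ⟪tub f ν p (-r₁), f q⟫ ≤ sin (-u) * cos r₁ :=
        mul_le_mul_of_nonneg_left hb hs3.le
      linarith
    exact lt_of_mul_lt_mul_left h3 hs1.le
  · subst h0
    rw [tube_zero, cos_zero]
    exact hlt
  · have hid : sin r₂ • tub f ν p u = sin (r₂ - u) • f p + sin u • tub f ν p r₂ := by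
      unfold tub
      rw [smul_add, smul_smul, smul_smul, smul_add, smul_smul, smul_smul, ← add_assoc,
        ← add_smul]
      congr 2
      · rw [sin_sub]
        ring
      · ring
    have h1 := congrArg (fun w => ⟪w, f q⟫) hid
    simp only [inner_add_left, real_inner_smul_left] at h1
    have hs1 : 0 < sin r₂ := sin_pos_of_pos_of_lt_pi h.pos₂ (by linarith [h.lt₂])
    have hs2 : 0 < sin (r₂ - u) := sin_pos_of_pos_of_lt_pi (by linarith [hu.2])
      (by linarith [h.lt₂])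
    have hs3 : 0 < sin u := sin_pos_of_pos_of_lt_pi h0 (by linarith [hu.2, h.lt₂])
    have hb := h.ball₂ p hp q hq
    rw [real_inner_comm] at hb
    have h2 : sin r₂ * cos u = sin (r₂ - u) + sin u * cos r₂ := by
      rw [sin_sub]
      ring
    have h3 : sin r₂ * ⟪tub f ν p u, f q⟫ < sin r₂ * cos u := by
      rw [h1, h2]
      have h4 : sin (r₂ - u) * ⟪f p, f q⟫ < sin (r₂ - u) * 1 :=
        mul_lt_mul_of_pos_left hlt hs2
      have h5 : sin u * ⟪tub f ν p r₂, f q⟫ ≤ sin u * cos r₂ :=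
        mul_le_mul_of_nonneg_left hb hs3.le
      linarith
    exact lt_of_mul_lt_mul_left h3 hs1.le

theorem tube_angle {f ν : E → E'} {r₁ r₂ : ℝ} (h : Thick f ν r₁ r₂) {p : E}
    (hp : p ∈ sphere (0 : E) 1) {u t : ℝ} (hu : |u| < π / 2) (ht : |t| ≤ π)
    (he : tub f ν p u = tub f ν p t) : u = t := by
  have hc : cos u = cos t := by
    rw [← tube_inner_f h hp u, ← tube_inner_f h hp t, he]
  have hs : sin u = sin t := by
    rw [← tube_inner_nu h hp u, ← tube_inner_nu h hp t, he]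
  rw [abs_lt] at hu
  rw [abs_le] at ht
  have hcu : 0 < cos u := cos_pos_of_mem_Ioo ⟨hu.1, hu.2⟩
  have ht' : t ∈ Ioo (-(π / 2)) (π / 2) := by
    constructor
    · by_contra hcon
      push Not at hcon
      have h1 : cos (-t) ≤ 0 :=
        cos_nonpos_of_pi_div_two_le_of_le (by linarith) (by linarith [ht.1, pi_pos])
      rw [cos_neg] at h1
      linarith
    · by_contra hcon
      push Not at hcon
      have h1 : cos t ≤ 0 :=
        cos_nonpos_of_pi_div_two_le_of_le hcon (by linarith [ht.2, pi_pos])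
      linarith
  exact injOn_sin ⟨hu.1.le, hu.2.le⟩ ⟨ht'.1.le, ht'.2.le⟩ hs

theorem tube_abs {f ν : E → E'} {r₁ r₂ : ℝ} (h : Thick f ν r₁ r₂) {u : ℝ}
    (hu : u ∈ Ioo (-r₁) r₂) : |u| < π / 2 := by
  rw [abs_lt]
  exact ⟨by linarith [hu.1, h.lt₁], by linarith [hu.2, h.lt₂]⟩

theorem tub_inj {f ν : E → E'} {r₁ r₂ : ℝ} (h : Thick f ν r₁ r₂) {p q : E}
    (hp : p ∈ sphere (0 : E) 1) (hq : q ∈ sphere (0 : E) 1) {u t : ℝ}
    (hu : u ∈ Ioo (-r₁) r₂) (ht : t ∈ Ioo (-r₁) r₂) (he : tub f ν p u = tub f ν q t) :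
    p = q ∧ u = t := by
  have hpq : p = q := by
    by_contra hpq
    have h1 := tub_lt h hp hq hpq hu
    have h2 := tub_lt h hq hp (Ne.symm hpq) ht
    rw [he, tube_inner_f h hq] at h1
    rw [← he, tube_inner_f h hp] at h2
    linarith
  subst hpq
  exact ⟨rfl, tube_angle h hp (tube_abs h hu)
    (by have := tube_abs h ht; have := pi_pos; linarith) he⟩

/-- Every point of the sphere is joined to a nearest point of `f` by a normal arc. -/
theorem exists_foot {f ν : E → E'} {r₁ r₂ : ℝ} (h : Thick f ν r₁ r₂) (hE : Nontrivial E) {w : E'}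
    (hw : ‖w‖ = 1) : ∃ p ∈ sphere (0 : E) 1, ∃ u : ℝ, |u| ≤ π ∧ w = tub f ν p u ∧
      ∀ q ∈ sphere (0 : E) 1, ⟪w, f q⟫ ≤ cos u := by
  have hne : (sphere (0 : E) 1).Nonempty := NormedSpace.sphere_nonempty.mpr zero_le_one
  have hc : ContinuousOn (fun q => ⟪w, f q⟫) (sphere (0 : E) 1) :=
    continuousOn_const.inner h.cf
  obtain ⟨p, hp, hmax⟩ := (isCompact_sphere (0 : E) 1).exists_isMaxOn hne hc
  have hmax' : ∀ q ∈ sphere (0 : E) 1, ⟪w, f q⟫ ≤ ⟪w, f p⟫ := fun q hq => hmax hq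
  obtain ⟨u, hu, hwu⟩ := h.crit w hw p hp hmax'
  refine ⟨p, hp, u, hu, hwu, fun q hq => ?_⟩
  have h1 := hmax' q hq
  have h2 : ⟪w, f p⟫ = cos u := by rw [hwu, tube_inner_f h hp]
  rwa [h2] at h1

/-- The open tube is open in the sphere. -/
theorem isOpen_tube {f ν : E → E'} {r₁ r₂ : ℝ} (h : Thick f ν r₁ r₂) (hE : Nontrivial E) {α β : ℝ}
    (hα : 0 < α) (hα' : α < r₁) (hβ : 0 < β) (hβ' : β < r₂) :
    ∃ O : Set E', IsOpen O ∧ ∀ w ∈ sphere (0 : E') 1,
      (w ∈ O ↔ ∃ p ∈ sphere (0 : E) 1, ∃ u ∈ Ioo (-α) β, w = tub f ν p u) := by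
  let g : E × ℝ → E' := fun z => tub f ν z.1 z.2
  let S₀ : Set (E × ℝ) := sphere (0 : E) 1 ×ˢ (Icc (-π) π ∩ (Ioo (-α) β)ᶜ)
  have hS₀ : IsCompact S₀ :=
    (isCompact_sphere (0 : E) 1).prod (isCompact_Icc.inter_right isOpen_Ioo.isClosed_compl)
  have hgS : ContinuousOn g S₀ := (continuousOn_tub h).mono fun z hz => ⟨hz.1, mem_univ _⟩
  let K : Set (E × ℝ) := S₀ ∩ ⋂ q ∈ sphere (0 : E) 1,
    (S₀ ∩ (fun z : E × ℝ => cos z.2 - ⟪g z, f q⟫) ⁻¹' Ici 0)
  have hK : IsCompact K := by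
    refine hS₀.inter_right (isClosed_biInter fun q _ => ?_)
    refine ContinuousOn.preimage_isClosed_of_isClosed ?_ hS₀.isClosed isClosed_Ici
    exact (continuous_cos.comp continuous_snd).continuousOn.sub (hgS.inner continuousOn_const)
  have hKI : IsCompact (g '' K) := hK.image_of_continuousOn (hgS.mono inter_subset_left)
  refine ⟨(g '' K)ᶜ, hKI.isClosed.isOpen_compl, fun w hw => ?_⟩
  have hwn : ‖w‖ = 1 := by simpa using hw
  constructor
  · intro hwO
    obtain ⟨p, hp, u, hu, hwu, hq⟩ := exists_foot h hE hwn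
    by_contra hcon
    apply hwO
    have huI : u ∉ Ioo (-α) β := fun hI => hcon ⟨p, hp, u, hI, hwu⟩
    have hmem : (p, u) ∈ S₀ := ⟨hp, ⟨by rw [abs_le] at hu; exact hu.1,
      by rw [abs_le] at hu; exact hu.2⟩, huI⟩
    refine ⟨(p, u), ⟨hmem, ?_⟩, hwu.symm⟩
    simp only [mem_iInter]
    intro q hqs
    refine ⟨hmem, ?_⟩
    have h1 := hq q hqs
    simp only [mem_preimage, mem_Ici]
    have h2 : g (p, u) = w := hwu.symm
    rw [h2]
    linarith
  · rintro ⟨p₀, hp₀, u₀, hu₀, hw₀⟩ ⟨⟨p, u⟩, ⟨hmem, hall⟩, hgw⟩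
    have hu₀' : u₀ ∈ Ioo (-r₁) r₂ := ⟨by linarith [hu₀.1], by linarith [hu₀.2]⟩
    have hp : p ∈ sphere (0 : E) 1 := hmem.1
    have hgw' : tub f ν p u = w := hgw
    simp only [mem_iInter] at hall
    have h1 := (hall p₀ hp₀).2
    simp only [mem_preimage, mem_Ici] at h1
    rw [hgw, hw₀, tube_inner_f h hp₀] at h1
    have hpp : p₀ = p := by
      by_contra hne
      have h2 := tub_lt h hp₀ hp hne hu₀'
      rw [← hw₀, ← hgw', tube_inner_f h hp] at h2
      linarith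
    subst hpp
    have hupi : |u| ≤ π := by
      rw [abs_le]
      exact ⟨hmem.2.1.1, hmem.2.1.2⟩
    have h3 : u₀ = u := tube_angle h hp₀ (tube_abs h hu₀') hupi (by rw [hgw', hw₀])
    exact hmem.2.2 (h3 ▸ hu₀)

end Pool.Schoen
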