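import Mathlib

/-!
Thick spheres in the unit sphere: common definitions.  `f` and `ν` are maps between the ambient
spaces; only their values on the unit sphere matter in `Thick`, while `SThick` asks that they are
smooth and positively homogeneous of degree one away from the origin.
-/

set_option autoImplicit false

namespace Pool.Schoen

open scoped ContDiff RealInnerProductSpace
open Metric Set Real

variable {E E' : Type*} [NormedAddCommGroup E] [InnerProductSpace ℝ E]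
  [NormedAddCommGroup E'] [InnerProductSpace ℝ E']

/-- The normal great circle through `f p` with direction `ν p`. -/
noncomputable def tub (f ν : E → E') (p : E) (u : ℝ) : E' := cos u • f p + sin u • ν p

/-- Continuous data of a thick sphere: `r₁`, `r₂` are the radii of the empty tangent balls on the
side of `-ν` and of `ν`. -/
structure Thick (f ν : E → E') (r₁ r₂ : ℝ) : Prop where
  cf : ContinuousOn f (sphere 0 1)
  cν : ContinuousOn ν (sphere 0 1)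
  nf : ∀ p ∈ sphere (0 : E) 1, ‖f p‖ = 1
  nν : ∀ p ∈ sphere (0 : E) 1, ‖ν p‖ = 1
  orth : ∀ p ∈ sphere (0 : E) 1, ⟪f p, ν p⟫ = 0
  inj : InjOn f (sphere 0 1)
  crit : ∀ w : E', ‖w‖ = 1 → ∀ p ∈ sphere (0 : E) 1, (∀ q ∈ sphere (0 : E) 1, ⟪w, f q⟫ ≤ ⟪w, f p⟫) →
    ∃ u : ℝ, |u| ≤ π ∧ w = tub f ν p u
  pos₁ : 0 < r₁
  pos₂ : 0 < r₂
  lt₁ : r₁ < π / 2
  lt₂ : r₂ < π / 2
  ball₁ : ∀ p ∈ sphere (0 : E) 1, ∀ q ∈ sphere (0 : E) 1, ⟪f q, tub f ν p (-r₁)⟫ ≤ cos r₁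
  ball₂ : ∀ p ∈ sphere (0 : E) 1, ∀ q ∈ sphere (0 : E) 1, ⟪f q, tub f ν p r₂⟫ ≤ cos r₂

/-- Smooth data of a thick sphere. -/
structure SThick (f ν : E → E') (r₁ r₂ : ℝ) : Prop where
  sf : ContDiffOn ℝ ∞ f {0}ᶜ
  sν : ContDiffOn ℝ ∞ ν {0}ᶜ
  hf : ∀ t : ℝ, 0 < t → ∀ x : E, x ≠ 0 → f (t • x) = t • f x
  hν : ∀ t : ℝ, 0 < t → ∀ x : E, x ≠ 0 → ν (t • x) = t • ν x
  nf : ∀ p ∈ sphere (0 : E) 1, ‖f p‖ = 1
  nν : ∀ p ∈ sphere (0 : E) 1, ‖ν p‖ = 1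
  imm : ∀ p ∈ sphere (0 : E) 1, Function.Injective (fderiv ℝ f p)
  orth : ∀ p ∈ sphere (0 : E) 1, ∀ v : E, ⟪fderiv ℝ f p v, ν p⟫ = 0
  inj : InjOn f (sphere 0 1)
  pos₁ : 0 < r₁
  pos₂ : 0 < r₂
  lt₁ : r₁ < π / 2
  lt₂ : r₂ < π / 2
  ball₁ : ∀ p ∈ sphere (0 : E) 1, ∀ q ∈ sphere (0 : E) 1, ⟪f q, tub f ν p (-r₁)⟫ ≤ cos r₁
  ball₂ : ∀ p ∈ sphere (0 : E) 1, ∀ q ∈ sphere (0 : E) 1, ⟪f q, tub f ν p r₂⟫ ≤ cos r₂

/-- `F` is the signed distance function of the thick sphere, truncated to `[-α, β]`. -/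
structure Side (f ν : E → E') (α β : ℝ) (F : E' → ℝ) : Prop where
  cont : ContinuousOn F (sphere 0 1)
  tube : ∀ p ∈ sphere (0 : E) 1, ∀ u ∈ Icc (-α) β, F (tub f ν p u) = u
  off : ∀ w ∈ sphere (0 : E') 1, (∀ p ∈ sphere (0 : E) 1, ∀ u ∈ Ioo (-α) β, w ≠ tub f ν p u) →
    F w = -α ∨ F w = β

end Pool.Schoen
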